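import Mathlib

namespace Pool.Agent.H8.AL
open Finset

variable {𝒜 : Type*} [CStarAlgebra 𝒜] [PartialOrder 𝒜] [StarOrderedRing 𝒜]

/-- real functional calculus -/
noncomputable def F (P : 𝒜) (f : ℝ → ℝ) : 𝒜 := cfc f P

theorem Fmul (P : 𝒜) {f g : ℝ → ℝ} (hf : Continuous f) (hg : Continuous g) :
    F P f * F P g = F P (fun t => f t * g t) :=
  (cfc_mul f g P hf.continuousOn hg.continuousOn).symm

theorem Fcongr {P : 𝒜} {f g : ℝ → ℝ} (h : ∀ t ∈ spectrum ℝ P, f t = g t) : F P f = F P g :=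
  cfc_congr h

theorem Fsa (P : 𝒜) (f : ℝ → ℝ) : IsSelfAdjoint (F P f) := cfc_predicate f P

theorem Fid {P : 𝒜} (hP : 0 ≤ P) : F P (fun t => t) = P := cfc_id' ℝ P hP.isSelfAdjoint

theorem Fnorm (P : 𝒜) {f : ℝ → ℝ} {c : ℝ} (hc : 0 ≤ c) (h : ∀ t ∈ spectrum ℝ P, |f t| ≤ c) :
    ‖F P f‖ ≤ c := norm_cfc_le hc h

theorem Fle (P : 𝒜) {f g : ℝ → ℝ} (hf : Continuous f) (hg : Continuous g)
    (h : ∀ t ∈ spectrum ℝ P, f t ≤ g t) : F P f ≤ F P g :=
  cfc_mono h hf.continuousOn hg.continuousOn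

theorem Fadd (P : 𝒜) {f g : ℝ → ℝ} (hf : Continuous f) (hg : Continuous g) :
    F P f + F P g = F P (fun t => f t + g t) :=
  (cfc_add P f g hf.continuousOn hg.continuousOn).symm

theorem Fsub (P : 𝒜) {f g : ℝ → ℝ} (hf : Continuous f) (hg : Continuous g) :
    F P f - F P g = F P (fun t => f t - g t) :=
  (cfc_sub f g P hf.continuousOn hg.continuousOn).symm

theorem Fsmul (P : 𝒜) (r : ℝ) {f : ℝ → ℝ} (hf : Continuous f) :
    r • F P f = F P (fun t => r * f t) :=
  (cfc_const_mul r f P hf.continuousOn).symm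

theorem Fconst {P : 𝒜} (hP : 0 ≤ P) (r : ℝ) : F P (fun _ => r) = algebraMap ℝ 𝒜 r :=
  cfc_const r P hP.isSelfAdjoint

theorem Fcomm (P : 𝒜) {f g : ℝ → ℝ} (hf : Continuous f) (hg : Continuous g) :
    F P f * F P g = F P g * F P f := by
  rw [Fmul P hf hg, Fmul P hg hf]; exact Fcongr (fun t _ => mul_comm _ _)

theorem crp {y : ℝ} (hy : 0 ≤ y) : Continuous (fun t : ℝ => t ^ y) := Real.continuous_rpow_const hy

theorem sp0 {P : 𝒜} (hP : 0 ≤ P) {t : ℝ} (ht : t ∈ spectrum ℝ P) : 0 ≤ t :=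
  spectrum_nonneg_of_nonneg hP ht

theorem est {P : 𝒜} (hP : 0 ≤ P) (V : 𝒜) {φ ψ : ℝ → ℝ} (hφ : Continuous φ) (hψ : Continuous ψ)
    {b c : ℝ} (hb : 0 ≤ b) (hbc : b < c) (h1 : ∀ t ∈ spectrum ℝ P, b < t → φ t = 0)
    (h2 : ∀ t ∈ spectrum ℝ P, t < c → ψ t = 0) {μ : ℝ} (hμ : 0 < μ) (hμ1 : μ < 1) :
    ‖F P (fun t => t ^ μ) * (F P φ * V * F P ψ) * F P (fun t => t ^ (1 - μ))‖
      ≤ (b / c) ^ μ * ‖F P φ * V * F P ψ * P‖ := by
  have hc : 0 < c := lt_of_le_of_lt hb hbc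
  have c1 : Continuous (fun t : ℝ => (min t b) ^ μ) :=
    (crp hμ.le).comp (continuous_id.min continuous_const)
  have c2 : Continuous (fun t : ℝ => ((max t c) ^ μ)⁻¹) := by
    refine Continuous.inv₀ ((crp hμ.le).comp (continuous_id.max continuous_const)) (fun t => ?_)
    exact (Real.rpow_pos_of_pos (lt_of_lt_of_le hc (le_max_right _ _)) _).ne'
  have e1 : F P (fun t => t ^ μ) * F P φ = F P (fun t => (min t b) ^ μ) * F P φ := by
    rw [Fmul P (crp hμ.le) hφ, Fmul P c1 hφ]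
    refine Fcongr (fun t ht => ?_)
    by_cases h : b < t
    · simp [h1 t ht h]
    · rw [min_eq_left (not_lt.mp h)]
  have e2 : F P ψ * F P (fun t => t ^ (1 - μ)) = F P ψ * P * F P (fun t => ((max t c) ^ μ)⁻¹) := by
    have : F P ψ * P = F P ψ * F P (fun t => t) := by rw [Fid hP]
    rw [this, Fmul P hψ (crp (by linarith)), Fmul P hψ continuous_id', Fmul P (f := fun t => ψ t * t) (hψ.mul continuous_id') c2]
    refine Fcongr (fun t ht => ?_)
    by_cases h : t < c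
    · simp [h2 t ht h]
    · have ht0 : 0 < t := lt_of_lt_of_le hc (not_lt.mp h)
      rw [max_eq_left (not_lt.mp h), Real.rpow_sub ht0, Real.rpow_one, mul_assoc, div_eq_mul_inv]
  have e3 : F P (fun t => t ^ μ) * (F P φ * V * F P ψ) * F P (fun t => t ^ (1 - μ))
      = F P (fun t => (min t b) ^ μ) * (F P φ * V * F P ψ * P) * F P (fun t => ((max t c) ^ μ)⁻¹) := by
    calc _ = (F P (fun t => t ^ μ) * F P φ) * V * (F P ψ * F P (fun t => t ^ (1 - μ))) := by
          simp only [mul_assoc]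
      _ = _ := by rw [e1, e2]; simp only [mul_assoc]
  have n1 : ‖F P (fun t => (min t b) ^ μ)‖ ≤ b ^ μ := by
    refine Fnorm P (Real.rpow_nonneg hb _) (fun t ht => ?_)
    have h0 : 0 ≤ min t b := le_min (sp0 hP ht) hb
    rw [abs_of_nonneg (Real.rpow_nonneg h0 _)]
    exact Real.rpow_le_rpow h0 (min_le_right _ _) hμ.le
  have n2 : ‖F P (fun t => ((max t c) ^ μ)⁻¹)‖ ≤ (c ^ μ)⁻¹ := by
    refine Fnorm P (inv_nonneg.mpr (Real.rpow_nonneg hc.le _)) (fun t ht => ?_)
    have h0 : 0 < max t c := lt_of_lt_of_le hc (le_max_right _ _)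
    rw [abs_of_nonneg (inv_nonneg.mpr (Real.rpow_nonneg h0.le _))]
    exact inv_anti₀ (Real.rpow_pos_of_pos hc _) (Real.rpow_le_rpow hc.le (le_max_right _ _) hμ.le)
  rw [e3, Real.div_rpow hb hc.le]
  have hbμ := Real.rpow_nonneg hb μ
  calc _ ≤ ‖F P (fun t => (min t b) ^ μ)‖ * ‖F P φ * V * F P ψ * P‖ * ‖F P (fun t => ((max t c) ^ μ)⁻¹)‖ :=
        (norm_mul_le _ _).trans (by gcongr; exact norm_mul_le _ _)
    _ ≤ b ^ μ * ‖F P φ * V * F P ψ * P‖ * (c ^ μ)⁻¹ := by gcongr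
    _ = _ := by ring

theorem divP {P : 𝒜} (hP : 0 ≤ P) {ψ : ℝ → ℝ} (hψ : Continuous ψ) {c : ℝ} (hc : 0 < c)
    (h2 : ∀ t ∈ spectrum ℝ P, t < c → ψ t = 0) :
    ∃ K : 𝒜, F P ψ = F P ψ * P * K ∧ F P ψ = P * (F P ψ * K) := by
  have c2 : Continuous (fun t : ℝ => (max t c)⁻¹) :=
    Continuous.inv₀ (continuous_id.max continuous_const)
      (fun t => (lt_of_lt_of_le hc (le_max_right _ _)).ne')
  have e : F P ψ = F P ψ * P * F P (fun t => (max t c)⁻¹) := by
    have : F P ψ * P = F P ψ * F P (fun t => t) := by rw [Fid hP]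
    rw [this, Fmul P hψ continuous_id', Fmul P (f := fun t => ψ t * t) (hψ.mul continuous_id') c2]
    refine Fcongr (fun t ht => ?_)
    by_cases h : t < c
    · simp [h2 t ht h]
    · have ht0 : 0 < t := lt_of_lt_of_le hc (not_lt.mp h)
      rw [max_eq_left (not_lt.mp h)]; field_simp
  refine ⟨_, e, ?_⟩
  have : F P ψ * P = P * F P ψ := by
    have := Fcomm P hψ continuous_id'
    rwa [Fid hP] at this
  rw [← mul_assoc, ← this]; exact e

section main
variable {P V : 𝒜} {l : ℝ} (hP : 0 ≤ P) (hl : 0 < l) (hl1 : l ≤ 1 / 2)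
  (hE : F P (fun t => t ^ l) * V * F P (fun t => t ^ (1 - l))
    + F P (fun t => t ^ (1 - l)) * V * F P (fun t => t ^ (1 - (1 - l))) = (2 : ℝ) • (V * P))
  (hV : ‖V‖ ≤ 1) (hVP : star V * V * P = P)
include hP hl hl1 hE

theorem sep {φ ψ : ℝ → ℝ} (hφ : Continuous φ) (hψ : Continuous ψ)
    {b c : ℝ} (hb : 0 ≤ b) (hbc : b < c) (h1 : ∀ t ∈ spectrum ℝ P, b < t → φ t = 0)
    (h2 : ∀ t ∈ spectrum ℝ P, t < c → ψ t = 0) : F P φ * V * F P ψ = 0 := by
  have hc : 0 < c := lt_of_le_of_lt hb hbc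
  have a1 := est hP V hφ hψ hb hbc h1 h2 hl (by linarith)
  have a2 := est hP V hφ hψ hb hbc h1 h2 (μ := 1 - l) (by linarith) (by linarith)
  have conj : ∀ {f g : ℝ → ℝ}, Continuous f → Continuous g →
      F P f * (F P φ * V * F P ψ) * F P g = F P φ * (F P f * V * F P g) * F P ψ := by
    intro f g hf hg
    calc _ = (F P f * F P φ) * V * (F P ψ * F P g) := by simp only [mul_assoc]
      _ = _ := by rw [Fcomm P hf hφ, Fcomm P hψ hg]; simp only [mul_assoc]
  have e : F P (fun t => t ^ l) * (F P φ * V * F P ψ) * F P (fun t => t ^ (1 - l))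
      + F P (fun t => t ^ (1 - l)) * (F P φ * V * F P ψ) * F P (fun t => t ^ (1 - (1 - l)))
      = (2 : ℝ) • (F P φ * V * F P ψ * P) := by
    rw [conj (crp hl.le) (crp (by linarith)), conj (crp (by linarith)) (crp (by linarith)),
      ← add_mul, ← mul_add, hE]
    have : F P ψ * P = P * F P ψ := by
      have := Fcomm P hψ continuous_id'
      rwa [Fid hP] at this
    simp only [mul_smul_comm, smul_mul_assoc, mul_assoc, this]
  have n := congrArg norm e
  rw [norm_smul, Real.norm_two] at n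
  have hq : b / c < 1 := (div_lt_one hc).mpr hbc
  have hq0 : 0 ≤ b / c := div_nonneg hb hc.le
  have r1 := Real.rpow_lt_one hq0 hq hl
  have r2 := Real.rpow_lt_one hq0 hq (show 0 < 1 - l by linarith)
  have n2 := norm_add_le (F P (fun t => t ^ l) * (F P φ * V * F P ψ) * F P (fun t => t ^ (1 - l)))
    (F P (fun t => t ^ (1 - l)) * (F P φ * V * F P ψ) * F P (fun t => t ^ (1 - (1 - l))))
  have z : ‖F P φ * V * F P ψ * P‖ = 0 := by
    by_contra hne
    have hpos : 0 < ‖F P φ * V * F P ψ * P‖ := lt_of_le_of_ne (norm_nonneg _) (Ne.symm hne)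
    nlinarith
  rw [norm_eq_zero] at z
  obtain ⟨K, hK, _⟩ := divP hP hψ hc h2
  rw [hK, ← mul_assoc, ← mul_assoc, z, zero_mul]

include hV hVP

theorem ramp {φ ψ : ℝ → ℝ} (hφ : Continuous φ) (hψ : Continuous ψ) (hψ1 : ∀ t, |ψ t| ≤ 1)
    {b c : ℝ} (hb : 0 ≤ b) (hbc : b < c) (h1 : ∀ t ∈ spectrum ℝ P, b < t → φ t = 1)
    (h2 : ∀ t ∈ spectrum ℝ P, t < c → ψ t = 0) :
    F P (fun t => ψ t * ψ t) ≤ star V * F P (fun t => φ t * φ t) * V := by
  have hc : 0 < c := lt_of_le_of_lt hb hbc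
  have s := sep hP hl hl1 hE (φ := fun t => 1 - φ t) (continuous_const.sub hφ) hψ hb hbc
    (fun t ht h => by simp [h1 t ht h]) h2
  rw [← Fsub P continuous_const hφ, Fconst hP, map_one, sub_mul, sub_mul, one_mul, sub_eq_zero] at s
  obtain ⟨K, _, hK⟩ := divP hP hψ hc h2
  have e1 : star V * V * F P ψ = F P ψ := by
    rw [hK, ← mul_assoc, hVP]
  have e2 : F P ψ = star (F P φ * V) * (V * F P ψ) := by
    rw [star_mul, (Fsa P φ).star_eq, mul_assoc, ← mul_assoc (F P φ), ← s, ← mul_assoc, e1]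
  have e3 : F P ψ = (F P ψ * star V) * (F P φ * V) := by
    have := congrArg star e2
    rwa [star_mul, star_star, star_mul, (Fsa P ψ).star_eq] at this
  have nψ : ‖F P ψ‖ ≤ 1 := Fnorm P zero_le_one (fun t _ => hψ1 t)
  have e4 : F P ψ * F P ψ = star (F P φ * V) * ((V * F P ψ) * star (V * F P ψ)) * (F P φ * V) := by
    rw [star_mul V, (Fsa P ψ).star_eq]
    calc F P ψ * F P ψ = (star (F P φ * V) * (V * F P ψ)) * ((F P ψ * star V) * (F P φ * V)) := by
          rw [← e2, ← e3]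
      _ = _ := by simp only [mul_assoc]
  have e5 : star V * F P (fun t => φ t * φ t) * V = star (F P φ * V) * 1 * (F P φ * V) := by
    rw [← Fmul P hφ hφ, star_mul, (Fsa P φ).star_eq]; simp only [mul_assoc, one_mul]
  rw [← Fmul P hψ hψ, e4, e5]
  refine star_left_conjugate_le_conjugate ?_ _
  rw [← CStarAlgebra.norm_le_one_iff_of_nonneg _ (mul_star_self_nonneg _), CStarRing.norm_self_mul_star]
  have : ‖V * F P ψ‖ ≤ 1 := (norm_mul_le _ _).trans (by nlinarith [norm_nonneg V, norm_nonneg (F P ψ)])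
  nlinarith [norm_nonneg (V * F P ψ)]

end main

/-- clamp to the unit interval -/
def cl (x : ℝ) : ℝ := max 0 (min 1 x)

theorem cl_cont : Continuous cl := continuous_const.max (continuous_const.min continuous_id)
theorem cl0 (x : ℝ) : 0 ≤ cl x := le_max_left _ _
theorem cl1 (x : ℝ) : cl x ≤ 1 := max_le zero_le_one (min_le_left _ _)
theorem cl_one {x : ℝ} (h : 1 ≤ x) : cl x = 1 := by unfold cl; rw [min_eq_left h]; simp
theorem cl_zero {x : ℝ} (h : x ≤ 0) : cl x = 0 := max_eq_left ((min_le_right _ _).trans h)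

theorem cl_low (x : ℝ) (N : ℕ) :
    min (x - 3) N ≤ ∑ k ∈ range N, cl (x - k - 2) * cl (x - k - 2) := by
  induction N with
  | zero => simp
  | succ N ih =>
    rw [sum_range_succ]
    by_cases h : 1 ≤ x - N - 2
    · rw [cl_one h]
      push_cast
      rcases le_total (x - 3) N with h1 | h1
      · rw [min_eq_left h1] at ih; linarith [min_le_left (x - 3) ((N : ℝ) + 1)]
      · rw [min_eq_right h1] at ih; linarith [min_le_right (x - 3) ((N : ℝ) + 1)]
    · have h1 : x - 3 ≤ N := by linarith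
      rw [min_eq_left h1] at ih
      have := mul_nonneg (cl0 (x - N - 2)) (cl0 (x - N - 2))
      linarith [min_le_left (x - 3) (((N + 1 : ℕ)) : ℝ)]

theorem cl_up (x : ℝ) (hx : 0 ≤ x) (N : ℕ) :
    ∑ k ∈ range N, cl (x - k) * cl (x - k) ≤ min x N := by
  induction N with
  | zero => simp [hx]
  | succ N ih =>
    rw [sum_range_succ]
    have h0 : cl (x - N) * cl (x - N) ≤ cl (x - N) := by nlinarith [cl0 (x - N), cl1 (x - N)]
    push_cast
    rcases le_total x N with h1 | h1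
    · rw [cl_zero (show x - N ≤ 0 by linarith)]
      rw [min_eq_left h1] at ih
      rw [min_eq_left (by linarith)]; linarith
    · rw [min_eq_right h1] at ih
      have h2 : cl (x - N) ≤ x - N := max_le (by linarith) (min_le_right _ _)
      exact le_min (by linarith) (by linarith [cl1 (x - N)])

end Pool.Agent.H8.AL
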