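import Mathlib
import Pool.Agent.H8.AL1

namespace Pool.Agent.H8.AL
open Finset

variable {𝒜 : Type*} [CStarAlgebra 𝒜] [PartialOrder 𝒜] [StarOrderedRing 𝒜]

theorem Fsum (P : 𝒜) (f : ℕ → ℝ → ℝ) (hf : ∀ k, Continuous (f k)) (N : ℕ) :
    ∑ k ∈ range N, F P (f k) = F P (fun t => ∑ k ∈ range N, f k t) := by
  unfold F
  rw [← cfc_sum f P (range N) (fun i _ => (hf i).continuousOn)]
  congr 1
  ext t
  simp

theorem spR [Nontrivial 𝒜] {P : 𝒜} {t : ℝ} (ht : t ∈ spectrum ℝ P) : t ≤ ‖P‖ :=
  (le_abs_self t).trans (spectrum.norm_le_norm_of_mem ht)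

theorem kill {S B : 𝒜} (hS : 0 ≤ S) (h : star B * S * B = 0) : S * B = 0 := by
  have e := CFC.sqrt_mul_sqrt_self S hS
  have sa : IsSelfAdjoint (CFC.sqrt S) := (CFC.sqrt_nonneg S).isSelfAdjoint
  have : star (CFC.sqrt S * B) * (CFC.sqrt S * B) = 0 := by
    rw [star_mul, sa.star_eq, ← h]
    nth_rw 3 [← e]
    simp only [mul_assoc]
  rw [CStarRing.star_mul_self_eq_zero_iff] at this
  rw [← e, mul_assoc, this, mul_zero]

section main
variable [Nontrivial 𝒜] {P V : 𝒜} {l : ℝ} (hP : 0 ≤ P) (hl : 0 < l) (hl1 : l ≤ 1 / 2)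
  (hE : F P (fun t => t ^ l) * V * F P (fun t => t ^ (1 - l))
    + F P (fun t => t ^ (1 - l)) * V * F P (fun t => t ^ (1 - (1 - l))) = (2 : ℝ) • (V * P))
  (hV : ‖V‖ ≤ 1) (hVP : star V * V * P = P)
include hP hl hl1 hE hV hVP

theorem mono {g : ℝ → ℝ} (hg : Continuous g) (hm : MonotoneOn g (Set.Icc 0 ‖P‖)) (h0 : g 0 = 0) :
    F P g ≤ star V * F P g * V := by
  have hR := norm_nonneg P
  have mem : ∀ t ∈ spectrum ℝ P, t ∈ Set.Icc 0 ‖P‖ := fun t ht => ⟨sp0 hP ht, spR ht⟩
  have m0 : (0 : ℝ) ∈ Set.Icc 0 ‖P‖ := ⟨le_rfl, hR⟩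
  have mR : ‖P‖ ∈ Set.Icc 0 ‖P‖ := ⟨hR, le_rfl⟩
  have key : ∀ η : ℝ, 0 < η → F P g - star V * F P g * V ≤ algebraMap ℝ 𝒜 (3 * η) := by
    intro η hη
    obtain ⟨N, hN⟩ := exists_nat_ge (g ‖P‖ / η)
    have cφ : ∀ k : ℕ, Continuous (fun t => cl (g t / η - k)) := fun k =>
      cl_cont.comp ((hg.div_const η).sub continuous_const)
    have cψ : ∀ k : ℕ, Continuous (fun t => cl (g t / η - k - 2)) := fun k =>
      cl_cont.comp (((hg.div_const η).sub continuous_const).sub continuous_const)
    have step : ∀ k : ℕ, F P (fun t => cl (g t / η - k - 2) * cl (g t / η - k - 2))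
        ≤ star V * F P (fun t => cl (g t / η - k) * cl (g t / η - k)) * V := by
      intro k
      have hk : (0 : ℝ) ≤ k := by positivity
      have ex : ∃ b c : ℝ, 0 ≤ b ∧ b < c ∧ (∀ t ∈ spectrum ℝ P, b < t → η * (k + 1) ≤ g t) ∧
          (∀ t ∈ spectrum ℝ P, t < c → g t ≤ η * (k + 2)) := by
        by_cases hc : g ‖P‖ ≤ η * (k + 2)
        · exact ⟨‖P‖, ‖P‖ + 1, hR, by linarith, fun t ht h => absurd (spR ht) (not_le.mpr h),
            fun t ht _ => (hm (mem t ht) mR (spR ht)).trans hc⟩
        · push Not at hc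
          have iv := intermediate_value_Icc hR hg.continuousOn
          obtain ⟨b, hb, eb⟩ := iv (show η * (k + 1) ∈ Set.Icc (g 0) (g ‖P‖) from
            ⟨by rw [h0]; positivity, by nlinarith⟩)
          obtain ⟨c, hc', ec⟩ := iv (show η * (k + 2) ∈ Set.Icc (g 0) (g ‖P‖) from
            ⟨by rw [h0]; positivity, hc.le⟩)
          refine ⟨b, c, hb.1, ?_, fun t ht h => eb ▸ hm hb (mem t ht) h.le,
            fun t ht h => ec ▸ hm (mem t ht) hc' h.le⟩
          by_contra hh
          have := hm hc' hb (not_lt.mp hh)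
          rw [eb, ec] at this
          nlinarith
      obtain ⟨b, c, hb, hbc, h1, h2⟩ := ex
      refine ramp hP hl hl1 hE hV hVP (cφ k) (cψ k)
        (fun t => by rw [abs_of_nonneg (cl0 _)]; exact cl1 _) hb hbc (fun t ht h => cl_one ?_)
        (fun t ht h => cl_zero ?_)
      · have := h1 t ht h
        rw [le_sub_iff_add_le, le_div_iff₀ hη]; linarith
      · have := h2 t ht h
        rw [sub_nonpos, sub_le_iff_le_add, div_le_iff₀ hη]; linarith
    have s1 := sum_le_sum (s := range N) (fun k _ => step k)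
    rw [← sum_mul, ← mul_sum,
      Fsum P (fun k t => cl (g t / η - k) * cl (g t / η - k)) (fun k => (cφ k).mul (cφ k)),
      Fsum P (fun k t => cl (g t / η - k - 2) * cl (g t / η - k - 2))
        (fun k => (cψ k).mul (cψ k))] at s1
    have cs1 : Continuous (fun t => ∑ k ∈ range N, cl (g t / η - k) * cl (g t / η - k)) :=
      continuous_finsetSum _ (fun k _ => (cφ k).mul (cφ k))
    have cs2 : Continuous (fun t => ∑ k ∈ range N, cl (g t / η - k - 2) * cl (g t / η - k - 2)) :=
      continuous_finsetSum _ (fun k _ => (cψ k).mul (cψ k))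
    have s2 : F P (fun t => g t / η - 3)
        ≤ F P (fun t => ∑ k ∈ range N, cl (g t / η - k - 2) * cl (g t / η - k - 2)) := by
      refine Fle P ((hg.div_const η).sub continuous_const) cs2 (fun t ht => ?_)
      refine le_trans ?_ (cl_low _ N)
      have : g t / η ≤ g ‖P‖ / η := by
        gcongr; exact hm (mem t ht) mR (spR ht)
      exact le_min le_rfl (by linarith)
    have s3 : F P (fun t => ∑ k ∈ range N, cl (g t / η - k) * cl (g t / η - k))
        ≤ F P (fun t => g t / η) := by
      refine Fle P cs1 (hg.div_const η) (fun t ht => ?_)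
      have : 0 ≤ g t := h0 ▸ hm m0 (mem t ht) (sp0 hP ht)
      exact (cl_up _ (by positivity) N).trans (min_le_left _ _)
    have s4 := s2.trans (s1.trans (star_left_conjugate_le_conjugate s3 V))
    have s5 := smul_le_smul_of_nonneg_left s4 hη.le
    rw [← smul_mul_assoc, ← mul_smul_comm, Fsmul P η (hg.div_const η),
      Fsmul P η (f := fun t => g t / η - 3) ((hg.div_const η).sub continuous_const)] at s5
    have e1 : F P (fun t => η * (g t / η)) = F P g := Fcongr (fun t _ => by field_simp)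
    have e2 : F P (fun t => η * (g t / η - 3)) = F P g - algebraMap ℝ 𝒜 (3 * η) := by
      rw [← Fconst hP, Fsub P hg continuous_const]
      exact Fcongr (fun t _ => by field_simp)
    rw [e1] at s5
    rw [sub_le_comm]
    exact e2 ▸ s5
  have sa : IsSelfAdjoint (F P g - star V * F P g * V) :=
    (Fsa P g).sub ((Fsa P g).conjugate' V)
  rw [← sub_nonpos, ← map_zero (algebraMap ℝ 𝒜), le_algebraMap_iff_spectrum_le (ha := sa)]
  intro x hx
  refine le_of_forall_pos_le_add (fun ε hε => ?_)
  have := (le_algebraMap_iff_spectrum_le (ha := sa)).mp (key (ε / 3) (by positivity)) x hx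
  linarith

theorem final : V * P * (P * P) = P * P * (V * P) := by
  have hR := norm_nonneg P
  have l1 : 0 < 1 - l := by linarith
  have mp : ∀ y : ℝ, 0 ≤ y → MonotoneOn (fun t : ℝ => t ^ y) (Set.Icc 0 ‖P‖) :=
    fun y hy s hs t _ hst => Real.rpow_le_rpow hs.1 hst hy
  have iA := mono hP hl hl1 hE hV hVP (crp hl.le) (mp l hl.le) (Real.zero_rpow hl.ne')
  have iB := mono hP hl hl1 hE hV hVP (crp l1.le) (mp _ l1.le) (Real.zero_rpow l1.ne')
  have iC := mono hP hl hl1 hE hV hVP (g := fun t => 2 * ‖P‖ ^ l * t ^ l - t ^ l * t ^ l)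
    ((continuous_const.mul (crp hl.le)).sub ((crp hl.le).mul (crp hl.le))) (by
      intro s hs t ht hst
      have a1 := Real.rpow_le_rpow hs.1 hst hl.le
      have a2 := Real.rpow_le_rpow ht.1 ht.2 hl.le
      show 2 * ‖P‖ ^ l * s ^ l - s ^ l * s ^ l ≤ 2 * ‖P‖ ^ l * t ^ l - t ^ l * t ^ l
      nlinarith) (by simp [Real.zero_rpow hl.ne'])
  rw [← Fsub P (f := fun t => 2 * ‖P‖ ^ l * t ^ l) (g := fun t => t ^ l * t ^ l)
    (continuous_const.mul (crp hl.le)) ((crp hl.le).mul (crp hl.le)),
    ← Fsmul P _ (crp hl.le), ← Fmul P (crp hl.le) (crp hl.le)] at iC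
  have hE' := hE
  rw [sub_sub_cancel] at hE'
  have eAC : F P (fun t => t ^ l) * F P (fun t => t ^ (1 - 2 * l)) = F P (fun t => t ^ (1 - l)) := by
    rw [Fmul P (crp hl.le) (crp (by linarith))]
    refine Fcongr (fun t ht => ?_)
    rw [← Real.rpow_add' (sp0 hP ht) (by linarith)]; ring_nf
  have eCA := Fcomm P (crp hl.le) (crp (show 0 ≤ 1 - 2 * l by linarith))
  have eAB : F P (fun t => t ^ l) * F P (fun t => t ^ (1 - l)) = P := by
    rw [Fmul P (crp hl.le) (crp l1.le)]
    refine Eq.trans (Fcongr (fun t ht => ?_)) (Fid hP)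
    rw [← Real.rpow_add' (sp0 hP ht) (by linarith)]; simp
  have eBA := Fcomm P (crp hl.le) (crp l1.le)
  have eAP : F P (fun t => t ^ l) * P = P * F P (fun t => t ^ l) := by
    have := Fcomm P (crp hl.le) continuous_id'
    rwa [Fid hP] at this
  have hC : 0 ≤ F P (fun t => t ^ (1 - 2 * l)) :=
    cfc_nonneg (fun t ht => Real.rpow_nonneg (sp0 hP ht) _)
  have back : cfc (fun s : ℝ => s ^ (2 / l)) (F P (fun t => t ^ l)) = P * P := by
    unfold F
    rw [← cfc_comp' (fun s : ℝ => s ^ (2 / l)) (fun t => t ^ l) P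
      (crp (by positivity)).continuousOn (crp hl.le).continuousOn hP.isSelfAdjoint]
    have := Fmul P continuous_id' continuous_id'
    rw [Fid hP] at this
    rw [this]
    refine Fcongr (fun t ht => ?_)
    rw [← Real.rpow_mul (sp0 hP ht), show l * (2 / l) = 2 by field_simp, Real.rpow_two, sq]
  have sA := (Fsa P (fun t => t ^ l)).star_eq
  have sB := (Fsa P (fun t => t ^ (1 - l))).star_eq
  have sC := (Fsa P (fun t => t ^ (1 - 2 * l))).star_eq
  have sP := hP.isSelfAdjoint.star_eq
  generalize F P (fun t => t ^ l) = A at *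
  generalize F P (fun t => t ^ (1 - l)) = B at *
  generalize F P (fun t => t ^ (1 - 2 * l)) = C at *
  generalize 2 * ‖P‖ ^ l = M at *
  obtain ⟨S, hS⟩ : ∃ S, S = star V * A * V - A := ⟨_, rfl⟩
  obtain ⟨R, hRd⟩ : ∃ R, R = star V * B * V - B := ⟨_, rfl⟩
  have S0 : 0 ≤ S := hS ▸ sub_nonneg.mpr iA
  have R0 : 0 ≤ R := hRd ▸ sub_nonneg.mpr iB
  have q1 : S * B + R * A = 0 := by
    have := congrArg (fun x => star V * x) hE'
    simp only [mul_add, mul_smul_comm, ← mul_assoc, hVP] at this
    rw [hS, hRd, sub_mul, sub_mul, ← eBA, eAB, two_smul] at *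
    rw [← sub_eq_zero] at this
    rw [← this]; abel
  have S1 : 0 ≤ A * S * A := by simpa [sA] using star_left_conjugate_nonneg S0 A
  have R1 : 0 ≤ A * R * A := by simpa [sA] using star_left_conjugate_nonneg R0 A
  have q2 : A * S * A * C = -(A * R * A) := by
    rw [eq_neg_iff_add_eq_zero, mul_assoc (A * S), eAC, mul_assoc A, mul_assoc A, ← mul_add, q1, mul_zero]
  have q3 : Commute (A * S * A) C := by
    have h1 := congrArg star q2
    rw [star_neg, R1.isSelfAdjoint.star_eq, star_mul, S1.isSelfAdjoint.star_eq, sC, ← q2] at h1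
    exact h1.symm
  have q4 : A * S * A * C = 0 := by
    have h1 := q3.mul_nonneg S1 hC
    refine le_antisymm ?_ h1
    rw [q2]; exact neg_nonpos.mpr R1
  have q5 : S * B = 0 := by
    apply kill S0
    rw [sB, ← eAC]
    nth_rw 1 [eCA]
    calc C * A * S * (A * C) = C * (A * S * A * C) := by simp only [mul_assoc]
      _ = 0 := by rw [q4, mul_zero]
  have q6 : S * P = 0 := by rw [← eAB, eBA, ← mul_assoc, q5, zero_mul]
  have q7 : star V * A * V * P = A * P := by
    rw [hS, sub_mul, sub_eq_zero] at q6; exact q6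
  have q8 : P * (star V * A * V) = P * A := by
    have := congrArg star q7
    simpa [star_mul, sA, sP, mul_assoc] using this
  have q9 := star_left_conjugate_le_conjugate iC P
  rw [sP] at q9
  have q10 : P * (star V * (A * A) * V) * P ≤ P * (A * A) * P := by
    have e1 : P * (star V * (M • A - A * A) * V) * P
        = M • (P * A * P) - P * (star V * (A * A) * V) * P := by
      rw [← q8]; simp only [mul_sub, sub_mul, mul_smul_comm, smul_mul_assoc]
    have e2 : P * (M • A - A * A) * P = M • (P * A * P) - P * (A * A) * P := by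
      simp only [mul_sub, sub_mul, mul_smul_comm, smul_mul_assoc]
    rw [e1, e2] at q9
    exact (sub_le_sub_iff_left _).mp q9
  have q11 : star ((A * V - V * A) * P) * ((A * V - V * A) * P)
      = P * (star V * (A * A) * V) * P - P * (A * A) * P := by
    have e1 : star V * V * (A * P) = A * P := by rw [eAP, ← mul_assoc, hVP]
    simp only [star_mul, star_sub, sA, sP, mul_sub, sub_mul]
    have t1 : P * (star V * A) * (V * A * P) = P * (A * A) * P := by
      calc _ = P * (star V * A * V) * (A * P) := by simp only [mul_assoc]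
        _ = _ := by rw [q8]; simp only [mul_assoc]
    have t2 : P * (A * star V) * (A * V * P) = P * (A * A) * P := by
      calc _ = P * A * (star V * A * V * P) := by simp only [mul_assoc]
        _ = _ := by rw [q7]; simp only [mul_assoc]
    have t3 : P * (A * star V) * (V * A * P) = P * (A * A) * P := by
      calc _ = P * A * (star V * V * (A * P)) := by simp only [mul_assoc]
        _ = _ := by rw [e1]; simp only [mul_assoc]
    have t4 : P * (star V * A) * (A * V * P) = P * (star V * (A * A) * V) * P := by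
      simp only [mul_assoc]
    rw [t1, t2, t3, t4]; abel
  have q12 : (A * V - V * A) * P = 0 := by
    rw [← CStarRing.star_mul_self_eq_zero_iff]
    refine le_antisymm ?_ (star_mul_self_nonneg _)
    rw [q11]; exact sub_nonpos.mpr q10
  have q13 : Commute A (V * P) := by
    rw [sub_mul, sub_eq_zero] at q12
    show A * (V * P) = V * P * A
    rw [← mul_assoc, q12, mul_assoc, eAP, mul_assoc]
  have q14 := q13.cfc_real (fun s : ℝ => s ^ (2 / l))
  rw [back] at q14
  exact q14.eq.symm

end main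
end Pool.Agent.H8.AL
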