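import Mathlib

set_option autoImplicit false

namespace Pool.Agent.H8.AnaBP

open Set Topology TopologicalSpace MeasureTheory

variable {α : Type*} [TopologicalSpace α]

/-- The points at which a set is not locally meagre. -/
def D (S : Set α) : Set α := (⋃₀ {U | IsOpen U ∧ IsMeagre (U ∩ S)})ᶜ

theorem D_closed (S : Set α) : IsClosed (D S) := (isOpen_sUnion fun _ h => h.1).isClosed_compl

theorem D_sub (S : Set α) : D S ⊆ closure S := by
  intro x hx
  by_contra h
  refine hx ⟨(closure S)ᶜ, ⟨isClosed_closure.isOpen_compl, ?_⟩, h⟩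
  rw [disjoint_iff_inter_eq_empty.1 (disjoint_compl_left.mono_right subset_closure)]
  exact IsMeagre.empty

theorem diff_D [SecondCountableTopology α] (S : Set α) : IsMeagre (S \ D S) := by
  obtain ⟨T, hT, h1, h2⟩ := isOpen_sUnion_countable {U | IsOpen U ∧ IsMeagre (U ∩ S)} fun _ h => h.1
  refine (isMeagre_biUnion hT fun U hU => (h1 hU).2).mono fun x hx => ?_
  have := not_not.1 hx.2
  rw [← h2] at this
  obtain ⟨U, hU, hx'⟩ := this
  exact mem_iUnion₂.2 ⟨U, hU, hx', hx.1⟩

theorem D_iUnion [SecondCountableTopology α] (S : ℕ → Set α) :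
    IsMeagre (D (⋃ n, S n) \ ⋃ n, D (S n)) := by
  have h1 : BaireMeasurableSet (D (⋃ n, S n) \ ⋃ n, D (S n)) :=
    (D_closed _).isOpen_compl.baireMeasurableSet.of_compl.diff
      (.iUnion fun n => (D_closed _).isOpen_compl.baireMeasurableSet.of_compl)
  obtain ⟨U, hU, h2⟩ := h1.residualEq_isOpen
  have h3 : IsMeagre (U ∩ ⋃ n, S n) := by
    have h4 := isMeagre_iUnion fun n => diff_D (S n)
    filter_upwards [h2, h4] with x a b
    rintro ⟨c, d⟩
    obtain ⟨n, hn⟩ := mem_iUnion.1 d
    exact b (mem_iUnion.2 ⟨n, hn, fun e => (a.mpr c).2 (mem_iUnion.2 ⟨n, e⟩)⟩)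
  filter_upwards [h2] with x a b
  exact b.1 ⟨U, ⟨hU, h3⟩, a.mp b⟩

/-- Analytic sets have the Baire property. -/
theorem analytic_bp [SecondCountableTopology α] [T2Space α] {A : Set α} (hA : AnalyticSet A) :
    BaireMeasurableSet A := by
  rw [AnalyticSet] at hA
  obtain rfl | ⟨f, hf, rfl⟩ := hA
  · exact isOpen_empty.baireMeasurableSet
  set S : List ℕ → Set α := fun l => f '' {y | PiNat.res y l.length = l} with hS
  have h1 : ∀ l, S l = ⋃ a, S (a :: l) := by
    intro l
    simp only [hS, ← image_iUnion]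
    congr 1
    ext y
    simp
  have h2 : IsMeagre (⋃ l, (D (S l) \ ⋃ a, D (S (a :: l)))) := isMeagre_iUnion fun l => by
    have := D_iUnion fun a => S (a :: l)
    rwa [← h1] at this
  have h0 : S [] = range f := by simp [hS]
  refine (D_closed (range f)).isOpen_compl.baireMeasurableSet.of_compl.congr ?_
  filter_upwards [h2, diff_D (range f)] with x a b
  refine propext ⟨fun c => ?_, fun c => by_contra fun d => b ⟨c, d⟩⟩
  have step : ∀ l, x ∈ D (S l) → ∃ k, x ∈ D (S (k :: l)) := fun l h =>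
    by_contra fun d => a (mem_iUnion.2 ⟨l, h, fun e => d (mem_iUnion.1 e)⟩)
  choose! g hg using step
  set L : ℕ → List ℕ := fun n => Nat.rec [] (fun _ l => g l :: l) n with hL
  have h3 : ∀ n, x ∈ D (S (L n)) := by
    intro n
    induction n with
    | zero => exact h0 ▸ c
    | succ n ih => exact hg _ ih
  have h4 : ∀ n, PiNat.res (fun n => g (L n)) n = L n := by
    intro n
    induction n with
    | zero => rfl
    | succ n ih => rw [PiNat.res_succ, ih]
  refine ⟨fun n => g (L n), by_contra fun d => ?_⟩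
  obtain ⟨W, U, hW, hU, c1, c2, c3⟩ := t2_separation d
  obtain ⟨_, ⟨z, n, rfl⟩, e1, e2⟩ := (PiNat.isTopologicalBasis_cylinders fun _ => ℕ).exists_subset_of_mem_open
    (a := fun n => g (L n)) c1 (hW.preimage hf)
  obtain ⟨_, e3, y, e4, rfl⟩ := mem_closure_iff.1 (D_sub _ (h3 n)) U hU c2
  refine disjoint_left.1 c3 (e2 ?_) e3
  rw [← PiNat.mem_cylinder_iff_eq.1 e1, PiNat.cylinder_eq_res]
  rw [mem_ofPred_eq, ← h4 n, PiNat.res_length] at e4
  exact e4

end Pool.Agent.H8.AnaBP
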