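import Mathlib

set_option autoImplicit false

namespace Pool.Agent.H8.Bowtie

open Finset

variable {V : Type} [DecidableEq V]

def NB (A : V → V → Prop) : Prop :=
  ∀ v a b c d, A v a → A v b → A a b → A v c → A v d → A c d →
    a ≠ c → a ≠ d → b ≠ c → b ≠ d → False

lemma dense (A : V → V → Prop) [DecidableRel A] (hs : ∀ x y, A x y → A y x) (hi : ∀ x, ¬ A x x)
    (nb : NB A) (S : Finset V) (h6 : 6 ≤ S.card)
    (hd : ∀ v ∈ S, S.card < 2 * (S.filter (A v)).card) : False := by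
  have L1 : ∀ u ∈ S, ∀ v ∈ S, ∃ w ∈ S, A u w ∧ A v w := by
    intro u hu v hv
    have h1 := card_union_add_card_inter (S.filter (A u)) (S.filter (A v))
    have h2 : (S.filter (A u) ∪ S.filter (A v)).card ≤ S.card :=
      card_le_card (union_subset (filter_subset _ _) (filter_subset _ _))
    have h3 := hd u hu
    have h4 := hd v hv
    obtain ⟨w, hw⟩ := card_pos.mp (show 0 < (S.filter (A u) ∩ S.filter (A v)).card by omega)
    simp only [mem_inter, mem_filter] at hw
    exact ⟨w, hw.1.1, hw.1.2, hw.2.2⟩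
  have L2 : ∀ v ∈ S, ∀ a b c, ∃ y ∈ S, A v y ∧ y ≠ a ∧ y ≠ b ∧ y ≠ c := by
    intro v hv a b c
    have h1 := hd v hv
    have h2 : ({a, b, c} : Finset V).card ≤ 3 := card_le_three
    obtain ⟨y, hy, hy'⟩ := exists_mem_notMem_of_card_lt_card
      (show ({a, b, c} : Finset V).card < (S.filter (A v)).card by omega)
    simp only [mem_insert, mem_singleton, not_or] at hy'
    exact ⟨y, (mem_filter.mp hy).1, (mem_filter.mp hy).2, hy'⟩
  have ne : ∀ x y, A x y → x ≠ y := fun x y h e => hi x (e ▸ h)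
  have main : ∀ v ∈ S, ∀ a ∈ S, ∀ b ∈ S, ∀ c, A v a → A v b → A a b → A v c → A a c → c ≠ b →
      False := by
    intro v hv a ha b hb c hva hvb hab hvc hac hcb
    obtain ⟨c', hc'S, hvc', h1, h2, h3⟩ := L2 v hv a b c
    obtain ⟨x, -, hvx, hc'x⟩ := L1 v hv c' hc'S
    have hac' : A a c' := by
      by_cases hxa : x = a
      · exact hs _ _ (hxa ▸ hc'x)
      · by_cases hxb : x = b
        · subst hxb
          exact (nb v a c x c' hva hvc hac hvb hvc' (hs _ _ hc'x) (ne _ _ hab) h1.symm hcb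
            h3.symm).elim
        · exact (nb v a b c' x hva hvb hab hvc' hvx hc'x h1.symm (Ne.symm hxa) h2.symm
            (Ne.symm hxb)).elim
    obtain ⟨y, hyS, hby, g1, g2, -⟩ := L2 b hb v a a
    obtain ⟨z, -, hbz, hyz⟩ := L1 b hb y hyS
    obtain ⟨e, hve, hae, heb, hey⟩ : ∃ e, A v e ∧ A a e ∧ e ≠ b ∧ e ≠ y := by
      by_cases hcy : c = y
      · exact ⟨c', hvc', hac', h2, hcy ▸ h3⟩
      · exact ⟨c, hvc, hac, hcb, hcy⟩
    by_cases hzv : z = v
    · subst hzv
      exact nb z b y a e hvb (hs _ _ hyz) hby hva hve hae (ne _ _ hab).symm heb.symm g2 hey.symm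
    · by_cases hza : z = a
      · subst hza
        exact nb z b y v e hab (hs _ _ hyz) hby (hs _ _ hva) hae hve (ne _ _ hvb).symm heb.symm g1
          hey.symm
      · exact nb b v a y z (hs _ _ hvb) (hs _ _ hab) hva hby hbz hyz g1.symm (Ne.symm hzv) g2.symm
          (Ne.symm hza)
  obtain ⟨v, hv⟩ := card_pos.mp (show 0 < S.card by omega)
  obtain ⟨a, ha, hva, -⟩ := L2 v hv v v v
  obtain ⟨b, hb, hvb, hab⟩ := L1 v hv a ha
  obtain ⟨c, hc, hvc, h1, h2, -⟩ := L2 v hv a b b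
  obtain ⟨x, -, hvx, hcx⟩ := L1 v hv c hc
  by_cases hxa : x = a
  · subst hxa
    exact main v hv x ha b hb c hva hvb hab hvc (hs _ _ hcx) h2
  · by_cases hxb : x = b
    · subst hxb
      exact main v hv x hb a ha c hvb hva (hs _ _ hab) hvc (hs _ _ hcx) h1
    · exact nb v a b c x hva hvb hab hvc hvx hcx h1.symm (Ne.symm hxa) h2.symm (Ne.symm hxb)

def mk (a b c d e f g h i j : Bool) (x y : Fin 5) : Bool :=
  match x.val, y.val with
  | 0, 1 => a | 1, 0 => a | 0, 2 => b | 2, 0 => b | 0, 3 => c | 3, 0 => c | 0, 4 => d | 4, 0 => d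
  | 1, 2 => e | 2, 1 => e | 1, 3 => f | 3, 1 => f | 1, 4 => g | 4, 1 => g
  | 2, 3 => h | 3, 2 => h | 2, 4 => i | 4, 2 => i | 3, 4 => j | 4, 3 => j
  | _, _ => false

def L : List (Fin 5 × Fin 5 × Fin 5 × Fin 5 × Fin 5) :=
  [(0,1,2,3,4), (0,1,3,2,4), (0,1,4,2,3), (1,0,2,3,4), (1,0,3,2,4), (1,0,4,2,3),
   (2,0,1,3,4), (2,0,3,1,4), (2,0,4,1,3), (3,0,1,2,4), (3,0,2,1,4), (3,0,4,1,2),
   (4,0,1,2,3), (4,0,2,1,3), (4,0,3,1,2)]

def bow (B : Fin 5 → Fin 5 → Bool) (t : Fin 5 × Fin 5 × Fin 5 × Fin 5 × Fin 5) : Bool :=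
  B t.1 t.2.1 && B t.1 t.2.2.1 && B t.2.1 t.2.2.1 && B t.1 t.2.2.2.1 && B t.1 t.2.2.2.2 &&
    B t.2.2.2.1 t.2.2.2.2

lemma base9 : ∀ a b c d e f g h i j : Bool,
    (L.all (fun t => !bow (mk a b c d e f g h i j) t)) = true →
    a.toNat + b.toNat + c.toNat + d.toNat + e.toNat + f.toNat + g.toNat + h.toNat + i.toNat +
      j.toNat ≤ 7 := by
  decide +kernel

lemma base10 (a b c d e f g h i j : Bool)
    (H : ∀ t ∈ L, bow (mk a b c d e f g h i j) t = false) :
    ∑ x : Fin 5, ∑ y : Fin 5, (if mk a b c d e f g h i j x y = true then 1 else 0) ≤ 14 := by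
  have h1 := base9 a b c d e f g h i j (by simpa using H)
  have h2 : ∀ b : Bool, (if b = true then 1 else 0) = b.toNat := by decide
  simp only [h2, Fin.sum_univ_five]
  show (0 + a.toNat + b.toNat + c.toNat + d.toNat) + (a.toNat + 0 + e.toNat + f.toNat + g.toNat) +
    (b.toNat + e.toNat + 0 + h.toNat + i.toNat) + (c.toNat + f.toNat + h.toNat + 0 + j.toNat) +
    (d.toNat + g.toNat + i.toNat + j.toNat + 0) ≤ 14
  omega

lemma Ldist : ∀ t ∈ L, t.2.1 ≠ t.2.2.2.1 ∧ t.2.1 ≠ t.2.2.2.2 ∧ t.2.2.1 ≠ t.2.2.2.1 ∧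
    t.2.2.1 ≠ t.2.2.2.2 := by decide +kernel

def D (A : V → V → Prop) [DecidableRel A] (S : Finset V) : ℕ :=
  ∑ x ∈ S, ∑ y ∈ S, if A x y then 1 else 0

omit [DecidableEq V] in
lemma base (A : V → V → Prop) [DecidableRel A] (hs : ∀ x y, A x y → A y x) (hi : ∀ x, ¬ A x x)
    (nb : NB A) (S : Finset V) (h5 : S.card = 5) : D A S ≤ 14 := by
  let e : Fin 5 ≃ S := (S.equivFinOfCardEq h5).symm
  let B : Fin 5 → Fin 5 → Bool := fun x y => decide (A (e x) (e y))
  have hsym : ∀ x y, B x y = B y x := fun x y => by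
    simp only [B, decide_eq_decide]; exact ⟨hs _ _, hs _ _⟩
  have hirr : ∀ x, B x x = false := fun x => by simp [B, hi]
  have hB : B = mk (B 0 1) (B 0 2) (B 0 3) (B 0 4) (B 1 2) (B 1 3) (B 1 4) (B 2 3) (B 2 4) (B 3 4) := by
    funext x y
    fin_cases x <;> fin_cases y <;> first | rfl | exact hirr _ | exact hsym _ _
  have h1 := base10 (B 0 1) (B 0 2) (B 0 3) (B 0 4) (B 1 2) (B 1 3) (B 1 4) (B 2 3) (B 2 4) (B 3 4)
  rw [← hB] at h1
  have h2 := h1 (by
    intro t ht
    obtain ⟨d1, d2, d3, d4⟩ := Ldist t ht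
    by_contra hb
    simp only [bow, B, Bool.not_eq_false, Bool.and_eq_true, decide_eq_true_eq] at hb
    obtain ⟨⟨⟨⟨⟨b1, b2⟩, b3⟩, b4⟩, b5⟩, b6⟩ := hb
    have inj : ∀ x y : Fin 5, x ≠ y → (e x : V) ≠ e y := fun x y h h' =>
      h (e.injective (Subtype.ext h'))
    exact nb _ _ _ _ _ b1 b2 b3 b4 b5 b6 (inj _ _ d1) (inj _ _ d2) (inj _ _ d3) (inj _ _ d4))
  have h3 : D A S = ∑ x : Fin 5, ∑ y : Fin 5, (if B x y = true then 1 else 0) := by
    unfold D
    rw [← sum_coe_sort S, ← e.sum_comp]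
    apply sum_congr rfl
    intro x _
    rw [← sum_coe_sort S, ← e.sum_comp]
    simp [B]
  omega

lemma bound (A : V → V → Prop) [DecidableRel A] (hs : ∀ x y, A x y → A y x) (hi : ∀ x, ¬ A x x)
    (nb : NB A) : ∀ s : ℕ, ∀ S : Finset V, S.card = s + 5 → D A S ≤ 2 * ((s + 5) ^ 2 / 4 + 1) := by
  intro s
  induction s with
  | zero => intro S hS; simpa using base A hs hi nb S hS
  | succ s ih =>
    intro S hS
    by_cases hd : ∀ v ∈ S, S.card < 2 * (S.filter (A v)).card
    · exact (dense A hs hi nb S (by omega) hd).elim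
    · push Not at hd
      obtain ⟨v, hv, hdv⟩ := hd
      have h1 := ih (S.erase v) (by rw [card_erase_of_mem hv]; omega)
      have h2 : D A S ≤ D A (S.erase v) + 2 * (S.filter (A v)).card := by
        unfold D
        rw [← add_sum_erase S _ hv]
        have e1 : ∑ x ∈ S.erase v, ∑ y ∈ S, (if A x y then 1 else 0) =
            ∑ x ∈ S.erase v, ((if A x v then 1 else 0) +
              ∑ y ∈ S.erase v, (if A x y then 1 else 0)) :=
          sum_congr rfl (fun x _ => (add_sum_erase S _ hv).symm)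
        rw [e1, sum_add_distrib]
        have e2 : ∑ x ∈ S.erase v, (if A x v then 1 else 0) ≤ (S.filter (A v)).card := by
          rw [← card_filter]
          apply card_le_card
          intro x hx
          simp only [mem_filter, mem_erase] at hx ⊢
          exact ⟨hx.1.2, hs _ _ hx.2⟩
        have e3 : ∑ y ∈ S, (if A v y then 1 else 0) = (S.filter (A v)).card :=
          (card_filter _ _).symm
        rw [e3]
        omega
      have h3 : (s + 5) ^ 2 / 4 + (s + 1 + 5) / 2 ≤ (s + 1 + 5) ^ 2 / 4 := by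
        rcases Nat.even_or_odd' s with ⟨k, rfl | rfl⟩
        · have a1 : (2 * k + 5) ^ 2 = 4 * (k * k + 5 * k + 6) + 1 := by ring
          have a2 : (2 * k + 1 + 5) ^ 2 = 4 * (k * k + 6 * k + 9) := by ring
          rw [a1, a2]; omega
        · have a1 : (2 * k + 1 + 5) ^ 2 = 4 * (k * k + 6 * k + 9) := by ring
          have a2 : (2 * k + 1 + 1 + 5) ^ 2 = 4 * (k * k + 7 * k + 12) + 1 := by ring
          rw [a1, a2]; omega
      omega

lemma two_mul_le [Fintype V] (G : Finset (Finset V)) (hG : ∀ g ∈ G, g.card = 2) :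
    2 * G.card ≤ D (fun x y : V => ({x, y} : Finset V) ∈ G) univ := by
  have h0 : D (fun x y : V => ({x, y} : Finset V) ∈ G) univ =
      (univ.filter (fun p : V × V => ({p.1, p.2} : Finset V) ∈ G)).card := by
    rw [card_filter, Fintype.sum_prod_type]; rfl
  rw [h0, card_eq_sum_card_fiberwise (f := fun p : V × V =>
    ({p.1, p.2} : Finset V)) (t := G) (fun p hp => by simpa using hp)]
  calc 2 * G.card = ∑ _g ∈ G, 2 := by simp [mul_comm]
    _ ≤ _ := by
      apply sum_le_sum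
      intro g hg
      obtain ⟨a, b, hab, rfl⟩ := card_eq_two.mp (hG g hg)
      have hsub : ({(a, b), (b, a)} : Finset (V × V)) ⊆
          ((univ.filter (fun p : V × V => ({p.1, p.2} : Finset V) ∈ G)).filter
            (fun p => ({p.1, p.2} : Finset V) = {a, b})) := by
        intro p hp
        have : ({p.1, p.2} : Finset V) = {a, b} := by
          simp only [mem_insert, mem_singleton] at hp
          rcases hp with rfl | rfl
          · rfl
          · exact pair_comm _ _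
        rw [mem_filter, mem_filter, this]
        exact ⟨⟨mem_univ _, hg⟩, rfl⟩
      refine le_trans ?_ (card_le_card hsub)
      rw [card_pair (by simp [hab])]

end Pool.Agent.H8.Bowtie
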