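import Mathlib

namespace Pool.Agent.H8.CG
open Finset

variable {𝕜 : Type*} [RCLike 𝕜] {X : Type*} [AddCommGroup X] [Module 𝕜 X]

/-- coordinate projection onto a finite set -/
def PA (x : ℕ → X) (xs : ℕ → X →ₗ[𝕜] 𝕜) (A : Finset ℕ) (f : X) : X := ∑ j ∈ A, xs j f • x j

structure Data (N : X → ℝ) (x : ℕ → X) (xs : ℕ → X →ₗ[𝕜] 𝕜) (κ K L : ℝ) (m : ℕ) : Prop where
  nn : ∀ f, 0 ≤ N f
  df : ∀ f, N f = 0 → f = 0
  sm : ∀ (c : 𝕜) f, N (c • f) = ‖c‖ * N f
  tr : ∀ f g, N (f + g) ≤ κ * (N f + N g)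
  k1 : 1 ≤ κ
  bi : ∀ i j, xs i (x j) = if i = j then 1 else 0
  dn : ∀ f, ∀ δ > 0, ∃ u ∈ Submodule.span 𝕜 (Set.range x), N (f - u) < δ
  bd : ∃ α : ℝ, ∀ k f, ‖xs k f‖ ≤ α * N f
  sc : ∀ n f, N (PA x xs (range n) f) ≤ K * N f
  ch : ∀ f (A : Finset ℕ), A.card = m → (∀ n ∈ A, ∀ k ∉ A, ‖xs k f‖ < ‖xs n f‖) →
    ∀ B : Finset ℕ, B.card ≤ m → ∀ y ∈ Submodule.span 𝕜 (x '' B),
      ∃ z ∈ Submodule.span 𝕜 (x '' A), N (f - z) ≤ L * N (f - y)

variable {N : X → ℝ} {x : ℕ → X} {xs : ℕ → X →ₗ[𝕜] 𝕜} {κ K L : ℝ} {m : ℕ}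

theorem PA_add (A : Finset ℕ) (f g : X) : PA x xs A (f + g) = PA x xs A f + PA x xs A g := by
  simp [PA, add_smul, sum_add_distrib]
theorem PA_sub (A : Finset ℕ) (f g : X) : PA x xs A (f - g) = PA x xs A f - PA x xs A g := by
  simp [PA, sub_smul, sum_sub_distrib]
theorem mem_sp (A : Finset ℕ) (c : ℕ → 𝕜) : ∑ j ∈ A, c j • x j ∈ Submodule.span 𝕜 (x '' A) :=
  Submodule.sum_mem _ (fun j hj => Submodule.smul_mem _ _ (Submodule.subset_span ⟨j, hj, rfl⟩))

namespace Data
variable (D : Data N x xs κ K L m)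
include D

theorem co (A : Finset ℕ) (c : ℕ → 𝕜) (k : ℕ) :
    xs k (∑ j ∈ A, c j • x j) = if k ∈ A then c k else 0 := by
  simp [map_sum, D.bi]

theorem co0 {A : Finset ℕ} {z : X} (hz : z ∈ Submodule.span 𝕜 (x '' A)) {k : ℕ} (hk : k ∉ A) :
    xs k z = 0 := by
  have : Submodule.span 𝕜 (x '' A) ≤ LinearMap.ker (xs k) := by
    rw [Submodule.span_le]
    rintro _ ⟨j, hj, rfl⟩
    have : k ≠ j := by rintro rfl; exact hk hj
    simp [D.bi, this]
  exact this hz

theorem PAsum (S A : Finset ℕ) (c : ℕ → 𝕜) :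
    PA x xs S (∑ j ∈ A, c j • x j) = ∑ j ∈ A.filter (· ∈ S), c j • x j := by
  unfold PA
  simp only [D.co, ite_smul, zero_smul]
  rw [← sum_filter]
  congr 1; ext j; simp [and_comm]

theorem neg (f : X) : N (-f) = N f := by simpa using D.sm (-1) f
theorem trs (f g : X) : N (f - g) ≤ κ * (N f + N g) := by
  have := D.tr f (-g); rwa [D.neg, ← sub_eq_add_neg] at this
theorem x0 : 0 < N (x 0) := by
  refine lt_of_le_of_ne (D.nn _) (fun h => ?_)
  have := D.bi 0 0
  rw [D.df _ h.symm] at this; simp at this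
theorem P1 : PA x xs (range 1) (x 0) = x 0 := by simp [PA, D.bi]
theorem K1 : 1 ≤ K := by
  have := D.sc 1 (x 0); rw [D.P1] at this
  by_contra hc; push Not at hc; nlinarith [D.x0]

theorem KL : 1 ≤ K * L := by
  obtain ⟨z, hz, h⟩ := D.ch (x 0 + ∑ j ∈ Ico 1 (m + 1), (2 : 𝕜) • x j) (Ico 1 (m + 1)) (by simp) (by
    intro n hn k hk
    have : n ≠ 0 := by rintro rfl; simp at hn
    rw [map_add, map_add, D.co, D.co, if_pos hn, if_neg hk, D.bi, D.bi, if_neg this]
    split_ifs <;> simp) (Ico 1 (m + 1)) (by simp) _ (mem_sp _ (fun _ => 2))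
  have h2 := D.sc 1 (x 0 + ∑ j ∈ Ico 1 (m + 1), (2 : 𝕜) • x j - z)
  have e : PA x xs (range 1) (x 0 + ∑ j ∈ Ico 1 (m + 1), (2 : 𝕜) • x j - z) = x 0 := by
    have := D.co0 hz (k := 0) (by simp)
    have h3 := D.co (Ico 1 (m + 1)) (fun _ => 2) 0
    simp only [PA, range_one, sum_singleton, map_sub, map_add, this, h3, D.bi]; simp
  rw [e] at h2
  rw [add_sub_cancel_right] at h
  have := mul_le_mul_of_nonneg_left h (zero_le_one.trans D.K1)
  by_contra hc; push Not at hc; nlinarith [D.x0]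

theorem L0 : 0 < L := by
  by_contra hc; push Not at hc; nlinarith [D.KL, D.K1]

theorem core (g : X) (A : Finset ℕ) (hA : A.card ≤ m) (hg : ∀ n ∈ A, ∀ k ∉ A, ‖xs k g‖ ≤ ‖xs n g‖)
    (n n' : ℕ) (hn : n ≤ n') (hI : ∀ j ∈ A, j < n ∨ n' ≤ j) (B : Finset ℕ) (hB : B.card ≤ A.card)
    (y : X) (hy : y ∈ Submodule.span 𝕜 (x '' B)) :
    N (PA x xs (range n') g - PA x xs (range n) g) ≤ 2 * κ * K * L * κ * N (g - y) := by
  obtain ⟨α, hα⟩ := D.bd
  have κ0 : 0 < κ := zero_lt_one.trans_le D.k1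
  have K0 : 0 < K := zero_lt_one.trans_le D.K1
  have L0 := D.L0
  have sg : ∀ j, ∃ s : 𝕜, ∀ ε : ℝ, 0 ≤ ε → ‖xs j g + ε * s‖ = ‖xs j g‖ + ε := by
    intro j
    by_cases h : xs j g = 0
    · exact ⟨1, fun ε hε => by simp [h, abs_of_nonneg hε]⟩
    · refine ⟨xs j g / (‖xs j g‖ : 𝕜), fun ε hε => ?_⟩
      have h1 : 0 < ‖xs j g‖ := norm_pos_iff.mpr h
      have h2 : ((‖xs j g‖ : ℝ) : 𝕜) ≠ 0 := by exact_mod_cast h1.ne'
      have : xs j g + ε * (xs j g / (‖xs j g‖ : 𝕜)) = ((1 + ε / ‖xs j g‖ : ℝ) : 𝕜) * xs j g := by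
        push_cast; field_simp
      rw [this, norm_mul, RCLike.norm_ofReal, abs_of_nonneg (by positivity)]
      field_simp
  choose s hs using sg
  set s0 := n' + A.sup id + 1 with hs0
  set E := Ico s0 (s0 + (m - A.card)) with hE
  have dj : Disjoint A E := by
    rw [disjoint_left]
    intro j hj hjE
    have := le_sup (f := id) hj
    simp only [hE, mem_Ico, id] at hjE this
    omega
  have cE : E.card = m - A.card := by simp [hE]
  set M : ℝ := 2 * |α * N g| + 1 with hM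
  set w := ∑ j ∈ A, s j • x j with hw
  have key : ∀ ε : ℝ, 0 < ε → N (PA x xs (range n') g - PA x xs (range n) g)
      ≤ 2 * κ * K * L * κ * (N (g - y) + ε * N w) := by
    intro ε hε
    set u := ∑ j ∈ A, ((ε : 𝕜) * s j) • x j with hu
    set v := ∑ j ∈ E, (M : 𝕜) • x j with hv
    obtain ⟨z, hz, h⟩ := D.ch (g + u + v) (A ∪ E) (by rw [card_union_of_disjoint dj]; omega) (by
      intro i hi k hk
      rw [mem_union, not_or] at hk
      simp only [map_add, hu, hv, D.co, if_neg hk.1, if_neg hk.2, add_zero]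
      rcases mem_union.mp hi with hi | hi
      · rw [if_pos hi, if_neg (disjoint_left.mp dj hi), add_zero, hs i ε hε.le]
        linarith [hg i hi k hk.1]
      · rw [if_pos hi, if_neg (disjoint_right.mp dj hi), add_zero]
        have a1 := norm_sub_le (xs i g + (M : 𝕜)) (xs i g)
        rw [add_sub_cancel_left, RCLike.norm_ofReal, abs_of_nonneg (by positivity)] at a1
        linarith [hα i g, hα k g, le_abs_self (α * N g)]) (B ∪ E)
      ((card_union_le _ _).trans (by omega)) (y + v) (Submodule.add_mem _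
        (Submodule.span_mono (Set.image_mono (by simp)) hy)
        (Submodule.span_mono (Set.image_mono (by simp)) (mem_sp E (fun _ => (M : 𝕜)))))
    have mz : u + v - z ∈ Submodule.span 𝕜 (x '' ((A ∪ E : Finset ℕ) : Set ℕ)) :=
      Submodule.sub_mem _ (Submodule.add_mem _
        (Submodule.span_mono (Set.image_mono (by simp)) (mem_sp A _))
        (Submodule.span_mono (Set.image_mono (by simp)) (mem_sp E (fun _ => (M : 𝕜))))) hz
    have kill : PA x xs (range n') (u + v - z) = PA x xs (range n) (u + v - z) := by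
      unfold PA
      symm
      refine sum_subset (range_mono hn) (fun j hj hj' => ?_)
      rw [D.co0 mz, zero_smul]
      simp only [mem_union, hE, mem_Ico, mem_range] at *
      rintro (h | h)
      · rcases hI j h with h | h <;> omega
      · omega
    have e : PA x xs (range n') g - PA x xs (range n) g
        = PA x xs (range n') (g + u + v - z) - PA x xs (range n) (g + u + v - z) := by
      rw [show g + u + v - z = g + (u + v - z) by abel, PA_add, PA_add, kill]; abel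
    have e2 : g + u + v - (y + v) = (g - y) + (ε : 𝕜) • w := by
      rw [hu, hw, smul_sum]; simp only [mul_smul]; abel
    rw [e2] at h
    have t := D.tr (g - y) ((ε : 𝕜) • w)
    rw [D.sm, RCLike.norm_ofReal, abs_of_pos hε] at t
    rw [e]
    calc _ ≤ κ * (K * N (g + u + v - z) + K * N (g + u + v - z)) :=
          (D.trs _ _).trans (by gcongr <;> exact D.sc _ _)
      _ = 2 * κ * K * N (g + u + v - z) := by ring
      _ ≤ 2 * κ * K * (L * (κ * (N (g - y) + ε * N w))) := by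
          gcongr; exact h.trans (by gcongr)
      _ = _ := by ring
  refine le_of_forall_pos_le_add (fun δ hδ => ?_)
  have w0 := D.nn w
  have c0 : 0 < 2 * κ * K * L * κ := by positivity
  have := key (δ / ((2 * κ * K * L * κ) * (N w + 1))) (by positivity)
  refine this.trans ?_
  rw [mul_add]
  gcongr
  rw [div_mul_eq_mul_div, mul_div_assoc', div_le_iff₀ (by positivity)]
  nlinarith [mul_pos c0 hδ]

theorem core1 (g : X) (A : Finset ℕ) (hA : A.card ≤ m) (hg : ∀ n ∈ A, ∀ k ∉ A, ‖xs k g‖ ≤ ‖xs n g‖)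
    (n : ℕ) (hI : ∀ j ∈ A, n ≤ j) (B : Finset ℕ) (hB : B.card ≤ A.card)
    (y : X) (hy : y ∈ Submodule.span 𝕜 (x '' B)) :
    N (PA x xs (range n) g) ≤ 2 * κ * K * L * κ * κ * N (g - y) := by
  have := D.core g A hA hg 0 n (Nat.zero_le _) (fun j hj => Or.inr (hI j hj)) B hB y hy
  have e : PA x xs (range 0) g = 0 := by simp [PA]
  rw [e, sub_zero] at this
  refine this.trans ?_
  have κ0 : 0 < κ := zero_lt_one.trans_le D.k1
  have K0 : 0 < K := zero_lt_one.trans_le D.K1
  have L0 := D.L0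
  have := D.nn (g - y)
  exact mul_le_mul_of_nonneg_right (le_mul_of_one_le_right (by positivity) D.k1) this

theorem fix {u : X} (hu : u ∈ Submodule.span 𝕜 (Set.range x)) :
    ∃ n0, ∀ n ≥ n0, PA x xs (range n) u = u := by
  induction hu using Submodule.span_induction with
  | mem _ h =>
    obtain ⟨j, rfl⟩ := h
    exact ⟨j + 1, fun n hn => by simp [PA, D.bi, show j < n by omega]⟩
  | zero => exact ⟨0, fun n _ => by simp [PA]⟩
  | add a b _ _ ha hb =>
    obtain ⟨p, hp⟩ := ha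
    obtain ⟨q, hq⟩ := hb
    exact ⟨p + q, fun n hn => by rw [PA_add, hp n (by omega), hq n (by omega)]⟩
  | smul c a _ ha =>
    obtain ⟨p, hp⟩ := ha
    refine ⟨p, fun n hn => ?_⟩
    conv_rhs => rw [← hp n hn]
    simp [PA, smul_sum, mul_smul]

theorem core2 (g : X) (A : Finset ℕ) (hA : A.card ≤ m) (hg : ∀ n ∈ A, ∀ k ∉ A, ‖xs k g‖ ≤ ‖xs n g‖)
    (n : ℕ) (hI : ∀ j ∈ A, j < n) (B : Finset ℕ) (hB : B.card ≤ A.card)
    (y : X) (hy : y ∈ Submodule.span 𝕜 (x '' B)) :
    N (g - PA x xs (range n) g) ≤ 2 * κ * K * L * κ * κ * N (g - y) := by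
  have κ0 : 0 < κ := zero_lt_one.trans_le D.k1
  have K0 : 0 < K := zero_lt_one.trans_le D.K1
  refine le_of_forall_pos_le_add (fun δ hδ => ?_)
  obtain ⟨u, hu, h⟩ := D.dn g (δ / (κ * κ * (1 + K))) (by positivity)
  obtain ⟨n0, h0⟩ := D.fix hu
  have c := D.core g A hA hg n (n + n0) (by omega) (fun j hj => Or.inl (hI j hj)) B hB y hy
  have e : g - PA x xs (range n) g = ((g - u) - PA x xs (range (n + n0)) (g - u))
      + (PA x xs (range (n + n0)) g - PA x xs (range n) g) := by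
    rw [PA_sub, h0 _ (by omega)]; abel
  have t1 := D.trs (g - u) (PA x xs (range (n + n0)) (g - u))
  have t2 := D.sc (n + n0) (g - u)
  rw [lt_div_iff₀ (by positivity)] at h
  rw [e]
  calc _ ≤ κ * (κ * (N (g - u) + K * N (g - u)) + 2 * κ * K * L * κ * N (g - y)) :=
        (D.tr _ _).trans (by gcongr; exact t1.trans (by gcongr))
    _ = 2 * κ * K * L * κ * κ * N (g - y) + N (g - u) * (κ * κ * (1 + K)) := by ring
    _ ≤ _ := by linarith

end Data

theorem mid (A : Finset ℕ) (hA : A.Nonempty) : ∃ k ∈ A,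
    A.card ≤ 2 * (A.filter (· < k + 1)).card ∧ 2 * (A.filter (· < k)).card < A.card := by
  have ex : ∃ n, A.card ≤ 2 * (A.filter (· < n + 1)).card := by
    refine ⟨A.sup id, ?_⟩
    rw [filter_true_of_mem (p := (· < A.sup id + 1))
      (fun j hj => Nat.lt_succ_of_le (le_sup (f := id) hj))]; omega
  have h1 := Nat.find_spec ex
  have h2 : 2 * (A.filter (· < Nat.find ex)).card < A.card := by
    rcases Nat.eq_zero_or_eq_succ_pred (Nat.find ex) with h | h
    · rw [h]; simpa using hA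
    · have := Nat.find_min ex (m := (Nat.find ex).pred) (by omega)
      rw [h]; exact not_le.mp this
  refine ⟨_, ?_, h1, h2⟩
  by_contra hc
  have : A.filter (· < Nat.find ex + 1) = A.filter (· < Nat.find ex) := by
    refine filter_congr (fun j hj => ?_)
    have : j ≠ Nat.find ex := by rintro rfl; exact hc hj
    omega
  rw [this] at h1; omega

end Pool.Agent.H8.CG
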