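import Mathlib
import Pool.Agent.H8.CG1

namespace Pool.Agent.H8.CG
open Finset

variable {𝕜 : Type*} [RCLike 𝕜] {X : Type*} [AddCommGroup X] [Module 𝕜 X]
variable {N : X → ℝ} {x : ℕ → X} {xs : ℕ → X →ₗ[𝕜] 𝕜} {κ K L : ℝ} {m : ℕ}

theorem cards (A : Finset ℕ) (k : ℕ) :
    (A.filter (· < k)).card + (A.filter (fun j => ¬ j < k)).card = A.card :=
  card_filter_add_card_filter_not _

namespace Data
variable (D : Data N x xs κ K L m)
include D

theorem gpart (f : X) (A : Finset ℕ) (hA : A.card ≤ m) (hg : ∀ n ∈ A, ∀ k ∉ A, ‖xs k f‖ ≤ ‖xs n f‖) :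
    N (PA x xs A f) ≤ (κ * K + 4 * κ ^ 5 * K) * L * N f := by
  have κ0 : 0 < κ := zero_lt_one.trans_le D.k1
  have K0 : 0 < K := zero_lt_one.trans_le D.K1
  have L0 := D.L0
  have f0 := D.nn f
  rcases A.eq_empty_or_nonempty with rfl | hne
  · have : N (PA x xs ∅ f) = 0 := by simpa [PA] using D.sm 0 f
    rw [this]; positivity
  obtain ⟨k, hk, h1, h2⟩ := mid A hne
  have c1 := cards A k
  have c2 := cards A (k + 1)
  have gr : ∀ S T : Finset ℕ, S ⊆ A → T ⊆ A → Disjoint S T → (∀ j ∈ A, j ∈ S ∨ j ∈ T) →
      ∀ n ∈ T, ∀ j ∉ T, ‖xs j (f - PA x xs S f)‖ ≤ ‖xs n (f - PA x xs S f)‖ := by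
    intro S T hS hT dj cov n hn j hj
    simp only [map_sub, PA, D.co, if_neg (disjoint_right.mp dj hn), sub_zero]
    split_ifs with h
    · simp
    · rw [sub_zero]
      exact hg n (hT hn) j (fun hA => (cov j hA).elim h hj)
  have a1 := D.core1 (f - PA x xs (A.filter (· < k)) f) (A.filter (fun j => ¬ j < k))
    ((card_filter_le _ _).trans hA)
    (gr _ _ (filter_subset _ _) (filter_subset _ _) (disjoint_filter_filter_not _ _ _)
      (fun j hj => by simp only [mem_filter]; tauto)) k (fun j hj => not_lt.mp (mem_filter.mp hj).2)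
    (A.filter (· < k)) (by omega) _ (Submodule.neg_mem _ (mem_sp _ (fun j => xs j f)))
  have a2 := D.core2 (f - PA x xs (A.filter (fun j => ¬ j < k + 1)) f) (A.filter (· < k + 1))
    ((card_filter_le _ _).trans hA)
    (gr _ _ (filter_subset _ _) (filter_subset _ _) (disjoint_filter_filter_not _ _ _).symm
      (fun j hj => by simp only [mem_filter]; tauto)) (k + 1) (fun j hj => (mem_filter.mp hj).2)
    (A.filter (fun j => ¬ j < k + 1)) (by omega) _ (Submodule.neg_mem _ (mem_sp _ (fun j => xs j f)))
  have e0 : ∀ S, f - PA x xs S f - -∑ j ∈ S, xs j f • x j = f := by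
    intro S; unfold PA; abel
  rw [e0] at a1 a2
  have p : ∀ S T, PA x xs S (PA x xs T f) = PA x xs (T.filter (· ∈ S)) f := fun S T => D.PAsum S T _
  rw [PA_sub, p] at a1 a2
  have q1 : (A.filter (· < k)).filter (· ∈ range k) = A.filter (· < k) :=
    filter_true_of_mem (fun j hj => mem_range.mpr (mem_filter.mp hj).2)
  have q2 : (A.filter (fun j => ¬ j < k + 1)).filter (· ∈ range (k + 1)) = ∅ :=
    filter_false_of_mem (fun j hj => by simpa using (mem_filter.mp hj).2)
  rw [q1] at a1
  rw [q2] at a2
  have q3 : PA x xs A f = PA x xs (A.filter (· < k)) f + xs k f • x k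
      + PA x xs (A.filter (fun j => ¬ j < k + 1)) f := by
    unfold PA
    rw [← sum_filter_add_sum_filter_not A (· < k + 1)]
    congr 1
    have : A.filter (· < k + 1) = insert k (A.filter (· < k)) := by
      ext j; simp only [mem_filter, mem_insert]
      constructor
      · rintro ⟨a, b⟩; by_cases h : j = k
        · exact Or.inl h
        · exact Or.inr ⟨a, by omega⟩
      · rintro (rfl | ⟨a, b⟩)
        · exact ⟨hk, by omega⟩
        · exact ⟨a, by omega⟩
    rw [this, sum_insert (by simp), add_comm]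
  have q4 : PA x xs (range (k + 1)) f = PA x xs (range k) f + xs k f • x k := sum_range_succ _ _
  have q5 : PA x xs ∅ f = 0 := by simp [PA]
  have e : PA x xs A f = f - ((PA x xs (range k) f - PA x xs (A.filter (· < k)) f)
      + (f - PA x xs (A.filter (fun j => ¬ j < k + 1)) f - (PA x xs (range (k + 1)) f - PA x xs ∅ f))) := by
    rw [q3, q4, q5]; abel
  have kl : N f ≤ K * L * N f := le_mul_of_one_le_left f0 D.KL
  rw [e]
  calc _ ≤ κ * (K * L * N f + κ * (2 * κ * K * L * κ * κ * N f + 2 * κ * K * L * κ * κ * N f)) :=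
        (D.trs _ _).trans (by gcongr; exact (D.tr _ _).trans (by gcongr))
    _ = _ := by ring

theorem half (c : ℕ → 𝕜) (S : Finset ℕ) (r : ℕ) (hS : S.card ≤ 2 * r) (Z : ℝ)
    (h : ∀ T ⊆ S, T.card ≤ r → N (∑ j ∈ T, c j • x j) ≤ Z) : N (∑ j ∈ S, c j • x j) ≤ κ * (Z + Z) := by
  have κ0 : 0 < κ := zero_lt_one.trans_le D.k1
  obtain ⟨T, hT, hc⟩ := exists_subset_card_eq (s := S) (n := min S.card r) (min_le_left _ _)
  rw [← sum_sdiff hT]
  have h2 := card_sdiff_add_card_eq_card hT
  exact (D.tr _ _).trans (by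
    gcongr
    · exact h _ sdiff_subset (by omega)
    · exact h _ hT (by omega))

theorem lpart (f : X) (A B : Finset ℕ) (hAB : A.card = B.card) (hB : B.card ≤ m)
    (hg : ∀ n ∈ B, ∀ k ∉ B, ‖xs k f‖ ≤ ‖xs n f‖) (t : ℝ) (ht0 : 0 ≤ t) (ht : ∀ n ∈ B, t ≤ ‖xs n f‖)
    (ε : ℕ → 𝕜) (hε : ∀ j ∈ A, ‖ε j‖ = 1) :
    t * N (∑ j ∈ A, ε j • x j) ≤ (24 * κ ^ 7 * K ^ 2) * L * N f := by
  have k1 := D.k1
  have K1 := D.K1
  have κ0 : 0 < κ := zero_lt_one.trans_le D.k1
  have K0 : 0 < K := zero_lt_one.trans_le D.K1
  have L0 := D.L0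
  have f0 := D.nn f
  rcases B.eq_empty_or_nonempty with rfl | hne
  · rw [card_empty, card_eq_zero] at hAB
    have : N 0 = 0 := by simpa using D.sm 0 f
    rw [hAB, sum_empty, this, mul_zero]; positivity
  obtain ⟨k, hk, h1, h2⟩ := mid B hne
  have c1 := cards B k
  set c : ℕ → 𝕜 := fun j => (t : 𝕜) * ε j with hc
  have nc : ∀ j ∈ A, ‖c j‖ = t := fun j hj => by
    simp only [hc]; rw [norm_mul, hε j hj, RCLike.norm_ofReal, abs_of_nonneg ht0, mul_one]
  have e0 : t * N (∑ j ∈ A, ε j • x j) = N (∑ j ∈ A, c j • x j) := by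
    have := D.sm (t : 𝕜) (∑ j ∈ A, ε j • x j)
    rw [RCLike.norm_ofReal, abs_of_nonneg ht0] at this
    rw [← this, smul_sum]; simp only [hc, mul_smul]
  have pp : ∀ n, PA x xs (range n) (PA x xs (range n) f) = PA x xs (range n) f := by
    intro n
    have := D.PAsum (range n) (range n) (fun j => xs j f)
    rw [filter_true_of_mem (fun j hj => hj)] at this
    exact this
  set Z := 2 * κ * K * L * κ * κ * (κ * (2 * K) * N f) with hZ
  have aL := D.half c (A.filter (· < k)) (B.filter (fun j => ¬ j < k)).card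
    ((card_filter_le _ _).trans (by omega)) Z (by
      intro T hT hr
      have hT' : ∀ j ∈ T, j ∈ A ∧ j < k := fun j hj => mem_filter.mp (hT hj)
      have a := D.core1 (f - PA x xs (range k) f + ∑ j ∈ T, c j • x j) (B.filter (fun j => ¬ j < k))
        ((card_filter_le _ _).trans hB) (by
          intro n hn j hj
          rw [mem_filter] at hn hj
          have n1 : n ∉ range k := by simpa using hn.2
          have n2 : n ∉ T := fun h => hn.2 (hT' n h).2
          simp only [map_add, map_sub, PA, D.co, if_neg n1, if_neg n2, sub_zero, add_zero]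
          by_cases h : j < k
          · rw [if_pos (mem_range.mpr h), sub_self, zero_add]
            split_ifs with h3
            · rw [nc j (hT' j h3).1]; exact ht n hn.1
            · simp
          · rw [if_neg (by simpa using h), if_neg (fun h3 => h (hT' j h3).2), sub_zero, add_zero]
            exact hg n hn.1 j (fun h4 => hj ⟨h4, h⟩)) k (fun j hj => not_lt.mp (mem_filter.mp hj).2)
        T hr _ (mem_sp T c)
      rw [PA_add, PA_sub, pp, sub_self, zero_add, D.PAsum,
        filter_true_of_mem (fun j hj => mem_range.mpr (hT' j hj).2), add_sub_cancel_right] at a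
      refine a.trans ?_
      rw [hZ]
      gcongr
      refine (D.trs _ _).trans ?_
      have := D.sc k f
      have : N f ≤ K * N f := le_mul_of_one_le_left f0 K1
      rw [mul_assoc]; gcongr; linarith)
  have aR := D.half c (A.filter (fun j => ¬ j < k + 1)) (B.filter (· < k + 1)).card
    ((card_filter_le _ _).trans (by omega)) Z (by
      intro T hT hr
      have hT' : ∀ j ∈ T, j ∈ A ∧ ¬ j < k + 1 := fun j hj => mem_filter.mp (hT hj)
      have a := D.core2 (PA x xs (range (k + 1)) f + ∑ j ∈ T, c j • x j) (B.filter (· < k + 1))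
        ((card_filter_le _ _).trans hB) (by
          intro n hn j hj
          rw [mem_filter] at hn hj
          have n1 : n ∈ range (k + 1) := by simpa using hn.2
          have n2 : n ∉ T := fun h => (hT' n h).2 hn.2
          simp only [map_add, PA, D.co, if_pos n1, if_neg n2, add_zero]
          by_cases h : j < k + 1
          · rw [if_pos (mem_range.mpr h), if_neg (fun h3 => (hT' j h3).2 h), add_zero]
            exact hg n hn.1 j (fun h4 => hj ⟨h4, h⟩)
          · rw [if_neg (by simpa using h), zero_add]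
            split_ifs with h3
            · rw [nc j (hT' j h3).1]; exact ht n hn.1
            · simp) (k + 1) (fun j hj => (mem_filter.mp hj).2) T hr _ (mem_sp T c)
      rw [PA_add, pp, D.PAsum, filter_false_of_mem (fun j hj => by simpa using (hT' j hj).2),
        sum_empty, add_zero, add_sub_cancel_left, add_sub_cancel_right] at a
      refine a.trans ?_
      rw [hZ]
      gcongr
      refine (D.sc _ _).trans ?_
      gcongr
      nlinarith)
  have aM : N (∑ j ∈ (A.filter (fun j => ¬ j < k)).filter (· < k + 1), c j • x j) ≤ κ * (Z + Z) := by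
    have Z0 : 0 ≤ Z := by positivity
    have b1 : N (xs k f • x k) ≤ κ * (2 * K) * N f := by
      have q4 : xs k f • x k = PA x xs (range (k + 1)) f - PA x xs (range k) f := by
        unfold PA; rw [sum_range_succ]; abel
      rw [q4]
      refine (D.trs _ _).trans ?_
      have := D.sc k f
      have := D.sc (k + 1) f
      rw [mul_assoc]; gcongr; linarith
    have b2 : κ * (2 * K) * N f ≤ κ * (Z + Z) := by
      have u1 : 1 ≤ 2 * κ * K * L * κ * κ := by
        have := one_le_mul_of_one_le_of_one_le (one_le_pow₀ k1 (n := 3)) D.KL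
        nlinarith
      have u2 : κ * (2 * K) * N f ≤ Z := le_mul_of_one_le_left (by positivity) u1
      nlinarith
    by_cases h : k ∈ A
    · have : (A.filter (fun j => ¬ j < k)).filter (· < k + 1) = {k} := by
        ext j; simp only [mem_filter, mem_singleton]
        constructor
        · rintro ⟨⟨_, a⟩, b⟩; omega
        · rintro rfl; exact ⟨⟨h, by omega⟩, by omega⟩
      rw [this, sum_singleton, D.sm, nc k h]
      rw [D.sm] at b1
      exact (mul_le_mul_of_nonneg_right (ht k hk) (D.nn _)).trans (b1.trans b2)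
    · have : (A.filter (fun j => ¬ j < k)).filter (· < k + 1) = ∅ := by
        refine filter_false_of_mem (fun j hj => ?_)
        rw [mem_filter] at hj
        have : j ≠ k := by rintro rfl; exact h hj.1
        omega
      have z : N 0 = 0 := by simpa using D.sm 0 f
      rw [this, sum_empty, z]; positivity
  have sp : (A.filter (fun j => ¬ j < k)).filter (fun j => ¬ j < k + 1) = A.filter (fun j => ¬ j < k + 1) := by
    ext j; simp only [mem_filter]
    constructor
    · rintro ⟨⟨a, _⟩, b⟩; exact ⟨a, b⟩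
    · rintro ⟨a, b⟩; exact ⟨⟨a, by omega⟩, b⟩
  rw [e0, ← sum_filter_add_sum_filter_not A (· < k),
    ← sum_filter_add_sum_filter_not (A.filter (fun j => ¬ j < k)) (· < k + 1), sp]
  have W0 : 0 ≤ κ * (Z + Z) := by positivity
  calc _ ≤ κ * (κ * (κ * (Z + Z)) + κ * (κ * (Z + Z) + κ * (Z + Z))) :=
        (D.tr _ _).trans (by
          gcongr
          · exact aL.trans (le_mul_of_one_le_left W0 k1)
          · exact (D.tr _ _).trans (by gcongr))
    _ = 24 * κ ^ 7 * K ^ 2 * L * N f := by rw [hZ]; ring
    _ ≤ _ := le_rfl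

end Data
end Pool.Agent.H8.CG
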