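import Mathlib
import Pool.Agent.H8.CG2

namespace Pool.Agent.H8.CG
open Finset

variable {𝕜 : Type} [RCLike 𝕜]

/-- the space of absolutely summable sequences -/
abbrev L1 (𝕜 : Type) [RCLike 𝕜] := lp (fun _ : ℕ => 𝕜) 1

/-- unit vectors -/
noncomputable def e (n : ℕ) : L1 𝕜 := lp.single 1 n 1
/-- coordinates -/
noncomputable def es (n : ℕ) : L1 𝕜 →ₗ[𝕜] 𝕜 := lp.evalₗ (fun _ : ℕ => 𝕜) 1 n
/-- the renorming -/
noncomputable def ND (δ : ℝ) (f : L1 𝕜) : ℝ := ‖lp.tsumCLM 𝕜 ℕ 𝕜 f‖ + δ * ‖f‖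

theorem es_e (i j : ℕ) : es i (e j : L1 𝕜) = if i = j then 1 else 0 := by
  simp [es, e, lp.single_apply, Pi.single_apply]

theorem S_e (j : ℕ) : lp.tsumCLM 𝕜 ℕ 𝕜 (e j) = 1 := by
  simp [e, lp.single_apply, Pi.single_apply]

theorem n_e (j : ℕ) : ‖(e j : L1 𝕜)‖ = 1 := by
  unfold e; rw [lp.norm_single (by norm_num)]; simp

theorem S_le (f : L1 𝕜) : ‖lp.tsumCLM 𝕜 ℕ 𝕜 f‖ ≤ ‖f‖ := lp.norm_tsum_le f

theorem PA_e (A : Finset ℕ) (f : L1 𝕜) : PA e es A f = ∑ i ∈ A, lp.single 1 i (f i) := by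
  unfold PA
  refine sum_congr rfl (fun i _ => ?_)
  rw [e, ← lp.single_smul]; simp [es]

theorem n_sub (A : Finset ℕ) (f : L1 𝕜) : ‖f - PA e es A f‖ = ‖f‖ - ∑ i ∈ A, ‖es i f‖ := by
  have := lp.norm_compl_sum_single (p := 1) (by simp) f A
  rw [PA_e]
  simpa [es] using this

theorem PA_fix {B : Finset ℕ} {y : L1 𝕜} (hy : y ∈ Submodule.span 𝕜 (e '' B)) : PA e es B y = y := by
  induction hy using Submodule.span_induction with
  | mem _ h =>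
    obtain ⟨j, hj, rfl⟩ := h
    simp [PA, es_e, show j ∈ B from hj]
  | zero => simp [PA]
  | add a b _ _ ha hb => rw [PA_add, ha, hb]
  | smul c a _ ha =>
    conv_rhs => rw [← ha]
    simp [PA, smul_sum, mul_smul]

theorem rearr (a : ℕ → ℝ) (ha : ∀ i, 0 ≤ a i) (A B : Finset ℕ) (hc : B.card ≤ A.card)
    (hg : ∀ n ∈ A, ∀ k ∉ A, a k ≤ a n) : ∑ i ∈ B, a i ≤ ∑ i ∈ A, a i := by
  rw [← sum_inter_add_sum_sdiff B A, ← sum_inter_add_sum_sdiff A B, inter_comm]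
  refine add_le_add le_rfl ?_
  have c1 := card_sdiff_add_card_inter A B
  have c2 := card_sdiff_add_card_inter B A
  rw [inter_comm] at c2
  rcases (B \ A).eq_empty_or_nonempty with h | h
  · rw [h]; exact sum_nonneg (fun i _ => ha i)
  · obtain ⟨k, hk, hm⟩ := exists_max_image (B \ A) a h
    calc _ ≤ (B \ A).card • a k := sum_le_card_nsmul _ _ _ hm
      _ ≤ (A \ B).card • a k := nsmul_le_nsmul_left (ha k) (by omega)
      _ ≤ _ := card_nsmul_le_sum _ _ _ (fun i hi => hg i (mem_sdiff.mp hi).1 k (mem_sdiff.mp hk).2)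

theorem cheb (δ : ℝ) (hδ : 0 < δ) (f : L1 𝕜) (A : Finset ℕ) (hA : A.Nonempty)
    (hg : ∀ n ∈ A, ∀ k ∉ A, ‖es k f‖ ≤ ‖es n f‖) (B : Finset ℕ) (hB : B.card ≤ A.card)
    (y : L1 𝕜) (hy : y ∈ Submodule.span 𝕜 (e '' B)) :
    ∃ z ∈ Submodule.span 𝕜 (e '' A), ND δ (f - z) ≤ 2 * ND δ (f - y) := by
  obtain ⟨k, hk⟩ := hA
  set h := f - PA e es A f with hh
  refine ⟨PA e es A f + lp.tsumCLM 𝕜 ℕ 𝕜 h • e k, Submodule.add_mem _ (mem_sp A _)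
    (Submodule.smul_mem _ _ (Submodule.subset_span ⟨k, hk, rfl⟩)), ?_⟩
  rw [← sub_sub, ← hh]
  have h1 : ‖h‖ ≤ ‖f - y‖ := by
    have a1 := n_sub B (f - y)
    rw [PA_sub, PA_fix hy, sub_sub_sub_cancel_right, n_sub] at a1
    have a2 := rearr (fun i => ‖es i f‖) (fun _ => norm_nonneg _) A B hB hg
    have a3 : 0 ≤ ∑ i ∈ B, ‖es i (f - y)‖ := sum_nonneg (fun _ _ => norm_nonneg _)
    rw [hh, n_sub]; linarith
  have h2 : ‖h - lp.tsumCLM 𝕜 ℕ 𝕜 h • e k‖ ≤ 2 * ‖h‖ := by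
    refine (norm_sub_le _ _).trans ?_
    rw [norm_smul, n_e]; linarith [S_le h]
  unfold ND
  rw [map_sub, map_smul, S_e, smul_eq_mul, mul_one, sub_self, norm_zero, zero_add]
  nlinarith [norm_nonneg (lp.tsumCLM 𝕜 ℕ 𝕜 (f - y))]

theorem ND_lo (δ : ℝ) (f : L1 𝕜) : δ * ‖f‖ ≤ ND δ f := le_add_of_nonneg_left (norm_nonneg _)
theorem ND_hi {δ : ℝ} (h : δ ≤ 1) (f : L1 𝕜) : ND δ f ≤ 2 * ‖f‖ := by
  unfold ND; nlinarith [S_le f, norm_nonneg f]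
theorem ND_tr {δ : ℝ} (h : 0 ≤ δ) (f g : L1 𝕜) : ND δ (f + g) ≤ ND δ f + ND δ g := by
  unfold ND; rw [map_add]
  nlinarith [norm_add_le f g, norm_add_le (lp.tsumCLM 𝕜 ℕ 𝕜 f) (lp.tsumCLM 𝕜 ℕ 𝕜 g)]
theorem ND_sm (δ : ℝ) (c : 𝕜) (f : L1 𝕜) : ND δ (c • f) = ‖c‖ * ND δ f := by
  unfold ND; rw [map_smul, norm_smul, norm_smul]; ring

theorem n_PA (A : Finset ℕ) (f : L1 𝕜) : ‖PA e es A f‖ ≤ 2 * ‖f‖ := by
  have h1 := n_sub A f
  have h2 := norm_sub_le f (f - PA e es A f)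
  rw [sub_sub_cancel] at h2
  have a3 : 0 ≤ ∑ i ∈ A, ‖es i f‖ := sum_nonneg (fun _ _ => norm_nonneg _)
  linarith

theorem dense (f : L1 𝕜) (η : ℝ) (hη : 0 < η) :
    ∃ u ∈ Submodule.span 𝕜 (Set.range e), ‖f - u‖ < η := by
  have h := lp.hasSum_single (p := 1) (by simp) f
  obtain ⟨s, hs⟩ := ((Metric.tendsto_nhds.mp h) η hη).exists
  refine ⟨_, ?_, by rwa [dist_comm, dist_eq_norm] at hs⟩
  rw [← PA_e]
  exact Submodule.span_mono (Set.image_subset_range _ _) (mem_sp s _)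

theorem bad (δ : ℝ) : ND δ ((e 0 : L1 𝕜) - e 1) ≤ |δ| * 2 ∧
    ND δ (PA e es {0} ((e 0 : L1 𝕜) - e 1)) = 1 + δ := by
  constructor
  · unfold ND
    rw [map_sub, S_e, S_e, sub_self, norm_zero, zero_add]
    have := norm_sub_le (e 0 : L1 𝕜) (e 1)
    rw [n_e, n_e] at this
    exact (mul_le_mul_of_nonneg_right (le_abs_self δ) (norm_nonneg _)).trans (by gcongr; linarith)
  · simp only [PA, sum_singleton, map_sub, es_e]
    simp [ND, n_e, -lp.tsumCLM_apply, S_e]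

end Pool.Agent.H8.CG
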