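import Mathlib

namespace Pool.Agent.H8.Chord

open MeasureTheory Set Filter Topology

lemma support {φ : ℝ → ℝ} (hφ : ConvexOn ℝ univ φ) (s t : ℝ) :
    φ t + derivWithin φ (Ioi t) t * (s - t) ≤ φ s := by
  have hi : t ∈ interior (univ : Set ℝ) := by simp
  rcases lt_trichotomy s t with h | h | h
  · have h1 := (hφ.slope_le_leftDeriv_of_mem_interior (mem_univ s) hi h).trans
      (hφ.leftDeriv_le_rightDeriv_of_mem_interior hi)
    rw [slope_def_field, div_le_iff₀ (by linarith)] at h1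
    linarith
  · rw [h]; simp
  · have h1 := hφ.rightDeriv_le_slope_of_mem_interior hi (mem_univ s) h
    rw [slope_def_field, le_div_iff₀ (by linarith)] at h1
    linarith

lemma pt (c r p m u : ℝ) (hc : 0 ≤ c) (hr : 0 ≤ r) (hm : 0 ≤ m) (hu : 0 ≤ u) (hp : p ≤ m + r * u) :
    2 * (p * √(c ^ 2 + r ^ 2)) ≤ 2 * p * r + 2 * m * c + c ^ 2 * u := by
  have h1 : √(c ^ 2 + r ^ 2) ^ 2 = c ^ 2 + r ^ 2 := Real.sq_sqrt (by positivity)
  have h2 : r ≤ √(c ^ 2 + r ^ 2) := Real.le_sqrt_of_sq_le (by nlinarith)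
  have h3 : √(c ^ 2 + r ^ 2) ≤ c + r := Real.sqrt_le_iff.2 ⟨by positivity, by nlinarith⟩
  set w := √(c ^ 2 + r ^ 2) - r with hw
  have h4 : √(c ^ 2 + r ^ 2) = w + r := by ring
  have hw0 : 0 ≤ w := by linarith
  have hw1 : w ≤ c := by linarith
  rw [h4] at h1 ⊢
  have h5 : 2 * (r * w) ≤ c ^ 2 := by nlinarith
  have h6 : p * w ≤ (m + r * u) * w := mul_le_mul_of_nonneg_right hp hw0
  nlinarith [mul_le_mul_of_nonneg_left hw1 hm, mul_le_mul_of_nonneg_left h5 hu]

theorem chord {φ : ℝ → ℝ} (hφ : ConvexOn ℝ univ φ) (h0 : ∀ t, 0 ≤ φ t) (c : ℝ) (hc : 0 ≤ c)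
    (hc2 : c ≤ 1 / 2) (a b : ℝ) (hab : a ≤ b) :
    2 * ∫⁻ t in Icc a b, ENNReal.ofReal (φ t * √(c ^ 2 + (deriv φ t) ^ 2)) ≤
      ENNReal.ofReal (a ^ 2 + φ a ^ 2) + ENNReal.ofReal (b ^ 2 + φ b ^ 2) := by
  have hcont : Continuous φ := hφ.locallyLipschitz.continuous
  set r : ℝ → ℝ := fun t => derivWithin φ (Ioi t) t with hr
  have hmono : Monotone r := by
    have := hφ.monotoneOn_rightDeriv
    rw [interior_univ, monotoneOn_univ] at this
    exact this
  have hd : ∀ t, HasDerivWithinAt φ (r t) (Ioi t) t := fun t =>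
    hφ.hasDerivWithinAt_rightDeriv_of_mem_interior (by simp)
  have hint : ∀ u v, IntegrableOn (fun t => 2 * (φ t * √(c ^ 2 + r t ^ 2))) (Icc u v) := by
    intro u v
    have h1 : IntegrableOn r (Icc u v) := (hmono.monotoneOn _).integrableOn_isCompact isCompact_Icc
    have h2 : IntegrableOn (fun t => (2 * φ t) * (c + |r t|)) (Icc u v) :=
      IntegrableOn.continuousOn_mul (by fun_prop)
        ((integrableOn_const (by simp)).add h1.abs) isCompact_Icc
    refine h2.mono' ?_ (Eventually.of_forall fun t => ?_)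
    · have := hmono.measurable
      exact (by fun_prop : Measurable fun t => 2 * (φ t * √(c ^ 2 + r t ^ 2))).aestronglyMeasurable
    · have h3 : √(c ^ 2 + r t ^ 2) ≤ c + |r t| :=
        Real.sqrt_le_iff.2 ⟨by positivity, by nlinarith [abs_nonneg (r t), sq_abs (r t)]⟩
      have := h0 t
      rw [Real.norm_of_nonneg (by positivity)]
      nlinarith
  obtain ⟨t0, ht0, hmin⟩ := isCompact_Icc.exists_isMinOn (nonempty_Icc.2 hab) hcont.continuousOn
  have hR : ∫ t in t0..b, 2 * (φ t * √(c ^ 2 + r t ^ 2)) ≤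
      (φ b ^ 2 + 2 * φ t0 * c * b + c ^ 2 * (b - t0) ^ 2 / 2) -
      (φ t0 ^ 2 + 2 * φ t0 * c * t0 + c ^ 2 * (t0 - t0) ^ 2 / 2) := by
    refine intervalIntegral.integral_le_sub_of_hasDeriv_right_of_le
      (g := fun t => φ t ^ 2 + 2 * φ t0 * c * t + c ^ 2 * (t - t0) ^ 2 / 2)
      (g' := fun t => 2 * φ t * r t + 2 * φ t0 * c + c ^ 2 * (t - t0)) ht0.2 (by fun_prop)
      (fun t _ => ?_) (hint _ _) fun t ht => ?_
    · have h1 := (((hd t).pow 2).add (((hasDerivAt_id t).const_mul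
        (2 * φ t0 * c)).hasDerivWithinAt)).add
        ((((((hasDerivAt_id t).sub_const t0).pow 2).const_mul (c ^ 2)).div_const 2).hasDerivWithinAt)
      refine HasDerivWithinAt.congr_deriv h1 ?_
      simp
      ring
    · have h1 := support hφ t0 t
      have h2 : φ t0 ≤ φ t := hmin ⟨ht0.1.trans ht.1.le, ht.2.le⟩
      have h3 : 0 ≤ r t := by
        by_contra h
        push Not at h
        have := mul_pos_of_neg_of_neg h (sub_neg.2 ht.1)
        simp only [hr] at this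
        linarith
      exact pt c (r t) (φ t) (φ t0) (t - t0) hc h3 (h0 _) (by linarith [ht.1])
        (by simp only [hr]; linarith)
  have hL : ∫ t in a..t0, 2 * (φ t * √(c ^ 2 + r t ^ 2)) ≤
      (-φ t0 ^ 2 + 2 * φ t0 * c * t0 - c ^ 2 * (t0 - t0) ^ 2 / 2) -
      (-φ a ^ 2 + 2 * φ t0 * c * a - c ^ 2 * (a - t0) ^ 2 / 2) := by
    refine intervalIntegral.integral_le_sub_of_hasDeriv_right_of_le
      (g := fun t => -φ t ^ 2 + 2 * φ t0 * c * t - c ^ 2 * (t - t0) ^ 2 / 2)
      (g' := fun t => 2 * φ t * (-r t) + 2 * φ t0 * c + c ^ 2 * (t0 - t)) ht0.1 (by fun_prop)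
      (fun t _ => ?_) (hint _ _) fun t ht => ?_
    · have h1 := (((hd t).pow 2).neg.add (((hasDerivAt_id t).const_mul
        (2 * φ t0 * c)).hasDerivWithinAt)).sub
        ((((((hasDerivAt_id t).sub_const t0).pow 2).const_mul (c ^ 2)).div_const 2).hasDerivWithinAt)
      refine HasDerivWithinAt.congr_deriv h1 ?_
      simp
      ring
    · have h1 := support hφ t0 t
      have h2 : φ t0 ≤ φ t := hmin ⟨ht.1.le, ht.2.le.trans ht0.2⟩
      have h3 : 0 ≤ -r t := by
        by_contra h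
        push Not at h
        have := mul_pos (show 0 < r t by linarith) (sub_pos.2 ht.2)
        simp only [hr] at this
        linarith
      have h4 := pt c (-r t) (φ t) (φ t0) (t0 - t) hc h3 (h0 _) (by linarith [ht.2])
        (by simp only [hr]; linarith)
      rwa [neg_sq] at h4
  have hI : ∀ u v, u ≤ v → IntervalIntegrable (fun t => 2 * (φ t * √(c ^ 2 + r t ^ 2))) volume u v :=
    fun u v huv => (intervalIntegrable_iff_integrableOn_Icc_of_le huv).2 (hint u v)
  have hsum := intervalIntegral.integral_add_adjacent_intervals (hI _ _ ht0.1) (hI _ _ ht0.2)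
  have hfin : ∫ t in a..b, 2 * (φ t * √(c ^ 2 + r t ^ 2)) ≤
      (a ^ 2 + φ a ^ 2) + (b ^ 2 + φ b ^ 2) := by
    rw [← hsum]
    have e1 : c ^ 2 ≤ 1 / 4 := by nlinarith
    have e2 : (b - t0) ^ 2 + (a - t0) ^ 2 ≤ (b - a) ^ 2 := by nlinarith [ht0.1, ht0.2]
    have e3 : c ^ 2 * ((b - t0) ^ 2 + (a - t0) ^ 2) ≤ c ^ 2 * (b - a) ^ 2 :=
      mul_le_mul_of_nonneg_left e2 (by positivity)
    have e4 : c ^ 2 * (b - a) ^ 2 ≤ 1 / 4 * (b - a) ^ 2 :=
      mul_le_mul_of_nonneg_right e1 (by positivity)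
    nlinarith [sq_nonneg (2 * φ t0 - c * (b - a)), sq_nonneg (a + b), sq_nonneg (b - a)]
  rw [← ENNReal.ofReal_add (by positivity) (by positivity)]
  refine le_trans ?_ (ENNReal.ofReal_le_ofReal hfin)
  rw [intervalIntegral.integral_of_le hab, ← integral_Icc_eq_integral_Ioc,
    ofReal_integral_eq_lintegral_ofReal (hint a b)
      (Eventually.of_forall fun t => by have := h0 t; positivity),
    ← lintegral_const_mul' _ _ (by simp)]
  refine lintegral_mono fun t => ?_
  rw [ENNReal.ofReal_mul (p := 2) (by norm_num), ENNReal.ofReal_ofNat]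
  have hsq : deriv φ t ^ 2 ≤ r t ^ 2 := by
    by_cases h : DifferentiableAt ℝ φ t
    · have : r t = deriv φ t := h.derivWithin (uniqueDiffWithinAt_Ioi t)
      rw [this]
    · rw [deriv_zero_of_not_differentiableAt h]
      nlinarith [sq_nonneg (r t)]
  exact mul_le_mul_right (ENNReal.ofReal_le_ofReal (mul_le_mul_of_nonneg_left
    (Real.sqrt_le_sqrt (by linarith)) (h0 t))) _

end Pool.Agent.H8.Chord
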