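import Mathlib

set_option autoImplicit false
open MeasureTheory Set Filter Topology

namespace Pool.Agent.H8.Curse

/-- three-step function -/
noncomputable def st (a b u1 u2 u3 t : ℝ) : ℝ := if t ≤ a then u1 else if t ≤ b then u2 else u3

lemma st_meas (a b u1 u2 u3 : ℝ) : Measurable (st a b u1 u2 u3) :=
  Measurable.ite measurableSet_Iic measurable_const
    (Measurable.ite measurableSet_Iic measurable_const measurable_const)

lemma st_bdd (a b u1 u2 u3 t : ℝ) : |st a b u1 u2 u3 t| ≤ |u1| + |u2| + |u3| := by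
  have := abs_nonneg u1
  have := abs_nonneg u2
  have := abs_nonneg u3
  unfold st
  split_ifs <;> linarith

lemma int_mul {r : ℝ} (hr : 0 ≤ r) {g : ℝ → ℝ} (hg : Measurable g) {C : ℝ} (hC : ∀ t, |g t| ≤ C)
    (x y : ℝ) : IntegrableOn (fun t => t ^ r * g t) (Icc x y) :=
  Integrable.mul_bdd (c := C) (Real.continuous_rpow_const hr).continuousOn.integrableOn_Icc
    hg.aestronglyMeasurable (Eventually.of_forall hC)

lemma integral_st {r a b : ℝ} (hr : 0 ≤ r) (ha : 0 ≤ a) (hab : a ≤ b) (hb : b ≤ 1) (u1 u2 u3 : ℝ) :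
    ∫ t in Icc (0 : ℝ) 1, t ^ r * st a b u1 u2 u3 t =
      (u1 * a ^ (r + 1) + u2 * (b ^ (r + 1) - a ^ (r + 1)) + u3 * (1 - b ^ (r + 1))) / (r + 1) := by
  have hi : ∀ x y : ℝ, IntervalIntegrable (fun t => t ^ r * st a b u1 u2 u3 t) volume x y :=
    fun x y => (int_mul hr (st_meas a b u1 u2 u3) (st_bdd a b u1 u2 u3) _ _).intervalIntegrable
  have key : ∀ x y u : ℝ, x ≤ y → (∀ t ∈ Ioc x y, st a b u1 u2 u3 t = u) →
      ∫ t in x..y, t ^ r * st a b u1 u2 u3 t = u * ((y ^ (r + 1) - x ^ (r + 1)) / (r + 1)) := by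
    intro x y u hxy h
    rw [← integral_rpow (Or.inl (by linarith)), ← intervalIntegral.integral_const_mul,
      intervalIntegral.integral_of_le hxy, intervalIntegral.integral_of_le hxy]
    exact setIntegral_congr_fun measurableSet_Ioc fun t ht => by
      rw [h t ht, mul_comm]
  rw [integral_Icc_eq_integral_Ioc, ← intervalIntegral.integral_of_le zero_le_one,
    ← intervalIntegral.integral_add_adjacent_intervals (hi 0 a) (hi a 1),
    ← intervalIntegral.integral_add_adjacent_intervals (hi a b) (hi b 1),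
    key 0 a u1 ha (fun t ht => by simp [st, ht.2]),
    key a b u2 hab (fun t ht => by simp [st, ht.2, not_le.mpr ht.1]),
    key b 1 u3 hb (fun t ht => by simp [st, not_le.mpr ht.1, not_le.mpr (hab.trans_lt ht.1)]),
    Real.zero_rpow (by linarith), Real.one_rpow]
  ring

lemma small (m1 m2 m3 : ℝ) (h1 : 0 < m1) (h23 : m2 < m3) (e : ℕ) :
    ∀ᶠ δ in 𝓝[>] (0 : ℝ), m1 + (1 + δ) ^ (e + 1) * m2 + (1 - δ) ^ (e + 1) * m3 < m1 + m2 + m3 ∧
      (1 + 2 * δ) ^ (e + 1) * m2 + m3 < m1 + m2 + m3 := by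
  refine Eventually.and ?_ ?_
  · have hd : HasDerivAt (fun δ : ℝ => (1 + δ) ^ (e + 1) * m2 + (1 - δ) ^ (e + 1) * m3)
        ((e + 1 : ℕ) * (m2 - m3)) 0 := by
      have a1 := (((hasDerivAt_id (0 : ℝ)).const_add 1).pow (e + 1)).mul_const m2
      have a2 := (((hasDerivAt_id (0 : ℝ)).const_sub 1).pow (e + 1)).mul_const m3
      refine (a1.add a2).congr_deriv ?_
      simp only [id, add_zero, sub_zero, one_pow, mul_one]
      ring
    have hneg : ((e + 1 : ℕ) : ℝ) * (m2 - m3) < 0 :=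
      mul_neg_of_pos_of_neg (by positivity) (by linarith)
    filter_upwards [hd.tendsto_slope_zero_right.eventually (gt_mem_nhds hneg),
      self_mem_nhdsWithin] with δ h hδ
    have hδ' : 0 < δ := hδ
    simp only [zero_add, add_zero, sub_zero, one_pow, one_mul, smul_eq_mul] at h
    have := neg_of_mul_neg_right h (inv_pos.mpr hδ').le
    linarith
  · have hc : Continuous fun δ : ℝ => (1 + 2 * δ) ^ (e + 1) * m2 + m3 := by fun_prop
    have := (hc.tendsto 0).eventually (gt_mem_nhds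
      (show (1 + 2 * (0 : ℝ)) ^ (e + 1) * m2 + m3 < m1 + m2 + m3 by simp; linarith))
    exact this.filter_mono nhdsWithin_le_nhds

/-- the decomposition of `1` into a base part, a left part and a right part -/
noncomputable def k (a b δ : ℝ) : Fin 3 → ℝ → ℝ :=
  ![st a b 0 (1 + δ) (1 - δ), st a b 1 0 0, st a b 0 (-δ) δ]

/-- the majorants -/
noncomputable def β (a b δ : ℝ) (e : ℕ) (L : Prop) [Decidable L] : ℝ → ℝ :=
  if L then st a b 1 ((1 + δ) ^ e) ((1 - δ) ^ e) else st a b 0 ((1 + 2 * δ) ^ e) 1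

lemma k_sum (a b δ t : ℝ) : ∑ r, k a b δ r t = 1 := by
  simp only [Fin.sum_univ_three, k, st, Matrix.cons_val_zero, Matrix.cons_val_one,
    Matrix.cons_val]
  split_ifs <;> ring

lemma k_meas (a b δ : ℝ) (r : Fin 3) : Measurable (k a b δ r) := by
  fin_cases r <;> exact st_meas _ _ _ _ _

lemma k_bdd (a b δ : ℝ) (r : Fin 3) : ∃ C, ∀ t, |k a b δ r t| ≤ C := by
  fin_cases r <;> exact ⟨_, st_bdd _ _ _ _ _⟩

lemma k_abs {a b δ : ℝ} (h0 : 0 < δ) (h1 : δ < 1) (L : Prop) [Decidable L] (t : ℝ) :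
    ∑ r ∈ ({0, if L then 1 else 2} : Finset (Fin 3)), |k a b δ r t| = β a b δ 1 L t := by
  have e1 : |1 + δ| = 1 + δ := abs_of_pos (by linarith)
  have e2 : |1 - δ| = 1 - δ := abs_of_pos (by linarith)
  have e3 : |δ| = δ := abs_of_pos h0
  by_cases hL : L
  · simp only [hL, if_true, β]
    rw [Finset.sum_pair (by decide)]
    simp only [k, st, Matrix.cons_val_zero, Matrix.cons_val_one]
    split_ifs <;> simp [e1, e2]
  · simp only [hL, if_false, β]
    rw [Finset.sum_pair (by decide)]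
    simp only [k, st, Matrix.cons_val_zero, Matrix.cons_val]
    split_ifs <;> simp [e1, e2, e3]
    ring

lemma β_pow (a b δ : ℝ) (e : ℕ) (L : Prop) [Decidable L] (t : ℝ) :
    β a b δ 1 L t ^ (e + 1) = β a b δ (e + 1) L t := by
  unfold β st
  split_ifs <;> simp only <;> split_ifs <;> simp

lemma β_nonneg {a b δ : ℝ} (h0 : 0 < δ) (h1 : δ < 1) (e : ℕ) (L : Prop) [Decidable L] (t : ℝ) :
    0 ≤ β a b δ e L t := by
  have : 0 < 1 - δ := by linarith
  unfold β st
  split_ifs <;> simp only <;> split_ifs <;> positivity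

lemma β_int {r : ℝ} (hr : 0 ≤ r) (a b δ : ℝ) (e : ℕ) (L : Prop) [Decidable L] :
    IntegrableOn (fun t => t ^ r * β a b δ e L t) (Icc 0 1) := by
  unfold β
  split_ifs <;> exact int_mul hr (st_meas _ _ _ _ _) (st_bdd _ _ _ _ _) _ _

lemma setup {p : ℝ} (hp : 1 < p) (e : ℕ) : ∃ a b δ θ : ℝ, 0 < δ ∧ δ < 1 ∧ 0 < θ ∧ θ < 1 ∧
    (∀ (L : Prop) [Decidable L], ∫ t in Icc (0 : ℝ) 1, t ^ p * β a b δ 1 L t ≤ θ / (p + 1)) ∧
    (∀ (L : Prop) [Decidable L],
      ∫ t in Icc (0 : ℝ) 1, t ^ p * β a b δ (e + 1) L t ≤ θ / (p + 1)) ∧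
    ∀ (x : ℝ) (r : Fin 3), r ∉ ({0, if x < a then 1 else 2} : Finset (Fin 3)) →
      ∫ t in Icc (0 : ℝ) 1, t ^ (p - 1) * (k a b δ r t * if x < t then 1 else 0) = 0 := by
  have hp0 : 0 < p := by linarith
  set a : ℝ := (1 / 3) ^ p⁻¹ with ha
  set b : ℝ := (2 / 3) ^ p⁻¹ with hb
  have ha0 : 0 < a := by positivity
  have hab : a ≤ b := Real.rpow_le_rpow (by norm_num) (by norm_num) (by positivity)
  have hb1 : b ≤ 1 := Real.rpow_le_one (by norm_num) (by norm_num) (by positivity)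
  have hap : a ^ p = 1 / 3 := Real.rpow_inv_rpow (by norm_num) hp0.ne'
  have hbp : b ^ p = 2 / 3 := Real.rpow_inv_rpow (by norm_num) hp0.ne'
  have hconv : b ^ (p + 1) - a ^ (p + 1) < 1 - b ^ (p + 1) := by
    have h1 : 1 < p⁻¹ * (p + 1) := by
      rw [mul_add, inv_mul_cancel₀ hp0.ne', mul_one]
      have : 0 < p⁻¹ := by positivity
      linarith
    have := (strictConvexOn_rpow h1).2 (show (1 / 3 : ℝ) ∈ Ici 0 by norm_num)
      (show (1 : ℝ) ∈ Ici 0 by norm_num) (by norm_num) (show (0 : ℝ) < 1 / 2 by norm_num)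
      (show (0 : ℝ) < 1 / 2 by norm_num) (by norm_num)
    simp only [smul_eq_mul, Real.one_rpow] at this
    rw [show (1 / 2 * (1 / 3) + 1 / 2 * 1 : ℝ) = 2 / 3 by norm_num,
      Real.rpow_mul (by norm_num), Real.rpow_mul (by norm_num)] at this
    linarith
  have hm1 : 0 < a ^ (p + 1) := by positivity
  have ev1 : ∀ᶠ δ in 𝓝[>] (0 : ℝ), δ < 1 :=
    mem_nhdsWithin_of_mem_nhds (gt_mem_nhds (show (0 : ℝ) < 1 by norm_num))
  have ev0 : ∀ᶠ δ in 𝓝[>] (0 : ℝ), 0 < δ := self_mem_nhdsWithin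
  obtain ⟨δ, ⟨⟨c1, c2⟩, ⟨c3, c4⟩⟩, h1, h0⟩ := (((small _ _ _ hm1 hconv 0).and
    (small _ _ _ hm1 hconv e)).and (ev1.and ev0)).exists
  have hp1 : 0 < p + 1 := by linarith
  set m1 := a ^ (p + 1) with hm1d
  set m2 := b ^ (p + 1) - a ^ (p + 1) with hm2d
  set m3 := 1 - b ^ (p + 1) with hm3d
  have hsum : m1 + m2 + m3 = 1 := by rw [hm1d, hm2d, hm3d]; ring
  rw [hsum] at c1 c2 c3 c4
  obtain ⟨θ, t0, t1, d1, d2, d3, d4⟩ : ∃ θ : ℝ, 0 < θ ∧ θ < 1 ∧
      m1 + (1 + δ) ^ (0 + 1) * m2 + (1 - δ) ^ (0 + 1) * m3 ≤ θ ∧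
      (1 + 2 * δ) ^ (0 + 1) * m2 + m3 ≤ θ ∧
      m1 + (1 + δ) ^ (e + 1) * m2 + (1 - δ) ^ (e + 1) * m3 ≤ θ ∧
      (1 + 2 * δ) ^ (e + 1) * m2 + m3 ≤ θ :=
    ⟨max (1 / 2) (max (max _ _) (max _ _)), lt_max_of_lt_left (by norm_num),
      max_lt (by norm_num) (max_lt (max_lt c1 c2) (max_lt c3 c4)),
      le_max_of_le_right (le_max_of_le_left (le_max_left _ _)),
      le_max_of_le_right (le_max_of_le_left (le_max_right _ _)),
      le_max_of_le_right (le_max_of_le_right (le_max_left _ _)),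
      le_max_of_le_right (le_max_of_le_right (le_max_right _ _))⟩
  refine ⟨a, b, δ, θ, h0, h1, t0, t1, fun L _ => ?_, fun L _ => ?_, fun x r hr => ?_⟩
  · unfold β
    split_ifs <;> rw [integral_st hp0.le ha0.le hab hb1] <;>
      apply div_le_div_of_nonneg_right _ hp1.le <;> simp only [zero_add] at d1 d2 <;> linarith
  · unfold β
    split_ifs <;> rw [integral_st hp0.le ha0.le hab hb1] <;>
      apply div_le_div_of_nonneg_right _ hp1.le <;> linarith
  · by_cases hx : x < a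
    · have : r = 2 := by
        simp only [hx, if_true] at hr
        revert r
        decide
      subst this
      have e1 : ∀ t, (k a b δ 2 t * if x < t then 1 else 0) = st a b 0 (-δ) δ t := by
        intro t
        change (st a b 0 (-δ) δ t * if x < t then 1 else 0) = _
        by_cases ht : t ≤ a
        · simp [st, ht]
        · rw [if_pos (by linarith [not_le.mp ht]), mul_one]
      simp only [e1]
      rw [integral_st (by linarith) ha0.le hab hb1, sub_add_cancel, hap, hbp]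
      ring
    · have : r = 1 := by
        simp only [hx, if_false] at hr
        revert r
        decide
      subst this
      have e1 : ∀ t, (k a b δ 1 t * if x < t then 1 else 0) = 0 := by
        intro t
        change (st a b 1 0 0 t * if x < t then 1 else 0) = _
        by_cases ht : t ≤ a
        · rw [if_neg (by linarith [not_lt.mp hx]), mul_zero]
        · simp [st, ht]
      simp [e1]

lemma cube {d : ℕ} (f : Fin d → ℝ → ℝ) (hf : ∀ i, IntegrableOn (f i) (Icc 0 1)) :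
    IntegrableOn (fun t : Fin d → ℝ => ∏ i, f i (t i)) (Icc 0 1) ∧
      ∫ t in Icc (0 : Fin d → ℝ) 1, ∏ i, f i (t i) = ∏ i, ∫ t in Icc (0 : ℝ) 1, f i t := by
  have e : (volume : Measure (Fin d → ℝ)).restrict (Icc 0 1) =
      Measure.pi fun _ : Fin d => (volume : Measure ℝ).restrict (Icc 0 1) := by
    rw [← Set.pi_univ_Icc, volume_pi, Measure.restrict_pi_pi]
    rfl
  rw [IntegrableOn, e]
  exact ⟨Integrable.fintype_prod hf, integral_fintype_prod_eq_prod f⟩

lemma sum_biUnion_le {ι κ : Type} [DecidableEq κ] (s : Finset ι) (A : ι → Finset κ) (f : κ → ℝ)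
    (hf : ∀ r, 0 ≤ f r) : ∑ r ∈ s.biUnion A, f r ≤ ∑ j ∈ s, ∑ r ∈ A j, f r := by
  classical
  induction s using Finset.induction_on with
  | empty => simp
  | insert j s hj ih =>
    rw [Finset.biUnion_insert, Finset.sum_insert hj]
    have h1 := Finset.sum_union_inter (s₁ := A j) (s₂ := s.biUnion A) (f := f)
    have h2 : 0 ≤ ∑ r ∈ A j ∩ s.biUnion A, f r := Finset.sum_nonneg fun r _ => hf r
    linarith

open Classical in
/-- pointwise inequality behind the lower bound -/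
lemma point {p q : ℝ} (hpq : p.HolderConjugate q) {e : ℕ} (he : q ≤ (e + 1 : ℕ))
    {a b δ : ℝ} (h0 : 0 < δ) (h1 : δ < 1) {d n : ℕ} (x : Fin n → Fin d → ℝ) (c : Fin n → ℝ)
    {l : ℝ} (hl0 : 0 < l) (hl1 : l ≤ 1) (t : Fin d → ℝ) (ht : ∀ i, 0 ≤ t i) :
    ∏ i, t i ^ p ≤
      l⁻¹ ^ p * |(∏ i, t i) - ∑ j, c j *
          Set.indicator {y : Fin d → ℝ | ∀ i, x j i < y i} (fun _ => (1 : ℝ)) t| ^ p +
      ∑ j, ∏ i, t i ^ p * β a b δ 1 (x j i < a) (t i) +
      l * 2 ^ e * (∏ i, t i ^ p + n ^ e * ∑ j, ∏ i, t i ^ p * β a b δ (e + 1) (x j i < a) (t i)) +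
      ∑ j, c j * ∑ r ∈ Finset.univ.filter (fun r : Fin d → Fin 3 => ∀ j, r ∉ Fintype.piFinset
          fun i => ({0, if x j i < a then 1 else 2} : Finset (Fin 3))),
        ∏ i, t i ^ (p - 1) * (k a b δ (r i) (t i) * if x j i < t i then 1 else 0) := by
  set R := Finset.univ.filter (fun r : Fin d → Fin 3 => ∀ j, r ∉ Fintype.piFinset
          fun i => ({0, if x j i < a then 1 else 2} : Finset (Fin 3))) with hR
  set K := ∑ r ∈ R, ∏ i, k a b δ (r i) (t i) with hK
  set S := ∑ j, ∏ i, β a b δ 1 (x j i < a) (t i) with hS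
  set T := ∏ i, t i with hT
  set Q := ∑ j, c j * Set.indicator {y : Fin d → ℝ | ∀ i, x j i < y i} (fun _ => (1 : ℝ)) t with hQ
  have hT0 : 0 ≤ T := Finset.prod_nonneg fun i _ => ht i
  have hB0 : ∀ j, 0 ≤ ∏ i, β a b δ 1 (x j i < a) (t i) := fun j =>
    Finset.prod_nonneg fun i _ => β_nonneg h0 h1 _ _ _
  have hS0 : 0 ≤ S := Finset.sum_nonneg fun j _ => hB0 j
  have hTp : ∀ r : ℝ, ∏ i, t i ^ r = T ^ r := fun r => Real.finsetProd_rpow _ _ (fun i _ => ht i) r
  have hKS : |1 - K| ≤ S := by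
    have e1 : (1 : ℝ) = ∑ r : Fin d → Fin 3, ∏ i, k a b δ (r i) (t i) := by
      rw [← Fintype.piFinset_univ, ← Finset.prod_univ_sum (fun _ => Finset.univ)
        (fun i r => k a b δ r (t i))]
      simp [k_sum]
    have e2 : 1 - K = ∑ r ∈ Finset.univ \ R, ∏ i, k a b δ (r i) (t i) := by
      rw [Finset.sum_sdiff_eq_sub (Finset.subset_univ _), ← e1]
    rw [e2]
    refine (Finset.abs_sum_le_sum_abs _ _).trans ?_
    have e3 : S = ∑ j, ∑ r ∈ Fintype.piFinset
        fun i => ({0, if x j i < a then 1 else 2} : Finset (Fin 3)),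
        |∏ i, k a b δ (r i) (t i)| := by
      apply Finset.sum_congr rfl
      intro j _
      simp only [Finset.abs_prod]
      rw [← Finset.prod_univ_sum (fun i => ({0, if x j i < a then 1 else 2} : Finset (Fin 3)))
        (fun i r => |k a b δ r (t i)|)]
      exact Finset.prod_congr rfl fun i _ => (k_abs h0 h1 _ _).symm
    rw [e3]
    refine le_trans (Finset.sum_le_sum_of_subset_of_nonneg (t := Finset.univ.biUnion fun j =>
      Fintype.piFinset fun i => ({0, if x j i < a then 1 else 2} : Finset (Fin 3))) ?_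
      fun _ _ _ => abs_nonneg _) ?_
    · intro r hr
      rw [Finset.mem_sdiff, hR, Finset.mem_filter] at hr
      have := hr.2
      push Not at this
      obtain ⟨j, hj⟩ := this (Finset.mem_univ _)
      exact Finset.mem_biUnion.mpr ⟨j, Finset.mem_univ _, hj⟩
    · exact sum_biUnion_le _ _ _ fun _ => abs_nonneg _
  have hlast : ∑ j, c j * ∑ r ∈ R,
      ∏ i, t i ^ (p - 1) * (k a b δ (r i) (t i) * if x j i < t i then 1 else 0) =
      Q * (T ^ (p - 1) * K) := by
    rw [hQ, Finset.sum_mul]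
    apply Finset.sum_congr rfl
    intro j _
    rw [mul_assoc, hK]
    congr 1
    rw [Finset.mul_sum, Finset.mul_sum]
    apply Finset.sum_congr rfl
    intro r _
    rw [Finset.prod_mul_distrib, Finset.prod_mul_distrib, hTp, Finset.prod_boole]
    simp only [Set.indicator, mem_ofPred_eq, Finset.mem_univ, forall_const]
    split_ifs <;> ring
  have hp1 := hpq.lt
  have hq1 := hpq.symm.lt
  have hTT : T * T ^ (p - 1) = T ^ p := by
    rw [Real.rpow_sub_one' hT0 (by linarith)]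
    by_cases h : T = 0
    · rw [h, Real.zero_rpow (by linarith)]; simp
    · field_simp
  have hy := Real.young_inequality (l⁻¹ * (T - Q)) (l * (T ^ (p - 1) * K)) hpq
  have hTp0 : 0 ≤ T ^ p := Real.rpow_nonneg hT0 _
  have y1 : |l⁻¹ * (T - Q)| ^ p / p ≤ l⁻¹ ^ p * |T - Q| ^ p := by
    rw [abs_mul, abs_of_pos (inv_pos.mpr hl0), Real.mul_rpow (by positivity) (abs_nonneg _)]
    exact div_le_self (by positivity) hp1.le
  have hK1 : |K| ≤ 1 + S := by
    have := abs_sub 1 (1 - K)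
    rw [sub_sub_cancel, abs_one] at this
    linarith
  have hK2 : |K| ^ q ≤ 2 ^ e * (1 + n ^ e * ∑ j, ∏ i, β a b δ (e + 1) (x j i < a) (t i)) := by
    refine (Real.rpow_le_rpow (abs_nonneg _) hK1 (by linarith)).trans ?_
    refine (Real.rpow_le_rpow_of_exponent_le (by linarith) he).trans ?_
    rw [Real.rpow_natCast]
    refine (add_pow_le zero_le_one hS0 (e + 1)).trans ?_
    rw [Nat.add_sub_cancel, one_pow]
    apply mul_le_mul_of_nonneg_left _ (by positivity)
    have := pow_sum_le_card_mul_sum_pow (s := Finset.univ) (fun j _ => hB0 j) e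
    simp only [Finset.card_univ, Fintype.card_fin, ← Finset.prod_pow, β_pow] at this
    linarith
  have y2 : |l * (T ^ (p - 1) * K)| ^ q / q ≤
      l * (T ^ p * (2 ^ e * (1 + n ^ e * ∑ j, ∏ i, β a b δ (e + 1) (x j i < a) (t i)))) := by
    refine (div_le_self (by positivity) hq1.le).trans ?_
    rw [abs_mul, abs_mul, abs_of_pos hl0, abs_of_nonneg (Real.rpow_nonneg hT0 _),
      Real.mul_rpow hl0.le (by positivity), Real.mul_rpow (by positivity) (abs_nonneg _),
      ← Real.rpow_mul hT0, hpq.sub_one_mul_conj]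
    apply mul_le_mul (Real.rpow_le_self_of_le_one hl0.le hl1 hq1.le)
      (mul_le_mul_of_nonneg_left hK2 hTp0) (by positivity) hl0.le
  have y3 : l⁻¹ * (T - Q) * (l * (T ^ (p - 1) * K)) = T ^ p * K - Q * (T ^ (p - 1) * K) := by
    rw [← hTT]
    field_simp
  have y4 : T ^ p * (1 - S) ≤ T ^ p * K :=
    mul_le_mul_of_nonneg_left (by linarith [le_abs_self (1 - K)]) hTp0
  rw [hlast]
  simp only [Finset.prod_mul_distrib, hTp, ← Finset.mul_sum]
  rw [← hS]
  nlinarith

end Pool.Agent.H8.Curse
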