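import Mathlib
import Pool.Agent.H8.Curse

set_option autoImplicit false
open MeasureTheory Set Filter Topology

namespace Pool.Agent.H8.CurseOne

open Pool.Agent.H8.Curse

lemma cut {P : ℝ → ℝ} (hP : Continuous P) {x : ℝ} (h0 : 0 ≤ x) (h1 : x ≤ 1) :
    IntegrableOn (fun t => (if x < t then 1 else 0) * P t) (Icc 0 1) ∧
      ∫ t in Icc (0 : ℝ) 1, (if x < t then 1 else 0) * P t = ∫ t in x..1, P t := by
  have e : (fun t => (if x < t then 1 else 0) * P t) = (Ioi x).indicator P := by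
    ext t
    by_cases h : x < t <;> simp [h]
  rw [e]
  refine ⟨hP.continuousOn.integrableOn_Icc.indicator measurableSet_Ioi, ?_⟩
  rw [setIntegral_indicator measurableSet_Ioi, intervalIntegral.integral_of_le h1]
  congr 2
  ext t
  simp only [mem_inter_iff, mem_Icc, mem_Ioi, mem_Ioc]
  exact ⟨fun h => ⟨h.2, h.1.2⟩, fun h => ⟨⟨h0.trans h.1.le, h.2⟩, h.1⟩⟩

/-- mean of the weight `(1 + t/10)/1.06` over `(x,1]` -/
noncomputable def rho (x : ℝ) : ℝ := (1 + (1 + x) / 20) / 1.06

open Classical in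
lemma point {d N : ℕ} (x : Fin N → Fin d → ℝ) (a : Fin N → ℝ) (ha : ∀ k, 0 ≤ a k)
    (G : Finset (Fin N)) (t : Fin d → ℝ) (ht : ∀ i, 0 ≤ t i) :
    ∏ i, t i ≤ |∑ k, a k * (if ∀ i, x k i < t i then 1 else 0) - ∏ i, t i| +
      2 * ∏ i, t i * (1.06 * (1 - t i / 10 + t i ^ 2 / 100)) +
      2 * ∑ k ∈ G, ∏ i, (if x k i < t i then 1 else 0) * t i +
      ∑ k ∈ Gᶜ, a k * (2 * ∏ i, (if x k i < t i then 1 else 0) * ((1 + t i / 10) / 1.06) -
        ∏ i, (if x k i < t i then 1 else 0) * 1) := by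
  set T := ∏ i, t i with hT
  set W := ∏ i, (1 + t i / 10) / 1.06 with hW
  set V := ∏ i, (1.06 * (1 - t i / 10 + t i ^ 2 / 100)) with hV
  set I : Fin N → ℝ := fun k => if ∀ i, x k i < t i then 1 else 0 with hI
  have hT0 : 0 ≤ T := Finset.prod_nonneg fun i _ => ht i
  have hW0 : 0 < W := Finset.prod_pos fun i _ => by have := ht i; positivity
  have hV0 : 0 ≤ V := Finset.prod_nonneg fun i _ => by nlinarith [sq_nonneg (t i - 5)]
  have hWV : 1 ≤ W * V := by
    rw [hW, hV, ← Finset.prod_mul_distrib]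
    refine Finset.one_le_prod fun i _ => ?_
    have := ht i
    have h3 : 0 ≤ t i ^ 3 := by positivity
    have h4 : (1 + t i / 10) / 1.06 * (1.06 * (1 - t i / 10 + t i ^ 2 / 100)) =
        1 + t i ^ 3 / 1000 := by
      field_simp
      ring
    rw [h4]
    linarith
  have hI0 : ∀ k, 0 ≤ I k := fun k => by simp only [hI]; split_ifs <;> norm_num
  have hb : ∀ k, ∏ i, (if x k i < t i then (1 : ℝ) else 0) = I k := fun k => by
    rw [Finset.prod_boole]
    simp [hI]
  simp only [Finset.prod_mul_distrib, hb, Finset.prod_const_one, mul_one]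
  rw [← hT, ← hW, ← Finset.prod_mul_distrib, ← hV]
  change T ≤ |∑ k, a k * I k - T| + _ + _ + _
  have hsplit := Finset.sum_add_sum_compl G fun k => a k * I k
  have hG0 : 0 ≤ ∑ k ∈ G, a k * I k := Finset.sum_nonneg fun k _ => mul_nonneg (ha k) (hI0 k)
  have hC0 : 0 ≤ ∑ k ∈ Gᶜ, a k * I k := Finset.sum_nonneg fun k _ => mul_nonneg (ha k) (hI0 k)
  have hS0 : 0 ≤ ∑ k ∈ G, I k * T := Finset.sum_nonneg fun k _ => mul_nonneg (hI0 k) hT0
  have e : ∑ k ∈ Gᶜ, a k * (2 * (I k * W) - I k) = (2 * W - 1) * ∑ k ∈ Gᶜ, a k * I k := by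
    rw [Finset.mul_sum]
    exact Finset.sum_congr rfl fun k _ => by ring
  rw [e, ← hsplit]
  set Q1 := ∑ k ∈ G, a k * I k
  set Q2 := ∑ k ∈ Gᶜ, a k * I k
  have hTV : 0 ≤ T * V := mul_nonneg hT0 hV0
  have hWQ : 0 ≤ W * Q2 := mul_nonneg hW0.le hC0
  have p1 := le_abs_self (Q1 + Q2 - T)
  have p2 := neg_abs_le (Q1 + Q2 - T)
  by_cases hW1 : 1 ≤ W
  · by_cases hU : ∃ k ∈ G, ∀ i, x k i < t i
    · obtain ⟨k, hk, hk'⟩ := hU
      have h1 := Finset.single_le_sum (f := fun k => I k * T)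
        (fun k _ => mul_nonneg (hI0 k) hT0) hk
      have h2 : I k = 1 := by simp only [hI]; rw [if_pos hk']
      simp only [h2, one_mul] at h1
      nlinarith
    · have h1 : Q1 = 0 := Finset.sum_eq_zero fun k hk => by
        have : I k = 0 := by simp only [hI]; rw [if_neg fun h => hU ⟨k, hk, h⟩]
        rw [this, mul_zero]
      have := mul_le_mul_of_nonneg_right hW1 hC0
      nlinarith
  · have h1 : 1 ≤ V := by
      push Not at hW1
      nlinarith
    have := mul_le_mul_of_nonneg_left h1 hT0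
    nlinarith

open Classical in
lemma main {d N : ℕ} (x : Fin N → Fin d → ℝ) (a : Fin N → ℝ) (hx : ∀ k i, 0 ≤ x k i ∧ x k i ≤ 1)
    (ha : ∀ k, 0 ≤ a k) :
    (1 / 2) ^ d * (1 - 2 * 0.995 ^ d - 4 * N * 0.992 ^ d) ≤
      ∫ t in Icc (0 : Fin d → ℝ) 1, |∑ k, a k * (if ∀ i, x k i < t i then 1 else 0) - ∏ i, t i| := by
  set G := Finset.univ.filter fun k => 1 / 2 < ∏ i, rho (x k i) with hG
  obtain ⟨A0, A0'⟩ := cube (d := d) (fun _ t => t) fun _ => continuous_id.continuousOn.integrableOn_Icc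
  obtain ⟨A1, A1'⟩ := cube (d := d) (fun _ t => t * (1.06 * (1 - t / 10 + t ^ 2 / 100)))
    fun _ => (by fun_prop : Continuous _).continuousOn.integrableOn_Icc
  have v0 : ∫ t in Icc (0 : ℝ) 1, t = 1 / 2 := by
    rw [integral_Icc_eq_integral_Ioc, ← intervalIntegral.integral_of_le zero_le_one]
    simp
  have v1 : ∫ t in Icc (0 : ℝ) 1, t * (1.06 * (1 - t / 10 + t ^ 2 / 100)) =
      1.06 * (1 / 2 - 1 / 30 + 1 / 400) := by
    rw [integral_Icc_eq_integral_Ioc, ← intervalIntegral.integral_of_le zero_le_one]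
    have := intervalIntegral.integral_eq_sub_of_hasDerivAt (a := 0) (b := 1)
      (f := fun t : ℝ => 1.06 * (t ^ 2 / 2 - t ^ 3 / 30 + t ^ 4 / 400))
      (f' := fun t => t * (1.06 * (1 - t / 10 + t ^ 2 / 100))) (fun t _ => by
        refine (((((hasDerivAt_pow 2 t).div_const 2).sub ((hasDerivAt_pow 3 t).div_const 30)).add
          ((hasDerivAt_pow 4 t).div_const 400)).const_mul 1.06).congr_deriv ?_
        norm_num
        ring) (Continuous.intervalIntegrable (by fun_prop) _ _)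
    rw [this]
    norm_num
  have hc : ∀ (P : ℝ → ℝ), Continuous P → ∀ k,
      IntegrableOn (fun t : Fin d → ℝ => ∏ i, (if x k i < t i then 1 else 0) * P (t i)) (Icc 0 1) ∧
      ∫ t in Icc (0 : Fin d → ℝ) 1, ∏ i, (if x k i < t i then 1 else 0) * P (t i) =
        ∏ i, ∫ t in (x k i)..1, P t := by
    intro P hP k
    obtain ⟨B1, B2⟩ := cube (d := d) (fun i t => (if x k i < t then 1 else 0) * P t)
      fun i => (cut hP (hx k i).1 (hx k i).2).1
    exact ⟨B1, B2.trans (Finset.prod_congr rfl fun i _ => (cut hP (hx k i).1 (hx k i).2).2)⟩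
  have c1 := hc (fun t => t) continuous_id
  have c2 := hc (fun t => (1 + t / 10) / 1.06) (by fun_prop)
  have c3 := hc (fun _ => 1) continuous_const
  have w2 : ∀ y : ℝ, ∫ t in y..1, (1 + t / 10) / 1.06 = (1 - y) * rho y := by
    intro y
    rw [intervalIntegral.integral_div, intervalIntegral.integral_add
      (Continuous.intervalIntegrable (by fun_prop) _ _)
      (Continuous.intervalIntegrable (by fun_prop) _ _), intervalIntegral.integral_div]
    simp [rho]
    ring
  have hD : IntegrableOn (fun t : Fin d → ℝ =>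
      |∑ k, a k * (if ∀ i, x k i < t i then 1 else 0) - ∏ i, t i|) (Icc 0 1) := by
    refine (Integrable.sub (integrable_finsetSum _ fun k _ => Integrable.const_mul ?_ _) A0).abs
    refine (c3 k).1.congr (Eventually.of_forall fun t => ?_)
    simp [Finset.prod_boole]
  have i2 := A1.const_mul 2
  have i3' := integrable_finsetSum G fun k _ => (c1 k).1
  have i3 := i3'.const_mul 2
  have i4' := fun k => (((c2 k).1.const_mul 2).sub (c3 k).1).const_mul (a k)
  have i4 := integrable_finsetSum Gᶜ fun k _ => i4' k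
  have i12 := hD.add i2
  have i123 := i12.add i3
  have key := setIntegral_mono_on A0 (i123.add i4) measurableSet_Icc
    fun t ht => point x a ha G t ht.1
  rw [integral_add' i123 i4, integral_add' i12 i3, integral_add' hD i2, integral_const_mul,
    integral_const_mul, A0', A1', integral_finsetSum _ fun k _ => (c1 k).1,
    integral_finsetSum _ fun k _ => i4' k] at key
  simp only [v0, v1, Finset.prod_const, Finset.card_univ, Fintype.card_fin] at key
  have z4 : ∑ k ∈ Gᶜ, ∫ t in Icc (0 : Fin d → ℝ) 1, a k *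
      ((fun t : Fin d → ℝ => 2 * ∏ i, (if x k i < t i then 1 else 0) * ((1 + t i / 10) / 1.06)) -
        fun t : Fin d → ℝ => ∏ i, (if x k i < t i then (1 : ℝ) else 0) * 1) t ≤ 0 := by
    apply Finset.sum_nonpos
    intro k hk
    rw [integral_const_mul, integral_sub' ((c2 k).1.const_mul 2) (c3 k).1, integral_const_mul,
      (c2 k).2, (c3 k).2]
    apply mul_nonpos_of_nonneg_of_nonpos (ha k)
    simp only [w2, intervalIntegral.integral_const, smul_eq_mul, mul_one, Finset.prod_mul_distrib]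
    have h1 : ∏ i, rho (x k i) ≤ 1 / 2 := by simpa [hG] using hk
    have h2 : 0 ≤ ∏ i, (1 - x k i) := Finset.prod_nonneg fun i _ => by linarith [(hx k i).2]
    nlinarith
  have z3 : ∑ k ∈ G, ∫ t in Icc (0 : Fin d → ℝ) 1, ∏ i, (if x k i < t i then 1 else 0) * t i ≤
      N * (2 * ((1 / 2) ^ d * 0.992 ^ d)) := by
    refine (Finset.sum_le_card_nsmul _ _ (2 * ((1 / 2) ^ d * 0.992 ^ d)) fun k hk => ?_).trans ?_
    · rw [(c1 k).2]
      have h1 : 1 / 2 < ∏ i, rho (x k i) := by simpa [hG] using hk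
      have h2 : 0 ≤ ∏ i, ∫ t in (x k i)..1, t := Finset.prod_nonneg fun i _ => by
        rw [integral_id]
        nlinarith [(hx k i).1, (hx k i).2]
      have h3 : (∏ i, ∫ t in (x k i)..1, t) * ∏ i, rho (x k i) ≤ (1 / 2) ^ d * 0.992 ^ d := by
        rw [← Finset.prod_mul_distrib, ← mul_pow]
        refine (Finset.prod_le_prod (g := fun _ => 1 / 2 * 0.992) (fun i _ => ?_)
          fun i _ => ?_).trans (by simp)
        · rw [integral_id, rho]
          have := (hx k i).1
          apply mul_nonneg _ (by positivity)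
          nlinarith [(hx k i).1, (hx k i).2]
        · rw [integral_id, rho]
          have := (hx k i).1
          have h4 : 0 ≤ x k i ^ 3 := by positivity
          rw [← mul_div_assoc, div_le_iff₀ (by norm_num)]
          nlinarith [sq_nonneg (x k i - 1 / 40)]
      nlinarith
    · rw [nsmul_eq_mul]
      apply mul_le_mul_of_nonneg_right _ (by positivity)
      exact_mod_cast (Finset.card_le_univ G).trans (by simp)
  have z2 : (1.06 * (1 / 2 - 1 / 30 + 1 / 400) : ℝ) ^ d ≤ (1 / 2) ^ d * 0.995 ^ d := by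
    rw [← mul_pow]
    exact pow_le_pow_left₀ (by norm_num) (by norm_num) d
  linarith

open Classical in
theorem curse : ∃ D : ℕ, ∀ d : ℕ, D ≤ d → ∀ N : ℕ, (N : ℝ) < 1.004 ^ d →
    ∀ (x : Fin N → Fin d → ℝ) (a : Fin N → ℝ), (∀ k i, 0 ≤ x k i ∧ x k i ≤ 1) → (∀ k, 0 ≤ a k) →
    1 / 2 * (1 / 2) ^ d ≤
      ∫ t in Icc (0 : Fin d → ℝ) 1, |∑ k, a k * (if ∀ i, x k i < t i then 1 else 0) - ∏ i, t i| := by
  obtain ⟨D, hD⟩ := eventually_atTop.mp ((tendsto_pow_atTop_nhds_zero_of_lt_one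
    (r := (0.996 : ℝ)) (by norm_num) (by norm_num)).eventually
      (gt_mem_nhds (show (0 : ℝ) < 1 / 12 by norm_num)))
  refine ⟨D, fun d hd N hN x a hx ha => le_trans ?_ (main x a hx ha)⟩
  have h1 := hD d hd
  have h2 : (0.995 : ℝ) ^ d ≤ 0.996 ^ d := pow_le_pow_left₀ (by norm_num) (by norm_num) d
  have h3 : (N : ℝ) * 0.992 ^ d ≤ 0.996 ^ d := by
    refine (mul_le_mul_of_nonneg_right hN.le (by positivity)).trans ?_
    rw [← mul_pow]
    exact pow_le_pow_left₀ (by norm_num) (by norm_num) d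
  rw [mul_comm]
  apply mul_le_mul_of_nonneg_left _ (by positivity)
  linarith

end Pool.Agent.H8.CurseOne
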