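import Pool.Agent.H25.Rup

namespace Pool.Agent.H8.Excl

open Pool.Agent.H25.Rup

def R : List (Fin 8) := List.finRange 8
def vH (a b : Fin 8) : ℕ := 1 + 8 * (min a b).val + (max a b).val
def vG (a b x : Fin 8) : ℕ := 65 + 64 * (min a b).val + 8 * (max a b).val + x.val
def vD (v : Fin 8) (j : ℕ) : ℕ := 577 + 16 * v.val + j
def vS (i j : ℕ) : ℕ := 705 + 32 * i + j
def O (v : Fin 8) : List (Fin 8) := R.filter (fun x => x ≠ v)

def c1 : List (List ℕ) := R.flatMap fun a => R.flatMap fun b => R.flatMap fun c =>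
  if a ≠ b ∧ a ≠ c ∧ b < c then [[2 * vH a b + 1, 2 * vH a c + 1, 2 * vG a b c, 2 * vG a c b]] else []
def c2 : List (List ℕ) := R.flatMap fun a => R.flatMap fun b => R.flatMap fun x => R.flatMap fun y =>
  if a < b ∧ x < y ∧ x ≠ a ∧ x ≠ b ∧ y ≠ a ∧ y ≠ b then
    [[2 * vH a b + 1, 2 * vG a b x + 1, 2 * vG a b y + 1, 2 * vH x y]] else []
def c3 : List (List ℕ) := R.flatMap fun a => R.flatMap fun b => R.flatMap fun x => R.flatMap fun y =>
  if a < b ∧ x < y ∧ x ≠ a ∧ x ≠ b ∧ y ≠ a ∧ y ≠ b then R.flatMap fun z =>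
    if y < z ∧ z ≠ a ∧ z ≠ b then
      [[2 * vH a b + 1, 2 * vG a b x + 1, 2 * vG a b y + 1, 2 * vG a b z + 1]] else [] else []
def c4 : List (List ℕ) := R.flatMap fun a => R.flatMap fun b => R.flatMap fun x =>
  if a < b ∧ x ≠ a ∧ x ≠ b then
    [(2 * vH a b + 1) :: (R.filter (fun y => y ≠ a ∧ y ≠ b ∧ y ≠ x)).map (fun y => 2 * vG a b y)]
  else []
def c5 : List (List ℕ) := R.flatMap fun v => (O v).sublists.map fun T =>
  (2 * vD v T.length) :: T.map (fun x => 2 * vH v x + 1)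
def c6 : List (List ℕ) := R.flatMap fun v => (O v).sublists.map fun T =>
  (2 * vD v (T.length + 1) + 1) :: ((O v).filter (fun x => x ∉ T)).map (fun x => 2 * vH v x)
def c7 : List (List ℕ) := R.flatMap fun v => (List.range 8).map fun j =>
  [2 * vD v j + 1, 2 * vD 0 j]
def c8 : List (List ℕ) := R.flatMap fun v =>
  if 0 < v ∧ v < 7 then [2 * vH 0 (v + 1) + 1, 2 * vH 0 v] :: (List.range 8).flatMap fun j =>
    [[2 * vD (v + 1) j + 1, 2 * vD v j, 2 * vH 0 v],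
     [2 * vD (v + 1) j + 1, 2 * vD v j, 2 * vH 0 (v + 1) + 1]] else []
def c9 : List (List ℕ) := R.flatMap fun i => (List.range 29).flatMap fun j => (List.range 8).map fun d =>
  [2 * vS (i.val + 1) j + 1, 2 * vS i.val (j - d), 2 * vD i (d + 1)]
def c10 : List (List ℕ) := [2 * vS 8 28] :: (List.range 28).map fun j => [2 * vS 0 (j + 1) + 1]

def cl : List (List ℕ) := c1 ++ (c2 ++ (c3 ++ (c4 ++ (c5 ++ (c6 ++ (c7 ++ (c8 ++ (c9 ++ c10))))))))

end Pool.Agent.H8.Excl
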