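import Pool.Agent.H8.ExclPf

namespace Pool.Agent.H8.Excl

open Pool.Agent.H25.Rup Finset

lemma ex2 {x : ℕ → Prop} {v : ℕ} (hv : v ≠ 0) {c : List ℕ} (h : x v → ∃ l ∈ c, lit x l) :
    ∃ l ∈ (2 * v + 1) :: c, lit x l := by
  by_cases hx : x v
  · obtain ⟨l, hl, h2⟩ := h hx
    exact ⟨l, List.mem_cons_of_mem _ hl, h2⟩
  · exact ⟨_, List.mem_cons_self, lit_neg x v hv hx⟩

lemma ex1 {x : ℕ → Prop} {v : ℕ} {c : List ℕ} (h : ¬ x v → ∃ l ∈ c, lit x l) :
    ∃ l ∈ (2 * v) :: c, lit x l := by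
  by_cases hx : x v
  · exact ⟨_, List.mem_cons_self, lit_pos x v hx⟩
  · obtain ⟨l, hl, h2⟩ := h hx
    exact ⟨l, List.mem_cons_of_mem _ hl, h2⟩

lemma ex0 {x : ℕ → Prop} (h : False) : ∃ l ∈ ([] : List ℕ), lit x l := h.elim

theorem core (K : SimpleGraph (Fin 8)) [DecidableRel K.Adj] (g : Fin 8 → Fin 8 → Fin 8 → Prop)
    (gs : ∀ a b x, g a b x → g b a x)
    (h1 : ∀ a b c, b ≠ c → K.Adj a b → K.Adj a c → g a b c ∨ g a c b)
    (h2 : ∀ a b, K.Adj a b → ∃ p q, K.Adj p q ∧ p ≠ a ∧ p ≠ b ∧ q ≠ a ∧ q ≠ b ∧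
      ∀ x, g a b x ↔ x = p ∨ x = q)
    (h7 : ∀ v, K.degree v ≤ K.degree 0)
    (h8 : ∀ v : Fin 8, 0 < v → v < 7 → (K.Adj 0 (v + 1) → K.Adj 0 v) ∧
      ((K.Adj 0 (v + 1) ∨ ¬ K.Adj 0 v) → K.degree (v + 1) ≤ K.degree v))
    (h9 : 28 ≤ ∑ v, K.degree v) : False := by
  obtain ⟨deg, hdeg⟩ : ∃ deg : Fin 8 → ℕ, ∀ v, K.degree v = deg v := ⟨_, fun _ => rfl⟩
  simp only [hdeg] at h7 h8 h9
  let x : ℕ → Prop := fun v =>
    if v ≤ 64 then K.Adj (Fin.ofNat 8 ((v - 1) / 8)) (Fin.ofNat 8 (v - 1))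
    else if v ≤ 576 then g (Fin.ofNat 8 ((v - 65) / 64)) (Fin.ofNat 8 ((v - 65) / 8))
      (Fin.ofNat 8 (v - 65))
    else if v ≤ 704 then (v - 577) % 16 ≤ deg (Fin.ofNat 8 ((v - 577) / 16))
    else (v - 705) % 32 ≤ ∑ i ∈ range ((v - 705) / 32), deg (Fin.ofNat 8 i)
  have xH : ∀ a b, x (vH a b) ↔ K.Adj a b := by
    intro a b
    have : vH a b ≤ 64 ∧ Fin.ofNat 8 ((vH a b - 1) / 8) = min a b ∧
        Fin.ofNat 8 (vH a b - 1) = max a b := by revert a b; decide
    simp only [x, if_pos this.1, this.2.1, this.2.2]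
    rcases le_total a b with h | h
    · rw [min_eq_left h, max_eq_right h]
    · rw [min_eq_right h, max_eq_left h, K.adj_comm]
  have xG : ∀ a b c, x (vG a b c) ↔ g a b c := by
    intro a b c
    have : ¬ vG a b c ≤ 64 ∧ vG a b c ≤ 576 ∧ Fin.ofNat 8 ((vG a b c - 65) / 64) = min a b ∧
        Fin.ofNat 8 ((vG a b c - 65) / 8) = max a b ∧ Fin.ofNat 8 (vG a b c - 65) = c := by
      revert a b c; decide +kernel
    simp only [x, if_neg this.1, if_pos this.2.1, this.2.2.1, this.2.2.2.1, this.2.2.2.2]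
    rcases le_total a b with h | h
    · rw [min_eq_left h, max_eq_right h]
    · rw [min_eq_right h, max_eq_left h]
      exact ⟨gs _ _ _, gs _ _ _⟩
  have xD : ∀ v j, j < 16 → (x (vD v j) ↔ j ≤ deg v) := by
    intro v j hj
    have hv := v.isLt
    have e1 : ¬ vD v j ≤ 64 := by unfold vD; omega
    have e2 : ¬ vD v j ≤ 576 := by unfold vD; omega
    have e3 : vD v j ≤ 704 := by unfold vD; omega
    have e4 : (vD v j - 577) % 16 = j := by unfold vD; omega
    have e5 : (vD v j - 577) / 16 = v.val := by unfold vD; omega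
    simp only [x, if_neg e1, if_neg e2, if_pos e3, e4, e5, Fin.ofNat_val_eq_self]
  have xS : ∀ i j, j < 32 → (x (vS i j) ↔ j ≤ ∑ k ∈ range i, deg (Fin.ofNat 8 k)) := by
    intro i j hj
    have e1 : ¬ vS i j ≤ 64 := by unfold vS; omega
    have e2 : ¬ vS i j ≤ 576 := by unfold vS; omega
    have e3 : ¬ vS i j ≤ 704 := by unfold vS; omega
    have e4 : (vS i j - 705) % 32 = j := by unfold vS; omega
    have e5 : (vS i j - 705) / 32 = i := by unfold vS; omega
    simp only [x, if_neg e1, if_neg e2, if_neg e3, e4, e5]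
  have nH : ∀ a b, vH a b ≠ 0 := fun a b => by unfold vH; omega
  have nG : ∀ a b c, vG a b c ≠ 0 := fun a b c => by unfold vG; omega
  have nD : ∀ a b, vD a b ≠ 0 := fun a b => by unfold vD; omega
  have nS : ∀ a b, vS a b ≠ 0 := fun a b => by unfold vS; omega
  have hO : ∀ v, (O v).Nodup ∧ (O v).length = 7 ∧ ∀ y, y ∈ O v ↔ y ≠ v := by decide
  clear_value x
  apply unsat x
  intro c hc
  simp only [cl, List.mem_append] at hc
  rcases hc with hc | hc | hc | hc | hc | hc | hc | hc | hc | hc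
  · simp only [c1, List.mem_flatMap, List.mem_ite_nil_right, List.mem_singleton] at hc
    obtain ⟨a, -, b, -, c, -, ⟨-, -, h⟩, rfl⟩ := hc
    refine ex2 (nH _ _) fun e1 => ex2 (nH _ _) fun e2 => ex1 fun e3 => ex1 fun e4 => ex0 ?_
    rw [xH] at e1 e2
    rw [xG] at e3 e4
    exact (h1 a b c h.ne e1 e2).elim e3 e4
  · simp only [c2, List.mem_flatMap, List.mem_ite_nil_right, List.mem_singleton] at hc
    obtain ⟨a, -, b, -, y, -, z, -, ⟨-, h, -⟩, rfl⟩ := hc
    refine ex2 (nH _ _) fun e1 => ex2 (nG _ _ _) fun e2 => ex2 (nG _ _ _) fun e3 =>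
      ex1 fun e4 => ex0 ?_
    rw [xH] at e1 e4
    rw [xG] at e2 e3
    obtain ⟨p, q, hpq, -, -, -, -, hg⟩ := h2 a b e1
    rw [hg] at e2 e3
    rcases e2 with rfl | rfl <;> rcases e3 with rfl | rfl
    · exact lt_irrefl _ h
    · exact e4 hpq
    · exact e4 hpq.symm
    · exact lt_irrefl _ h
  · simp only [c3, List.mem_flatMap, List.mem_ite_nil_right, List.mem_singleton] at hc
    obtain ⟨a, -, b, -, y, -, z, -, ⟨-, h, -⟩, w, -, ⟨h', -⟩, rfl⟩ := hc
    refine ex2 (nH _ _) fun e1 => ex2 (nG _ _ _) fun e2 => ex2 (nG _ _ _) fun e3 =>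
      ex2 (nG _ _ _) fun e4 => ex0 ?_
    rw [xH] at e1
    rw [xG] at e2 e3 e4
    obtain ⟨p, q, hpq, -, -, -, -, hg⟩ := h2 a b e1
    rw [hg] at e2 e3 e4
    omega
  · simp only [c4, List.mem_flatMap, List.mem_ite_nil_right, List.mem_singleton] at hc
    obtain ⟨a, -, b, -, y, -, -, rfl⟩ := hc
    refine ex2 (nH _ _) fun e1 => ?_
    rw [xH] at e1
    obtain ⟨p, q, hpq, p1, p2, q1, q2, hg⟩ := h2 a b e1
    have hne := hpq.ne
    by_cases hy : p = y
    · refine ⟨2 * vG a b q, List.mem_map.2 ⟨q, ?_, rfl⟩, lit_pos _ _ ((xG _ _ _).2 ((hg _).2 (Or.inr rfl)))⟩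
      simp only [R, List.mem_filter, List.mem_finRange, true_and, decide_eq_true_eq]
      exact ⟨q1, q2, fun h => hne (hy.trans h.symm)⟩
    · refine ⟨2 * vG a b p, List.mem_map.2 ⟨p, ?_, rfl⟩, lit_pos _ _ ((xG _ _ _).2 ((hg _).2 (Or.inl rfl)))⟩
      simp only [R, List.mem_filter, List.mem_finRange, true_and, decide_eq_true_eq]
      exact ⟨p1, p2, hy⟩
  · simp only [c5, List.mem_flatMap, List.mem_map, List.mem_sublists] at hc
    obtain ⟨v, -, T, hT, rfl⟩ := hc
    have hl := hT.length_le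
    rw [(hO v).2.1] at hl
    refine ex1 fun e1 => ?_
    rw [xD _ _ (by omega)] at e1
    by_contra hcon
    apply e1
    rw [← List.toFinset_card_of_nodup ((hO v).1.sublist hT), ← hdeg, ← K.card_neighborFinset_eq_degree]
    apply card_le_card
    intro y hy
    rw [K.mem_neighborFinset, ← xH]
    by_contra hx
    exact hcon ⟨_, List.mem_map.2 ⟨y, List.mem_toFinset.1 hy, rfl⟩, lit_neg _ _ (nH _ _) hx⟩
  · simp only [c6, List.mem_flatMap, List.mem_map, List.mem_sublists] at hc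
    obtain ⟨v, -, T, hT, rfl⟩ := hc
    have hl := hT.length_le
    rw [(hO v).2.1] at hl
    refine ex2 (nD _ _) fun e1 => ?_
    rw [xD _ _ (by omega)] at e1
    by_contra hcon
    have : deg v ≤ T.length := by
      rw [← List.toFinset_card_of_nodup ((hO v).1.sublist hT), ← hdeg, ← K.card_neighborFinset_eq_degree]
      apply card_le_card
      intro y hy
      rw [K.mem_neighborFinset] at hy
      rw [List.mem_toFinset]
      by_contra hx
      refine hcon ⟨_, List.mem_map.2 ⟨y, ?_, rfl⟩, lit_pos _ _ ((xH _ _).2 hy)⟩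
      simp only [List.mem_filter, decide_eq_true_eq]
      exact ⟨((hO v).2.2 y).2 hy.ne.symm, hx⟩
    omega
  · simp only [c7, List.mem_flatMap, List.mem_map, List.mem_range] at hc
    obtain ⟨v, -, j, hj, rfl⟩ := hc
    refine ex2 (nD _ _) fun e1 => ex1 fun e2 => ex0 ?_
    rw [xD _ _ (by omega)] at e1 e2
    have := h7 v
    omega
  · simp only [c8, List.mem_flatMap, List.mem_ite_nil_right, List.mem_cons, List.mem_range,
      List.not_mem_nil, or_false] at hc
    obtain ⟨v, -, ⟨p1, p2⟩, hc⟩ := hc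
    have := h8 v p1 p2
    rcases hc with rfl | ⟨j, hj, rfl | rfl⟩
    · refine ex2 (nH _ _) fun e1 => ex1 fun e2 => ex0 ?_
      rw [xH] at e1 e2
      exact e2 (this.1 e1)
    · refine ex2 (nD _ _) fun e1 => ex1 fun e2 => ex1 fun e3 => ex0 ?_
      rw [xD _ _ (by omega)] at e1 e2
      rw [xH] at e3
      have := this.2 (Or.inr e3)
      omega
    · refine ex2 (nD _ _) fun e1 => ex1 fun e2 => ex2 (nH _ _) fun e3 => ex0 ?_
      rw [xD _ _ (by omega)] at e1 e2
      rw [xH] at e3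
      have := this.2 (Or.inl e3)
      omega
  · simp only [c9, List.mem_flatMap, List.mem_map, List.mem_range] at hc
    obtain ⟨i, -, j, hj, d, hd, rfl⟩ := hc
    refine ex2 (nS _ _) fun e1 => ex1 fun e2 => ex1 fun e3 => ex0 ?_
    rw [xS _ _ (by omega)] at e1 e2
    rw [xD _ _ (by omega)] at e3
    rw [sum_range_succ, Fin.ofNat_val_eq_self] at e1
    omega
  · simp only [c10, List.mem_cons, List.mem_map, List.mem_range] at hc
    rcases hc with rfl | ⟨j, hj, rfl⟩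
    · refine ex1 fun e1 => ex0 ?_
      rw [xS _ _ (by omega)] at e1
      apply e1
      rw [← Fin.sum_univ_eq_sum_range (fun k => deg (Fin.ofNat 8 k)) 8]
      simpa only [Fin.ofNat_val_eq_self] using h9
    · refine ex2 (nS _ _) fun e1 => ex0 ?_
      rw [xS _ _ (by omega)] at e1
      simp at e1

end Pool.Agent.H8.Excl
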