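import Mathlib

namespace Pool.Agent.H8.GS
open Polynomial Finset

theorem ns1 (ρ : ℝ) (w γ : ℂ) :
    ρ ^ 2 * ‖w - γ‖ ^ 2 - ‖(ρ : ℂ) ^ 2 - γ * (starRingEnd ℂ) w‖ ^ 2
      = (ρ ^ 2 - ‖w‖ ^ 2) * (‖γ‖ ^ 2 - ρ ^ 2) := by
  rw [Complex.sq_norm, Complex.sq_norm, Complex.sq_norm, Complex.sq_norm]
  simp only [Complex.normSq_apply]
  simp [sq]
  ring

theorem lag_ineq (ρ : ℝ) (w ξ : ℂ) (hw : ‖w‖ < ρ) :
    ∀ (N : ℕ) (f : ℂ[X]), f.natDegree ≤ N → (∀ γ, f.IsRoot γ → ρ ≤ ‖γ‖) →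
      ‖((ρ : ℂ) ^ 2 - w * (starRingEnd ℂ) w) * (N * f.eval w + (ξ - w) * f.derivative.eval w)
          - N * ((ρ : ℂ) ^ 2 - ξ * (starRingEnd ℂ) w) * f.eval w‖
        ≤ N * (ρ * ‖ξ - w‖) * ‖f.eval w‖ := by
  have hρ : 0 < ρ := lt_of_le_of_lt (norm_nonneg _) hw
  intro N
  induction N with
  | zero =>
    intro f hf _
    rw [Nat.le_zero] at hf
    rw [eq_C_of_natDegree_eq_zero hf]
    simp
  | succ N ih =>
    intro f hf hr
    by_cases hd : f.natDegree ≤ N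
    · have h1 := ih f hd hr
      have e : ((ρ : ℂ) ^ 2 - w * (starRingEnd ℂ) w) * (((N + 1 : ℕ) : ℂ) * f.eval w + (ξ - w) * f.derivative.eval w)
          - ((N + 1 : ℕ) : ℂ) * ((ρ : ℂ) ^ 2 - ξ * (starRingEnd ℂ) w) * f.eval w
          = (((ρ : ℂ) ^ 2 - w * (starRingEnd ℂ) w) * (N * f.eval w + (ξ - w) * f.derivative.eval w)
          - N * ((ρ : ℂ) ^ 2 - ξ * (starRingEnd ℂ) w) * f.eval w)
            + (starRingEnd ℂ) w * (ξ - w) * f.eval w := by
        push_cast; ring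
      rw [e]
      refine (norm_add_le _ _).trans ?_
      have h2 : ‖(starRingEnd ℂ) w * (ξ - w) * f.eval w‖ ≤ ρ * ‖ξ - w‖ * ‖f.eval w‖ := by
        rw [norm_mul, norm_mul, Complex.norm_conj]
        gcongr
      push_cast
      linarith
    · have hd' : f.natDegree = N + 1 := by omega
      have hdeg : 0 < f.degree := by
        apply natDegree_pos_iff_degree_pos.mp; omega
      obtain ⟨γ, hγ⟩ := Complex.exists_root hdeg
      have hfac := mul_divByMonic_eq_iff_isRoot.mpr hγ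
      set g := f /ₘ (X - C γ) with hg
      have hgd : g.natDegree ≤ N := by
        rw [hg, natDegree_divByMonic f (monic_X_sub_C γ), natDegree_X_sub_C]; omega
      have hgr : ∀ δ, g.IsRoot δ → ρ ≤ ‖δ‖ := by
        intro δ hδ
        apply hr
        rw [← hfac]
        simp [IsRoot.def] at hδ ⊢
        right; exact hδ
      have h1 := ih g hgd hgr
      have hγρ := hr γ hγ
      have ev : f.eval w = (w - γ) * g.eval w := by rw [← hfac]; simp
      have ev' : f.derivative.eval w = g.eval w + (w - γ) * g.derivative.eval w := by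
        rw [← hfac]; simp [derivative_mul]
      have e : ((ρ : ℂ) ^ 2 - w * (starRingEnd ℂ) w) * (((N + 1 : ℕ) : ℂ) * f.eval w + (ξ - w) * f.derivative.eval w)
          - ((N + 1 : ℕ) : ℂ) * ((ρ : ℂ) ^ 2 - ξ * (starRingEnd ℂ) w) * f.eval w
          = (w - γ) * (((ρ : ℂ) ^ 2 - w * (starRingEnd ℂ) w) * (N * g.eval w + (ξ - w) * g.derivative.eval w)
          - N * ((ρ : ℂ) ^ 2 - ξ * (starRingEnd ℂ) w) * g.eval w)
            + (ξ - w) * ((ρ : ℂ) ^ 2 - γ * (starRingEnd ℂ) w) * g.eval w := by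
        rw [ev, ev']; push_cast; ring
      rw [e, ev]
      refine (norm_add_le _ _).trans ?_
      have h3 : ‖(ρ : ℂ) ^ 2 - γ * (starRingEnd ℂ) w‖ ≤ ρ * ‖w - γ‖ := by
        have := ns1 ρ w γ
        have a1 : 0 ≤ ρ ^ 2 - ‖w‖ ^ 2 := by nlinarith [norm_nonneg w]
        have a2 : 0 ≤ ‖γ‖ ^ 2 - ρ ^ 2 := by nlinarith
        have a3 := mul_nonneg a1 a2
        apply le_of_sq_le_sq _ (by positivity) |>.trans (le_refl _)
        nlinarith
      have h2 : ‖(ξ - w) * ((ρ : ℂ) ^ 2 - γ * (starRingEnd ℂ) w) * g.eval w‖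
          ≤ ‖ξ - w‖ * (ρ * ‖w - γ‖) * ‖g.eval w‖ := by
        rw [norm_mul, norm_mul]
        gcongr
      rw [norm_mul (w - γ), norm_mul (w - γ)]
      have h4 := mul_le_mul_of_nonneg_left h1 (norm_nonneg (w - γ))
      push_cast
      nlinarith

/-- the polynomial with coefficients `choose n k * α k` -/
noncomputable def pf (n : ℕ) (α : ℕ → ℂ) : ℂ[X] :=
  ∑ k ∈ range (n + 1), monomial k ((n.choose k : ℂ) * α k)

theorem pf_coeff (n : ℕ) (α : ℕ → ℂ) (k : ℕ) : (pf n α).coeff k = (n.choose k : ℂ) * α k := by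
  unfold pf
  rw [finsetSum_coeff]
  simp only [coeff_monomial]
  rw [Finset.sum_ite_eq' (range (n + 1)) k]
  split_ifs with h
  · rfl
  · rw [Nat.choose_eq_zero_of_lt (by simpa using h)]; simp

theorem pf_deg (n : ℕ) (α : ℕ → ℂ) : (pf n α).natDegree ≤ n := by
  rw [natDegree_le_iff_coeff_eq_zero]
  intro k hk
  rw [pf_coeff, Nat.choose_eq_zero_of_lt hk]; simp

theorem pf_eval (n : ℕ) (α : ℕ → ℂ) (w : ℂ) :
    (pf n α).eval w = ∑ k ∈ range (n + 1), (n.choose k : ℂ) * α k * w ^ k := by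
  unfold pf
  rw [eval_finsetSum]
  simp [eval_monomial]

/-- no zeros in the open disc of radius `ρ` -/
def ZF (n : ℕ) (α : ℕ → ℂ) (ρ : ℝ) : Prop := ∀ w : ℂ, ‖w‖ < ρ → (pf n α).eval w ≠ 0

theorem ZF.roots {n : ℕ} {α : ℕ → ℂ} {ρ : ℝ} (h : ZF n α ρ) :
    ∀ γ, (pf n α).IsRoot γ → ρ ≤ ‖γ‖ := by
  intro γ hγ
  by_contra hc
  exact h γ (not_le.mp hc) hγ

theorem X_mul_deriv_coeff (f : ℂ[X]) (k : ℕ) : (X * f.derivative).coeff k = k * f.coeff k := by
  cases k with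
  | zero => simp
  | succ k => rw [coeff_X_mul, coeff_derivative]; push_cast; ring

theorem polar_id (n : ℕ) (α : ℕ → ℂ) (ξ : ℂ) :
    C ((n + 1 : ℕ) : ℂ) * pf (n + 1) α + C ξ * (pf (n + 1) α).derivative
      - X * (pf (n + 1) α).derivative
      = C ((n + 1 : ℕ) : ℂ) * pf n (fun k => α k + ξ * α (k + 1)) := by
  ext k
  rw [coeff_sub, coeff_add, X_mul_deriv_coeff, coeff_C_mul, coeff_C_mul, coeff_C_mul,
    coeff_derivative, pf_coeff, pf_coeff, pf_coeff]
  have h1 : ((n + 1 : ℕ) : ℂ) * (n.choose k : ℂ) = ((n + 1).choose (k + 1) : ℂ) * (k + 1) := by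
    exact_mod_cast Nat.add_one_mul_choose_eq n k
  have h2 : ((n + 1 : ℕ) : ℂ) * (n.choose k : ℂ)
      = ((n + 1).choose k : ℂ) * (((n + 1 : ℕ) : ℂ) - k) := by
    by_cases hk : k ≤ n + 1
    · have := Nat.choose_mul_succ_eq n k
      rw [← Nat.cast_sub hk]
      rw [mul_comm]
      exact_mod_cast this
    · rw [Nat.choose_eq_zero_of_lt (by omega), Nat.choose_eq_zero_of_lt (by omega)]; simp
  linear_combination (-(α k)) * h2 - ξ * α (k + 1) * h1

theorem ZF.polar {n : ℕ} {α : ℕ → ℂ} {ρ : ℝ} (h : ZF (n + 1) α ρ) (ξ : ℂ) (hξ : ‖ξ‖ < ρ) :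
    ZF n (fun k => α k + ξ * α (k + 1)) ρ := by
  intro w hw h0
  have h1 := lag_ineq ρ w ξ hw (n + 1) _ (pf_deg (n + 1) α) h.roots
  have h2 := congrArg (eval w) (polar_id n α ξ)
  simp only [eval_sub, eval_add, eval_mul, eval_C, eval_X, h0, mul_zero] at h2
  have h3 : ((n + 1 : ℕ) : ℂ) * (pf (n + 1) α).eval w + (ξ - w) * (pf (n + 1) α).derivative.eval w = 0 := by
    linear_combination h2
  rw [h3, mul_zero, zero_sub, norm_neg, norm_mul, norm_mul, Complex.norm_natCast] at h1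
  have h4 : 0 < ‖(pf (n + 1) α).eval w‖ := norm_pos_iff.mpr (h w hw)
  have h5 : (0 : ℝ) < ((n + 1 : ℕ) : ℝ) := by positivity
  have h6 : ‖(ρ : ℂ) ^ 2 - ξ * (starRingEnd ℂ) w‖ ≤ ρ * ‖ξ - w‖ := by
    have := le_of_mul_le_mul_right h1 h4
    exact le_of_mul_le_mul_left this h5
  have h7 := ns1 ρ w ξ
  rw [norm_sub_rev w ξ] at h7
  have hρ : 0 < ρ := lt_of_le_of_lt (norm_nonneg _) hw
  have a1 : 0 < ρ ^ 2 - ‖w‖ ^ 2 := by nlinarith [norm_nonneg w]
  have a2 : 0 < ρ ^ 2 - ‖ξ‖ ^ 2 := by nlinarith [norm_nonneg ξ]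
  have a3 := mul_pos a1 a2
  have a4 := mul_self_le_mul_self (norm_nonneg _) h6
  nlinarith

theorem ZF.theta {n : ℕ} {α : ℕ → ℂ} {ρ : ℝ} (h : ZF n α ρ) (β : ℂ) (hβ : 0 < β.re) :
    ZF n (fun k => α k * (β + ((n - k : ℕ) : ℂ))) ρ := by
  intro w hw h0
  have h1 := lag_ineq ρ w 0 hw n _ (pf_deg n α) h.roots
  have hid : C ((n : ℂ) + β) * pf n α - X * (pf n α).derivative
      = pf n (fun k => α k * (β + ((n - k : ℕ) : ℂ))) := by
    ext k
    rw [coeff_sub, X_mul_deriv_coeff, coeff_C_mul, pf_coeff, pf_coeff]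
    by_cases hk : k ≤ n
    · rw [Nat.cast_sub hk]; ring
    · rw [Nat.choose_eq_zero_of_lt (by omega)]; simp
  have h2 := congrArg (eval w) hid
  simp only [eval_sub, eval_mul, eval_C, eval_X, h0] at h2
  have hww : w * (starRingEnd ℂ) w = ((‖w‖ ^ 2 : ℝ) : ℂ) := by
    rw [Complex.mul_conj, Complex.normSq_eq_norm_sq]
  have e : ((ρ : ℂ) ^ 2 - w * (starRingEnd ℂ) w) * (n * (pf n α).eval w + (0 - w) * (pf n α).derivative.eval w)
          - n * ((ρ : ℂ) ^ 2 - 0 * (starRingEnd ℂ) w) * (pf n α).eval w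
        = -((((ρ ^ 2 - ‖w‖ ^ 2 : ℝ) : ℂ) * β + ((n * ρ ^ 2 : ℝ) : ℂ)) * (pf n α).eval w) := by
    rw [hww]; push_cast
    linear_combination ((ρ : ℂ) ^ 2 - (‖w‖ : ℂ) ^ 2) * h2
  rw [e, norm_neg, norm_mul] at h1
  have h4 : 0 < ‖(pf n α).eval w‖ := norm_pos_iff.mpr (h w hw)
  have h5 := le_of_mul_le_mul_right h1 h4
  have h6 := (Complex.re_le_norm _).trans h5
  rw [Complex.add_re, Complex.re_ofReal_mul, Complex.ofReal_re, zero_sub, norm_neg] at h6
  have hρ : 0 < ρ := lt_of_le_of_lt (norm_nonneg _) hw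
  have a1 : 0 < ρ ^ 2 - ‖w‖ ^ 2 := by nlinarith [norm_nonneg w]
  have a2 := mul_pos a1 hβ
  have a3 : (n : ℝ) * (ρ * ‖w‖) ≤ n * ρ ^ 2 := by
    apply mul_le_mul_of_nonneg_left _ (by positivity)
    nlinarith
  linarith

theorem grace (ρ : ℝ) (hρ : 0 < ρ) : ∀ (n : ℕ) (α : ℕ → ℂ) (G : ℂ[X]), G.natDegree ≤ n →
    G.coeff 0 ≠ 0 → (∀ γ, G.IsRoot γ → 1 < ρ * ‖γ‖) → ZF n α ρ →
    ∑ k ∈ range (n + 1), G.coeff k * α k ≠ 0 := by
  intro n
  induction n with
  | zero =>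
    intro α G _ h0 _ hz
    have := hz 0 (by simpa using hρ)
    rw [pf_eval] at this
    simp at this ⊢
    exact ⟨h0, this⟩
  | succ n ih =>
    intro α G hd h0 hr hz
    have key : ∀ (ξ : ℂ) (H : ℂ[X]), ‖ξ‖ < ρ → H.natDegree ≤ n → G = (1 + C ξ * X) * H →
        ∑ k ∈ range (n + 1 + 1), G.coeff k * α k ≠ 0 := by
      intro ξ H hξ hH hG
      have c0 : G.coeff 0 = H.coeff 0 := by rw [hG]; simp
      have cs : ∀ k, G.coeff (k + 1) = H.coeff (k + 1) + ξ * H.coeff k := by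
        intro k; rw [hG, add_mul, one_mul, mul_assoc, coeff_add, coeff_C_mul, coeff_X_mul]
      have hH0 : H.coeff 0 ≠ 0 := c0 ▸ h0
      have hHr : ∀ γ, H.IsRoot γ → 1 < ρ * ‖γ‖ := by
        intro γ hγ
        apply hr
        rw [hG]
        simp [IsRoot.def] at hγ ⊢
        right; exact hγ
      have := ih _ H hH hH0 hHr (hz.polar ξ hξ)
      have hn : H.coeff (n + 1) = 0 := coeff_eq_zero_of_natDegree_lt (by omega)
      have e : ∑ k ∈ range (n + 1 + 1), G.coeff k * α k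
          = ∑ k ∈ range (n + 1), H.coeff k * (α k + ξ * α (k + 1)) := by
        rw [sum_range_succ' (fun k => G.coeff k * α k)]
        simp only [cs, c0, mul_add, add_mul, sum_add_distrib]
        rw [sum_range_succ' (fun k => H.coeff k * α k), sum_range_succ (fun k => H.coeff (k + 1) * α (k + 1)), hn]
        have : ∑ x ∈ range (n + 1), ξ * H.coeff x * α (x + 1) = ∑ x ∈ range (n + 1), H.coeff x * (ξ * α (x + 1)) :=
          sum_congr rfl (fun x _ => by ring)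
        rw [this]; ring
      rwa [e]
    by_cases hd' : G.natDegree ≤ n
    · exact key 0 G (by simpa using hρ) hd' (by simp)
    · have hdeg : 0 < G.degree := by
        apply natDegree_pos_iff_degree_pos.mp; omega
      obtain ⟨γ, hγ⟩ := Complex.exists_root hdeg
      have hfac := mul_divByMonic_eq_iff_isRoot.mpr hγ
      set g := G /ₘ (X - C γ) with hg
      have hgd : g.natDegree ≤ n := by
        rw [hg, natDegree_divByMonic G (monic_X_sub_C γ), natDegree_X_sub_C]; omega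
      have h1 := hr γ hγ
      have hγ0 : γ ≠ 0 := by rintro rfl; simp at h1; linarith
      have hγp : 0 < ‖γ‖ := norm_pos_iff.mpr hγ0
      refine key (-γ⁻¹) (C (-γ) * g) ?_ ((natDegree_C_mul_le _ _).trans hgd) ?_
      · rw [norm_neg, norm_inv, inv_lt_iff_one_lt_mul₀ hγp]; exact h1
      · rw [← hfac]
        have : C (-γ⁻¹) * C (-γ) = (1 : ℂ[X]) := by
          rw [← C_mul]; simp [hγ0]
        have hc : (C (-γ) : ℂ[X]) = -C γ := C_neg
        rw [hc] at this ⊢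
        linear_combination (-(X * g)) * this

theorem ZF.mul {n : ℕ} {α β : ℕ → ℂ} {ρ σ : ℝ} (hρ : 0 < ρ) (hσ : 0 < σ)
    (ha : ZF n α ρ) (hb : ZF n β σ) : ZF n (fun k => α k * β k) (ρ * σ) := by
  intro w hw
  have h0 : β 0 ≠ 0 := by
    have := hb 0 (by simpa using hσ)
    rw [pf_eval, sum_range_succ'] at this
    simpa using this
  have := grace ρ hρ n α (pf n (fun k => β k * w ^ k)) (pf_deg _ _) (by simpa [pf_coeff] using h0)
    (by
      intro γ hγ
      have e : (pf n β).eval (w * γ) = (pf n (fun k => β k * w ^ k)).eval γ := by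
        rw [pf_eval, pf_eval]
        exact sum_congr rfl (fun k _ => by rw [mul_pow]; ring)
      have h1 : σ ≤ ‖w * γ‖ := hb.roots _ (by rw [IsRoot.def, e]; exact hγ)
      rw [norm_mul] at h1
      by_contra hc
      push Not at hc
      have h2 : 0 < ‖γ‖ := by
        by_contra h3
        have : ‖γ‖ = 0 := le_antisymm (not_lt.mp h3) (norm_nonneg _)
        rw [this] at h1; linarith
      nlinarith) ha
  rw [pf_eval]
  convert this using 2 with k
  rw [pf_coeff]; ring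

theorem ZF.congr {n : ℕ} {α β : ℕ → ℂ} {ρ : ℝ} (h : ZF n α ρ) (c : ℂ) (hc : c ≠ 0)
    (e : ∀ k ≤ n, β k = c * α k) : ZF n β ρ := by
  intro w hw
  have := h w hw
  rw [pf_eval] at this ⊢
  have e2 : ∑ k ∈ range (n + 1), (n.choose k : ℂ) * β k * w ^ k
      = c * ∑ k ∈ range (n + 1), (n.choose k : ℂ) * α k * w ^ k := by
    rw [mul_sum]
    exact sum_congr rfl (fun k hk => by rw [e k (by simpa [Nat.lt_succ_iff] using hk)]; ring)
  rw [e2]
  exact mul_ne_zero hc this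

theorem ZF.mono {n : ℕ} {α : ℕ → ℂ} {ρ σ : ℝ} (h : ZF n α ρ) (hs : σ ≤ ρ) : ZF n α σ :=
  fun w hw => h w (lt_of_lt_of_le hw hs)

end Pool.Agent.H8.GS
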