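import Mathlib
import Pool.Agent.H8.GS1

namespace Pool.Agent.H8.GS
open Finset

section ps
open PowerSeries

theorem th_coeff (f : ℂ⟦X⟧) (k : ℕ) :
    coeff k (X * PowerSeries.derivative ℂ f) = k * coeff k f := by
  cases k with
  | zero => simp
  | succ k => rw [coeff_succ_X_mul, PowerSeries.coeff_derivative]; push_cast; ring

theorem ode_rec (B E : ℕ → ℂ) (nn c σ τ : ℂ)
    (hB : ∀ k : ℕ, ((k : ℂ) + 1) * (c - k) * B (k + 1) = (nn - k) * (τ - σ * k) * B k)
    (hE : ∀ j : ℕ, ((j : ℂ) + 1) * E (j + 1) = -(σ * (nn - c) + τ + σ * j) * E j) (m : ℕ) :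
    ((m : ℂ) + 1) * (c - m) * (∑ p ∈ antidiagonal (m + 1), E p.1 * B p.2)
      = (m + nn - c) * (σ * (m - c) + τ) * (∑ p ∈ antidiagonal m, E p.1 * B p.2) := by
  set g : ℂ⟦X⟧ := PowerSeries.mk B with hg
  set e : ℂ⟦X⟧ := PowerSeries.mk E with he
  set D : Derivation ℂ ℂ⟦X⟧ ℂ⟦X⟧ := PowerSeries.derivative ℂ with hD
  have L : ∀ a b : ℂ⟦X⟧, D (a * b) = a * D b + b * D a := by
    intro a b; rw [Derivation.leibniz]; simp [smul_eq_mul]
  have DC : ∀ r : ℂ, D (C r) = 0 := fun r => derivative_C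
  have DX : D X = 1 := derivative_X
  have G : C c * D g - X * D (D g)
      = C (nn * τ) * g - C (nn * σ + τ) * (X * D g) + C σ * (X * D (X * D g)) := by
    ext k
    simp only [hD, hg, LinearMap.map_sub, LinearMap.map_add, coeff_C_mul, th_coeff, PowerSeries.coeff_derivative, coeff_mk]
    linear_combination hB k
  have H1 : D e + C σ * (X * D e) = -(C (σ * (nn - c) + τ) * e) := by
    ext k
    simp only [hD, he, LinearMap.map_sub, LinearMap.map_add, LinearMap.map_neg, coeff_C_mul, th_coeff, PowerSeries.coeff_derivative, coeff_mk]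
    linear_combination hE k
  have H2 := congrArg D H1
  simp only [L, map_add D, map_neg D, DC, DX] at H2 G
  have goal : C c * D (e * g) - X * D (D (e * g))
      = C ((nn - c) * (τ - σ * c)) * (e * g) + C (σ * (nn - c) + (τ - σ * c)) * (X * D (e * g))
        + C σ * (X * D (X * D (e * g))) := by
    simp only [L, map_add D, DC, DX]
    simp only [map_add, map_mul, map_sub] at H1 H2 G ⊢
    linear_combination e * G - (X * g) * H2 - (2 * X * D g - C c * g) * H1
  have hc := congrArg (coeff m) goal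
  simp only [hD, LinearMap.map_sub, LinearMap.map_add, coeff_C_mul, th_coeff, PowerSeries.coeff_derivative] at hc
  simp only [coeff_mul, hg, he, coeff_mk] at hc
  linear_combination hc
end ps

open Polynomial

theorem geo3 (N : ℕ) : ∑ i ∈ range N, (1 / 3 : ℝ) ^ (i + 1) ≤ 1 / 2 - (1 / 3) ^ N / 2 := by
  induction N with
  | zero => simp
  | succ N ih => rw [sum_range_succ]; rw [pow_succ] at *; linarith

theorem zlem (g : ℂ[X]) (E : ℕ → ℂ) (n : ℕ) (L : ℝ) (hL : 0 < L) (h0 : E 0 * g.coeff 0 = 1)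
    (h1 : ∀ m, 1 ≤ m → m ≤ n → ‖∑ p ∈ antidiagonal m, E p.1 * g.coeff p.2‖ ≤ L ^ m)
    (h2 : ∀ j k, j ≤ n → n < j + k → ‖E j * g.coeff k‖ ≤ (L / 2) ^ (j + k))
    (w : ℂ) (hw : ‖w‖ < 1 / (3 * L)) : g.eval w ≠ 0 := by
  set T : ℂ[X] := ∑ j ∈ range (n + 1), monomial j (E j) with hT
  have Tc : ∀ j, T.coeff j = if j ≤ n then E j else 0 := by
    intro j
    rw [hT, finsetSum_coeff]
    simp only [coeff_monomial]
    rw [Finset.sum_ite_eq' (range (n + 1)) j]
    simp [Nat.lt_succ_iff]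
  have Q0 : (T * g).coeff 0 = 1 := by
    rw [mul_coeff_zero, Tc]; simpa using h0
  have Qm : ∀ m, 1 ≤ m → ‖(T * g).coeff m‖ ≤ L ^ m := by
    intro m hm
    rw [coeff_mul]
    by_cases hmn : m ≤ n
    · have : ∑ p ∈ antidiagonal m, T.coeff p.1 * g.coeff p.2
          = ∑ p ∈ antidiagonal m, E p.1 * g.coeff p.2 := by
        refine sum_congr rfl (fun p hp => ?_)
        rw [Finset.HasAntidiagonal.mem_antidiagonal] at hp
        rw [Tc, if_pos (by omega)]
      rw [this]; exact h1 m hm hmn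
    · refine (norm_sum_le _ _).trans ?_
      have : ∀ p ∈ antidiagonal m, ‖T.coeff p.1 * g.coeff p.2‖ ≤ (L / 2) ^ m := by
        intro p hp
        rw [Finset.HasAntidiagonal.mem_antidiagonal] at hp
        rw [Tc]
        split_ifs with h
        · rw [← hp]; exact h2 _ _ h (by omega)
        · simp; positivity
      refine (sum_le_card_nsmul _ _ _ this).trans ?_
      rw [Nat.card_antidiagonal, nsmul_eq_mul, div_pow]
      have h3 : ((m + 1 : ℕ) : ℝ) ≤ 2 ^ m := by
        exact_mod_cast Nat.lt_two_pow_self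
      rw [mul_div_assoc', div_le_iff₀ (by positivity), mul_comm]
      gcongr
  intro hz
  have e1 : (T * g).eval w = 0 := by rw [eval_mul, hz, mul_zero]
  rw [eval_eq_sum_range, sum_range_succ', Q0] at e1
  have e2 : ‖∑ i ∈ range (T * g).natDegree, (T * g).coeff (i + 1) * w ^ (i + 1)‖ ≤ 1 / 2 := by
    refine (norm_sum_le _ _).trans ?_
    have hLw : L * ‖w‖ ≤ 1 / 3 := by
      rw [lt_div_iff₀ (by positivity)] at hw; nlinarith
    have : ∀ i ∈ range (T * g).natDegree, ‖(T * g).coeff (i + 1) * w ^ (i + 1)‖ ≤ (1 / 3 : ℝ) ^ (i + 1) := by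
      intro i _
      rw [norm_mul, norm_pow]
      calc _ ≤ L ^ (i + 1) * ‖w‖ ^ (i + 1) := by gcongr; exact Qm _ (by omega)
        _ = (L * ‖w‖) ^ (i + 1) := by rw [mul_pow]
        _ ≤ _ := by gcongr
    refine (sum_le_sum this).trans ((geo3 _).trans ?_)
    have : (0 : ℝ) ≤ (1 / 3) ^ (T * g).natDegree := by positivity
    linarith
  have e3 : ∑ i ∈ range (T * g).natDegree, (T * g).coeff (i + 1) * w ^ (i + 1) = -1 := by
    linear_combination e1
  rw [e3] at e2
  norm_num at e2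

theorem prod_bd (u v x : ℕ → ℝ) (N : ℕ) (hu : ∀ i, 0 ≤ u i) (hv : ∀ i, 0 ≤ v i) (h0 : x 0 ≤ 1)
    (h : ∀ m < N, u m * x (m + 1) ≤ v m * x m) :
    ∀ m ≤ N, (∏ i ∈ range m, u i) * x m ≤ ∏ i ∈ range m, v i := by
  intro m
  induction m with
  | zero => intro _; simpa using h0
  | succ m ih =>
    intro hm
    rw [prod_range_succ, prod_range_succ]
    have h1 := ih (by omega)
    have h2 := h m (by omega)
    have h3 : 0 ≤ ∏ i ∈ range m, u i := prod_nonneg (fun i _ => hu i)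
    calc (∏ i ∈ range m, u i) * u m * x (m + 1) = (∏ i ∈ range m, u i) * (u m * x (m + 1)) := by ring
      _ ≤ (∏ i ∈ range m, u i) * (v m * x m) := by gcongr
      _ = ((∏ i ∈ range m, u i) * x m) * v m := by ring
      _ ≤ _ := by gcongr; exact hv m

theorem pw_fact (m : ℕ) : (m : ℝ) ^ m ≤ 3 ^ m * m.factorial := by
  have h1 := Real.pow_div_factorial_le_exp (m : ℝ) (by positivity) m
  rw [div_le_iff₀ (by positivity)] at h1
  have h2 : Real.exp (m : ℝ) ≤ 3 ^ m := by
    rw [← Real.exp_one_pow]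
    gcongr
    exact le_trans Real.exp_one_lt_d9.le (by norm_num)
  calc _ ≤ _ := h1
    _ ≤ _ := by gcongr

theorem df_aux (m n : ℕ) (h : m ≤ n) : ∀ j ≤ m, m.descFactorial j * n ^ j ≤ m ^ j * n.descFactorial j := by
  intro j
  induction j with
  | zero => simp
  | succ j ih =>
    intro hj
    have h1 := ih (by omega)
    rw [Nat.descFactorial_succ, Nat.descFactorial_succ, pow_succ, pow_succ]
    have h2 : (m - j) * n ≤ m * (n - j) := by
      obtain ⟨s, rfl⟩ := Nat.exists_eq_add_of_le (show j ≤ m by omega)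
      obtain ⟨t, rfl⟩ := Nat.exists_eq_add_of_le h
      rw [Nat.add_sub_cancel_left, add_assoc, Nat.add_sub_cancel_left]
      nlinarith [Nat.zero_le (j * t)]
    calc (m - j) * m.descFactorial j * (n ^ j * n) = ((m - j) * n) * (m.descFactorial j * n ^ j) := by ring
      _ ≤ (m * (n - j)) * (m ^ j * n.descFactorial j) := Nat.mul_le_mul h2 h1
      _ = _ := by ring

theorem df_lb (m n : ℕ) (h : m ≤ n) : (n : ℝ) ^ m ≤ 3 ^ m * n.descFactorial m := by
  have h1 := df_aux m n h m le_rfl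
  rw [Nat.descFactorial_self] at h1
  have h2 : (m.factorial : ℝ) * n ^ m ≤ m ^ m * n.descFactorial m := by exact_mod_cast h1
  have h3 := pw_fact m
  have h4 : (0 : ℝ) < m.factorial := by positivity
  apply le_of_mul_le_mul_left _ h4
  calc _ ≤ _ := h2
    _ ≤ (3 ^ m * m.factorial) * n.descFactorial m := by gcongr
    _ = _ := by ring

theorem prod_df (n m : ℕ) : ∏ i ∈ range m, ((n - i : ℕ) : ℝ) = n.descFactorial m := by
  rw [Nat.descFactorial_eq_prod_range]; push_cast; rfl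

theorem prod_fact (m : ℕ) : ∏ i ∈ range m, ((i : ℝ) + 1) = m.factorial := by
  rw [← Finset.prod_range_add_one_eq_factorial]; push_cast; rfl

theorem exK (a : ℂ) (ha : ∀ m : ℕ, a ≠ -(m : ℂ)) :
    ∃ K : ℝ, 1 ≤ K ∧ ∀ i : ℕ, (i : ℝ) + 1 ≤ K * ‖a + i‖ := by
  have hp : ∀ i : ℕ, 0 < ‖a + i‖ := by
    intro i
    rw [norm_pos_iff]
    intro h
    exact ha i (by linear_combination h)
  obtain ⟨N, hN⟩ := exists_nat_ge (2 * ‖a‖ + 1)
  have hs : 0 ≤ ∑ i ∈ range N, ((i : ℝ) + 1) / ‖a + i‖ := sum_nonneg (fun i _ => by positivity)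
  refine ⟨2 + ∑ i ∈ range N, ((i : ℝ) + 1) / ‖a + i‖, by linarith, fun i => ?_⟩
  by_cases hi : i < N
  · have h1 : ((i : ℝ) + 1) / ‖a + i‖ ≤ ∑ i ∈ range N, ((i : ℝ) + 1) / ‖a + i‖ :=
      single_le_sum (f := fun i : ℕ => ((i : ℝ) + 1) / ‖a + i‖) (fun i _ => by positivity) (mem_range.mpr hi)
    rw [div_le_iff₀ (hp i)] at h1
    nlinarith [hp i]
  · have h1 : (N : ℝ) ≤ i := by exact_mod_cast not_lt.mp hi
    have h2 : (i : ℝ) ≤ ‖a + i‖ + ‖a‖ := by
      have := norm_sub_le (a + i) a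
      simpa using this
    have h3 := mul_nonneg hs (hp i).le
    nlinarith

theorem upK (x : ℂ) (K : ℝ) (hK : 1 + ‖x‖ ≤ K) (i : ℕ) : ‖x + i‖ ≤ K * ((i : ℝ) + 1) := by
  have h1 := norm_add_le x i
  rw [Complex.norm_natCast] at h1
  have h2 : (0 : ℝ) ≤ i := by positivity
  nlinarith [norm_nonneg x]

end Pool.Agent.H8.GS
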