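import Mathlib
import Pool.Agent.H8.GS2

namespace Pool.Agent.H8.GS
open Finset Polynomial

/-- rising factorial -/
noncomputable def pc (w : ℂ) (k : ℕ) : ℂ := ∏ i ∈ range k, (w + i)

theorem pc_succ (w : ℂ) (k : ℕ) : pc w (k + 1) = pc w k * (w + k) := prod_range_succ _ _

theorem pc_ne (a : ℂ) (K : ℝ) (h1 : ∀ i : ℕ, (i : ℝ) + 1 ≤ K * ‖a + i‖) (j : ℕ) : pc a j ≠ 0 := by
  unfold pc
  refine prod_ne_zero_iff.mpr (fun i _ h => ?_)
  have := h1 i
  rw [h] at this
  simp at this
  have : (0 : ℝ) ≤ i := by positivity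
  linarith

theorem step (n k : ℕ) (β : ℕ → ℂ) (x y : ℂ) (h : k < n → x * β (k + 1) = y * β k) :
    ((k : ℂ) + 1) * x * ((n.choose (k + 1) : ℂ) * β (k + 1))
      = ((n : ℂ) - k) * y * ((n.choose k : ℂ) * β k) := by
  by_cases hk : k < n
  · have h1 := Nat.choose_succ_right_eq n k
    have h2 : (n.choose (k + 1) : ℂ) * (k + 1) = (n.choose k : ℂ) * ((n : ℂ) - k) := by
      rw [← Nat.cast_sub hk.le]; exact_mod_cast h1
    linear_combination (x * β (k + 1)) * h2 + ((n.choose k : ℂ) * ((n : ℂ) - k)) * h hk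
  · rw [Nat.choose_eq_zero_of_lt (show n < k + 1 by omega)]
    rcases Nat.eq_or_lt_of_le (not_lt.mp hk) with h1 | h1
    · rw [h1]; simp
    · rw [Nat.choose_eq_zero_of_lt h1]; simp

theorem pc_step (a : ℂ) (n k : ℕ) (hk : k < n) :
    pc a (n - k) = pc a (n - (k + 1)) * (a + n - 1 - k) := by
  obtain ⟨t, rfl⟩ := Nat.exists_eq_add_of_lt hk
  rw [show k + t + 1 - k = t + 1 by omega, show k + t + 1 - (k + 1) = t by omega, pc_succ]
  push_cast; ring

theorem low (a : ℂ) (K : ℝ) (h1 : ∀ i : ℕ, (i : ℝ) + 1 ≤ K * ‖a + i‖) (n k : ℕ) (hk : k < n) :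
    ((n - k : ℕ) : ℝ) ≤ K * ‖a + n - 1 - k‖ := by
  obtain ⟨t, rfl⟩ := Nat.exists_eq_add_of_lt hk
  rw [show k + t + 1 - k = t + 1 by omega]
  have := h1 t
  convert this using 3
  · push_cast; ring
  · push_cast; ring

theorem nrm1 (m : ℕ) : ‖(m : ℂ) + 1‖ = (m : ℝ) + 1 := by
  exact_mod_cast Complex.norm_natCast (m + 1)

theorem nrm2 (n k : ℕ) (hk : k < n) : ‖(n : ℂ) - k‖ = ((n - k : ℕ) : ℝ) := by
  rw [← Nat.cast_sub hk.le, Complex.norm_natCast]

theorem baseA (a : ℂ) (K : ℝ) (hK : 1 ≤ K) (h1 : ∀ i : ℕ, (i : ℝ) + 1 ≤ K * ‖a + i‖)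
    (h2 : ∀ i : ℕ, ‖(1 - a) + i‖ ≤ K * ((i : ℝ) + 1)) (n : ℕ) (hn : 1 ≤ n) :
    ZF n (fun k => pc a (n - k)) (n / (36 * K ^ 2)) := by
  have hp := pc_ne a K h1
  have hn' : (0 : ℝ) < n := by exact_mod_cast hn
  set β : ℕ → ℂ := fun k => pc a (n - k) / pc a n with hβ
  suffices h : ZF n β (n / (36 * K ^ 2)) by
    refine h.congr (pc a n) (hp n) (fun k _ => ?_)
    simp only [hβ]; field_simp [hp n]
  set B : ℕ → ℂ := fun k => (n.choose k : ℂ) * β k with hBd
  set E : ℕ → ℂ := fun j => (-1) ^ j / (j.factorial : ℂ) with hEd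
  have hB : ∀ k : ℕ, ((k : ℂ) + 1) * ((a + n - 1) - k) * B (k + 1) = (n - k) * (1 - 0 * k) * B k := by
    intro k
    refine step n k β _ _ (fun hk => ?_)
    simp only [hβ]
    rw [pc_step a n k hk]; ring
  have hE : ∀ j : ℕ, ((j : ℂ) + 1) * E (j + 1) = -(0 * (n - (a + n - 1)) + 1 + 0 * j) * E j := by
    intro j
    simp only [hEd, Nat.factorial_succ]
    have : ((j : ℂ) + 1) ≠ 0 := by exact_mod_cast Nat.succ_ne_zero j
    have : (j.factorial : ℂ) ≠ 0 := by exact_mod_cast j.factorial_ne_zero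
    push_cast; field_simp; ring
  have hd := ode_rec B E n (a + n - 1) 0 1 hB hE
  set d : ℕ → ℂ := fun m => ∑ p ∈ antidiagonal m, E p.1 * B p.2 with hdd
  have B0 : B 0 = 1 := by simp [hBd, hβ, hp n]
  have E0 : E 0 = 1 := by simp [hEd]
  have d0 : d 0 = 1 := by simp [hdd, B0, E0]
  have bd := prod_bd (fun i => ((n - i : ℕ) : ℝ)) (fun _ => K ^ 2) (fun m => ‖d m‖) n
    (fun i => by positivity) (fun i => by positivity) (by simp [d0]) (by
      intro m hm
      have e1 := congrArg norm (hd m)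
      have e2 : (m : ℂ) + n - (a + n - 1) = (1 - a) + m := by ring
      rw [e2] at e1
      simp only [norm_mul, nrm1, zero_mul, zero_add, norm_one, mul_one] at e1
      have e3 := low a K h1 n m hm
      have e4 := h2 m
      have hm1 : (0 : ℝ) < (m : ℝ) + 1 := by positivity
      apply le_of_mul_le_mul_left _ hm1
      calc ((m : ℝ) + 1) * (((n - m : ℕ) : ℝ) * ‖d (m + 1)‖)
          ≤ ((m : ℝ) + 1) * ((K * ‖a + n - 1 - m‖) * ‖d (m + 1)‖) := by gcongr
        _ = K * (((m : ℝ) + 1) * ‖a + n - 1 - m‖ * ‖d (m + 1)‖) := by ring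
        _ = K * (‖(1 - a) + m‖ * ‖d m‖) := by rw [e1]
        _ ≤ K * ((K * ((m : ℝ) + 1)) * ‖d m‖) := by gcongr
        _ = _ := by ring)
  have bB : ∀ k, (k.factorial : ℝ) * ‖B k‖ ≤ K ^ k := by
    intro k
    have := prod_bd (fun i => (i : ℝ) + 1) (fun _ => K) (fun m => ‖B m‖) k
      (fun i => by positivity) (fun i => by positivity) (by simp [B0]) (by
        intro m _
        by_cases hm : m < n
        · have e1 := congrArg norm (hB m)
          simp only [norm_mul, nrm1, nrm2 n m hm, zero_mul, sub_zero, norm_one, mul_one] at e1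
          have e3 := low a K h1 n m hm
          have hm1 : (0 : ℝ) < ((n - m : ℕ) : ℝ) := by exact_mod_cast Nat.sub_pos_of_lt hm
          apply le_of_mul_le_mul_left _ hm1
          calc ((n - m : ℕ) : ℝ) * (((m : ℝ) + 1) * ‖B (m + 1)‖)
              ≤ (K * ‖a + n - 1 - m‖) * (((m : ℝ) + 1) * ‖B (m + 1)‖) := by gcongr
            _ = K * (((m : ℝ) + 1) * ‖a + n - 1 - m‖ * ‖B (m + 1)‖) := by ring
            _ = K * (((n - m : ℕ) : ℝ) * ‖B m‖) := by rw [e1]
            _ = _ := by ring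
        · have : B (m + 1) = 0 := by
            simp only [hBd]; rw [Nat.choose_eq_zero_of_lt (by omega)]; simp
          simp only [this]; simp; positivity) k le_rfl
    rwa [prod_fact, prod_const, card_range] at this
  intro w hw
  refine zlem (pf n β) E n (12 * K ^ 2 / n) (by positivity) ?_ ?_ ?_ w ?_
  · rw [pf_coeff, E0, one_mul]; exact B0
  · intro m _ hm
    simp only [pf_coeff]
    have e1 := bd m hm
    simp only [prod_df, prod_const, card_range] at e1
    have e2 := df_lb m n hm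
    show ‖d m‖ ≤ _
    rw [div_pow, le_div_iff₀ (by positivity)]
    calc ‖d m‖ * (n : ℝ) ^ m ≤ ‖d m‖ * (3 ^ m * n.descFactorial m) := by gcongr
      _ = 3 ^ m * (n.descFactorial m * ‖d m‖) := by ring
      _ ≤ 3 ^ m * (K ^ 2) ^ m := by gcongr
      _ = (3 * K ^ 2) ^ m := by rw [mul_pow]
      _ ≤ _ := by gcongr; norm_num
  · intro j k hj hjk
    rw [pf_coeff]
    show ‖E j * B k‖ ≤ _
    have e1 : ‖E j‖ * j.factorial = 1 := by
      simp only [hEd, norm_div, norm_pow, norm_neg, norm_one, one_pow, Complex.norm_natCast]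
      field_simp
    have e2 := bB k
    have e3 : ((j + k).factorial : ℝ) ≤ 2 ^ (j + k) * (j.factorial * k.factorial) := by
      have := Nat.add_choose_mul_factorial_mul_factorial j k
      have h5 := Nat.choose_le_two_pow (j + k) j
      have h6 : (j + k).factorial ≤ 2 ^ (j + k) * (j.factorial * k.factorial) := by
        rw [← this, mul_assoc]
        exact Nat.mul_le_mul_right _ (Nat.choose_le_two_pow _ _)
      exact_mod_cast h6
    have e4 := pw_fact (j + k)
    have e5 : (n : ℝ) ^ (j + k) ≤ ((j + k : ℕ) : ℝ) ^ (j + k) := by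
      gcongr
    rw [show 12 * K ^ 2 / n / 2 = 6 * K ^ 2 / n by ring, div_pow, le_div_iff₀ (by positivity), norm_mul]
    have e6 : K ^ k ≤ (K ^ 2) ^ (j + k) := by
      rw [← pow_mul]; exact pow_le_pow_right₀ hK (by omega)
    calc ‖E j‖ * ‖B k‖ * (n : ℝ) ^ (j + k)
        ≤ ‖E j‖ * ‖B k‖ * (3 ^ (j + k) * (2 ^ (j + k) * (j.factorial * k.factorial))) := by
          gcongr
          exact e5.trans (e4.trans (by gcongr))
      _ = (3 ^ (j + k) * 2 ^ (j + k)) * (‖E j‖ * j.factorial) * (k.factorial * ‖B k‖) := by ring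
      _ ≤ (3 ^ (j + k) * 2 ^ (j + k)) * 1 * (K ^ 2) ^ (j + k) := by
          rw [e1]; gcongr; exact e2.trans e6
      _ = _ := by rw [mul_one, ← mul_pow, ← mul_pow]; norm_num
  · convert hw using 1
    field_simp; norm_num

theorem baseB (a b : ℂ) (K : ℝ) (hK : 1 ≤ K) (h1 : ∀ i : ℕ, (i : ℝ) + 1 ≤ K * ‖a + i‖)
    (h1b : ∀ i : ℕ, (i : ℝ) + 1 ≤ K * ‖b + i‖)
    (h2 : ∀ i : ℕ, ‖(1 - a) + i‖ ≤ K * ((i : ℝ) + 1))
    (h3 : ∀ i : ℕ, ‖(b - a) + i‖ ≤ K * ((i : ℝ) + 1))
    (h4 : ∀ i : ℕ, ‖b + i‖ ≤ K * ((i : ℝ) + 1)) (n : ℕ) :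
    ZF n (fun k => pc a (n - k) / pc b (n - k)) (1 / (3 * (4 * K ^ 2 * Real.exp (2 * K)))) := by
  have hp := pc_ne a K h1
  have hq := pc_ne b K h1b
  set β : ℕ → ℂ := fun k => pc a (n - k) / pc b (n - k) / (pc a n / pc b n) with hβ
  suffices h : ZF n β (1 / (3 * (4 * K ^ 2 * Real.exp (2 * K)))) by
    refine h.congr (pc a n / pc b n) (div_ne_zero (hp n) (hq n)) (fun k _ => ?_)
    simp only [hβ]; field_simp [hp n, hq n]
  set B : ℕ → ℂ := fun k => (n.choose k : ℂ) * β k with hBd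
  set E : ℕ → ℂ := fun j => (-1) ^ j * pc (b - a + n) j / (j.factorial : ℂ) with hEd
  have hB : ∀ k : ℕ, ((k : ℂ) + 1) * ((a + n - 1) - k) * B (k + 1)
      = (n - k) * ((b + n - 1) - 1 * k) * B k := by
    intro k
    refine step n k β _ _ (fun hk => ?_)
    simp only [hβ]
    have hb0 : b + n - 1 - k ≠ 0 := by
      intro h0
      have := hq (n - k)
      rw [pc_step b n k hk, h0] at this
      simp at this
    have := hq (n - (k + 1))
    have := hq n
    have := hp n
    rw [pc_step a n k hk, pc_step b n k hk, one_mul]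
    field_simp
  have hE : ∀ j : ℕ, ((j : ℂ) + 1) * E (j + 1)
      = -(1 * (n - (a + n - 1)) + (b + n - 1) + 1 * j) * E j := by
    intro j
    simp only [hEd, Nat.factorial_succ, pc_succ]
    have : ((j : ℂ) + 1) ≠ 0 := by exact_mod_cast Nat.succ_ne_zero j
    have : (j.factorial : ℂ) ≠ 0 := by exact_mod_cast j.factorial_ne_zero
    push_cast; field_simp; ring
  have hd := ode_rec B E n (a + n - 1) 1 (b + n - 1) hB hE
  set d : ℕ → ℂ := fun m => ∑ p ∈ antidiagonal m, E p.1 * B p.2 with hdd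
  have B0 : B 0 = 1 := by simp [hBd, hβ, hp n, hq n]
  have E0 : E 0 = 1 := by simp [hEd, pc]
  have d0 : d 0 = 1 := by simp [hdd, B0, E0]
  have bd := prod_bd (fun i => ((n - i : ℕ) : ℝ)) (fun i => K ^ 3 * ((i : ℝ) + 1)) (fun m => ‖d m‖) n
    (fun i => by positivity) (fun i => by positivity) (by simp [d0]) (by
      intro m hm
      have e1 := congrArg norm (hd m)
      have e2 : (m : ℂ) + n - (a + n - 1) = (1 - a) + m := by ring
      have e2' : 1 * ((m : ℂ) - (a + n - 1)) + (b + n - 1) = (b - a) + m := by ring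
      rw [e2, e2'] at e1
      simp only [norm_mul, nrm1] at e1
      have e3 := low a K h1 n m hm
      have e4 := h2 m
      have e5 := h3 m
      have hm1 : (0 : ℝ) < (m : ℝ) + 1 := by positivity
      apply le_of_mul_le_mul_left _ hm1
      calc ((m : ℝ) + 1) * (((n - m : ℕ) : ℝ) * ‖d (m + 1)‖)
          ≤ ((m : ℝ) + 1) * ((K * ‖a + n - 1 - m‖) * ‖d (m + 1)‖) := by gcongr
        _ = K * (((m : ℝ) + 1) * ‖a + n - 1 - m‖ * ‖d (m + 1)‖) := by ring
        _ = K * (‖(1 - a) + m‖ * ‖(b - a) + m‖ * ‖d m‖) := by rw [e1]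
        _ ≤ K * ((K * ((m : ℝ) + 1)) * (K * ((m : ℝ) + 1)) * ‖d m‖) := by gcongr
        _ = _ := by ring)
  have bB : ∀ k, ‖B k‖ ≤ (K ^ 2) ^ k * 2 ^ n := by
    intro k
    have := prod_bd (fun i => (i : ℝ) + 1) (fun i => K ^ 2 * ((n - i : ℕ) : ℝ)) (fun m => ‖B m‖) k
      (fun i => by positivity) (fun i => by positivity) (by simp [B0]) (by
        intro m _
        by_cases hm : m < n
        · have e1 := congrArg norm (hB m)
          simp only [norm_mul, nrm1, nrm2 n m hm, one_mul] at e1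
          have e3 := low a K h1 n m hm
          have e4 : ‖b + n - 1 - m‖ ≤ K * ((n - m : ℕ) : ℝ) := by
            obtain ⟨t, rfl⟩ := Nat.exists_eq_add_of_lt hm
            rw [show m + t + 1 - m = t + 1 by omega]
            have := h4 t
            convert this using 2
            · push_cast; ring
            · push_cast; ring
          have hm1 : (0 : ℝ) < ((n - m : ℕ) : ℝ) := by exact_mod_cast Nat.sub_pos_of_lt hm
          apply le_of_mul_le_mul_left _ hm1
          calc ((n - m : ℕ) : ℝ) * (((m : ℝ) + 1) * ‖B (m + 1)‖)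
              ≤ (K * ‖a + n - 1 - m‖) * (((m : ℝ) + 1) * ‖B (m + 1)‖) := by gcongr
            _ = K * (((m : ℝ) + 1) * ‖a + n - 1 - m‖ * ‖B (m + 1)‖) := by ring
            _ = K * (((n - m : ℕ) : ℝ) * ‖b + n - 1 - m‖ * ‖B m‖) := by rw [e1]
            _ ≤ K * (((n - m : ℕ) : ℝ) * (K * ((n - m : ℕ) : ℝ)) * ‖B m‖) := by gcongr
            _ = _ := by ring
        · have : B (m + 1) = 0 := by
            simp only [hBd]; rw [Nat.choose_eq_zero_of_lt (by omega)]; simp
          simp only [this]; simp; positivity) k le_rfl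
    rw [prod_fact, prod_mul_distrib, prod_const, card_range, prod_df,
      Nat.descFactorial_eq_factorial_mul_choose] at this
    have hf : (0 : ℝ) < k.factorial := by positivity
    apply le_of_mul_le_mul_left _ hf
    have h5 : ((n.choose k : ℕ) : ℝ) ≤ 2 ^ n := by exact_mod_cast Nat.choose_le_two_pow n k
    push_cast at this
    calc _ ≤ _ := this
      _ ≤ (K ^ 2) ^ k * (k.factorial * 2 ^ n) := by gcongr
      _ = _ := by ring
  have bE : ∀ j ≤ n, ‖E j‖ ≤ Real.exp (2 * K) ^ n := by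
    intro j hj
    have := prod_bd (fun i => (i : ℝ) + 1) (fun i => 2 * K * n) (fun m => ‖E m‖) n
      (fun i => by positivity) (fun i => by positivity) (by simp [E0]) (by
        intro m hm
        have e1 := congrArg norm (hE m)
        have e2 : (1 * (n - (a + n - 1)) + (b + n - 1) + 1 * m : ℂ) = (b - a) + ((n + m : ℕ) : ℂ) := by
          push_cast; ring
        rw [e2] at e1
        simp only [norm_mul, nrm1, norm_neg] at e1
        have e3 := h3 (n + m)
        have e4 : ((n + m : ℕ) : ℝ) + 1 ≤ 2 * n := by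
          have : n + m + 1 ≤ 2 * n := by omega
          exact_mod_cast this
        show ((m : ℝ) + 1) * ‖E (m + 1)‖ ≤ 2 * K * n * ‖E m‖
        rw [e1]
        gcongr
        calc _ ≤ _ := e3
          _ ≤ K * (2 * n) := by gcongr
          _ = _ := by ring) j hj
    rw [prod_fact, prod_const, card_range] at this
    have h5 := Real.pow_div_factorial_le_exp (2 * K * n) (by positivity) j
    rw [← Real.exp_nat_mul, mul_comm (n : ℝ)]
    refine le_trans ?_ h5
    rw [le_div_iff₀ (by positivity), mul_comm]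
    exact this
  have hx : K ≤ Real.exp (2 * K) := by
    have := Real.add_one_le_exp (2 * K); linarith
  intro w hw
  refine zlem (pf n β) E n (4 * K ^ 2 * Real.exp (2 * K)) (by positivity) ?_ ?_ ?_ w hw
  · rw [pf_coeff, E0, one_mul]; exact B0
  · intro m _ hm
    simp only [pf_coeff]
    have e1 := bd m hm
    rw [prod_df, prod_mul_distrib, prod_const, card_range, prod_fact,
      Nat.descFactorial_eq_factorial_mul_choose] at e1
    show ‖d m‖ ≤ _
    have e2 : (1 : ℝ) ≤ n.choose m := by exact_mod_cast Nat.choose_pos hm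
    have hf : (0 : ℝ) < m.factorial := by positivity
    push_cast at e1
    have e3 : ‖d m‖ ≤ (K ^ 3) ^ m := by
      apply le_of_mul_le_mul_left _ hf
      calc (m.factorial : ℝ) * ‖d m‖ = m.factorial * 1 * ‖d m‖ := by ring
        _ ≤ m.factorial * (n.choose m) * ‖d m‖ := by gcongr
        _ ≤ _ := e1
        _ = _ := by ring
    refine e3.trans ?_
    gcongr
    nlinarith [mul_le_mul_of_nonneg_left hx (sq_nonneg K), Real.exp_pos (2 * K), sq_nonneg K]
  · intro j k hj hjk
    rw [pf_coeff]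
    show ‖E j * B k‖ ≤ _
    rw [norm_mul, show 4 * K ^ 2 * Real.exp (2 * K) / 2 = Real.exp (2 * K) * (K ^ 2 * 2) by ring,
      mul_pow, mul_pow]
    have hK2 : 1 ≤ K ^ 2 := one_le_pow₀ hK
    gcongr
    · exact (bE j hj).trans (pow_le_pow_right₀ (hK.trans hx) hjk.le)
    · refine (bB k).trans ?_
      exact mul_le_mul (pow_le_pow_right₀ hK2 (by omega)) (pow_le_pow_right₀ (by norm_num) hjk.le)
        (by positivity) (by positivity)

end Pool.Agent.H8.GS
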