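import Mathlib
import Pool.Agent.H8.GS3

namespace Pool.Agent.H8.GS
open Finset Polynomial

theorem exA (a : ℂ) (ha : ∀ m : ℕ, a ≠ -(m : ℂ)) :
    ∃ ε : ℝ, 0 < ε ∧ ∀ n : ℕ, 1 ≤ n → ZF n (fun k => pc a (n - k)) (ε * n) := by
  obtain ⟨K, hK, h1⟩ := exK a ha
  have hn := norm_nonneg (1 - a)
  refine ⟨1 / (36 * (K + 1 + ‖1 - a‖) ^ 2), by positivity, fun n hn1 => ?_⟩
  have := baseA a (K + 1 + ‖1 - a‖) (by linarith)
    (fun i => (h1 i).trans (by gcongr; linarith)) (upK _ _ (by linarith)) n hn1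
  convert this using 1
  ring

theorem exB (a b : ℂ) (ha : ∀ m : ℕ, a ≠ -(m : ℂ)) (hb : ∀ m : ℕ, b ≠ -(m : ℂ)) :
    ∃ ε : ℝ, 0 < ε ∧ ∀ n : ℕ, ZF n (fun k => pc a (n - k) / pc b (n - k)) ε := by
  obtain ⟨K, hK, h1⟩ := exK a ha
  obtain ⟨K', hK', h1'⟩ := exK b hb
  have hn := norm_nonneg (1 - a)
  have hn2 := norm_nonneg (b - a)
  have hn3 := norm_nonneg b
  refine ⟨_, ?_, fun n => baseB a b (K + K' + 1 + ‖1 - a‖ + ‖b - a‖ + ‖b‖) (by linarith)
    (fun i => (h1 i).trans (by gcongr; linarith)) (fun i => (h1' i).trans (by gcongr; linarith))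
    (upK _ _ (by linarith)) (upK _ _ (by linarith)) (upK _ _ (by linarith)) n⟩
  positivity

theorem pc_shift (x : ℂ) (j : ℕ) : pc (x + 1) j * x = pc x j * (x + j) := by
  induction j with
  | zero => simp [pc]
  | succ j ih => rw [pc_succ, pc_succ]; push_cast; linear_combination (x + 1 + j) * ih

theorem exL (lam : ℂ) : ∃ (N : ℕ) (ε : ℝ), 0 < ε ∧ ∀ n : ℕ, 1 ≤ n → N ≤ n →
    ZF n (fun k => pc (n + lam) (n - k)) (ε * n) := by
  obtain ⟨N, hN⟩ := exists_nat_gt (-lam.re)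
  have hre : ∀ t : ℕ, N ≤ t → 0 < ((t : ℂ) + lam).re := by
    intro t ht
    have : (N : ℝ) ≤ t := by exact_mod_cast ht
    simp; linarith
  obtain ⟨ε, hε, h⟩ := exA (N + lam) (by
    intro m hm
    have := hre N le_rfl
    rw [hm] at this
    simp at this
    have : (0 : ℝ) ≤ m := by positivity
    linarith)
  refine ⟨N, ε, hε, fun n hn hNn => ?_⟩
  have key : ∀ t, N ≤ t → ZF n (fun k => pc (t + lam) (n - k)) (ε * n) := by
    intro t ht
    induction t, ht using Nat.le_induction with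
    | base => exact h n hn
    | succ t ht ih =>
      have h0 : (t : ℂ) + lam ≠ 0 := by
        intro h0; have := hre t ht; rw [h0] at this; simp at this
      refine (ih.theta _ (hre t ht)).congr ((t : ℂ) + lam)⁻¹ (inv_ne_zero h0) (fun k _ => ?_)
      have := pc_shift (t + lam) (n - k)
      rw [← this]
      have e : ((t + 1 : ℕ) : ℂ) + lam = t + lam + 1 := by push_cast; ring
      rw [e]; field_simp
  exact key n hNn

theorem ZF.prod {ι : Type} (s : Finset ι) {n : ℕ} {α : ℕ → ℂ} {ρ : ℝ} (hρ : 0 < ρ) (h : ZF n α ρ)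
    (f : ι → ℕ → ℂ) (r : ι → ℝ) (hr : ∀ i, 0 < r i) (hf : ∀ i, ZF n (f i) (r i)) :
    ZF n (fun k => α k * ∏ i ∈ s, f i k) (ρ * ∏ i ∈ s, r i) := by
  classical
  induction s using Finset.induction_on with
  | empty => simpa using h
  | insert i s hi ih =>
    have := ZF.mul (mul_pos hρ (prod_pos (fun i _ => hr i))) (hr i) ih (hf i)
    simp only [prod_insert hi]
    convert this using 1
    · ext k; ring
    · ring

theorem pc_neg (n j : ℕ) : pc (-(n : ℂ)) j = (-1) ^ j * j.factorial * n.choose j := by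
  induction j with
  | zero => simp [pc]
  | succ j ih =>
    have := step n j (fun _ => 1) 1 1 (fun _ => rfl)
    rw [pc_succ, ih, Nat.factorial_succ]
    push_cast
    linear_combination ((-1) ^ j * (j.factorial : ℂ)) * this

theorem rev_bound (n : ℕ) (μ : ℕ → ℂ) (ρ : ℝ) (hρ : 0 < ρ) (h : ZF n (fun k => μ (n - k)) ρ) (z : ℂ)
    (hz : ∑ j ∈ range (n + 1), (n.choose j : ℂ) * μ j * (-z) ^ j = 0) : ‖z‖ ≤ ρ⁻¹ := by
  by_cases h0 : z = 0
  · rw [h0, norm_zero]; positivity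
  have hzp : 0 < ‖z‖ := norm_pos_iff.mpr h0
  have e : (pf n (fun k => μ (n - k))).eval (-z)⁻¹ * (-z) ^ n = 0 := by
    rw [pf_eval, sum_mul, ← hz, ← Finset.sum_flip]
    refine sum_congr rfl (fun j hj => ?_)
    have hj' : j ≤ n := by simpa [Nat.lt_succ_iff] using hj
    obtain ⟨t, rfl⟩ := Nat.exists_eq_add_of_le hj'
    rw [Nat.add_sub_cancel_left, show j + t - t = j by omega, Nat.choose_symm_add, pow_add, inv_pow]
    have : (-z) ^ t ≠ 0 := pow_ne_zero _ (neg_ne_zero.mpr h0)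
    field_simp
  have e2 : (pf n (fun k => μ (n - k))).eval (-z)⁻¹ = 0 :=
    (mul_eq_zero.mp e).resolve_right (pow_ne_zero _ (neg_ne_zero.mpr h0))
  have e3 := h.roots _ e2
  rw [norm_inv, norm_neg] at e3
  exact (le_inv_comm₀ hρ hzp).mp e3

theorem root_bound (n : ℕ) (A : ℕ → ℂ) :
    ∃ M : ℝ, 0 ≤ M ∧ (A n ≠ 0 → ∀ z : ℂ, ∑ j ∈ range (n + 1), A j * z ^ j = 0 → ‖z‖ ≤ M) := by
  classical
  set Q : ℂ[X] := ∑ j ∈ range (n + 1), monomial j (A j) with hQ
  refine ⟨∑ x ∈ Q.roots.toFinset, ‖x‖, sum_nonneg (fun _ _ => norm_nonneg _), fun hA z hz => ?_⟩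
  have hc : Q.coeff n = A n := by
    rw [hQ, finsetSum_coeff]
    simp only [coeff_monomial]
    rw [Finset.sum_ite_eq' (range (n + 1)) n]
    simp
  have hQ0 : Q ≠ 0 := by
    intro h; rw [h] at hc; exact hA (by simpa using hc.symm)
  have hm : z ∈ Q.roots.toFinset := by
    rw [Multiset.mem_toFinset, mem_roots hQ0, IsRoot.def, hQ, eval_finsetSum]
    simpa [eval_monomial] using hz
  exact single_le_sum (f := fun x : ℂ => ‖x‖) (fun _ _ => norm_nonneg _) hm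

theorem main (q r : ℕ) (lam : ℂ) (a : Fin (q + r) → ℂ) (b : Fin q → ℂ)
    (ha : ∀ k (m : ℕ), a k ≠ -(m : ℂ)) (hb : ∀ k (m : ℕ), b k ≠ -(m : ℂ)) (A : ℕ → ℕ → ℂ)
    (hA : ∀ n j, A n j = pc (-(n : ℂ)) j * pc (n + lam) j * (∏ k, pc (a k) j)
      / ((∏ k, pc (b k) j) * j.factorial)) :
    ∃ M : ℝ, ∀ n : ℕ, 1 ≤ n → A n n ≠ 0 → ∀ z : ℂ, ∑ j ∈ range (n + 1), A n j * z ^ j = 0 →
      ‖z‖ ≤ M * ((n : ℝ) ^ (r + 1))⁻¹ := by
  obtain ⟨N, ε, hε, hL⟩ := exL lam
  choose e1 he1 h1 using fun i : Fin q => exB (a (Fin.castAdd r i)) (b i) (ha _) (hb _)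
  choose e2 he2 h2 using fun i : Fin r => exA (a (Fin.natAdd q i)) (ha _)
  choose M hM0 hM using fun n => root_bound n (A n)
  set δ : ℝ := ε * (∏ i, e1 i) * ∏ i, e2 i with hδ
  have p1 : 0 < ∏ i, e1 i := prod_pos (fun i _ => he1 i)
  have p2 : 0 < ∏ i, e2 i := prod_pos (fun i _ => he2 i)
  have hδ0 : 0 < δ := by positivity
  have hs : 0 ≤ ∑ n ∈ range N, M n * (n : ℝ) ^ (r + 1) :=
    sum_nonneg (fun n _ => mul_nonneg (hM0 n) (by positivity))
  refine ⟨δ⁻¹ + ∑ n ∈ range N, M n * (n : ℝ) ^ (r + 1), fun n hn hAn z hz => ?_⟩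
  have hn' : (0 : ℝ) < n := by exact_mod_cast hn
  have hnp : (0 : ℝ) < (n : ℝ) ^ (r + 1) := by positivity
  by_cases hN : N ≤ n
  · have z1 := (hL n hn hN).prod univ (by positivity) _ e1 he1 (fun i => h1 i n)
    have z2 := z1.prod univ (by positivity) _ (fun i => e2 i * n) (fun i => mul_pos (he2 i) hn')
      (fun i => h2 i n hn)
    obtain ⟨μ, hμ⟩ : ∃ μ : ℕ → ℂ, ∀ j, μ j = pc (n + lam) j * (∏ i, pc (a i) j) / ∏ i, pc (b i) j :=
      ⟨_, fun _ => rfl⟩
    have z3 : ZF n (fun k => μ (n - k)) (δ * (n : ℝ) ^ (r + 1)) := by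
      convert z2 using 1
      · ext k
        simp only [hμ, Fin.prod_univ_add, prod_div_distrib]
        ring
      · rw [prod_mul_distrib, prod_const, card_univ, Fintype.card_fin, hδ]; ring
    have := rev_bound n μ _ (mul_pos hδ0 hnp) z3 z (by
      rw [← hz]
      refine sum_congr rfl (fun j _ => ?_)
      have : (j.factorial : ℂ) ≠ 0 := by exact_mod_cast j.factorial_ne_zero
      rw [hA, hμ, pc_neg, neg_pow z]
      field_simp)
    rw [mul_inv] at this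
    refine this.trans ?_
    gcongr
    linarith
  · have h3 := hM n hAn z hz
    have h4 : M n * (n : ℝ) ^ (r + 1) ≤ ∑ n ∈ range N, M n * (n : ℝ) ^ (r + 1) :=
      single_le_sum (f := fun n : ℕ => M n * (n : ℝ) ^ (r + 1))
        (fun n _ => mul_nonneg (hM0 n) (by positivity)) (mem_range.mpr (not_le.mp hN))
    rw [← div_eq_mul_inv, le_div_iff₀ hnp]
    have : 0 < δ⁻¹ := inv_pos.mpr hδ0
    nlinarith [mul_le_mul_of_nonneg_right h3 hnp.le]

end Pool.Agent.H8.GS
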