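import Mathlib

namespace Pool.Agent.H8.Itin

open Set Filter Topology

lemma cross_le (h : ℝ → ℝ) (hc : Continuous h) {a b p q : ℝ} (hab : a ≤ b) (hpq : p ≤ q)
    (ha : h a ≤ p) (hb : q ≤ h b) :
    ∃ a' b', a ≤ a' ∧ a' ≤ b' ∧ b' ≤ b ∧ h a' = p ∧ h b' = q ∧ ∀ t ∈ Icc a' b', h t ∈ Icc p q := by
  have c1 : IsCompact (Icc a b ∩ h ⁻¹' {q}) :=
    isCompact_Icc.inter_right (isClosed_singleton.preimage hc)
  obtain ⟨t1, ht1, e1⟩ := intermediate_value_Icc hab hc.continuousOn ⟨ha.trans hpq, hb⟩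
  obtain ⟨b', ⟨hb1, hb2⟩, hmin⟩ := c1.exists_isLeast ⟨t1, ht1, e1⟩
  have hb3 : h b' = q := hb2
  have c2 : IsCompact (Icc a b' ∩ h ⁻¹' {p}) :=
    isCompact_Icc.inter_right (isClosed_singleton.preimage hc)
  obtain ⟨t2, ht2, e2⟩ := intermediate_value_Icc hb1.1 hc.continuousOn ⟨ha, hpq.trans hb3.ge⟩
  obtain ⟨a', ⟨ha1, ha2⟩, hmax⟩ := c2.exists_isGreatest ⟨t2, ht2, e2⟩
  have ha3 : h a' = p := ha2
  refine ⟨a', b', ha1.1, ha1.2, hb1.2, ha3, hb3, fun t ht => ⟨?_, ?_⟩⟩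
  · by_contra hlt
    push Not at hlt
    obtain ⟨s, hs, es⟩ := intermediate_value_Icc ht.2 hc.continuousOn ⟨hlt.le, hpq.trans hb3.ge⟩
    have h1 : s ≤ a' := hmax ⟨⟨ha1.1.trans (ht.1.trans hs.1), hs.2⟩, es⟩
    have h2 : t = a' := le_antisymm (hs.1.trans h1) ht.1
    rw [h2, ha3] at hlt
    exact lt_irrefl _ hlt
  · by_contra hlt
    push Not at hlt
    obtain ⟨s, hs, es⟩ := intermediate_value_Icc (ha1.1.trans ht.1) hc.continuousOn
      ⟨ha.trans hpq, hlt.le⟩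
    have h1 : b' ≤ s := hmin ⟨⟨hs.1, hs.2.trans (ht.2.trans hb1.2)⟩, es⟩
    have h2 : t = b' := le_antisymm ht.2 (h1.trans hs.2)
    rw [h2, hb3] at hlt
    exact lt_irrefl _ hlt

lemma cross (h : ℝ → ℝ) (hc : Continuous h) {a b p q : ℝ} (hpq : p ≤ q)
    (ha : h a ≤ p) (hb : q ≤ h b) :
    ∃ a' b', uIcc a' b' ⊆ uIcc a b ∧ h a' = p ∧ h b' = q ∧ ∀ t ∈ uIcc a' b', h t ∈ Icc p q := by
  rcases le_total a b with hab | hab
  · obtain ⟨a', b', h1, h2, h3, h4, h5, h6⟩ := cross_le h hc hab hpq ha hb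
    refine ⟨a', b', ?_, h4, h5, ?_⟩
    · rw [uIcc_of_le h2, uIcc_of_le hab]
      exact Icc_subset_Icc h1 h3
    · rwa [uIcc_of_le h2]
  · obtain ⟨a', b', h1, h2, h3, h4, h5, h6⟩ := cross_le (fun t => h (-t)) (hc.comp continuous_neg)
      (a := -a) (b := -b) (neg_le_neg hab) hpq (by simpa using ha) (by simpa using hb)
    refine ⟨-a', -b', ?_, h4, h5, ?_⟩
    · rw [uIcc_of_ge (neg_le_neg h2), uIcc_of_ge hab]
      exact Icc_subset_Icc (by linarith) (by linarith)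
    · rw [uIcc_of_ge (neg_le_neg h2)]
      intro t ht
      have := h6 (-t) ⟨by linarith [ht.2], by linarith [ht.1]⟩
      simpa using this

/-- Composition along an itinerary. -/
def along {S I : Type} (Φ : I → S → S) (σ : ℕ → I) : ℕ → S → S
  | 0 => id
  | n + 1 => fun s => Φ (σ n) (along Φ σ n s)

lemma along_cont {S I : Type} [TopologicalSpace S] (Φ : I → S → S) (σ : ℕ → I)
    (hΦ : ∀ i, Continuous (Φ i)) : ∀ n, Continuous (along Φ σ n)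
  | 0 => continuous_id
  | n + 1 => (hΦ _).comp (along_cont Φ σ hΦ n)

theorem itin {S I : Type} [TopologicalSpace S] (Φ : I → S → S) (hΦ : ∀ i, Continuous (Φ i))
    (P : Set S) (hP : IsClosed P) (u : S → ℝ) (hu : Continuous u) (lo hi : I → ℝ) (l r : ℝ)
    (h1 : ∀ i, l ≤ lo i ∧ lo i ≤ hi i ∧ hi i ≤ r)
    (h2 : ∀ i, ∀ s ∈ P, u s ∈ Icc (lo i) (hi i) → Φ i s ∈ P)
    (h3 : ∀ i, (∀ s ∈ P, u s = lo i → r ≤ u (Φ i s)) ∧ (∀ s ∈ P, u s = hi i → u (Φ i s) ≤ l) ∨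
      (∀ s ∈ P, u s = lo i → u (Φ i s) ≤ l) ∧ (∀ s ∈ P, u s = hi i → r ≤ u (Φ i s)))
    (γ : ℝ → S) (hγ : Continuous γ) (a b : ℝ) (hγP : ∀ t ∈ uIcc a b, γ t ∈ P)
    (ha : u (γ a) ≤ l) (hb : r ≤ u (γ b)) (σ : ℕ → I) :
    ∃ s, ∀ n, along Φ σ n s ∈ P ∧ u (along Φ σ n s) ∈ Icc (lo (σ n)) (hi (σ n)) := by
  let K : ℕ → Set ℝ := fun n => uIcc a b ∩ ⋂ m ∈ Iio n,
    {t | along Φ σ m (γ t) ∈ P ∧ u (along Φ σ m (γ t)) ∈ Icc (lo (σ m)) (hi (σ m))}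
  have hcl : ∀ n, IsClosed (⋂ m ∈ Iio n,
      {t | along Φ σ m (γ t) ∈ P ∧ u (along Φ σ m (γ t)) ∈ Icc (lo (σ m)) (hi (σ m))}) := by
    intro n
    refine isClosed_biInter fun m _ => IsClosed.inter ?_ ?_
    · exact hP.preimage ((along_cont Φ σ hΦ m).comp hγ)
    · exact isClosed_Icc.preimage (hu.comp ((along_cont Φ σ hΦ m).comp hγ))
  have key : ∀ n, ∃ a' b', uIcc a' b' ⊆ K n ∧ (∀ t ∈ uIcc a' b', along Φ σ n (γ t) ∈ P) ∧
      u (along Φ σ n (γ a')) ≤ l ∧ r ≤ u (along Φ σ n (γ b')) := by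
    intro n
    induction n with
    | zero => exact ⟨a, b, by simp [K], hγP, ha, hb⟩
    | succ n ih =>
      obtain ⟨a', b', k1, k2, k3, k4⟩ := ih
      obtain ⟨c, d, e1, e2, e3, e4⟩ := cross (fun t => u (along Φ σ n (γ t)))
        (hu.comp ((along_cont Φ σ hΦ n).comp hγ)) (h1 (σ n)).2.1 (k3.trans (h1 (σ n)).1)
        ((h1 (σ n)).2.2.trans k4)
      have f1 : uIcc c d ⊆ K (n + 1) := by
        intro t ht
        refine ⟨(k1 (e1 ht)).1, ?_⟩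
        simp only [mem_iInter, mem_Iio]
        intro m hm
        rcases Nat.lt_succ_iff_lt_or_eq.1 hm with hm | rfl
        · have := (k1 (e1 ht)).2
          simp only [mem_iInter, mem_Iio] at this
          exact this m hm
        · exact ⟨k2 t (e1 ht), e4 t ht⟩
      have f2 : ∀ t ∈ uIcc c d, along Φ σ (n + 1) (γ t) ∈ P := fun t ht =>
        h2 _ _ (k2 t (e1 ht)) (e4 t ht)
      have pc := k2 c (e1 left_mem_uIcc)
      have pd := k2 d (e1 right_mem_uIcc)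
      rcases h3 (σ n) with ⟨g1, g2⟩ | ⟨g1, g2⟩
      · exact ⟨d, c, by rwa [uIcc_comm], by rwa [uIcc_comm], g2 _ pd e3, g1 _ pc e2⟩
      · exact ⟨c, d, f1, f2, g1 _ pc e2, g2 _ pd e3⟩
  have hne : (⋂ n, K n).Nonempty := by
    refine IsCompact.nonempty_iInter_of_sequence_nonempty_isCompact_isClosed K ?_ ?_ ?_ ?_
    · intro n t ht
      refine ⟨ht.1, ?_⟩
      have := ht.2
      simp only [mem_iInter, mem_Iio] at this ⊢
      exact fun m hm => this m (by omega)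
    · intro n
      obtain ⟨a', b', k1, -⟩ := key n
      exact ⟨a', k1 left_mem_uIcc⟩
    · exact isCompact_uIcc.inter_right (hcl 0)
    · exact fun n => isCompact_uIcc.isClosed.inter (hcl n)
  obtain ⟨t, ht⟩ := hne
  refine ⟨γ t, fun n => ?_⟩
  have := (mem_iInter.1 ht (n + 1)).2
  simp only [mem_iInter, mem_Iio] at this
  exact this n (by omega)

lemma not_asym (x : ℕ → ℝ) (d : ℝ) (hd : 0 < d) (M : ℕ)
    (h : ∀ k, 1 ≤ k → ∀ N, ∃ n, N ≤ n ∧ d ≤ |x (n + M * k) - x n|) (p : ℕ → ℝ) (k : ℕ)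
    (hk : 1 ≤ k) (hp : ∀ n, p (n + k) = p n) :
    ¬ Tendsto (fun n => x n - p n) atTop (𝓝 0) := by
  intro ht
  have h1 := (Metric.tendsto_atTop.1 ht) (d / 2) (by positivity)
  obtain ⟨N, hN⟩ := h1
  obtain ⟨n, hn, hx⟩ := h k hk N
  have h2 := hN n hn
  have h3 := hN (n + M * k) (by omega)
  have h4 : p (n + M * k) = p n := (Function.Periodic.nat_mul (f := p) hp M) n
  rw [Real.dist_eq, sub_zero, abs_lt] at h2 h3
  rw [h4] at h3
  rcases le_abs.1 hx with h5 | h5 <;> linarith [h2.1, h2.2, h3.1, h3.2]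

lemma sparse (k : ℕ) (hk : 1 ≤ k) (N : ℕ) : ∃ n, N ≤ n ∧ ¬ IsSquare n ∧ IsSquare (n + k) := by
  set m := N + k with hm
  have h1 : k ≤ (m + 1) * (m + 1) := by nlinarith
  refine ⟨(m + 1) * (m + 1) - k, ?_, ?_, ⟨m + 1, by omega⟩⟩
  · have : N + k ≤ (m + 1) * (m + 1) := by nlinarith
    omega
  · rintro ⟨j, hj⟩
    refine Nat.not_exists_sq (n := (m + 1) * (m + 1) - k) (m := m) ?_ ?_ ⟨j, hj.symm⟩
    · have : m * m + k < (m + 1) * (m + 1) := by nlinarith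
      omega
    · omega

end Pool.Agent.H8.Itin
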