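import Mathlib
import Pool.Agent.H8.Itin

namespace Pool.Agent.H8.Horse

open Set Filter Topology Pool.Agent.H8.Itin

/-- The piecewise linear model map. -/
noncomputable def T (s : ℝ × ℝ × ℝ) : ℝ × ℝ × ℝ := (s.2.1, s.2.2, max 0 (1 + s.1 - s.2.2))

lemma stepP {a b c d : ℝ} (h : 0 ≤ d) (e : d = 1 + a - c) : T (a, b, c) = (b, c, d) := by
  simp only [T]
  rw [← e, max_eq_right h]

lemma stepZ {a b c : ℝ} (h : 1 + a - c ≤ 0) : T (a, b, c) = (b, c, 0) := by
  simp only [T]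
  rw [max_eq_left h]

lemma loopA (x : ℝ) (hl : 323 / 100 ≤ x) (hr : x ≤ 653 / 200) :
    T^[24] ((0 : ℝ), x, (0 : ℝ)) = ((0 : ℝ), (12 + (-3) * x), (-24 + (8) * x)) ∧
    T^[26] ((0 : ℝ), x, (0 : ℝ)) = ((-24 + (8) * x), (0 : ℝ), (13 + (-3) * x)) ∧
    T^[27] ((0 : ℝ), x, (0 : ℝ)) = ((0 : ℝ), (13 + (-3) * x), (0 : ℝ)) := by
  have h0 : T^[0] ((0 : ℝ), x, (0 : ℝ)) = ((0 : ℝ), x, (0 : ℝ)) := rfl
  have h1 : T^[1] ((0 : ℝ), x, (0 : ℝ)) = (x, (0 : ℝ), (1 : ℝ)) :=
    (Function.iterate_succ_apply' T 0 _).trans (by rw [h0]; exact stepP (by linarith) (by ring))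
  have h2 : T^[2] ((0 : ℝ), x, (0 : ℝ)) = ((0 : ℝ), (1 : ℝ), x) :=
    (Function.iterate_succ_apply' T 1 _).trans (by rw [h1]; exact stepP (by linarith) (by ring))
  have h3 : T^[3] ((0 : ℝ), x, (0 : ℝ)) = ((1 : ℝ), x, (0 : ℝ)) :=
    (Function.iterate_succ_apply' T 2 _).trans (by rw [h2]; exact stepZ (by linarith))
  have h4 : T^[4] ((0 : ℝ), x, (0 : ℝ)) = (x, (0 : ℝ), (2 : ℝ)) :=
    (Function.iterate_succ_apply' T 3 _).trans (by rw [h3]; exact stepP (by linarith) (by ring))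
  have h5 : T^[5] ((0 : ℝ), x, (0 : ℝ)) = ((0 : ℝ), (2 : ℝ), (-1 + (1) * x)) :=
    (Function.iterate_succ_apply' T 4 _).trans (by rw [h4]; exact stepP (by linarith) (by ring))
  have h6 : T^[6] ((0 : ℝ), x, (0 : ℝ)) = ((2 : ℝ), (-1 + (1) * x), (0 : ℝ)) :=
    (Function.iterate_succ_apply' T 5 _).trans (by rw [h5]; exact stepZ (by linarith))
  have h7 : T^[7] ((0 : ℝ), x, (0 : ℝ)) = ((-1 + (1) * x), (0 : ℝ), (3 : ℝ)) :=
    (Function.iterate_succ_apply' T 6 _).trans (by rw [h6]; exact stepP (by linarith) (by ring))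
  have h8 : T^[8] ((0 : ℝ), x, (0 : ℝ)) = ((0 : ℝ), (3 : ℝ), (-3 + (1) * x)) :=
    (Function.iterate_succ_apply' T 7 _).trans (by rw [h7]; exact stepP (by linarith) (by ring))
  have h9 : T^[9] ((0 : ℝ), x, (0 : ℝ)) = ((3 : ℝ), (-3 + (1) * x), (4 + (-1) * x)) :=
    (Function.iterate_succ_apply' T 8 _).trans (by rw [h8]; exact stepP (by linarith) (by ring))
  have h10 : T^[10] ((0 : ℝ), x, (0 : ℝ)) = ((-3 + (1) * x), (4 + (-1) * x), x) :=
    (Function.iterate_succ_apply' T 9 _).trans (by rw [h9]; exact stepP (by linarith) (by ring))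
  have h11 : T^[11] ((0 : ℝ), x, (0 : ℝ)) = ((4 + (-1) * x), x, (0 : ℝ)) :=
    (Function.iterate_succ_apply' T 10 _).trans (by rw [h10]; exact stepZ (by linarith))
  have h12 : T^[12] ((0 : ℝ), x, (0 : ℝ)) = (x, (0 : ℝ), (5 + (-1) * x)) :=
    (Function.iterate_succ_apply' T 11 _).trans (by rw [h11]; exact stepP (by linarith) (by ring))
  have h13 : T^[13] ((0 : ℝ), x, (0 : ℝ)) = ((0 : ℝ), (5 + (-1) * x), (-4 + (2) * x)) :=
    (Function.iterate_succ_apply' T 12 _).trans (by rw [h12]; exact stepP (by linarith) (by ring))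
  have h14 : T^[14] ((0 : ℝ), x, (0 : ℝ)) = ((5 + (-1) * x), (-4 + (2) * x), (0 : ℝ)) :=
    (Function.iterate_succ_apply' T 13 _).trans (by rw [h13]; exact stepZ (by linarith))
  have h15 : T^[15] ((0 : ℝ), x, (0 : ℝ)) = ((-4 + (2) * x), (0 : ℝ), (6 + (-1) * x)) :=
    (Function.iterate_succ_apply' T 14 _).trans (by rw [h14]; exact stepP (by linarith) (by ring))
  have h16 : T^[16] ((0 : ℝ), x, (0 : ℝ)) = ((0 : ℝ), (6 + (-1) * x), (-9 + (3) * x)) :=
    (Function.iterate_succ_apply' T 15 _).trans (by rw [h15]; exact stepP (by linarith) (by ring))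
  have h17 : T^[17] ((0 : ℝ), x, (0 : ℝ)) = ((6 + (-1) * x), (-9 + (3) * x), (10 + (-3) * x)) :=
    (Function.iterate_succ_apply' T 16 _).trans (by rw [h16]; exact stepP (by linarith) (by ring))
  have h18 : T^[18] ((0 : ℝ), x, (0 : ℝ)) = ((-9 + (3) * x), (10 + (-3) * x), (-3 + (2) * x)) :=
    (Function.iterate_succ_apply' T 17 _).trans (by rw [h17]; exact stepP (by linarith) (by ring))
  have h19 : T^[19] ((0 : ℝ), x, (0 : ℝ)) = ((10 + (-3) * x), (-3 + (2) * x), (0 : ℝ)) :=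
    (Function.iterate_succ_apply' T 18 _).trans (by rw [h18]; exact stepZ (by linarith))
  have h20 : T^[20] ((0 : ℝ), x, (0 : ℝ)) = ((-3 + (2) * x), (0 : ℝ), (11 + (-3) * x)) :=
    (Function.iterate_succ_apply' T 19 _).trans (by rw [h19]; exact stepP (by linarith) (by ring))
  have h21 : T^[21] ((0 : ℝ), x, (0 : ℝ)) = ((0 : ℝ), (11 + (-3) * x), (-13 + (5) * x)) :=
    (Function.iterate_succ_apply' T 20 _).trans (by rw [h20]; exact stepP (by linarith) (by ring))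
  have h22 : T^[22] ((0 : ℝ), x, (0 : ℝ)) = ((11 + (-3) * x), (-13 + (5) * x), (0 : ℝ)) :=
    (Function.iterate_succ_apply' T 21 _).trans (by rw [h21]; exact stepZ (by linarith))
  have h23 : T^[23] ((0 : ℝ), x, (0 : ℝ)) = ((-13 + (5) * x), (0 : ℝ), (12 + (-3) * x)) :=
    (Function.iterate_succ_apply' T 22 _).trans (by rw [h22]; exact stepP (by linarith) (by ring))
  have h24 : T^[24] ((0 : ℝ), x, (0 : ℝ)) = ((0 : ℝ), (12 + (-3) * x), (-24 + (8) * x)) :=
    (Function.iterate_succ_apply' T 23 _).trans (by rw [h23]; exact stepP (by linarith) (by ring))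
  have h25 : T^[25] ((0 : ℝ), x, (0 : ℝ)) = ((12 + (-3) * x), (-24 + (8) * x), (0 : ℝ)) :=
    (Function.iterate_succ_apply' T 24 _).trans (by rw [h24]; exact stepZ (by linarith))
  have h26 : T^[26] ((0 : ℝ), x, (0 : ℝ)) = ((-24 + (8) * x), (0 : ℝ), (13 + (-3) * x)) :=
    (Function.iterate_succ_apply' T 25 _).trans (by rw [h25]; exact stepP (by linarith) (by ring))
  have h27 : T^[27] ((0 : ℝ), x, (0 : ℝ)) = ((0 : ℝ), (13 + (-3) * x), (0 : ℝ)) :=
    (Function.iterate_succ_apply' T 26 _).trans (by rw [h26]; exact stepZ (by linarith))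
  exact ⟨h24, h26, h27⟩

lemma loopB (x : ℝ) (hl : 3289 / 1000 ≤ x) (hr : x ≤ 3293 / 1000) :
    T^[43] ((0 : ℝ), x, (0 : ℝ)) = ((0 : ℝ), (101 + (-30) * x), (-258 + (79) * x)) ∧
    T^[45] ((0 : ℝ), x, (0 : ℝ)) = ((-258 + (79) * x), (0 : ℝ), (102 + (-30) * x)) ∧
    T^[46] ((0 : ℝ), x, (0 : ℝ)) = ((0 : ℝ), (102 + (-30) * x), (0 : ℝ)) := by
  have h0 : T^[0] ((0 : ℝ), x, (0 : ℝ)) = ((0 : ℝ), x, (0 : ℝ)) := rfl
  have h1 : T^[1] ((0 : ℝ), x, (0 : ℝ)) = (x, (0 : ℝ), (1 : ℝ)) :=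
    (Function.iterate_succ_apply' T 0 _).trans (by rw [h0]; exact stepP (by linarith) (by ring))
  have h2 : T^[2] ((0 : ℝ), x, (0 : ℝ)) = ((0 : ℝ), (1 : ℝ), x) :=
    (Function.iterate_succ_apply' T 1 _).trans (by rw [h1]; exact stepP (by linarith) (by ring))
  have h3 : T^[3] ((0 : ℝ), x, (0 : ℝ)) = ((1 : ℝ), x, (0 : ℝ)) :=
    (Function.iterate_succ_apply' T 2 _).trans (by rw [h2]; exact stepZ (by linarith))
  have h4 : T^[4] ((0 : ℝ), x, (0 : ℝ)) = (x, (0 : ℝ), (2 : ℝ)) :=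
    (Function.iterate_succ_apply' T 3 _).trans (by rw [h3]; exact stepP (by linarith) (by ring))
  have h5 : T^[5] ((0 : ℝ), x, (0 : ℝ)) = ((0 : ℝ), (2 : ℝ), (-1 + (1) * x)) :=
    (Function.iterate_succ_apply' T 4 _).trans (by rw [h4]; exact stepP (by linarith) (by ring))
  have h6 : T^[6] ((0 : ℝ), x, (0 : ℝ)) = ((2 : ℝ), (-1 + (1) * x), (0 : ℝ)) :=
    (Function.iterate_succ_apply' T 5 _).trans (by rw [h5]; exact stepZ (by linarith))
  have h7 : T^[7] ((0 : ℝ), x, (0 : ℝ)) = ((-1 + (1) * x), (0 : ℝ), (3 : ℝ)) :=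
    (Function.iterate_succ_apply' T 6 _).trans (by rw [h6]; exact stepP (by linarith) (by ring))
  have h8 : T^[8] ((0 : ℝ), x, (0 : ℝ)) = ((0 : ℝ), (3 : ℝ), (-3 + (1) * x)) :=
    (Function.iterate_succ_apply' T 7 _).trans (by rw [h7]; exact stepP (by linarith) (by ring))
  have h9 : T^[9] ((0 : ℝ), x, (0 : ℝ)) = ((3 : ℝ), (-3 + (1) * x), (4 + (-1) * x)) :=
    (Function.iterate_succ_apply' T 8 _).trans (by rw [h8]; exact stepP (by linarith) (by ring))
  have h10 : T^[10] ((0 : ℝ), x, (0 : ℝ)) = ((-3 + (1) * x), (4 + (-1) * x), x) :=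
    (Function.iterate_succ_apply' T 9 _).trans (by rw [h9]; exact stepP (by linarith) (by ring))
  have h11 : T^[11] ((0 : ℝ), x, (0 : ℝ)) = ((4 + (-1) * x), x, (0 : ℝ)) :=
    (Function.iterate_succ_apply' T 10 _).trans (by rw [h10]; exact stepZ (by linarith))
  have h12 : T^[12] ((0 : ℝ), x, (0 : ℝ)) = (x, (0 : ℝ), (5 + (-1) * x)) :=
    (Function.iterate_succ_apply' T 11 _).trans (by rw [h11]; exact stepP (by linarith) (by ring))
  have h13 : T^[13] ((0 : ℝ), x, (0 : ℝ)) = ((0 : ℝ), (5 + (-1) * x), (-4 + (2) * x)) :=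
    (Function.iterate_succ_apply' T 12 _).trans (by rw [h12]; exact stepP (by linarith) (by ring))
  have h14 : T^[14] ((0 : ℝ), x, (0 : ℝ)) = ((5 + (-1) * x), (-4 + (2) * x), (0 : ℝ)) :=
    (Function.iterate_succ_apply' T 13 _).trans (by rw [h13]; exact stepZ (by linarith))
  have h15 : T^[15] ((0 : ℝ), x, (0 : ℝ)) = ((-4 + (2) * x), (0 : ℝ), (6 + (-1) * x)) :=
    (Function.iterate_succ_apply' T 14 _).trans (by rw [h14]; exact stepP (by linarith) (by ring))
  have h16 : T^[16] ((0 : ℝ), x, (0 : ℝ)) = ((0 : ℝ), (6 + (-1) * x), (-9 + (3) * x)) :=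
    (Function.iterate_succ_apply' T 15 _).trans (by rw [h15]; exact stepP (by linarith) (by ring))
  have h17 : T^[17] ((0 : ℝ), x, (0 : ℝ)) = ((6 + (-1) * x), (-9 + (3) * x), (10 + (-3) * x)) :=
    (Function.iterate_succ_apply' T 16 _).trans (by rw [h16]; exact stepP (by linarith) (by ring))
  have h18 : T^[18] ((0 : ℝ), x, (0 : ℝ)) = ((-9 + (3) * x), (10 + (-3) * x), (-3 + (2) * x)) :=
    (Function.iterate_succ_apply' T 17 _).trans (by rw [h17]; exact stepP (by linarith) (by ring))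
  have h19 : T^[19] ((0 : ℝ), x, (0 : ℝ)) = ((10 + (-3) * x), (-3 + (2) * x), (0 : ℝ)) :=
    (Function.iterate_succ_apply' T 18 _).trans (by rw [h18]; exact stepZ (by linarith))
  have h20 : T^[20] ((0 : ℝ), x, (0 : ℝ)) = ((-3 + (2) * x), (0 : ℝ), (11 + (-3) * x)) :=
    (Function.iterate_succ_apply' T 19 _).trans (by rw [h19]; exact stepP (by linarith) (by ring))
  have h21 : T^[21] ((0 : ℝ), x, (0 : ℝ)) = ((0 : ℝ), (11 + (-3) * x), (-13 + (5) * x)) :=
    (Function.iterate_succ_apply' T 20 _).trans (by rw [h20]; exact stepP (by linarith) (by ring))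
  have h22 : T^[22] ((0 : ℝ), x, (0 : ℝ)) = ((11 + (-3) * x), (-13 + (5) * x), (0 : ℝ)) :=
    (Function.iterate_succ_apply' T 21 _).trans (by rw [h21]; exact stepZ (by linarith))
  have h23 : T^[23] ((0 : ℝ), x, (0 : ℝ)) = ((-13 + (5) * x), (0 : ℝ), (12 + (-3) * x)) :=
    (Function.iterate_succ_apply' T 22 _).trans (by rw [h22]; exact stepP (by linarith) (by ring))
  have h24 : T^[24] ((0 : ℝ), x, (0 : ℝ)) = ((0 : ℝ), (12 + (-3) * x), (-24 + (8) * x)) :=
    (Function.iterate_succ_apply' T 23 _).trans (by rw [h23]; exact stepP (by linarith) (by ring))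
  have h25 : T^[25] ((0 : ℝ), x, (0 : ℝ)) = ((12 + (-3) * x), (-24 + (8) * x), (0 : ℝ)) :=
    (Function.iterate_succ_apply' T 24 _).trans (by rw [h24]; exact stepZ (by linarith))
  have h26 : T^[26] ((0 : ℝ), x, (0 : ℝ)) = ((-24 + (8) * x), (0 : ℝ), (13 + (-3) * x)) :=
    (Function.iterate_succ_apply' T 25 _).trans (by rw [h25]; exact stepP (by linarith) (by ring))
  have h27 : T^[27] ((0 : ℝ), x, (0 : ℝ)) = ((0 : ℝ), (13 + (-3) * x), (-36 + (11) * x)) :=
    (Function.iterate_succ_apply' T 26 _).trans (by rw [h26]; exact stepP (by linarith) (by ring))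
  have h28 : T^[28] ((0 : ℝ), x, (0 : ℝ)) = ((13 + (-3) * x), (-36 + (11) * x), (37 + (-11) * x)) :=
    (Function.iterate_succ_apply' T 27 _).trans (by rw [h27]; exact stepP (by linarith) (by ring))
  have h29 : T^[29] ((0 : ℝ), x, (0 : ℝ)) = ((-36 + (11) * x), (37 + (-11) * x), (-23 + (8) * x)) :=
    (Function.iterate_succ_apply' T 28 _).trans (by rw [h28]; exact stepP (by linarith) (by ring))
  have h30 : T^[30] ((0 : ℝ), x, (0 : ℝ)) = ((37 + (-11) * x), (-23 + (8) * x), (0 : ℝ)) :=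
    (Function.iterate_succ_apply' T 29 _).trans (by rw [h29]; exact stepZ (by linarith))
  have h31 : T^[31] ((0 : ℝ), x, (0 : ℝ)) = ((-23 + (8) * x), (0 : ℝ), (38 + (-11) * x)) :=
    (Function.iterate_succ_apply' T 30 _).trans (by rw [h30]; exact stepP (by linarith) (by ring))
  have h32 : T^[32] ((0 : ℝ), x, (0 : ℝ)) = ((0 : ℝ), (38 + (-11) * x), (-60 + (19) * x)) :=
    (Function.iterate_succ_apply' T 31 _).trans (by rw [h31]; exact stepP (by linarith) (by ring))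
  have h33 : T^[33] ((0 : ℝ), x, (0 : ℝ)) = ((38 + (-11) * x), (-60 + (19) * x), (0 : ℝ)) :=
    (Function.iterate_succ_apply' T 32 _).trans (by rw [h32]; exact stepZ (by linarith))
  have h34 : T^[34] ((0 : ℝ), x, (0 : ℝ)) = ((-60 + (19) * x), (0 : ℝ), (39 + (-11) * x)) :=
    (Function.iterate_succ_apply' T 33 _).trans (by rw [h33]; exact stepP (by linarith) (by ring))
  have h35 : T^[35] ((0 : ℝ), x, (0 : ℝ)) = ((0 : ℝ), (39 + (-11) * x), (-98 + (30) * x)) :=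
    (Function.iterate_succ_apply' T 34 _).trans (by rw [h34]; exact stepP (by linarith) (by ring))
  have h36 : T^[36] ((0 : ℝ), x, (0 : ℝ)) = ((39 + (-11) * x), (-98 + (30) * x), (99 + (-30) * x)) :=
    (Function.iterate_succ_apply' T 35 _).trans (by rw [h35]; exact stepP (by linarith) (by ring))
  have h37 : T^[37] ((0 : ℝ), x, (0 : ℝ)) = ((-98 + (30) * x), (99 + (-30) * x), (-59 + (19) * x)) :=
    (Function.iterate_succ_apply' T 36 _).trans (by rw [h36]; exact stepP (by linarith) (by ring))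
  have h38 : T^[38] ((0 : ℝ), x, (0 : ℝ)) = ((99 + (-30) * x), (-59 + (19) * x), (0 : ℝ)) :=
    (Function.iterate_succ_apply' T 37 _).trans (by rw [h37]; exact stepZ (by linarith))
  have h39 : T^[39] ((0 : ℝ), x, (0 : ℝ)) = ((-59 + (19) * x), (0 : ℝ), (100 + (-30) * x)) :=
    (Function.iterate_succ_apply' T 38 _).trans (by rw [h38]; exact stepP (by linarith) (by ring))
  have h40 : T^[40] ((0 : ℝ), x, (0 : ℝ)) = ((0 : ℝ), (100 + (-30) * x), (-158 + (49) * x)) :=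
    (Function.iterate_succ_apply' T 39 _).trans (by rw [h39]; exact stepP (by linarith) (by ring))
  have h41 : T^[41] ((0 : ℝ), x, (0 : ℝ)) = ((100 + (-30) * x), (-158 + (49) * x), (0 : ℝ)) :=
    (Function.iterate_succ_apply' T 40 _).trans (by rw [h40]; exact stepZ (by linarith))
  have h42 : T^[42] ((0 : ℝ), x, (0 : ℝ)) = ((-158 + (49) * x), (0 : ℝ), (101 + (-30) * x)) :=
    (Function.iterate_succ_apply' T 41 _).trans (by rw [h41]; exact stepP (by linarith) (by ring))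
  have h43 : T^[43] ((0 : ℝ), x, (0 : ℝ)) = ((0 : ℝ), (101 + (-30) * x), (-258 + (79) * x)) :=
    (Function.iterate_succ_apply' T 42 _).trans (by rw [h42]; exact stepP (by linarith) (by ring))
  have h44 : T^[44] ((0 : ℝ), x, (0 : ℝ)) = ((101 + (-30) * x), (-258 + (79) * x), (0 : ℝ)) :=
    (Function.iterate_succ_apply' T 43 _).trans (by rw [h43]; exact stepZ (by linarith))
  have h45 : T^[45] ((0 : ℝ), x, (0 : ℝ)) = ((-258 + (79) * x), (0 : ℝ), (102 + (-30) * x)) :=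
    (Function.iterate_succ_apply' T 44 _).trans (by rw [h44]; exact stepP (by linarith) (by ring))
  have h46 : T^[46] ((0 : ℝ), x, (0 : ℝ)) = ((0 : ℝ), (102 + (-30) * x), (0 : ℝ)) :=
    (Function.iterate_succ_apply' T 45 _).trans (by rw [h45]; exact stepZ (by linarith))
  exact ⟨h43, h45, h46⟩

/-- Coordinatewise closeness. -/
def Cl (η : ℝ) (s t : ℝ × ℝ × ℝ) : Prop :=
  |s.1 - t.1| ≤ η ∧ |s.2.1 - t.2.1| ≤ η ∧ |s.2.2 - t.2.2| ≤ η

/-- Membership in a cube. -/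
def Bx (l r : ℝ) (s : ℝ × ℝ × ℝ) : Prop :=
  s.1 ∈ Icc l r ∧ s.2.1 ∈ Icc l r ∧ s.2.2 ∈ Icc l r

/-- The map attached to a third order recurrence. -/
def F (g : ℝ × ℝ × ℝ → ℝ) (s : ℝ × ℝ × ℝ) : ℝ × ℝ × ℝ := (s.2.1, s.2.2, g s)

lemma T_box (s : ℝ × ℝ × ℝ) (hs : Bx 0 4 s) (n : ℕ) : Bx 0 (4 + n) (T^[n] s) := by
  induction n with
  | zero => simpa using hs
  | succ n ih =>
    rw [Function.iterate_succ_apply']
    obtain ⟨⟨a1, a2⟩, ⟨b1, b2⟩, ⟨c1, c2⟩⟩ := ih
    push_cast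
    refine ⟨⟨b1, by simp only [T]; linarith⟩, ⟨c1, by simp only [T]; linarith⟩, le_max_left _ _, ?_⟩
    simp only [T]
    exact max_le (by linarith) (by linarith)

section
variable {g : ℝ × ℝ × ℝ → ℝ} {ε : ℝ} (h0 : 0 ≤ ε) (h1 : ε ≤ 1 / 10 ^ 40)
  (hg : ∀ s, Bx (-1) 100 s → |g s - max 0 (1 + s.1 - s.2.2)| ≤ ε)
include h0 h1 hg

lemma shadow (s t : ℝ × ℝ × ℝ) (ht : Bx 0 4 t) (hst : Cl ε s t) (n : ℕ) (hn : n ≤ 73) :
    Cl (3 ^ n * ε) ((F g)^[n] s) (T^[n] t) ∧ 3 ^ n * ε ≤ 1 / 1000 ∧ Bx (-1) 100 ((F g)^[n] s) := by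
  have small : ∀ m : ℕ, m ≤ 73 → 3 ^ m * ε ≤ 1 / 1000 := by
    intro m hm
    have : (3 : ℝ) ^ m ≤ 3 ^ 73 := pow_le_pow_right₀ (by norm_num) hm
    calc 3 ^ m * ε ≤ 3 ^ 73 * (1 / 10 ^ 40) := by gcongr
      _ ≤ 1 / 1000 := by norm_num
  have box : ∀ m : ℕ, m ≤ 73 → Cl (3 ^ m * ε) ((F g)^[m] s) (T^[m] t) →
      Bx (-1) 100 ((F g)^[m] s) := by
    intro m hm h
    obtain ⟨⟨a1, a2⟩, ⟨b1, b2⟩, ⟨c1, c2⟩⟩ := T_box t ht m
    have hm' : (m : ℝ) ≤ 73 := by exact_mod_cast hm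
    have := small m hm
    obtain ⟨x, y, z⟩ := h
    rw [abs_le] at x y z
    exact ⟨⟨by linarith [x.1], by linarith [x.2]⟩, ⟨by linarith [y.1], by linarith [y.2]⟩,
      ⟨by linarith [z.1], by linarith [z.2]⟩⟩
  have main : Cl (3 ^ n * ε) ((F g)^[n] s) (T^[n] t) := by
    induction n with
    | zero => simpa using hst
    | succ n ih =>
      have ih' := ih (by omega)
      have hb := hg _ (box n (by omega) ih')
      rw [Function.iterate_succ_apply', Function.iterate_succ_apply']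
      obtain ⟨x, y, z⟩ := ih'
      have p1 : (1 : ℝ) ≤ 3 ^ n := one_le_pow₀ (by norm_num)
      have p2 : ε ≤ 3 ^ n * ε := by nlinarith
      have p3 : 3 ^ (n + 1) * ε = 3 * (3 ^ n * ε) := by ring
      refine ⟨by simp only [F, T]; linarith, by simp only [F, T]; linarith, ?_⟩
      simp only [F, T]
      have q := abs_max_sub_max_le_max (0 : ℝ) (1 + ((F g)^[n] s).1 - ((F g)^[n] s).2.2) 0
        (1 + (T^[n] t).1 - (T^[n] t).2.2)
      rw [abs_le] at x y z hb ⊢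
      have q2 : max |(0 : ℝ) - 0| |1 + ((F g)^[n] s).1 - ((F g)^[n] s).2.2 -
          (1 + (T^[n] t).1 - (T^[n] t).2.2)| ≤ 2 * (3 ^ n * ε) := by
        refine max_le (by simp; linarith) (abs_le.2 ⟨by linarith [x.1, z.2], by linarith [x.2, z.1]⟩)
      have q3 := abs_le.1 (q.trans q2)
      exact ⟨by linarith [hb.1, q3.1], by linarith [hb.2, q3.2]⟩
  exact ⟨main, small n hn, box n hn main⟩

lemma loop (s : ℝ × ℝ × ℝ) (ha : |s.1| ≤ ε) (hc : |s.2.2| ≤ ε) (hx : s.2.1 ∈ Icc (0 : ℝ) 4)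
    (k : ℕ) (hk : k + 3 ≤ 73) {a b c y : ℝ}
    (e1 : T^[k] ((0 : ℝ), s.2.1, (0 : ℝ)) = (a, b, c))
    (e2 : T^[k + 2] ((0 : ℝ), s.2.1, (0 : ℝ)) = (c, 0, y))
    (e3 : T^[k + 3] ((0 : ℝ), s.2.1, (0 : ℝ)) = (0, y, 0))
    (m1 : 1 + a - c ≤ -(1 / 100)) (m2 : 1 + c - y ≤ -(1 / 100)) :
    |((F g)^[k + 3] s).1| ≤ ε ∧ |((F g)^[k + 3] s).2.2| ≤ ε ∧
      |((F g)^[k + 3] s).2.1 - y| ≤ 1 / 1000 := by
  have ht : Bx 0 4 ((0 : ℝ), s.2.1, (0 : ℝ)) := ⟨⟨le_rfl, by norm_num⟩, hx, ⟨le_rfl, by norm_num⟩⟩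
  have hst : Cl ε s ((0 : ℝ), s.2.1, (0 : ℝ)) := ⟨by simpa using ha, by simpa using h0, by simpa using hc⟩
  obtain ⟨⟨x1, -, z1⟩, s1, b1⟩ := shadow h0 h1 hg s _ ht hst k (by omega)
  obtain ⟨⟨x2, -, z2⟩, s2, b2⟩ := shadow h0 h1 hg s _ ht hst (k + 2) (by omega)
  obtain ⟨⟨-, y3, -⟩, s3, -⟩ := shadow h0 h1 hg s _ ht hst (k + 3) hk
  rw [e1] at x1 z1
  rw [e2] at x2 z2
  rw [e3] at y3
  rw [abs_le] at x1 z1 x2 z2
  refine ⟨?_, ?_, y3.trans s3⟩
  · have : ((F g)^[k + 3] s).1 = g ((F g)^[k] s) := by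
      simp only [Function.iterate_succ_apply', F]
    rw [this]
    have := hg _ b1
    rwa [max_eq_left (by linarith [x1.2, z1.1]), sub_zero] at this
  · have : ((F g)^[k + 3] s).2.2 = g ((F g)^[k + 2] s) := by
      rw [Function.iterate_succ_apply']
      rfl
    rw [this]
    have := hg _ b2
    rwa [max_eq_left (by linarith [x2.2, z2.1]), sub_zero] at this

theorem chaos (hc : Continuous g) : ∃ Y : ℕ → ℝ,
    (∀ n, Y (n + 3) = g (Y n, Y (n + 1), Y (n + 2))) ∧ (∀ n, Y n ∈ Icc (-1 : ℝ) 100) ∧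
    ∀ k, 1 ≤ k → ∀ N, ∃ n, N ≤ n ∧ Y n ≤ 653 / 200 ∧ 3289 / 1000 ≤ Y (n + 73 * k) := by
  have hF : Continuous (F g) := by
    unfold F
    fun_prop
  let len : Bool → ℕ := fun i => if i then 46 else 27
  let lo : Bool → ℝ := fun i => if i then 3289 / 1000 else 323 / 100
  let hi : Bool → ℝ := fun i => if i then 3293 / 1000 else 653 / 200
  let P : Set (ℝ × ℝ × ℝ) := {s | |s.1| ≤ ε ∧ |s.2.2| ≤ ε}
  have hP : IsClosed P := IsClosed.inter
    (isClosed_le (f := fun s : ℝ × ℝ × ℝ => |s.1|) (by fun_prop) continuous_const)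
    (isClosed_le (f := fun s : ℝ × ℝ × ℝ => |s.2.2|) (by fun_prop) continuous_const)
  have hA : ∀ s ∈ P, s.2.1 ∈ Icc (lo false) (hi false) → (F g)^[27] s ∈ P ∧
      |((F g)^[27] s).2.1 - (13 + (-3) * s.2.1)| ≤ 1 / 1000 := by
    intro s hs hx
    obtain ⟨x1, x2⟩ : 323 / 100 ≤ s.2.1 ∧ s.2.1 ≤ 653 / 200 := hx
    obtain ⟨e1, e2, e3⟩ := loopA _ x1 x2
    have := loop h0 h1 hg s hs.1 hs.2 ⟨by linarith, by linarith⟩ 24 (by norm_num) e1 e2 e3
      (by linarith) (by linarith)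
    exact ⟨⟨this.1, this.2.1⟩, this.2.2⟩
  have hB : ∀ s ∈ P, s.2.1 ∈ Icc (lo true) (hi true) → (F g)^[46] s ∈ P ∧
      |((F g)^[46] s).2.1 - (102 + (-30) * s.2.1)| ≤ 1 / 1000 := by
    intro s hs hx
    obtain ⟨x1, x2⟩ : 3289 / 1000 ≤ s.2.1 ∧ s.2.1 ≤ 3293 / 1000 := hx
    obtain ⟨e1, e2, e3⟩ := loopB _ x1 x2
    have := loop h0 h1 hg s hs.1 hs.2 ⟨by linarith, by linarith⟩ 43 (by norm_num) e1 e2 e3
      (by linarith) (by linarith)
    exact ⟨⟨this.1, this.2.1⟩, this.2.2⟩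
  have hle : ∀ i, (322 / 100 : ℝ) ≤ lo i ∧ lo i ≤ hi i ∧ hi i ≤ 33 / 10 := by
    intro i
    cases i <;> norm_num [lo, hi]
  classical
  let σ : ℕ → Bool := fun n => if n % 2 = 0 then decide (IsSquare (n / 2)) else
    !decide (IsSquare (n / 2))
  obtain ⟨s, hs⟩ := itin (fun i => (F g)^[len i]) (fun i => hF.iterate _) P hP (fun s => s.2.1)
    (by fun_prop) lo hi (322 / 100) (33 / 10) hle
    (by
      intro i s hs hx
      cases i
      · exact (hA s hs hx).1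
      · exact (hB s hs hx).1)
    (by
      intro i
      left
      cases i
      · refine ⟨fun s hs hx => ?_, fun s hs hx => ?_⟩
        · have := abs_le.1 (hA s hs ⟨hx.ge, hx.le.trans (hle _).2.1⟩).2
          have hx' : s.2.1 = 323 / 100 := hx
          show _ ≤ ((F g)^[27] s).2.1
          linarith [this.1]
        · have := abs_le.1 (hA s hs ⟨(hle _).2.1.trans hx.ge, hx.le⟩).2
          have hx' : s.2.1 = 653 / 200 := hx
          show ((F g)^[27] s).2.1 ≤ _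
          linarith [this.2]
      · refine ⟨fun s hs hx => ?_, fun s hs hx => ?_⟩
        · have := abs_le.1 (hB s hs ⟨hx.ge, hx.le.trans (hle _).2.1⟩).2
          have hx' : s.2.1 = 3289 / 1000 := hx
          show _ ≤ ((F g)^[46] s).2.1
          linarith [this.1]
        · have := abs_le.1 (hB s hs ⟨(hle _).2.1.trans hx.ge, hx.le⟩).2
          have hx' : s.2.1 = 3293 / 1000 := hx
          show ((F g)^[46] s).2.1 ≤ _
          linarith [this.2])
    (fun t => (0, t, 0)) (by fun_prop) 3 4 (fun t _ => ⟨by simpa using h0, by simpa using h0⟩)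
    (by norm_num) (by norm_num) σ
  have hal : ∀ n, along (fun i => (F g)^[len i]) σ (2 * n) s = (F g)^[73 * n] s := by
    intro n
    induction n with
    | zero => rfl
    | succ n ih =>
      have : along (fun i => (F g)^[len i]) σ (2 * (n + 1)) s = (F g)^[len (σ (2 * n + 1))]
          ((F g)^[len (σ (2 * n))] (along (fun i => (F g)^[len i]) σ (2 * n) s)) := rfl
      rw [this, ih, ← Function.iterate_add_apply, ← Function.iterate_add_apply]
      congr 1
      have a1 : (2 * n + 1) % 2 = 1 := by omega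
      have a2 : (2 * n + 1) / 2 = n := by omega
      have a3 : (2 * n) % 2 = 0 := by omega
      have a4 : (2 * n) / 2 = n := by omega
      simp only [σ, len, a1, a2, a3, a4]
      by_cases h : IsSquare n <;> simp [h] <;> ring
  have hσ : ∀ n, σ (2 * n) = decide (IsSquare n) := by
    intro n
    simp [σ]
  have hs' : ∀ n, (F g)^[73 * n] s ∈ P ∧ ((F g)^[73 * n] s).2.1 ∈
      Icc (lo (decide (IsSquare n))) (hi (decide (IsSquare n))) := by
    intro n
    have := hs (2 * n)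
    rwa [hal, hσ] at this
  have e1 : ∀ n, ((F g)^[n + 1] s).1 = ((F g)^[n] s).2.1 := fun n => by
    rw [Function.iterate_succ_apply']; rfl
  have e2 : ∀ n, ((F g)^[n + 2] s).1 = ((F g)^[n] s).2.2 := fun n => by
    simp only [Function.iterate_succ_apply', F]
  refine ⟨fun n => ((F g)^[n] s).1, fun n => ?_, fun n => ?_, fun k hk N => ?_⟩
  · simp only [e1 n, e2 n]
    simp only [Function.iterate_succ_apply', F]
  · obtain ⟨p1, p2⟩ := hs' (n / 73)
    have hl := hle (decide (IsSquare (n / 73)))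
    have ht : Bx 0 4 ((0 : ℝ), ((F g)^[73 * (n / 73)] s).2.1, (0 : ℝ)) :=
      ⟨⟨le_rfl, by norm_num⟩, ⟨by linarith [p2.1, hl.1], by linarith [p2.2, hl.2.2]⟩,
        ⟨le_rfl, by norm_num⟩⟩
    have := (shadow h0 h1 hg ((F g)^[73 * (n / 73)] s) _ ht
      ⟨by simpa using p1.1, by simpa using h0, by simpa using p1.2⟩ (n % 73)
      (by omega)).2.2.1
    rwa [← Function.iterate_add_apply, show n % 73 + 73 * (n / 73) = n by omega] at this
  · obtain ⟨n, hn, s1, s2⟩ := sparse k hk N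
    refine ⟨73 * n + 1, by omega, ?_, ?_⟩
    · have := (hs' n).2.2
      simp only [s1, decide_false] at this
      simp only [e1]
      exact this
    · have := (hs' (n + k)).2.1
      simp only [s2, decide_true] at this
      simp only [show 73 * n + 1 + 73 * k = 73 * (n + k) + 1 by ring, e1]
      exact this

end

theorem main (L α γ C D : ℝ) (hL : 10 ^ 41 ≤ L) (hα : α ∈ Icc 0 (Real.exp (-200 * L)))
    (hγ : γ ∈ Icc 0 (Real.exp (-200 * L))) (hC : C ∈ Icc 0 (Real.exp (-200 * L)))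
    (hD : D ∈ Icc 0 (Real.exp (-200 * L))) : ∃ x : ℕ → ℝ,
    (∀ n, Real.exp (-L) ≤ x n ∧ x n ≤ Real.exp (100 * L)) ∧
    (∀ n, x (n + 3) = (α + x (n + 2) + γ * x (n + 1) + Real.exp L * x n) /
      (x (n + 2) + C * x (n + 1) + D * x n)) ∧
    ∀ k, 1 ≤ k → ∀ N, ∃ n, N ≤ n ∧ x n ≤ Real.exp (L * (653 / 200)) ∧
      Real.exp (L * (3289 / 1000)) ≤ x (n + 73 * k) := by
  have hL0 : 0 < L := lt_of_lt_of_le (by norm_num) hL
  let num : ℝ × ℝ × ℝ → ℝ := fun s =>
    α + Real.exp (L * s.2.2) + γ * Real.exp (L * s.2.1) + Real.exp L * Real.exp (L * s.1)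
  let den : ℝ × ℝ × ℝ → ℝ := fun s =>
    Real.exp (L * s.2.2) + C * Real.exp (L * s.2.1) + D * Real.exp (L * s.1)
  have hn : ∀ s, 0 < num s := fun s => by
    have := hα.1; have := hγ.1; simp only [num]; positivity
  have hd : ∀ s, 0 < den s := fun s => by
    have := hC.1; have := hD.1; simp only [den]; positivity
  let g : ℝ × ℝ × ℝ → ℝ := fun s => Real.log (num s / den s) / L
  have hc : Continuous g := by
    refine Continuous.div_const (Continuous.log (Continuous.div ?_ ?_ fun s => (hd s).ne')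
      fun s => (div_pos (hn s) (hd s)).ne') L
    · simp only [num]; fun_prop
    · simp only [den]; fun_prop
  have hg : ∀ s, Bx (-1) 100 s → |g s - max 0 (1 + s.1 - s.2.2)| ≤ 3 / L := by
    rintro ⟨a, b, c⟩ ⟨⟨a1, a2⟩, ⟨b1, b2⟩, ⟨c1, c2⟩⟩
    simp only at a1 a2 b1 b2 c1 c2 ⊢
    set m := max 0 (1 + a - c) with hm
    have m1 : 0 ≤ m := le_max_left _ _
    have m2 : 1 + a - c ≤ m := le_max_right _ _
    have sm : ∀ κ t : ℝ, κ ∈ Icc 0 (Real.exp (-200 * L)) → t ≤ 100 →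
        κ * Real.exp (L * t) ≤ Real.exp (L * c) := by
      intro κ t hκ ht
      calc κ * Real.exp (L * t) ≤ Real.exp (-200 * L) * Real.exp (L * t) := by gcongr; exact hκ.2
        _ ≤ _ := by rw [← Real.exp_add]; exact Real.exp_le_exp.2 (by nlinarith)
    have s1 := sm α 0 hα (by norm_num)
    have s2 := sm γ b hγ b2
    have s3 := sm C b hC b2
    have s4 := sm D a hD a2
    rw [mul_zero, Real.exp_zero, mul_one] at s1
    have E0 := Real.exp_pos (L * c)
    have E1 : Real.exp (L * c) ≤ Real.exp (L * m) * Real.exp (L * c) := by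
      rw [← Real.exp_add]; exact Real.exp_le_exp.2 (by nlinarith)
    have E2 : Real.exp L * Real.exp (L * a) ≤ Real.exp (L * m) * Real.exp (L * c) := by
      rw [← Real.exp_add, ← Real.exp_add]; exact Real.exp_le_exp.2 (by nlinarith)
    have n1 := hα.1
    have n2 : 0 ≤ γ * Real.exp (L * b) := mul_nonneg hγ.1 (Real.exp_pos _).le
    have n3 : 0 ≤ C * Real.exp (L * b) := mul_nonneg hC.1 (Real.exp_pos _).le
    have n4 : 0 ≤ D * Real.exp (L * a) := mul_nonneg hD.1 (Real.exp_pos _).le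
    have n5 : 0 ≤ Real.exp L * Real.exp (L * a) := by positivity
    have E3 : Real.exp (L * m) * Real.exp (L * c) ≤ num (a, b, c) := by
      simp only [num]
      rcases max_choice 0 (1 + a - c) with h | h
      · rw [hm, h, mul_zero, Real.exp_zero]; linarith
      · rw [hm, h, ← Real.exp_add, show L * (1 + a - c) + L * c = L + L * a by ring, Real.exp_add]
        linarith
    have E4 : num (a, b, c) ≤ 4 * (Real.exp (L * m) * Real.exp (L * c)) := by
      simp only [num]; linarith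
    have E5 : Real.exp (L * c) ≤ den (a, b, c) := by simp only [den]; linarith
    have E6 : den (a, b, c) ≤ 4 * Real.exp (L * c) := by simp only [den]; linarith
    have e3 : (4 : ℝ) ≤ Real.exp 3 := by linarith [Real.add_one_le_exp 3]
    have Em := Real.exp_pos (L * m)
    have u1 : Real.log (num (a, b, c) / den (a, b, c)) ≤ L * m + 3 := by
      rw [Real.log_le_iff_le_exp (div_pos (hn _) (hd _)), div_le_iff₀ (hd _), Real.exp_add]
      calc _ ≤ _ := E4
        _ = Real.exp (L * m) * 4 * Real.exp (L * c) := by ring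
        _ ≤ _ := by gcongr
    have u2 : L * m - 3 ≤ Real.log (num (a, b, c) / den (a, b, c)) := by
      rw [Real.le_log_iff_exp_le (div_pos (hn _) (hd _)), le_div_iff₀ (hd _), Real.exp_sub]
      calc _ ≤ Real.exp (L * m) / 4 * (4 * Real.exp (L * c)) := by gcongr
        _ = Real.exp (L * m) * Real.exp (L * c) := by ring
        _ ≤ _ := E3
    have : g (a, b, c) - m = (Real.log (num (a, b, c) / den (a, b, c)) - L * m) / L := by
      simp only [g]; field_simp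
    rw [this, abs_div, abs_of_pos hL0]
    gcongr
    exact abs_le.2 ⟨by linarith, by linarith⟩
  obtain ⟨Y, y1, y2, y3⟩ := chaos (ε := 3 / L) (by positivity)
    (by rw [div_le_div_iff₀ hL0 (by positivity)]; linarith) hg hc
  refine ⟨fun n => Real.exp (L * Y n), fun n => ⟨?_, ?_⟩, fun n => ?_, fun k hk N => ?_⟩
  · exact Real.exp_le_exp.2 (by nlinarith [(y2 n).1])
  · exact Real.exp_le_exp.2 (by nlinarith [(y2 n).2])
  · simp only [y1 n, g]
    rw [mul_div_cancel₀ _ hL0.ne', Real.exp_log (div_pos (hn _) (hd _))]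
  · obtain ⟨n, h1, h2, h3⟩ := y3 k hk N
    exact ⟨n, h1, Real.exp_le_exp.2 (by gcongr), Real.exp_le_exp.2 (by gcongr)⟩

end Pool.Agent.H8.Horse
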