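import Mathlib

set_option autoImplicit false

namespace Pool.Agent.H8.HypP

open Polynomial Filter Topology

/-- No zero in the open upper half plane. -/
def St (q : ℂ[X]) : Prop := ∀ z : ℂ, 0 < z.im → q.eval z ≠ 0

theorem St.root_im {q : ℂ[X]} (h : St q) {r : ℂ} (hr : r ∈ q.roots) : r.im ≤ 0 := by
  by_contra hlt
  push Not at hlt
  exact h r hlt (isRoot_of_mem_roots hr)

theorem im_inv_neg {w : ℂ} (hw : 0 < w.im) : (1 / w).im < 0 := by
  have h0 : w ≠ 0 := fun h => by simp [h] at hw
  rw [one_div, Complex.inv_im]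
  exact div_neg_of_neg_of_pos (by linarith) (Complex.normSq_pos.2 h0)

theorem sum_im_le (s : Multiset ℂ) (z : ℂ) (hz : 0 < z.im) (hs : ∀ r ∈ s, r.im ≤ 0) :
    ((s.map fun r => 1 / (z - r)).sum).im ≤ 0 ∧
      (s ≠ 0 → ((s.map fun r => 1 / (z - r)).sum).im < 0) := by
  induction s using Multiset.induction_on with
  | empty => simp
  | cons a s ih =>
    have h1 := (ih fun r hr => hs r (Multiset.mem_cons_of_mem hr)).1
    have h2 : (1 / (z - a)).im < 0 := im_inv_neg (by
      have := hs a (Multiset.mem_cons_self a s)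
      simp only [Complex.sub_im]; linarith)
    rw [Multiset.map_cons, Multiset.sum_cons, Complex.add_im]
    exact ⟨by linarith, fun _ => by linarith⟩

theorem ld {u : ℂ[X]} (h : St u) {z : ℂ} (hz : 0 < z.im) :
    (u.derivative.eval z / u.eval z).im ≤ 0 := by
  rw [(IsAlgClosed.splits u).eval_derivative_div_eval_of_ne_zero (h z hz)]
  exact (sum_im_le _ z hz fun r hr => h.root_im hr).1

theorem ld' {u : ℂ[X]} (h : St u) (hd : u.derivative ≠ 0) {z : ℂ} (hz : 0 < z.im) :
    (u.derivative.eval z / u.eval z).im < 0 := by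
  rw [(IsAlgClosed.splits u).eval_derivative_div_eval_of_ne_zero (h z hz)]
  refine (sum_im_le _ z hz fun r hr => h.root_im hr).2 ?_
  intro h0
  apply hd
  have := (IsAlgClosed.splits u).natDegree_eq_card_roots
  rw [h0, Multiset.card_zero] at this
  rw [eq_C_of_natDegree_eq_zero this, derivative_C]

theorem St.deriv {u : ℂ[X]} (h : St u) : u.derivative = 0 ∨ St u.derivative := by
  by_cases hd : u.derivative = 0
  · exact Or.inl hd
  · refine Or.inr fun z hz h0 => ?_
    have := ld' h hd hz
    rw [h0] at this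
    simp at this

theorem St.sub_deriv {u : ℂ[X]} (h : St u) : St (u - u.derivative) := by
  by_cases hd : u.derivative = 0
  · rwa [hd, sub_zero]
  · intro z hz h0
    have := ld' h hd hz
    rw [eval_sub, sub_eq_zero] at h0
    rw [← h0, div_self (h z hz)] at this
    simp at this

theorem St.X_mul_sub_deriv {u : ℂ[X]} (h : St u) : St (X * u - u.derivative) := by
  intro z hz h0
  have := ld h hz
  rw [eval_sub, sub_eq_zero, eval_mul, eval_X] at h0
  rw [← h0, mul_div_cancel_right₀ _ (h z hz)] at this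
  linarith

theorem St.step {u : ℂ[X]} (h : St u) {y : ℂ} (hy : 0 < y.im) {x : ℝ} (hx : 0 < x) :
    St (y • u.derivative + (x : ℂ) • u) := by
  intro z hz h0
  have h1 := ld h hz
  have hy0 : y ≠ 0 := fun h => by simp [h] at hy
  have hu := h z hz
  rw [eval_add, eval_smul, eval_smul, smul_eq_mul, smul_eq_mul] at h0
  have e : u.derivative.eval z / u.eval z = -(x : ℂ) * (1 / y) := by
    field_simp
    linear_combination h0
  rw [e] at h1
  have := im_inv_neg hy
  simp only [neg_mul, Complex.neg_im, Complex.mul_im, Complex.ofReal_re, Complex.ofReal_im,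
    zero_mul, add_zero] at h1
  nlinarith

theorem prod_le (s : Multiset ℂ) (y w : ℂ) (hy : 0 < y.im) (hs : ∀ r ∈ s, r.im ≤ 0) :
    ‖(s.map (w - ·)).prod‖ ≤ (1 + ‖w - y‖ / y.im) ^ (Multiset.card s) * ‖(s.map (y - ·)).prod‖ := by
  induction s using Multiset.induction_on with
  | empty => simp
  | cons a s ih =>
    have h1 := ih fun r hr => hs r (Multiset.mem_cons_of_mem hr)
    have ha := hs a (Multiset.mem_cons_self a s)
    have h2 : ‖w - a‖ ≤ (1 + ‖w - y‖ / y.im) * ‖y - a‖ := by
      have h3 : y.im ≤ ‖y - a‖ := by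
        have := Complex.abs_im_le_norm (y - a)
        rw [Complex.sub_im] at this
        have := le_abs_self (y.im - a.im)
        linarith
      have h4 : ‖w - a‖ ≤ ‖w - y‖ + ‖y - a‖ := norm_sub_le_norm_sub_add_norm_sub w y a
      have h5 : ‖w - y‖ ≤ ‖w - y‖ / y.im * ‖y - a‖ := by
        rw [div_mul_eq_mul_div, le_div_iff₀ hy]
        exact mul_le_mul_of_nonneg_left h3 (norm_nonneg _)
      linarith
    rw [Multiset.map_cons, Multiset.map_cons, Multiset.prod_cons, Multiset.prod_cons, norm_mul,
      norm_mul, Multiset.card_cons, pow_succ]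
    calc ‖w - a‖ * ‖(s.map (w - ·)).prod‖
        ≤ ((1 + ‖w - y‖ / y.im) * ‖y - a‖) *
          ((1 + ‖w - y‖ / y.im) ^ (Multiset.card s) * ‖(s.map (y - ·)).prod‖) :=
          mul_le_mul h2 h1 (norm_nonneg _) (by positivity)
      _ = _ := by ring

theorem St.norm_le {q : ℂ[X]} (h : St q) {N : ℕ} (hN : q.natDegree ≤ N) {y : ℂ} (hy : 0 < y.im)
    (w : ℂ) : ‖q.eval w‖ ≤ (1 + ‖w - y‖ / y.im) ^ N * ‖q.eval y‖ := by
  have hs := IsAlgClosed.splits q
  rw [hs.eval_eq_prod_roots w, hs.eval_eq_prod_roots y, norm_mul, norm_mul]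
  have h1 := prod_le q.roots y w hy fun r hr => h.root_im hr
  have h2 : (1 + ‖w - y‖ / y.im) ^ (Multiset.card q.roots) ≤ (1 + ‖w - y‖ / y.im) ^ N :=
    pow_le_pow_right₀ (by have := div_nonneg (norm_nonneg (w - y)) hy.le; linarith)
      ((card_roots' q).trans hN)
  calc ‖q.leadingCoeff‖ * ‖(q.roots.map (w - ·)).prod‖
      ≤ ‖q.leadingCoeff‖ * ((1 + ‖w - y‖ / y.im) ^ N * ‖(q.roots.map (y - ·)).prod‖) :=
        mul_le_mul_of_nonneg_left (h1.trans (mul_le_mul_of_nonneg_right h2 (norm_nonneg _)))
          (norm_nonneg _)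
    _ = _ := by ring

/-- The operator `y d/dz`. -/
noncomputable def T (y : ℂ) : Module.End ℂ ℂ[X] := y • (derivative : ℂ[X] →ₗ[ℂ] ℂ[X])

theorem claim (s : Multiset ℂ) (hs : ∀ r ∈ s, r.im = 0 ∧ r.re ≤ 0) :
    ∀ f : ℂ[X], (f = 0 ∨ St f) →
      (∀ y, aeval (T y) (s.map (X - C ·)).prod f = 0) ∨
      (∀ y : ℂ, 0 < y.im → St (aeval (T y) (s.map (X - C ·)).prod f)) := by
  induction s using Multiset.induction_on with
  | empty =>
    rintro f (rfl | hf)
    · left; intro y; simp
    · right; intro y _; simpa using hf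
  | cons a s ih =>
    have ih' := ih fun r hr => hs r (Multiset.mem_cons_of_mem hr)
    obtain ⟨ha1, ha2⟩ := hs a (Multiset.mem_cons_self a s)
    intro f hf
    rw [Multiset.map_cons, Multiset.prod_cons]
    rcases ha2.eq_or_lt with h0 | h0
    · have ha0 : a = 0 := Complex.ext h0 ha1
      have e : ∀ y, aeval (T y) ((X - C a) * (s.map (X - C ·)).prod) f =
          y • aeval (T y) (s.map (X - C ·)).prod f.derivative := by
        intro y
        rw [mul_comm, map_mul, ha0, C_0, sub_zero, aeval_X, Module.End.mul_apply, ← map_smul]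
        rfl
      have hf' : f.derivative = 0 ∨ St f.derivative := by
        rcases hf with rfl | hf
        · left; simp
        · exact hf.deriv
      rcases ih' _ hf' with h | h
      · left; intro y; rw [e, h, smul_zero]
      · right
        intro y hy z hz
        rw [e, eval_smul, smul_eq_mul]
        exact mul_ne_zero (fun h => by simp [h] at hy) (h y hy z hz)
    · have e : ∀ y, aeval (T y) ((X - C a) * (s.map (X - C ·)).prod) f =
          y • (aeval (T y) (s.map (X - C ·)).prod f).derivative +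
            ((-a.re : ℝ) : ℂ) • aeval (T y) (s.map (X - C ·)).prod f := by
        intro y
        have : ((-a.re : ℝ) : ℂ) = -a := Complex.ext (by simp) (by simp [ha1])
        rw [map_mul, Module.End.mul_apply, map_sub, aeval_X, aeval_C, this, LinearMap.sub_apply,
          Module.algebraMap_end_apply, neg_smul, ← sub_eq_add_neg]
        rfl
      rcases ih' _ hf with h | h
      · left; intro y; rw [e, h]; simp
      · right
        intro y hy
        rw [e]
        exact (h y hy).step hy (by linarith)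

theorem T_pow (y : ℂ) (k : ℕ) (f : ℂ[X]) : (T y ^ k) f = y ^ k • derivative^[k] f := by
  induction k with
  | zero => simp
  | succ k ih =>
    rw [pow_succ', Module.End.mul_apply, ih, map_smul, Function.iterate_succ_apply', pow_succ,
      mul_smul]
    rfl

theorem eval_aeval (g f : ℂ[X]) (y z : ℂ) :
    (aeval (T y) g f).eval z = ∑ k ∈ Finset.range (f.natDegree + 1),
      g.coeff k * (derivative^[k] f).eval z * y ^ k := by
  rw [aeval_eq_sum_range' (n := g.natDegree + f.natDegree + 1) (by omega), LinearMap.sum_apply,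
    eval_finsetSum]
  symm
  refine (Finset.sum_subset (Finset.range_subset_range.2 (by omega)) ?_).trans
    (Finset.sum_congr rfl ?_)
  · intro k _ hk
    rw [iterate_derivative_eq_zero (by simpa [Nat.succ_le_iff] using hk)]
    simp
  · intro k _
    rw [LinearMap.smul_apply, T_pow, eval_smul, eval_smul]
    simp only [smul_eq_mul]
    ring

theorem comp_ineq (g f : ℂ[X]) (hg : ∀ z, g.eval z = 0 → z.im = 0 ∧ z.re ≤ 0) (hf : St f)
    {y : ℂ} (hy : 0 < y.im) (w : ℂ) {z : ℂ} (hz : 0 < z.im) :
    ‖∑ k ∈ Finset.range (f.natDegree + 1), g.coeff k * (derivative^[k] f).eval z * w ^ k‖ ≤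
      (1 + ‖w - y‖ / y.im) ^ f.natDegree *
      ‖∑ k ∈ Finset.range (f.natDegree + 1), g.coeff k * (derivative^[k] f).eval z * y ^ k‖ := by
  have hs := (IsAlgClosed.splits g).eq_prod_roots
  have hg0 : g ≠ 0 := by
    intro h
    have := (hg Complex.I (by simp [h])).1
    simp at this
  have e : ∀ v, aeval (T v) g f = g.leadingCoeff • aeval (T v) (g.roots.map (X - C ·)).prod f := by
    intro v
    conv_lhs => rw [hs]
    rw [map_mul, Module.End.mul_apply, aeval_C, Module.algebraMap_end_apply]
  rcases claim g.roots (fun r hr => hg r (isRoot_of_mem_roots hr)) f (Or.inr hf) with h | h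
  · rw [← eval_aeval, e, h]
    simp only [smul_zero, eval_zero, norm_zero]
    positivity
  · set Q : ℂ[X] := ∑ k ∈ Finset.range (f.natDegree + 1),
      monomial k (g.coeff k * (derivative^[k] f).eval z) with hQ
    have hQe : ∀ v, Q.eval v = ∑ k ∈ Finset.range (f.natDegree + 1),
        g.coeff k * (derivative^[k] f).eval z * v ^ k := by
      intro v
      simp [hQ, eval_finsetSum]
    have hQd : Q.natDegree ≤ f.natDegree := by
      apply natDegree_sum_le_of_forall_le
      intro k hk
      exact (natDegree_monomial_le _).trans (by simpa [Nat.lt_succ_iff] using hk)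
    have hQs : St Q := by
      intro v hv
      rw [hQe, ← eval_aeval, e, eval_smul, smul_eq_mul]
      exact mul_ne_zero (leadingCoeff_ne_zero.2 hg0) (h v hv z hz)
    rw [← hQe, ← hQe]
    exact hQs.norm_le hQd hy w

theorem comp_ineq0 (g f : ℂ[X]) (hg : ∀ z, g.eval z = 0 → z.im = 0 ∧ z.re ≤ 0) (hf : St f)
    {y : ℂ} (hy : 0 < y.im) (w : ℂ) :
    ‖∑ k ∈ Finset.range (f.natDegree + 1), g.coeff k * (k.factorial * f.coeff k) * w ^ k‖ ≤
      (1 + ‖w - y‖ / y.im) ^ f.natDegree *
      ‖∑ k ∈ Finset.range (f.natDegree + 1), g.coeff k * (k.factorial * f.coeff k) * y ^ k‖ := by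
  have hc : ∀ v : ℂ, Tendsto (fun t : ℝ => ‖∑ k ∈ Finset.range (f.natDegree + 1),
      g.coeff k * (derivative^[k] f).eval (t * Complex.I) * v ^ k‖) (𝓝[>] 0)
      (𝓝 ‖∑ k ∈ Finset.range (f.natDegree + 1), g.coeff k * (k.factorial * f.coeff k) * v ^ k‖) := by
    intro v
    have h1 : Continuous (fun t : ℝ => ‖∑ k ∈ Finset.range (f.natDegree + 1),
        g.coeff k * (derivative^[k] f).eval (t * Complex.I) * v ^ k‖) := by
      refine continuous_norm.comp (continuous_finsetSum _ fun k _ => ?_)
      exact (continuous_const.mul ((derivative^[k] f).continuous.comp (by fun_prop))).mul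
        continuous_const
    have h2 := (h1.tendsto 0).mono_left (nhdsWithin_le_nhds (s := Set.Ioi 0))
    convert h2 using 3
    refine Finset.sum_congr rfl fun k _ => ?_
    rw [Complex.ofReal_zero, zero_mul, ← coeff_zero_eq_eval_zero, coeff_iterate_derivative]
    simp [Nat.descFactorial_self]
  refine le_of_tendsto_of_tendsto (hc w) ((hc y).const_mul _) ?_
  filter_upwards [self_mem_nhdsWithin] with t ht
  exact comp_ineq g f hg hf hy w (by simpa using ht)

theorem St_map {p : ℝ[X]} (hp : ∀ z : ℂ, aeval z p = 0 → z.im = 0) :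
    St (p.map (algebraMap ℝ ℂ)) := by
  intro z hz h0
  rw [eval_map_algebraMap] at h0
  exact hz.ne' (hp z h0)

theorem hyp_of_St {p : ℝ[X]} (hp : St (p.map (algebraMap ℝ ℂ))) :
    ∀ z : ℂ, aeval z p = 0 → z.im = 0 := by
  intro z h0
  rcases lt_trichotomy z.im 0 with h | h | h
  · exfalso
    refine hp (starRingEnd ℂ z) (by simpa using h) ?_
    rw [eval_map_algebraMap, aeval_conj, h0, map_zero]
  · exact h
  · exact absurd (by rwa [eval_map_algebraMap]) (hp z h)

/-- A sequence whose exponential generating function is a coefficientwise limit of polynomials with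
real nonpositive zeros is a multiplier sequence. -/
theorem ms_of_approx (γ : ℕ → ℝ) (P : ℕ → ℝ[X])
    (hroots : ∀ n, ∀ z : ℂ, aeval z (P n) = 0 → z.im = 0 ∧ z.re ≤ 0)
    (hlim : ∀ k, Tendsto (fun n => (P n).coeff k) atTop (𝓝 (γ k / k.factorial)))
    (p q : ℝ[X]) (hp : ∀ z : ℂ, aeval z p = 0 → z.im = 0)
    (hq : ∀ k, q.coeff k = γ k * p.coeff k) :
    q = 0 ∨ ∀ z : ℂ, aeval z q = 0 → z.im = 0 := by
  by_cases hq0 : q = 0
  · exact Or.inl hq0
  refine Or.inr (hyp_of_St fun y hy h0 => hq0 ?_)
  set f := p.map (algebraMap ℝ ℂ) with hf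
  have hqd : (q.map (algebraMap ℝ ℂ)).natDegree < f.natDegree + 1 := by
    rw [natDegree_map, hf, natDegree_map, Nat.lt_succ_iff, natDegree_le_iff_coeff_eq_zero]
    intro k hk
    rw [hq, coeff_eq_zero_of_natDegree_lt hk, mul_zero]
  have hc : ∀ v : ℂ, Tendsto (fun n => ‖∑ k ∈ Finset.range (f.natDegree + 1),
      ((P n).map (algebraMap ℝ ℂ)).coeff k * (k.factorial * f.coeff k) * v ^ k‖) atTop
      (𝓝 ‖(q.map (algebraMap ℝ ℂ)).eval v‖) := by
    intro v
    refine Tendsto.norm ?_
    rw [eval_eq_sum_range' hqd]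
    refine tendsto_finsetSum _ fun k _ => ?_
    refine Tendsto.mul_const _ ?_
    have h1 := ((Complex.continuous_ofReal.tendsto _).comp (hlim k)).mul_const
      ((k.factorial : ℂ) * f.coeff k)
    convert h1 using 2
    · simp [coeff_map]
    · have : (k.factorial : ℂ) ≠ 0 := by exact_mod_cast k.factorial_ne_zero
      simp only [hf, coeff_map, hq, Complex.coe_algebraMap]
      push_cast
      field_simp
  have hall : ∀ w : ℂ, (q.map (algebraMap ℝ ℂ)).eval w = 0 := by
    intro w
    have := le_of_tendsto_of_tendsto' (hc w) ((hc y).const_mul _) fun n =>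
      comp_ineq0 ((P n).map (algebraMap ℝ ℂ)) f
        (fun z hz => hroots n z (by rwa [eval_map_algebraMap] at hz)) (St_map hp) hy w
    rw [h0, norm_zero, mul_zero] at this
    exact norm_le_zero_iff.1 this
  have : q.map (algebraMap ℝ ℂ) = 0 := Polynomial.funext (by simpa using hall)
  exact (Polynomial.map_eq_zero_iff (algebraMap ℝ ℂ).injective).1 this

/-- Taylor's formula. -/
theorem tay (p : ℝ[X]) (N : ℕ) (hN : p.natDegree < N) (x t : ℝ) :
    p.eval (t + x) = ∑ k ∈ Finset.range N, (derivative^[k] p).eval x / k.factorial * t ^ k := by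
  rw [← taylor_eval, eval_eq_sum_range' (n := N) (by rwa [natDegree_taylor])]
  refine Finset.sum_congr rfl fun k _ => ?_
  rw [taylor_coeff, ← factorial_smul_hasseDeriv]
  have : (k.factorial : ℝ) ≠ 0 := by exact_mod_cast k.factorial_ne_zero
  rw [LinearMap.smul_apply, eval_smul, nsmul_eq_mul]
  field_simp

/-- Shift of a coefficient sequence. -/
def sh (c : ℕ → ℝ) : ℕ → ℝ
  | 0 => 0
  | k + 1 => c k

theorem sum_sh (c d : ℕ → ℝ) (N : ℕ) (hd : d N = 0) :
    ∑ k ∈ Finset.range N, c k * d (k + 1) = ∑ k ∈ Finset.range N, sh c k * d k := by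
  have h1 := Finset.sum_range_succ' (fun k => sh c k * d k) N
  have h2 := Finset.sum_range_succ (fun k => sh c k * d k) N
  have e0 : sh c 0 = 0 := rfl
  have e1 : ∀ k, sh c (k + 1) = c k := fun k => rfl
  simp only [e0, e1, zero_mul, add_zero, hd, mul_zero] at h1 h2
  rw [← h1, h2]

/-- Newton's first inequality. -/
theorem newton (p : ℝ[X]) (hp : ∀ z : ℂ, aeval z p = 0 → z.im = 0) :
    2 * p.coeff 0 * p.coeff 2 ≤ p.coeff 1 ^ 2 := by
  induction hn : p.natDegree using Nat.strong_induction_on generalizing p with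
  | _ n ih =>
    rcases Nat.eq_zero_or_pos n with h0 | h0
    · rw [coeff_eq_zero_of_natDegree_lt (n := 2) (by omega)]
      simp only [mul_zero]
      positivity
    · have hd : (p.map (algebraMap ℝ ℂ)).degree ≠ 0 := by
        rw [degree_map]
        exact (natDegree_pos_iff_degree_pos.1 (by omega)).ne'
      obtain ⟨z, hz⟩ := IsAlgClosed.exists_root _ hd
      rw [IsRoot.def, eval_map_algebraMap] at hz
      have hz0 := hp z hz
      have hzr : z = algebraMap ℝ ℂ z.re := Complex.ext (by simp) (by simpa using hz0)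
      rw [hzr, aeval_algebraMap_apply_eq_algebraMap_eval] at hz
      have hr : p.IsRoot z.re := (algebraMap ℝ ℂ).injective (by rw [map_zero]; exact hz)
      obtain ⟨s, hs⟩ := dvd_iff_isRoot.2 hr
      have hs0 : s ≠ 0 := by
        rintro rfl
        rw [hs, mul_zero, natDegree_zero] at hn
        omega
      have hsd : s.natDegree < n := by
        rw [← hn, hs, natDegree_mul (X_sub_C_ne_zero _) hs0, natDegree_X_sub_C]
        omega
      have := ih _ hsd s (fun w hw => hp w (by rw [hs, map_mul, hw, mul_zero])) rfl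
      have e0 : p.coeff 0 = -z.re * s.coeff 0 := by
        rw [hs, sub_mul, coeff_sub, coeff_C_mul, coeff_X_mul_zero]; ring
      have e1 : p.coeff 1 = s.coeff 0 - z.re * s.coeff 1 := by
        rw [hs, sub_mul, coeff_sub, coeff_C_mul, coeff_X_mul]
      have e2 : p.coeff 2 = s.coeff 1 - z.re * s.coeff 2 := by
        rw [hs, sub_mul, coeff_sub, coeff_C_mul, coeff_X_mul]
      rw [e0, e1, e2]
      nlinarith [sq_nonneg (s.coeff 0), mul_nonneg (sq_nonneg z.re) (sub_nonneg.2 this)]

/-- A real quadratic with nonnegative discriminant. -/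
theorem quad_real (a b c : ℝ) (h : 4 * a * c ≤ b ^ 2) (hne : a ≠ 0 ∨ b ≠ 0 ∨ c ≠ 0) (z : ℂ)
    (hz : (a : ℂ) * z ^ 2 + b * z + c = 0) : z.im = 0 := by
  have h1 := congrArg Complex.re hz
  have h2 := congrArg Complex.im hz
  simp [pow_two] at h1 h2
  by_contra hy
  have h3 : 2 * a * z.re + b = 0 := by
    have : z.im * (2 * a * z.re + b) = 0 := by linarith
    exact (mul_eq_zero.1 this).resolve_left hy
  have hb : b = -2 * a * z.re := by linarith
  by_cases ha : a = 0
  · subst ha
    have hb0 : b = 0 := by rw [hb]; ring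
    subst hb0
    simp at h1 hne
    exact hne h1
  · have : 0 < a ^ 2 * z.im ^ 2 := by positivity
    subst hb
    have hc : c = a * z.re ^ 2 + a * z.im ^ 2 := by linarith
    subst hc
    nlinarith

end Pool.Agent.H8.HypP
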