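import Mathlib

set_option autoImplicit false
open MeasureTheory Set Filter Topology Metric Real

namespace Pool.Agent.H8.KelA

lemma unif (c : ℂ) : ∃ M : ENNReal, M ≠ ⊤ ∧
    ∀ w : ℂ, ∫⁻ a in ball c 1, ENNReal.ofReal ‖w - a‖⁻¹ ≤ M := by
  have h1 : IntegrableOn (fun x : ℂ => ‖x‖⁻¹) (ball 0 1) := by
    refine integrableOn_ball_of_norm_le_rpow (C := 1) (α := 1) (by simp) (by simp)
      (Eventually.of_forall fun x => ?_) (by fun_prop : Measurable _).aestronglyMeasurable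
    simp [Real.rpow_neg_one]
  set ψ : ℂ → ENNReal := (ball (0 : ℂ) 1).indicator fun x => ENNReal.ofReal ‖x‖⁻¹ with hψ
  have hm : Measurable ψ := Measurable.indicator (by fun_prop) measurableSet_ball
  refine ⟨(∫⁻ x, ψ x) + volume (ball c 1), ENNReal.add_ne_top.mpr ⟨?_, measure_ball_lt_top.ne⟩,
    fun w => ?_⟩
  · rw [hψ, lintegral_indicator measurableSet_ball]
    exact (Integrable.lintegral_lt_top h1).ne
  · have h2 : ∀ a, ENNReal.ofReal ‖w - a‖⁻¹ ≤ ψ (w - a) + 1 := fun a => by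
      by_cases h : w - a ∈ ball (0 : ℂ) 1
      · rw [hψ, indicator_of_mem h]
        exact le_self_add
      · rw [mem_ball_zero_iff, not_lt] at h
        exact (ENNReal.ofReal_le_one.mpr (inv_le_one_of_one_le₀ h)).trans le_add_self
    refine (lintegral_mono h2).trans ?_
    rw [lintegral_add_right _ measurable_const, setLIntegral_const, one_mul,
      ← lintegral_sub_left_eq_self ψ w]
    gcongr
    exact Measure.restrict_le_self

/-- a value `a` with good circles -/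
lemma good {G : ℂ → ℂ} (hG : Differentiable ℂ G) (c : ℂ) : ∃ a ∈ ball c 1, G 0 ≠ a ∧
    (∀ k : ℕ, ∀ z ∈ sphere (0 : ℂ) (2 ^ k), G z ≠ a) ∧
    Tendsto (fun k : ℕ => (∫ θ in (0 : ℝ)..2 * π, ‖G (circleMap 0 (2 ^ k) θ) - a‖⁻¹) / 2 ^ k)
      atTop (𝓝 0) := by
  obtain ⟨M, hM, hw⟩ := unif c
  have hc := hG.continuous
  set φ : ℕ → ℂ → ENNReal := fun k a =>
    ∫⁻ θ in Ioc (0 : ℝ) (2 * π), ENNReal.ofReal ‖G (circleMap 0 (2 ^ k) θ) - a‖⁻¹ with hφ
  have hm : ∀ k : ℕ, Measurable (Function.uncurry fun (a : ℂ) (θ : ℝ) =>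
      ENNReal.ofReal ‖G (circleMap 0 (2 ^ k) θ) - a‖⁻¹) := fun k => by
    have : Continuous fun p : ℂ × ℝ => ‖G (circleMap 0 (2 ^ k) p.2) - p.1‖ := by fun_prop
    exact this.measurable.inv.ennreal_ofReal
  have hφm : ∀ k, Measurable (φ k) := fun k => (hm k).lintegral_prod_right
  have h1 : ∀ k, ∫⁻ a in ball c 1, φ k a ≤ M * volume (Ioc (0 : ℝ) (2 * π)) := fun k => by
    rw [hφ, lintegral_lintegral_swap (hm k).aemeasurable, ← setLIntegral_const]
    exact lintegral_mono fun θ => hw _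
  have h2 : ∫⁻ a in ball c 1, ∑' k : ℕ, 2⁻¹ ^ k * φ k a ≠ ⊤ := by
    rw [lintegral_tsum fun k => ((hφm k).const_mul _).aemeasurable]
    refine ne_top_of_le_ne_top ?_ (ENNReal.tsum_le_tsum fun k =>
      (lintegral_const_mul _ (hφm k)).trans_le (mul_le_mul_right (h1 k) _))
    rw [ENNReal.tsum_mul_right, ENNReal.tsum_geometric]
    exact ENNReal.mul_ne_top (by simp) (ENNReal.mul_ne_top hM measure_Ioc_lt_top.ne)
  have h3 := ae_lt_top (Measurable.tsum fun k => (hφm k).const_mul _) h2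
  have h4 : ∀ᵐ a ∂(volume.restrict (ball c 1)), ∀ k : ℕ, a ∉ G '' sphere 0 (2 ^ k) :=
    ae_restrict_of_ae (ae_all_iff.mpr fun k => measure_eq_zero_iff_ae_notMem.mp
      (addHaar_image_eq_zero_of_differentiableOn_of_addHaar_eq_zero volume
        (hG.restrictScalars ℝ).differentiableOn (Measure.addHaar_sphere _ _ _)))
  have h5 : ∀ᵐ a ∂(volume.restrict (ball c 1)), a ≠ G 0 := ae_restrict_of_ae (by
    simp [ae_iff])
  have : (ae (volume.restrict (ball c 1))).NeBot := ae_neBot.mpr fun h =>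
    (measure_ball_pos volume c one_pos).ne' (Measure.restrict_eq_zero.mp h)
  obtain ⟨a, ⟨⟨a1, a2⟩, a3⟩, a4⟩ :=
    (((h3.and h4).and h5).and (ae_restrict_mem measurableSet_ball)).exists
  refine ⟨a, a4, a3.symm, fun k z hz e => a2 k ⟨z, hz, e⟩, ?_⟩
  have h6 := (ENNReal.tendsto_toReal ENNReal.zero_ne_top).comp
    (ENNReal.tendsto_atTop_zero_of_tsum_ne_top a1.ne)
  refine h6.congr fun k => ?_
  rw [intervalIntegral.integral_of_le (by positivity), integral_eq_lintegral_of_nonneg_ae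
    (f := fun θ : ℝ => ‖G (circleMap 0 (2 ^ k) θ) - a‖⁻¹) (Eventually.of_forall fun θ => by positivity)
    (by fun_prop : Continuous fun θ : ℝ =>
      ‖G (circleMap 0 (2 ^ k) θ) - a‖).measurable.inv.aestronglyMeasurable]
  simp [hφ, div_eq_inv_mul]

lemma remov {g h : ℂ → ℂ} {s : ℂ} (hh : AnalyticAt ℂ h s) (e : g =ᶠ[𝓝[≠] s] h) :
    (fun w => limUnder (𝓝[≠] w) g) =ᶠ[𝓝 s] h := by
  have e' := eventually_nhdsWithin_iff.mp e
  filter_upwards [hh.eventually_analyticAt, e'.eventually_nhds] with w h1 h2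
  refine Tendsto.limUnder_eq ((h1.continuousAt.tendsto.mono_left nhdsWithin_le_nhds).congr' ?_)
  by_cases hw : w = s
  · rw [hw]
    exact e.symm
  · filter_upwards [nhdsWithin_le_nhds h2, nhdsWithin_le_nhds (isOpen_ne.mem_nhds hw)] with v h3 h4
    exact (h3 h4).symm

lemma circ_zero {R : ℝ} {z t : ℂ} (hz : z ∈ ball (0 : ℂ) R) (ht : t ∈ ball (0 : ℂ) R)
    (hne : z ≠ t) : (∮ s in C(0, R), ((s - z) ^ 2)⁻¹ * (s - t)⁻¹) = 0 := by
  have hR : 0 ≤ R := (pos_of_mem_ball hz).le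
  have hi : ∀ w ∈ ball (0 : ℂ) R, ∀ n : ℤ, CircleIntegrable (fun s => (s - w) ^ n) 0 R :=
    fun w hw n => circleIntegrable_sub_zpow_iff.mpr (Or.inr (Or.inr fun h => by
      rw [abs_of_nonneg hR] at h
      exact (mem_ball.mp hw).ne h))
  have h1 : (∮ s in C(0, R), ((s - z) ^ 2)⁻¹ * (s - t)⁻¹) = ∮ s in C(0, R),
      (((t - z) ^ 2)⁻¹ • ((s - t) ^ (-1 : ℤ) - (s - z) ^ (-1 : ℤ)) -
        (t - z)⁻¹ • (s - z) ^ (-2 : ℤ)) := by
    refine circleIntegral.integral_congr hR fun s hs => ?_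
    have a1 : s - z ≠ 0 := sub_ne_zero.mpr fun h => (mem_ball.mp hz).ne (h ▸ hs)
    have a2 : s - t ≠ 0 := sub_ne_zero.mpr fun h => (mem_ball.mp ht).ne (h ▸ hs)
    have a3 : t - z ≠ 0 := sub_ne_zero.mpr hne.symm
    simp only [smul_eq_mul, zpow_neg, zpow_one, zpow_ofNat]
    field_simp
    ring
  have j1 : CircleIntegrable (fun s => ((t - z) ^ 2)⁻¹ • ((s - t) ^ (-1 : ℤ) - (s - z) ^ (-1 : ℤ)))
      0 R := ((hi t ht _).sub (hi z hz _)).const_smul
  have j2 : CircleIntegrable (fun s => (t - z)⁻¹ • (s - z) ^ (-2 : ℤ)) 0 R := (hi z hz _).const_smul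
  rw [h1, circleIntegral.integral_sub j1 j2, circleIntegral.integral_smul, circleIntegral.integral_smul,
    circleIntegral.integral_sub (hi t ht _) (hi z hz _),
    circleIntegral.integral_sub_zpow_of_ne (n := -2) (by norm_num)]
  simp only [zpow_neg, zpow_one, circleIntegral.integral_sub_inv_of_mem_ball ht,
    circleIntegral.integral_sub_inv_of_mem_ball hz]
  simp

lemma rep {G g : ℂ → ℂ} (hG : ∀ z, HasDerivAt G (g z) z) (hg : ∀ z, g z ≠ 0) {a : ℂ} {R : ℝ}
    (hR : 0 < R) (T : Finset ℂ) (hT : ∀ t, t ∈ T ↔ G t = a ∧ ‖t‖ < R)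
    (hs : ∀ z ∈ sphere (0 : ℂ) R, G z ≠ a) {z : ℂ} (hz : 2 * ‖z‖ ≤ R) (hza : G z ≠ a) :
    ‖∑ t ∈ T, (g t)⁻¹ / (z - t) ^ 2 - g z / (G z - a) ^ 2‖ ≤
      (∫ θ in (0 : ℝ)..2 * π, ‖G (circleMap 0 R θ) - a‖⁻¹) / R := by
  have hd : Differentiable ℂ G := fun z => (hG z).differentiableAt
  set g0 : ℂ → ℂ := fun s => (G s - a)⁻¹ - ∑ t ∈ T, (g t)⁻¹ * (s - t)⁻¹ with hg0
  set F : ℂ → ℂ := fun w => limUnder (𝓝[≠] w) g0 with hF
  have hsum : ∀ (S : Finset ℂ) (s : ℂ), s ∉ S →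
      AnalyticAt ℂ (fun s => ∑ t ∈ S, (g t)⁻¹ * (s - t)⁻¹) s := fun S s h =>
    Finset.analyticAt_fun_sum _ fun t ht => analyticAt_const.mul
      ((analyticAt_id.sub analyticAt_const).inv (sub_ne_zero.mpr fun e : s = t => h (e ▸ ht)))
  have A0 : ∀ s, G s ≠ a → AnalyticAt ℂ g0 s := fun s h =>
    (((hd.analyticAt s).sub analyticAt_const).inv (sub_ne_zero.mpr h)).sub
      (hsum T s fun h' => h ((hT s).mp h').1)
  have A1 : ∀ s, G s ≠ a → F =ᶠ[𝓝 s] g0 := fun s h => remov (A0 s h) (EventuallyEq.refl _ _)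
  have A2 : ∀ s ∈ closedBall (0 : ℂ) R, AnalyticAt ℂ F s := fun s h => by
    by_cases hsa : G s = a
    · have hsT : s ∈ T := (hT s).mpr ⟨hsa, lt_of_le_of_ne (mem_closedBall_zero_iff.mp h)
        fun e => hs s (mem_sphere_zero_iff_norm.mpr e) hsa⟩
      have q1 : Differentiable ℂ (dslope G s) := differentiableOn_univ.mp
        ((Complex.differentiableOn_dslope univ_mem).mpr hd.differentiableOn)
      have q2 : Differentiable ℂ (dslope (dslope G s) s) := differentiableOn_univ.mp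
        ((Complex.differentiableOn_dslope univ_mem).mpr q1.differentiableOn)
      have q3 : dslope G s s = g s := by rw [dslope_same, (hG s).deriv]
      have q4 : AnalyticAt ℂ (fun w => -(dslope (dslope G s) s w) * (dslope G s w)⁻¹ * (g s)⁻¹ -
          ∑ t ∈ T.erase s, (g t)⁻¹ * (w - t)⁻¹) s :=
        ((((q2.analyticAt s).neg).mul ((q1.analyticAt s).inv (q3 ▸ hg s))).mul
          analyticAt_const).sub (hsum _ s (Finset.notMem_erase s T))
      refine q4.congr (remov q4 ?_).symm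
      filter_upwards [self_mem_nhdsWithin, nhdsWithin_le_nhds
        (q1.continuous.continuousAt.eventually_ne (q3 ▸ hg s : dslope G s s ≠ 0))] with w h1 h2
      have e1 : G w - a = (w - s) * dslope G s w := by
        rw [← hsa, ← smul_eq_mul, sub_smul_dslope]
      have e2 := sub_smul_dslope (dslope G s) s w
      have h3 : w - s ≠ 0 := sub_ne_zero.mpr h1
      have h4 := hg s
      rw [q3, smul_eq_mul] at e2
      have e3 : dslope (dslope G s) s w = (dslope G s w - g s) / (w - s) := by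
        rw [← e2]
        field_simp
      rw [hg0]
      simp only
      rw [← Finset.add_sum_erase _ _ hsT, e1, e3]
      field_simp
      ring
    · exact (A0 s hsa).congr (A1 s hsa).symm
  have hzb : z ∈ ball (0 : ℂ) R := mem_ball_zero_iff.mpr (by linarith [norm_nonneg z])
  have C1 := Complex.two_pi_I_inv_smul_circleIntegral_sub_sq_inv_smul_of_differentiable
    (isOpen_analyticAt ℂ F) A2 (fun s h => (AnalyticAt.differentiableAt h).differentiableWithinAt) hzb
  have hzT : ∀ t ∈ T, z ≠ t := fun t ht e => hza (e ▸ ((hT t).mp ht).1)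
  have D1 : deriv F z = ∑ t ∈ T, (g t)⁻¹ / (z - t) ^ 2 - g z / (G z - a) ^ 2 := by
    rw [(A1 z hza).deriv_eq]
    have := (((hG z).sub_const a).inv (sub_ne_zero.mpr hza)).sub (HasDerivAt.fun_sum
      fun t ht => (((hasDerivAt_id z).sub_const t).inv (sub_ne_zero.mpr (hzT t ht))).const_mul
        (g t)⁻¹)
    refine this.deriv.trans ?_
    simp only [id, neg_div, mul_neg, Finset.sum_neg_distrib, mul_one_div]
    ring
  have hne : ∀ w ∈ ball (0 : ℂ) R, ∀ s ∈ sphere (0 : ℂ) R, s - w ≠ 0 := fun w hw s h =>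
    sub_ne_zero.mpr fun e => (mem_ball.mp hw).ne (e ▸ h)
  have hTb : ∀ t ∈ T, t ∈ ball (0 : ℂ) R := fun t ht => mem_ball_zero_iff.mpr ((hT t).mp ht).2
  have c1 : ContinuousOn (fun s : ℂ => ((s - z) ^ 2)⁻¹) (sphere 0 R) :=
    ContinuousOn.inv₀ (by fun_prop) fun s h => pow_ne_zero 2 (hne z hzb s h)
  have c2 : ContinuousOn (fun s : ℂ => (G s - a)⁻¹) (sphere 0 R) :=
    ContinuousOn.inv₀ (hd.continuous.sub continuous_const).continuousOn
      fun s h => sub_ne_zero.mpr (hs s h)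
  have i2 : ∀ t ∈ T, CircleIntegrable (fun s => (g t)⁻¹ • (((s - z) ^ 2)⁻¹ * (s - t)⁻¹)) 0 R :=
    fun t ht => ((c1.mul (ContinuousOn.inv₀ (by fun_prop) (hne t (hTb t ht)))).circleIntegrable
      hR.le).const_smul
  have C2 : (∮ s in C(0, R), ((s - z) ^ 2)⁻¹ • F s) =
      ∮ s in C(0, R), ((s - z) ^ 2)⁻¹ * (G s - a)⁻¹ := by
    have : (∮ s in C(0, R), ((s - z) ^ 2)⁻¹ • F s) = ∮ s in C(0, R),
        (((s - z) ^ 2)⁻¹ * (G s - a)⁻¹ - ∑ t ∈ T, (g t)⁻¹ • (((s - z) ^ 2)⁻¹ * (s - t)⁻¹)) := by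
      refine circleIntegral.integral_congr hR.le fun s h => ?_
      simp only [(A1 s (hs s h)).eq_of_nhds, hg0, smul_eq_mul, mul_sub, Finset.mul_sum]
      congr 1
      exact Finset.sum_congr rfl fun t _ => by ring
    have j1 : CircleIntegrable (fun s => ((s - z) ^ 2)⁻¹ * (G s - a)⁻¹) 0 R :=
      (c1.mul c2).circleIntegrable hR.le
    rw [this, circleIntegral.integral_sub j1
      (CircleIntegrable.fun_sum _ i2), circleIntegral.integral_fun_sum i2,
      Finset.sum_eq_zero fun t ht => ?_, sub_zero]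
    rw [circleIntegral.integral_smul, circ_zero hzb (hTb t ht) (hzT t ht), smul_zero]
  rw [← D1, ← C1, C2, norm_smul, circleIntegral]
  have hπ := Real.pi_gt_three
  have c3 : Continuous fun θ : ℝ => ‖G (circleMap 0 R θ) - a‖⁻¹ :=
    Continuous.inv₀ (by have := hd.continuous; fun_prop) fun θ => norm_ne_zero_iff.mpr
      (sub_ne_zero.mpr (hs _ (circleMap_mem_sphere 0 hR.le θ)))
  have B := intervalIntegral.norm_integral_le_of_norm_le (μ := volume) (a := 0) (b := 2 * π)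
    (f := fun θ => deriv (circleMap 0 R) θ •
      (((circleMap 0 R θ - z) ^ 2)⁻¹ * (G (circleMap 0 R θ) - a)⁻¹))
    (g := fun θ => 4 / R * ‖G (circleMap 0 R θ) - a‖⁻¹) (by positivity)
    (Eventually.of_forall fun θ _ => ?_) ((c3.const_mul _).intervalIntegrable _ _)
  · rw [intervalIntegral.integral_const_mul] at B
    have I0 : 0 ≤ ∫ θ in (0 : ℝ)..2 * π, ‖G (circleMap 0 R θ) - a‖⁻¹ :=
      intervalIntegral.integral_nonneg (by positivity) fun θ _ => by positivity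
    have n1 : ‖(2 * π * Complex.I : ℂ)⁻¹‖ ≤ 1 / 4 := by
      simp only [norm_inv, norm_mul, Complex.norm_ofNat, Complex.norm_real, Complex.norm_I,
        Real.norm_eq_abs, abs_of_pos Real.pi_pos, one_div]
      exact inv_anti₀ (by norm_num) (by linarith)
    refine (mul_le_mul n1 B (norm_nonneg _) (by norm_num)).trans (le_of_eq ?_)
    ring
  · rw [norm_smul, norm_mul, norm_inv, norm_inv, norm_pow, ← mul_assoc, deriv_circleMap, norm_mul,
      norm_circleMap_zero, Complex.norm_I, abs_of_pos hR, mul_one]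
    apply mul_le_mul_of_nonneg_right _ (by positivity)
    have h1 := norm_sub_norm_le (circleMap 0 R θ) z
    rw [norm_circleMap_zero, abs_of_pos hR] at h1
    have h2 : (R / 2) ^ 2 ≤ ‖circleMap 0 R θ - z‖ ^ 2 :=
      pow_le_pow_left₀ (by positivity) (by linarith) 2
    refine (mul_le_mul_of_nonneg_left (inv_anti₀ (by positivity) h2) hR.le).trans (le_of_eq ?_)
    field_simp
    norm_num

end Pool.Agent.H8.KelA
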