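import Mathlib

set_option autoImplicit false
open Set Filter Topology Metric Complex

namespace Pool.Agent.H8.KelB

lemma ray {E : ℂ → ℂ} (hE : ∀ w, -w ∈ slitPlane → HasDerivAt E (exp w / w) w) {w : ℂ}
    (hw : -w ∈ slitPlane) {d : ℝ} (hd : 0 < d) (h : ∀ u : ℝ, 0 ≤ u → d ≤ ‖w - u‖) {s : ℝ}
    (hs : 0 ≤ s) : ‖E (w - s) - E w‖ ≤ Real.exp w.re / d := by
  have hm : ∀ u : ℝ, 0 ≤ u → -(w - u) ∈ slitPlane := fun u hu => by
    rcases mem_slitPlane_iff.mp hw with h1 | h1
    · exact mem_slitPlane_iff.mpr (Or.inl (by simp at h1 ⊢; linarith))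
    · exact mem_slitPlane_iff.mpr (Or.inr (by simpa using h1))
  have hD : ∀ u : ℝ, 0 ≤ u → HasDerivAt (fun u : ℝ => E (w - u) - E w)
      (exp (w - u) / (w - u) * -1) u := fun u hu =>
    (((hE _ (hm u hu)).comp (u : ℂ) ((hasDerivAt_id (u : ℂ)).const_sub w)).comp_ofReal).sub_const _
  have := image_norm_le_of_norm_deriv_right_le_deriv_boundary (a := 0) (b := s)
    (f := fun u : ℝ => E (w - u) - E w) (B := fun u => Real.exp w.re / d - Real.exp (w.re - u) / d)
    (B' := fun u => Real.exp (w.re - u) / d)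
    (fun u hu => (hD u hu.1).continuousAt.continuousWithinAt)
    (fun u hu => (hD u hu.1).hasDerivWithinAt) (by simp)
    (fun u => by
      refine ((((hasDerivAt_id u).const_sub w.re).exp.div_const d).const_sub _).congr_deriv ?_
      simp [neg_div])
    (fun u hu => by
      rw [mul_neg, mul_one, norm_neg, norm_div, norm_exp]
      simp only [sub_re, ofReal_re]
      exact div_le_div_of_nonneg_left (Real.exp_pos _).le hd (h u hu.1)) (right_mem_Icc.mpr hs)
  have h2 : 0 < Real.exp (w.re - s) / d := by positivity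
  linarith

lemma bound {E : ℂ → ℂ} (hE : ∀ w, -w ∈ slitPlane → HasDerivAt E (exp w / w) w) {w : ℂ}
    (hw : -w ∈ slitPlane) {d : ℝ} (hd : 0 < d) (h : ∀ u : ℝ, 0 ≤ u → d ≤ ‖w - u‖) :
    ‖E w‖ ≤ ‖E (-1)‖ + 2 + Real.exp w.re / d := by
  set T : ℝ := ‖w + 1‖ + 1 with hT
  have hT0 : 0 < T := by positivity
  have hs : 0 ≤ T + ‖w‖ := by positivity
  have h1 := ray hE hw hd h hs
  have h2 := ray hE (w := -1) (by simp) one_pos (fun u hu => by
    refine le_trans ?_ (abs_re_le_norm _)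
    simp only [sub_re, neg_re, one_re, ofReal_re]
    exact le_abs.mpr (Or.inr (by linarith))) hs
  have h3 := Convex.norm_image_sub_le_of_norm_hasDerivWithin_le (f := E)
    (f' := fun w => exp w / w) (C := 1 / T) (s := {z : ℂ | z.re ≤ -T})
    (x := -1 - (T + ‖w‖ : ℝ)) (y := w - (T + ‖w‖ : ℝ))
    (fun z hz => (hE z (mem_slitPlane_iff.mpr (Or.inl (by
      have : z.re ≤ -T := hz
      simp; linarith)))).hasDerivWithinAt)
    (fun z hz => by
      have h4 : z.re ≤ -T := hz
      rw [norm_div, norm_exp]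
      refine div_le_div₀ zero_le_one (Real.exp_le_one_iff.mpr (by linarith)) hT0 ?_
      exact (le_abs.mpr (Or.inr (by linarith))).trans (abs_re_le_norm z))
    (convex_halfSpace_re_le _)
    (by simp only [mem_ofPred_eq, sub_re, neg_re, one_re, ofReal_re]; linarith [norm_nonneg w])
    (by simp only [mem_ofPred_eq, sub_re, ofReal_re]; linarith [re_le_norm w])
  rw [sub_sub_sub_cancel_right, sub_neg_eq_add] at h3
  have h4 : 1 / T * ‖w + 1‖ ≤ 1 := by
    rw [one_div, inv_mul_le_iff₀ hT0]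
    linarith
  have h5 : Real.exp (-1 : ℂ).re / 1 ≤ 1 := by simp
  have h6 : E w = E (-1) + (E (-1 - (T + ‖w‖ : ℝ)) - E (-1)) +
      (E (w - (T + ‖w‖ : ℝ)) - E (-1 - (T + ‖w‖ : ℝ))) - (E (w - (T + ‖w‖ : ℝ)) - E w) := by ring
  rw [h6]
  refine (norm_sub_le _ _).trans ?_
  have := norm_add₃_le (a := E (-1)) (b := E (-1 - (T + ‖w‖ : ℝ)) - E (-1))
    (c := E (w - (T + ‖w‖ : ℝ)) - E (-1 - (T + ‖w‖ : ℝ)))
  linarith

lemma nw {f f' : ℂ → ℂ} {K : Set ℂ} (hK : Convex ℝ K) (hf : ∀ z ∈ K, HasDerivAt f (f' z) z) {c : ℂ}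
    (hc : ∀ z ∈ K, 0 < (c * f' z).re) : InjOn f K := by
  intro x hx y hy e
  by_contra hne
  have h0 : y - x ≠ 0 := sub_ne_zero.mpr (Ne.symm hne)
  have hm : ∀ u ∈ Icc (0 : ℝ) 1, x + (u : ℂ) * (y - x) ∈ K := fun u hu => by
    simpa using hK.add_smul_sub_mem hx hy hu
  have hD : ∀ u ∈ Icc (0 : ℝ) 1, HasDerivAt (fun u : ℝ => (c * f (x + u * (y - x)) / (y - x)).re)
      (c * f' (x + u * (y - x))).re u := fun u hu => by
    have := ((((hf _ (hm u hu)).comp (u : ℂ) (((hasDerivAt_id (u : ℂ)).mul_const (y - x)).const_add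
      x)).const_mul c).div_const (y - x)).real_of_complex
    rwa [one_mul, ← mul_assoc, mul_div_cancel_right₀ _ h0] at this
  obtain ⟨u, hu, h⟩ := exists_hasDerivAt_eq_slope _ _ zero_lt_one
    (fun u hu => (hD u hu).continuousAt.continuousWithinAt) fun u hu => hD u (Ioo_subset_Icc_self hu)
  have := hc _ (hm u (Ioo_subset_Icc_self hu))
  simp [e] at h
  simp at this
  linarith

lemma inj {E : ℂ → ℂ} (hE : ∀ w ∈ slitPlane, HasDerivAt E (exp w / w) w) (k : ℤ) :
    InjOn E {w | 0 < w.re ∧ k ≤ w.im ∧ w.im ≤ k + 1} := by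
  have hπ := Real.pi_gt_three
  obtain ⟨θ, hθ⟩ : ∃ θ : ℝ, ∀ w : ℂ, 0 < w.re → k ≤ w.im → w.im ≤ k + 1 →
      w.im - arg w - θ ∈ Ioo (-(Real.pi / 2)) (Real.pi / 2) := by
    rcases le_or_gt 0 k with hk | hk
    · refine ⟨k + 1 / 2 - Real.pi / 4, fun w h1 h2 h3 => ?_⟩
      have a1 := abs_lt.mp (abs_arg_lt_pi_div_two_iff.mpr (Or.inl h1))
      have a2 : 0 ≤ arg w := arg_nonneg_iff.mpr (le_trans (by exact_mod_cast hk) h2)
      constructor <;> linarith [a1.2]
    · refine ⟨k + 1 / 2 + Real.pi / 4, fun w h1 h2 h3 => ?_⟩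
      have a1 := abs_lt.mp (abs_arg_lt_pi_div_two_iff.mpr (Or.inl h1))
      have a0 : (k : ℝ) + 1 ≤ 0 := by exact_mod_cast hk
      have a2 : arg w ≤ 0 := by
        rcases (h3.trans a0).eq_or_lt with h4 | h4
        · exact (arg_eq_zero_iff.mpr ⟨h1.le, h4⟩).le
        · exact (arg_neg_iff.mpr h4).le
      constructor <;> linarith [a1.1]
  refine nw (f' := fun w => exp w / w) (c := exp (-(θ * I)))
    ((convex_halfSpace_re_gt 0).inter ((convex_halfSpace_im_ge _).inter (convex_halfSpace_im_le _)))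
    (fun w hw => hE w (mem_slitPlane_iff.mpr (Or.inl hw.1))) fun w hw => ?_
  have h0 : w ≠ 0 := fun h => by simpa [h] using hw.1
  have : exp (-(θ * I)) * (exp w / w) = exp (w - log w - θ * I) := by
    rw [exp_sub, exp_sub, exp_log h0, exp_neg]
    ring
  rw [this, exp_re]
  refine mul_pos (Real.exp_pos _) (Real.cos_pos_of_mem_Ioo ?_)
  simpa [log_im] using hθ w hw.1 hw.2.1 hw.2.2

/-- `(x √x)⁻¹` -/
noncomputable def p (x : ℝ) : ℝ := (x * √x)⁻¹

lemma sumA : Summable fun n : ℕ => p (n + 1) := by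
  refine ((summable_nat_add_iff 1).mpr
    (Real.summable_nat_rpow_inv.mpr (show (1 : ℝ) < 3 / 2 by norm_num))).congr fun n => ?_
  rw [p, Real.sqrt_eq_rpow, ← Real.rpow_one_add' (by positivity) (by norm_num)]
  push_cast
  norm_num

lemma p_anti {x y : ℝ} (hx : 0 < x) (h : x ≤ y) : p y ≤ p x := by
  have := hx.trans_le h
  unfold p
  gcongr

lemma sumB : Summable fun n : ℕ => ((n : ℝ) + 2)⁻¹ * p (Real.log (n + 2)) := by
  have hl : ∀ n : ℕ, 0 < Real.log (n + 2) := fun n =>
    Real.log_pos (by linarith [n.cast_nonneg (α := ℝ)])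
  have hp : ∀ n : ℕ, 0 ≤ p (Real.log (n + 2)) := fun n => by
    have := hl n
    unfold p
    positivity
  refine (summable_condensed_iff_of_nonneg (fun n => mul_nonneg (by positivity) (hp n))
    fun m n _ h => ?_).mp (Summable.of_nonneg_of_le
      (fun j => mul_nonneg (by positivity) (mul_nonneg (by positivity) (hp _))) (fun j => ?_)
      (sumA.mul_left 8))
  · have h' : (m : ℝ) ≤ n := by exact_mod_cast h
    refine mul_le_mul (by gcongr) (p_anti (hl m) (by gcongr)) (hp n) (by positivity)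
  · have h1 : ((j : ℝ) + 1) / 4 ≤ Real.log (((2 ^ j : ℕ) : ℝ) + 2) := by
      have h2 : (2 : ℝ) ^ (j + 1) ≤ (((2 ^ j : ℕ) : ℝ) + 2) ^ 2 := by
        push_cast
        have : (0 : ℝ) < 2 ^ j := by positivity
        rw [pow_succ]
        nlinarith
      have h3 := Real.log_le_log (by positivity) h2
      rw [Real.log_pow, Real.log_pow] at h3
      push_cast at h3 ⊢
      nlinarith [Real.log_two_gt_d9, j.cast_nonneg (α := ℝ)]
    have h2 : p (((j : ℝ) + 1) / 4) = 8 * p (j + 1) := by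
      rw [p, p, Real.sqrt_div (by positivity), show (4 : ℝ) = 2 ^ 2 by norm_num,
        Real.sqrt_sq zero_le_two]
      field_simp
      norm_num
    rw [← h2, ← mul_assoc]
    refine (mul_le_of_le_one_left (hp _) ?_).trans (p_anti (by positivity) h1)
    rw [← div_eq_mul_inv, div_le_one (by positivity)]
    push_cast
    linarith

lemma sumC : Summable fun q : ℤ × ℤ =>
    p (|(q.1 : ℝ)| + 1) * ((|(q.2 : ℝ)| + 2)⁻¹ * p (Real.log (|(q.2 : ℝ)| + 2))) := by
  refine Summable.mul_of_nonneg (f := fun m : ℤ => p (|(m : ℝ)| + 1))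
    (g := fun k : ℤ => (|(k : ℝ)| + 2)⁻¹ * p (Real.log (|(k : ℝ)| + 2)))
    (Summable.of_nat_of_neg (by simpa using sumA) (by simpa using sumA))
    (Summable.of_nat_of_neg (by simpa using sumB) (by simpa using sumB)) (fun m => ?_) fun k => ?_
  · simp only [p, Pi.zero_apply]
    positivity
  · have : 0 < Real.log (|(k : ℝ)| + 2) := Real.log_pos (by linarith [abs_nonneg (k : ℝ)])
    simp only [p, Pi.zero_apply]
    positivity

lemma fl (y : ℝ) : |(⌊y⌋ : ℝ)| ≤ |y| + 1 := by
  have h1 := Int.floor_le y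
  have h2 := Int.lt_floor_add_one y
  rw [abs_le]
  constructor <;> linarith [le_abs_self y, neg_abs_le y]

lemma term {t : ℂ} (h1 : 1 ≤ t.re) (h2 : 0 < (exp t).re)
    (h3 : 1 ≤ |(exp t).im| → (1 + |t.im|) / 4 ≤ Real.exp (exp t).re / |(exp t).im|) :
    ‖(exp (exp t))⁻¹‖ / ‖t‖ ^ 2 ≤ 288 * (p (|(⌊t.im⌋ : ℝ)| + 1) *
      ((|(⌊(exp t).im⌋ : ℝ)| + 2)⁻¹ * p (Real.log (|(⌊(exp t).im⌋ : ℝ)| + 2)))) := by
  have a1 := fl t.im
  have a2 := fl (exp t).im
  have a3 := re_le_norm t
  have a4 := abs_im_le_norm t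
  have a5 := abs_im_le_norm (exp t)
  rw [norm_exp] at a5
  set m := |(⌊t.im⌋ : ℝ)|
  set k := |(⌊(exp t).im⌋ : ℝ)|
  set v := |(exp t).im|
  set y := |t.im|
  set r := ‖t‖
  have m0 : 0 ≤ m := abs_nonneg _
  have k0 : 0 ≤ k := abs_nonneg _
  have y0 : 0 ≤ y := abs_nonneg _
  have r0 : 0 < r := by linarith
  have L0 : 0 < Real.log (k + 2) := Real.log_pos (by linarith)
  have l4 : Real.log 4 ≤ 2 := by
    rw [show (4 : ℝ) = 2 ^ 2 by norm_num, Real.log_pow]
    have := Real.log_two_lt_d9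
    push_cast
    linarith
  have L1 : Real.log (k + 2) ≤ 3 * r := by
    have : 1 ≤ Real.exp t.re := Real.one_le_exp (by linarith)
    have := Real.log_le_log (by linarith) (show k + 2 ≤ 4 * Real.exp t.re by linarith)
    rw [Real.log_mul (by norm_num) (Real.exp_pos _).ne', Real.log_exp] at this
    linarith
  have s1 : √(m + 1) ≤ √(3 * r) := Real.sqrt_le_sqrt (by linarith)
  have s2 : √(Real.log (k + 2)) ≤ √(3 * r) := Real.sqrt_le_sqrt L1
  have s3 : √(3 * r) * √(3 * r) = 3 * r := Real.mul_self_sqrt (by positivity)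
  have e0 := Real.exp_pos (exp t).re
  rw [norm_inv, norm_exp, p, p, ← mul_inv, ← mul_inv, ← div_eq_mul_inv, div_eq_mul_inv, ← mul_inv,
    ← one_div, div_le_div_iff₀ (by positivity) (by positivity), one_mul]
  by_cases hv : 1 ≤ v
  · have b1 := h3 hv
    rw [div_le_div_iff₀ (by norm_num) (by linarith)] at b1
    calc _ ≤ (2 * (1 + y)) * √(3 * r) * ((4 * v) * ((3 * r) * √(3 * r))) := by
          gcongr <;> linarith
      _ = 24 * ((1 + y) * v) * r * (√(3 * r) * √(3 * r)) := by ring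
      _ ≤ 24 * (Real.exp (exp t).re * 4) * r * (3 * r) := by rw [s3]; gcongr
      _ = _ := by ring
  · have b1 : 1 ≤ Real.exp (exp t).re := Real.one_le_exp h2.le
    have b2 : Real.log (k + 2) ≤ 2 := (Real.log_le_log (by linarith) (by linarith)).trans l4
    calc _ ≤ (3 * r) * √(3 * r) * (4 * (2 * √(3 * r))) := by
          gcongr <;> linarith
      _ = 24 * r * (√(3 * r) * √(3 * r)) := by ring
      _ = 72 * (1 * r ^ 2) := by rw [s3]; ring
      _ ≤ _ := by gcongr; norm_num

theorem main : ∃ G : ℂ → ℂ, (∀ z, HasDerivAt G (exp (exp z)) z) ∧ ∃ c : ℂ, ∀ a ∈ ball c 1,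
    Summable fun t : {t // G t = a} => ‖(exp (exp t.1))⁻¹‖ / ‖t.1‖ ^ 2 := by
  obtain ⟨H, hH⟩ := Differentiable.isExactOn_univ (f := dslope exp 0) (differentiableOn_univ.mp
    ((differentiableOn_dslope univ_mem).mpr differentiable_exp.differentiableOn))
  have hH' : ∀ w, w ≠ 0 → HasDerivAt H ((exp w - 1) / w) w := fun w hw => by
    have := hH w (mem_univ _)
    rwa [dslope_of_ne _ hw, slope_def_field, exp_zero, sub_zero] at this
  have hE1 : ∀ w ∈ slitPlane, HasDerivAt (fun w => log w + H w) (exp w / w) w := fun w hw => by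
    refine ((hasDerivAt_log hw).add (hH' w (slitPlane_ne_zero hw))).congr_deriv ?_
    ring
  have hE2 : ∀ w, -w ∈ slitPlane → HasDerivAt (fun w => log (-w) + H w) (exp w / w) w :=
    fun w hw => by
      refine (((hasDerivAt_neg' w).clog hw).add
        (hH' w (neg_ne_zero.mp (slitPlane_ne_zero hw)))).congr_deriv ?_
      ring
  obtain ⟨B, hB⟩ := (isCompact_closedBall (0 : ℂ) 3).exists_bound_of_continuousOn
    fun w _ => (hH w (mem_univ _)).continuousAt.continuousWithinAt
  obtain ⟨C, hC⟩ : ∃ C : ℝ, C = ‖log (-(-1)) + H (-1)‖ + 2 := ⟨_, rfl⟩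
  have C0 : 0 < C := by rw [hC]; positivity
  have B0 : 0 ≤ B := (norm_nonneg _).trans (hB 0 (by simp))
  refine ⟨fun z => z + H (exp z), fun z => ?_, ((2 * C + B + 8 : ℝ) : ℂ), fun a ha => ?_⟩
  · refine ((hasDerivAt_id z).add ((hH' _ (exp_ne_zero z)).comp z (hasDerivAt_exp z))).congr_deriv ?_
    have := exp_ne_zero z
    field_simp
    ring
  have a1 := (abs_re_le_norm _).trans (mem_ball_iff_norm.mp ha).le
  have a2 := (abs_im_le_norm _).trans (mem_ball_iff_norm.mp ha).le
  simp only [sub_re, ofReal_re, sub_im, ofReal_im, sub_zero] at a1 a2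
  have a3 := (abs_le.mp a1).1
  have hπ := Real.pi_gt_three
  have hπ' := Real.pi_le_four
  have P1 : ∀ t, t + H (exp t) = a → 1 ≤ t.re := fun t ht => by
    by_contra h
    have h1 := hB (exp t) (by
      rw [mem_closedBall_zero_iff, norm_exp]
      exact (Real.exp_le_exp.mpr (le_of_not_ge h)).trans (Real.exp_one_lt_d9.le.trans (by norm_num)))
    have h2 := congrArg re ht
    rw [add_re] at h2
    linarith [re_le_norm (H (exp t))]
  have Q : ∀ t, t + H (exp t) = a → (log (-exp t) + H (exp t)).re = a.re ∧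
      (log (-exp t) + H (exp t)).im = arg (-exp t) + a.im - t.im := fun t ht => by
    rw [← ht]
    simp only [add_re, add_im, log_re, log_im, norm_neg, norm_exp, Real.log_exp, true_and]
    ring
  have P2 : ∀ t, t + H (exp t) = a → 0 < (exp t).re := fun t ht => by
    by_contra h
    push Not at h
    have h1 : 1 ≤ ‖exp t‖ := by
      rw [norm_exp]
      exact Real.one_le_exp (by linarith [P1 t ht])
    have h2 := bound hE2 (w := exp t) (by
      rcases h.eq_or_lt with h3 | h3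
      · exact mem_slitPlane_iff.mpr (Or.inr fun h4 => exp_ne_zero t (Complex.ext h3 (by simpa using h4)))
      · exact mem_slitPlane_iff.mpr (Or.inl (by simpa using h3))) one_pos fun u hu => by
        refine h1.trans ((sq_le_sq₀ (norm_nonneg _) (norm_nonneg _)).mp ?_)
        rw [Complex.sq_norm, Complex.sq_norm, normSq_apply, normSq_apply]
        simp only [sub_re, ofReal_re, sub_im, ofReal_im, sub_zero]
        nlinarith
    have h3 := re_le_norm (log (-exp t) + H (exp t))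
    have h4 : Real.exp (exp t).re ≤ 1 := Real.exp_le_one_iff.mpr h
    rw [(Q t ht).1] at h3
    rw [← hC] at h2
    have h5 := h3.trans h2
    linarith
  refine Summable.of_nonneg_of_le (fun t => by positivity)
    (fun t => term (P1 _ t.2) (P2 _ t.2) fun hv => ?_)
    ((sumC.mul_left 288).comp_injective
      (i := fun t : {t // t + H (exp t) = a} => (⌊t.1.im⌋, ⌊(exp t.1).im⌋)) fun t s h => ?_)
  · have h2 := bound hE2 (w := exp t.1) (mem_slitPlane_iff.mpr (Or.inr fun h4 => by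
      rw [neg_im, neg_eq_zero] at h4
      norm_num [h4] at hv)) (lt_of_lt_of_le one_pos hv) fun u hu => by
        simpa using abs_im_le_norm (exp t.1 - u)
    have h3 := re_le_norm (log (-exp t.1) + H (exp t.1))
    have h4 := abs_le.mp (abs_im_le_norm (log (-exp t.1) + H (exp t.1)))
    rw [(Q _ t.2).1] at h3
    rw [(Q _ t.2).2] at h4
    rw [← hC] at h2
    have h5 := abs_le.mp (abs_arg_le_pi (-exp t.1))
    have h6 := abs_le.mp a2
    have h7 : |t.1.im| ≤ ‖log (-exp t.1) + H (exp t.1)‖ + 5 :=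
      abs_le.mpr ⟨by linarith [h4.2, h5.1, h6.1], by linarith [h4.1, h5.2, h6.2]⟩
    have h8 := h3.trans h2
    have h9 := (sub_le_iff_le_add.mpr h7).trans h2
    linarith
  · obtain ⟨h1, h2⟩ := Prod.mk.inj h
    obtain ⟨n, hn⟩ := exp_eq_exp_iff_exists_int.mp (exp_log (exp_ne_zero t.1)).symm
    obtain ⟨l, hl⟩ := exp_eq_exp_iff_exists_int.mp (exp_log (exp_ne_zero s.1)).symm
    have b1 := congrArg im hn
    have b2 := congrArg im hl
    simp only [add_im, log_im, mul_im, mul_re, intCast_re, intCast_im, re_ofNat, im_ofNat, ofReal_re,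
      ofReal_im, I_re, I_im] at b1 b2
    have b3 := abs_lt.mp (abs_arg_lt_pi_div_two_iff.mpr (Or.inl (P2 _ t.2)))
    have b4 := abs_lt.mp (abs_arg_lt_pi_div_two_iff.mpr (Or.inl (P2 _ s.2)))
    have b5 := abs_lt.mp (Int.abs_sub_lt_one_of_floor_eq_floor h1)
    have b6 : n = l := by
      have c1 : ((n - l : ℤ) : ℝ) < 1 := by
        push_cast
        nlinarith [b3.1, b4.2, b5.2]
      have c2 : (-1 : ℝ) < ((n - l : ℤ) : ℝ) := by
        push_cast
        nlinarith [b3.2, b4.1, b5.1]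
      have c3 : n - l < 1 := by exact_mod_cast c1
      have c4 : -1 < n - l := by exact_mod_cast c2
      omega
    have b7 : exp t.1 = exp s.1 := by
      refine inj hE1 ⌊(exp t.1).im⌋ ⟨P2 _ t.2, Int.floor_le _, (Int.lt_floor_add_one _).le⟩
        (h2 ▸ ⟨P2 _ s.2, Int.floor_le _, (Int.lt_floor_add_one _).le⟩) ?_
      have d1 := t.2
      have d2 := s.2
      rw [b6] at hn
      simp only
      linear_combination d1 - d2 - hn + hl
    have d1 := t.2
    have d2 := s.2
    rw [b7] at d1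
    exact Subtype.ext (by linear_combination d1 - d2)

end Pool.Agent.H8.KelB
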