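import Mathlib

namespace Pool.Agent.H8.MI
open Polynomial Finset Real MeasureTheory Filter Topology

/-- sum of squared coefficients -/
noncomputable def N (R : ℤ[X]) : ℤ := ∑ j ∈ R.support, R.coeff j ^ 2

theorem posneg (s : Finset ℕ) (a w : ℕ → ℤ) (hw : ∀ j ∈ s, 0 < w j) (h0 : ∑ j ∈ s, a j * w j = 0)
    (hne : ∃ j ∈ s, a j ≠ 0) : 2 ≤ ∑ j ∈ s, a j ^ 2 := by
  obtain ⟨j, hj, hj0⟩ := hne
  have hp : ∃ i ∈ s, 0 < a i := by
    by_contra hc
    push Not at hc
    have : ∑ j ∈ s, a j * w j < ∑ j ∈ s, (0 : ℤ) :=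
      sum_lt_sum (fun i hi => mul_nonpos_of_nonpos_of_nonneg (hc i hi) (hw i hi).le)
        ⟨j, hj, mul_neg_of_neg_of_pos (lt_of_le_of_ne (hc j hj) hj0) (hw j hj)⟩
    simp at this; omega
  have hn : ∃ i ∈ s, a i < 0 := by
    by_contra hc
    push Not at hc
    have : ∑ j ∈ s, (0 : ℤ) < ∑ j ∈ s, a j * w j :=
      sum_lt_sum (fun i hi => mul_nonneg (hc i hi) (hw i hi).le)
        ⟨j, hj, mul_pos (lt_of_le_of_ne (hc j hj) hj0.symm) (hw j hj)⟩
    simp at this; omega
  obtain ⟨i, hi, hi0⟩ := hp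
  obtain ⟨k, hk, hk0⟩ := hn
  have hik : i ≠ k := by rintro rfl; omega
  have := sum_le_sum_of_subset_of_nonneg (s := {i, k}) (t := s) (f := fun j => a j ^ 2)
    (by intro x hx; simp at hx; rcases hx with rfl | rfl <;> assumption) (fun _ _ _ => sq_nonneg _)
  rw [sum_pair hik] at this
  nlinarith

theorem ev1 (R : ℤ[X]) : R.eval 1 = ∑ j ∈ R.support, R.coeff j := by
  rw [eval_eq_sum, Polynomial.sum]; simp

theorem ev1' (R : ℤ[X]) : R.derivative.eval 1 = ∑ j ∈ R.support, R.coeff j * j := by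
  rw [derivative_eval, Polynomial.sum]; simp

theorem N1 {R : ℤ[X]} (h : R ≠ 0) : 1 ≤ N R := by
  have hm := natDegree_mem_support_of_nonzero h
  have h1 := single_le_sum (f := fun j => R.coeff j ^ 2) (fun _ _ => sq_nonneg _) hm
  have h2 : R.coeff R.natDegree ≠ 0 := mem_support_iff.mp hm
  have : 0 < R.coeff R.natDegree ^ 2 := by positivity
  unfold N; omega

theorem N2 {R : ℤ[X]} (h : R ≠ 0) (h1 : R.eval 1 = 0) : 2 ≤ N R := by
  have hm := natDegree_mem_support_of_nonzero h
  exact posneg _ _ (fun _ => 1) (fun _ _ => one_pos) (by simpa [ev1] using h1)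
    ⟨_, hm, mem_support_iff.mp hm⟩

theorem N4 {R : ℤ[X]} (h : R ≠ 0) (h1 : R.eval 1 = 0) (h2 : R.derivative.eval 1 = 0) : 4 ≤ N R := by
  have hm := natDegree_mem_support_of_nonzero h
  have hd : R.coeff R.natDegree ≠ 0 := mem_support_iff.mp hm
  rw [ev1] at h1
  rw [ev1'] at h2
  have e1 := add_sum_erase R.support (fun j => R.coeff j) hm
  have e2 := add_sum_erase R.support (fun j => R.coeff j * ((R.natDegree : ℤ) - j)) hm
  have e3 := add_sum_erase R.support (fun j => R.coeff j ^ 2) hm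
  have e4 : ∑ j ∈ R.support, R.coeff j * ((R.natDegree : ℤ) - j) = 0 := by
    simp only [mul_sub, sum_sub_distrib, ← sum_mul, h1, h2]; simp
  have p := posneg (R.support.erase R.natDegree) (fun j => R.coeff j) (fun j => (R.natDegree : ℤ) - j)
    (by
      intro j hj
      have a1 := le_natDegree_of_mem_supp j (mem_of_mem_erase hj)
      have a2 := ne_of_mem_erase hj
      omega) (by simp only [sub_self, mul_zero, zero_add] at e2; rw [e2, e4]) (by
      by_contra hc
      push Not at hc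
      rw [sum_eq_zero hc, h1] at e1
      exact hd (by simpa using e1))
  have q : 0 < R.coeff R.natDegree ^ 2 := by positivity
  have ev : Even (N R) := by
    have : N R = ∑ j ∈ R.support, R.coeff j * (R.coeff j - 1) := by
      unfold N
      simp only [mul_sub, sum_sub_distrib, mul_one, h1, sq]; simp
    rw [this]
    exact even_sum _ (fun j _ => Int.even_mul_pred_self _)
  obtain ⟨t, ht⟩ := ev
  unfold N at *
  omega

/-- point of the unit circle -/
noncomputable def E (θ : ℝ) : ℂ := Complex.exp (θ * Complex.I)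

/-- squared modulus on the circle -/
noncomputable def G (R : ℤ[X]) (θ : ℝ) : ℝ := ‖aeval (E θ) R‖ ^ 2

theorem E_cont : Continuous E := by unfold E; fun_prop

theorem G_cont (R : ℤ[X]) : Continuous (G R) :=
  (((Polynomial.continuous_aeval R).comp E_cont).norm).pow 2

theorem parseval (R : ℤ[X]) : ∫ θ in (-π)..π, G R θ = 2 * π * N R := by
  have h := (R.map (Int.castRingHom ℂ)).sum_sq_norm_coeff_eq_circleAverage
  rw [support_map_of_injective _ (RingHom.injective_int _), Real.circleAverage] at h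
  have per : Function.Periodic (G R) (2 * π) := by
    intro θ
    unfold G E
    congr 3
    push_cast
    rw [add_mul, Complex.exp_add, Complex.exp_two_pi_mul_I, mul_one]
  have e := per.intervalIntegral_add_eq (-π) 0
  rw [show -π + 2 * π = π by ring, zero_add] at e
  rw [e]
  have e2 : ∫ θ in (0 : ℝ)..2 * π, G R θ
      = ∫ θ in (0 : ℝ)..2 * π, ‖(R.map (Int.castRingHom ℂ)).eval (circleMap 0 1 θ)‖ ^ 2 := by
    congr 1; ext θ
    unfold G E
    rw [eval_map, aeval_def]
    simp [circleMap]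
  have e3 : (N R : ℝ) = ∑ i ∈ R.support, ‖(R.map (Int.castRingHom ℂ)).coeff i‖ ^ 2 := by
    unfold N; push_cast
    refine sum_congr rfl (fun i _ => ?_)
    simp [sq_abs]
  rw [e2, e3, h, smul_eq_mul]
  field_simp

theorem nsq (x : ℝ) : ‖1 - E x‖ ^ 2 = 2 - 2 * cos x := by
  unfold E
  rw [Complex.sq_norm, Complex.normSq_apply]
  simp [Complex.exp_ofReal_mul_I_re, Complex.exp_ofReal_mul_I_im]
  nlinarith [sin_sq_add_cos_sq x]

theorem G_mul (R : ℤ[X]) (n : ℕ) (θ : ℝ) :
    G ((1 - X ^ n) * R) θ = (2 - 2 * cos (n * θ)) * G R θ := by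
  unfold G
  rw [map_mul, norm_mul, mul_pow, ← nsq]
  congr 3
  simp [E, ← Complex.exp_nat_mul, mul_assoc]

theorem int_cos (n : ℕ) (hn : 1 ≤ n) : ∫ θ in (-π)..π, cos (n * θ) = 0 := by
  have h : (n : ℝ) ≠ 0 := by positivity
  rw [intervalIntegral.integral_comp_mul_left (fun x => cos x) h]
  simp [sin_nat_mul_pi]

/-- signed binomial coefficients -/
noncomputable def a (μ : ℝ) (k : ℕ) : ℝ := Ring.choose μ k * (-1) ^ k

theorem a_succ (μ : ℝ) (k : ℕ) : ((k : ℝ) + 1) * a μ (k + 1) = a μ k * (k - μ) := by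
  have := Ring.choose_smul_choose μ (Nat.le_succ k)
  simp only [Nat.succ_eq_add_one, Nat.choose_succ_self_right, Nat.add_sub_cancel_left,
    Ring.choose_one_right, nsmul_eq_mul] at this
  unfold a
  push_cast at this
  linear_combination ((-1) ^ (k + 1)) * this

theorem a0 (μ : ℝ) : a μ 0 = 1 := by simp [a]

theorem a_neg {μ : ℝ} (h0 : 0 < μ) (h1 : μ ≤ 1) (k : ℕ) : a μ (k + 1) ≤ 0 := by
  induction k with
  | zero => have := a_succ μ 0; rw [a0] at this; simp at this; linarith
  | succ k ih =>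
    have := a_succ μ (k + 1)
    have h2 : (0 : ℝ) ≤ ((k + 1 : ℕ) : ℝ) - μ := by push_cast; linarith [Nat.cast_nonneg (α := ℝ) k]
    have h3 := mul_nonpos_of_nonpos_of_nonneg ih h2
    have h4 : (0 : ℝ) < ((k + 1 : ℕ) : ℝ) + 1 := by positivity
    by_contra hc
    push Not at hc
    have := mul_pos h4 hc
    linarith

theorem a_sum {μ : ℝ} (h0 : 0 < μ) (h1 : μ ≤ 1) (n : ℕ) : 0 ≤ ∑ k ∈ range (n + 1), a μ k := by
  have : μ * ∑ k ∈ range (n + 1), a μ k = -((n : ℝ) + 1) * a μ (n + 1) := by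
    induction n with
    | zero => have := a_succ μ 0; rw [a0] at this; simp [a0] at this ⊢; linarith
    | succ n ih =>
      have := a_succ μ (n + 1)
      rw [sum_range_succ, mul_add, ih]
      push_cast at this ⊢
      linarith
  have h2 := a_neg h0 h1 n
  have h3 : (0 : ℝ) ≤ n := by positivity
  by_contra hc
  push Not at hc
  nlinarith [mul_neg_of_pos_of_neg h0 hc]

theorem a_has (μ u : ℝ) (h0 : 0 ≤ u) (h1 : u < 1) : HasSum (fun k => a μ k * u ^ k) ((1 - u) ^ μ) := by
  have := (Real.one_add_rpow_hasFPowerSeriesOnBall_zero (a := μ)).hasSum (y := -u) (by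
    rw [Metric.mem_eball, edist_zero_right, ← ofReal_norm, norm_neg, Real.norm_of_nonneg h0]
    exact ENNReal.ofReal_lt_one.mpr h1)
  simp only [binomialSeries_apply, zero_add, List.ofFn_const, List.prod_replicate, smul_eq_mul] at this
  have e : (fun k => a μ k * u ^ k) = fun n => Ring.choose μ n * (-u) ^ n := by
    ext k; unfold a; rw [neg_pow u]; ring
  rw [e, sub_eq_add_neg]; exact this

theorem pos_core (g : ℝ → ℝ) (hg : Continuous g) (h0 : 0 ≤ ∫ θ in (-π)..π, g θ)
    (h1 : ∀ n : ℕ, 1 ≤ n → ∫ θ in (-π)..π, cos (n * θ) * g θ ≤ ∫ θ in (-π)..π, g θ)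
    {μ : ℝ} (m0 : 0 < μ) (m1 : μ ≤ 1) :
    0 ≤ ∫ θ in (-π)..π, (1 - (1 + cos θ) / 2) ^ μ * g θ := by
  set A := ∫ θ in (-π)..π, g θ with hA
  have hz : ∀ h : ℤ, ∫ θ in (-π)..π, cos (h * θ) * g θ ≤ A := by
    intro h
    obtain ⟨n, e | e⟩ := Int.eq_nat_or_neg h
    · rcases Nat.eq_zero_or_pos n with z | z
      · rw [e, z]; simp [hA]
      · rw [e]; simpa using h1 _ z
    · rcases Nat.eq_zero_or_pos n with z | z
      · rw [e, z]; simp [hA]
      · rw [e]; simpa using h1 _ z
  have hB : ∀ (k : ℕ) (h : ℤ), ∫ θ in (-π)..π, ((1 + cos θ) / 2) ^ k * cos (h * θ) * g θ ≤ A := by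
    intro k
    induction k with
    | zero => simpa using hz
    | succ k ih =>
      intro h
      have c : ∀ h : ℤ, IntervalIntegrable (fun θ => ((1 + cos θ) / 2) ^ k * cos (h * θ) * g θ)
          volume (-π) π := fun h => Continuous.intervalIntegrable (by fun_prop) _ _
      have e : ∀ θ, ((1 + cos θ) / 2) ^ (k + 1) * cos (h * θ) * g θ
          = (1 / 2) * (((1 + cos θ) / 2) ^ k * cos (h * θ) * g θ)
            + (1 / 4) * (((1 + cos θ) / 2) ^ k * cos ((h + 1 : ℤ) * θ) * g θ)
            + (1 / 4) * (((1 + cos θ) / 2) ^ k * cos ((h - 1 : ℤ) * θ) * g θ) := by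
        intro θ
        push_cast
        rw [add_mul (h : ℝ), sub_mul (h : ℝ), one_mul, cos_add, cos_sub]
        ring
      simp only [e]
      rw [intervalIntegral.integral_add (((c _).const_mul _).add ((c _).const_mul _)) ((c _).const_mul _),
        intervalIntegral.integral_add ((c _).const_mul _) ((c _).const_mul _)]
      simp only [intervalIntegral.integral_const_mul]
      linarith [ih h, ih (h + 1), ih (h - 1)]
  have hS : ∀ n : ℕ, 0 ≤ ∫ θ in (-π)..π, (∑ k ∈ range (n + 1), a μ k * ((1 + cos θ) / 2) ^ k) * g θ := by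
    intro n
    simp only [sum_mul, mul_assoc]
    rw [intervalIntegral.integral_finsetSum (fun k _ => Continuous.intervalIntegrable (by fun_prop) _ _)]
    simp only [intervalIntegral.integral_const_mul]
    refine le_trans (mul_nonneg (a_sum m0 m1 n) h0) ?_
    rw [sum_mul, sum_range_succ', sum_range_succ']
    refine add_le_add (sum_le_sum (fun k _ => ?_)) (by simp [hA])
    refine mul_le_mul_of_nonpos_left ?_ (a_neg m0 m1 k)
    simpa using hB (k + 1) 0
  have lim : Tendsto (fun n : ℕ => ∫ θ in (-π)..π, (∑ k ∈ range (n + 1), a μ k * ((1 + cos θ) / 2) ^ k) * g θ)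
      atTop (𝓝 (∫ θ in (-π)..π, (1 - (1 + cos θ) / 2) ^ μ * g θ)) := by
    refine intervalIntegral.tendsto_integral_filter_of_dominated_convergence (fun θ => ‖g θ‖)
      (Eventually.of_forall fun n => Continuous.aestronglyMeasurable (by fun_prop))
      (Eventually.of_forall fun n => Eventually.of_forall fun θ _ => ?_)
      (Continuous.intervalIntegrable (by fun_prop) _ _) ?_
    · rw [norm_mul]
      refine mul_le_of_le_one_left (norm_nonneg _) ?_
      have u0 : 0 ≤ (1 + cos θ) / 2 := by linarith [neg_one_le_cos θ]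
      have u1 : (1 + cos θ) / 2 ≤ 1 := by linarith [cos_le_one θ]
      have s := a_sum m0 m1 n
      rw [sum_range_succ', a0] at s
      rw [sum_range_succ', a0, Real.norm_eq_abs, abs_le]
      have l1 : ∑ k ∈ range n, a μ (k + 1) ≤ ∑ k ∈ range n, a μ (k + 1) * ((1 + cos θ) / 2) ^ (k + 1) :=
        sum_le_sum (fun k _ => by
          have := pow_le_one₀ u0 u1 (n := k + 1)
          nlinarith [a_neg m0 m1 k])
      have l2 : ∑ k ∈ range n, a μ (k + 1) * ((1 + cos θ) / 2) ^ (k + 1) ≤ 0 :=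
        sum_nonpos (fun k _ => mul_nonpos_of_nonpos_of_nonneg (a_neg m0 m1 k) (by positivity))
      constructor <;> simp <;> linarith
    · have : ∀ᵐ θ : ℝ, θ ≠ 0 := by simp [ae_iff]
      filter_upwards [this] with θ hθ hm
      rw [Set.uIoc_of_le (by linarith [pi_pos])] at hm
      have u0 : 0 ≤ (1 + cos θ) / 2 := by linarith [neg_one_le_cos θ]
      have u1 : (1 + cos θ) / 2 < 1 := by
        have : cos θ ≠ 1 := by
          rw [Ne, cos_eq_one_iff_of_lt_of_lt (by linarith [hm.1, pi_pos]) (by linarith [hm.2, pi_pos])]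
          exact hθ
        have := lt_of_le_of_ne (cos_le_one θ) this
        linarith
      exact (((a_has μ _ u0 u1).tendsto_sum_nat).comp (tendsto_add_atTop_nat 1)).mul_const _
  exact ge_of_tendsto' lim hS

end Pool.Agent.H8.MI
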