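import Mathlib
import Pool.Agent.H8.MI1

namespace Pool.Agent.H8.MI
open Polynomial Finset Real MeasureTheory Filter Topology

/-- the weight -/
noncomputable def W (l θ : ℝ) : ℝ := ‖1 - E θ‖ ^ (2 * l)

theorem W_cont {l : ℝ} (hl : 0 < l) : Continuous (W l) :=
  (Real.continuous_rpow_const (by linarith)).comp ((continuous_const.sub E_cont).norm)

theorem W_eq (l θ : ℝ) : W l θ = 4 ^ l * (1 - (1 + cos θ) / 2) ^ l := by
  unfold W
  rw [Real.rpow_mul (norm_nonneg _), Real.rpow_two, nsq,
    ← Real.mul_rpow (by norm_num) (by linarith [cos_le_one θ])]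
  congr 1; ring

theorem core (R : ℤ[X]) (m : ℝ) (h0 : m ≤ N R) (h1 : ∀ n : ℕ, 1 ≤ n → 2 * m ≤ N ((1 - X ^ n) * R))
    {μ : ℝ} (m0 : 0 < μ) (m1 : μ ≤ 1) :
    m * ∫ θ in (-π)..π, W μ θ ≤ ∫ θ in (-π)..π, W μ θ * G R θ := by
  have gc := G_cont R
  have wc := W_cont m0
  have i0 : ∫ θ in (-π)..π, (G R θ - m) = 2 * π * (N R - m) := by
    rw [intervalIntegral.integral_sub (gc.intervalIntegrable _ _) (by simp), parseval]
    simp; ring
  have p := pos_core (fun θ => G R θ - m) (by fun_prop)
    (by rw [i0]; exact mul_nonneg (by positivity) (by linarith)) (by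
      intro n hn
      have e : ∀ θ, cos (n * θ) * (G R θ - m)
          = (G R θ - m) - ((1 / 2) * G ((1 - X ^ n) * R) θ - m) - m * cos (n * θ) := by
        intro θ; rw [G_mul]; ring
      have g2 := G_cont ((1 - X ^ n) * R)
      simp only [e]
      rw [intervalIntegral.integral_sub (Continuous.intervalIntegrable (by fun_prop) _ _)
          (Continuous.intervalIntegrable (by fun_prop) _ _),
        intervalIntegral.integral_sub (f := fun θ => G R θ - m)
          (Continuous.intervalIntegrable (by fun_prop) _ _)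
          (Continuous.intervalIntegrable (by fun_prop) _ _),
        intervalIntegral.integral_sub (f := fun θ => (1 / 2) * G ((1 - X ^ n) * R) θ)
          (Continuous.intervalIntegrable (by fun_prop) _ _) (by simp),
        intervalIntegral.integral_const_mul, intervalIntegral.integral_const_mul, int_cos n hn, parseval]
      have := mul_le_mul_of_nonneg_left (h1 n hn) pi_pos.le
      simp only [intervalIntegral.integral_const, smul_eq_mul]
      linarith) m0 m1
  have e2 : ∫ θ in (-π)..π, W μ θ * G R θ - m * W μ θ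
      = 4 ^ μ * ∫ θ in (-π)..π, (1 - (1 + cos θ) / 2) ^ μ * (G R θ - m) := by
    rw [← intervalIntegral.integral_const_mul]
    congr 1; ext θ; rw [W_eq]; ring
  rw [intervalIntegral.integral_sub (Continuous.intervalIntegrable (by fun_prop) _ _)
    (Continuous.intervalIntegrable (by fun_prop) _ _), intervalIntegral.integral_const_mul] at e2
  have := mul_nonneg (Real.rpow_nonneg (show (0 : ℝ) ≤ 4 by norm_num) μ) p
  linarith

theorem ne0 {n : ℕ} (hn : 1 ≤ n) : (1 - X ^ n : ℤ[X]) ≠ 0 := by
  intro h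
  have := congrArg (eval 0) h
  simp [show n ≠ 0 by omega] at this

theorem low1 (P : ℤ[X]) (hP : P ≠ 0) {μ : ℝ} (m0 : 0 < μ) (m1 : μ ≤ 1) :
    ∫ θ in (-π)..π, W μ θ ≤ ∫ θ in (-π)..π, W μ θ * G P θ := by
  have := core P 1 (by exact_mod_cast N1 hP) (fun n hn => by
    have := N2 (mul_ne_zero (ne0 hn) hP) (by simp)
    exact_mod_cast this) m0 m1
  simpa using this

theorem shift (P : ℤ[X]) {μ : ℝ} (m0 : 0 < μ) (θ : ℝ) :
    W (μ + 1) θ * G P θ = W μ θ * G ((1 - X ^ 1) * P) θ := by
  rw [G_mul]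
  unfold W
  rw [mul_add, Real.rpow_add' (norm_nonneg _) (by linarith), mul_one, Real.rpow_two, nsq]
  simp; ring

theorem low2 (P : ℤ[X]) (hP : P ≠ 0) {μ : ℝ} (m0 : 0 < μ) (m1 : μ ≤ 1) :
    2 * ∫ θ in (-π)..π, W μ θ ≤ ∫ θ in (-π)..π, W (μ + 1) θ * G P θ := by
  simp only [shift P m0]
  have hQ := mul_ne_zero (ne0 le_rfl) hP
  exact core _ 2 (by exact_mod_cast N2 hQ (by simp)) (fun n hn => by
    have := N4 (mul_ne_zero (ne0 hn) hQ) (by simp) (by simp [derivative_mul])
    exact_mod_cast this) m0 m1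

theorem RL (f : ℝ → ℝ) (hf : Continuous f) :
    Tendsto (fun n : ℕ => ∫ θ in (-π)..π, f θ * cos (n * θ)) atTop (𝓝 0) := by
  have h := Real.tendsto_integral_exp_smul_cocompact
    (Set.indicator (Set.Ioc (-π) π) (fun v => (f v : ℂ)))
  have t : Tendsto (fun n : ℕ => (n : ℝ) / (2 * π)) atTop (cocompact ℝ) :=
    (tendsto_natCast_atTop_atTop.atTop_div_const (by positivity)).mono_right atTop_le_cocompact
  have h2 := (Complex.continuous_re.tendsto 0).comp (h.comp t)
  refine h2.congr (fun n => ?_)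
  simp only [Function.comp]
  have e : (fun v : ℝ => Real.fourierChar (-(v * ((n : ℝ) / (2 * π)))) •
      Set.indicator (Set.Ioc (-π) π) (fun v => (f v : ℂ)) v)
      = Set.indicator (Set.Ioc (-π) π) (fun v => Complex.exp (((-(n * v) : ℝ) : ℂ) * Complex.I) * (f v : ℂ)) := by
    ext v
    by_cases hv : v ∈ Set.Ioc (-π) π
    · rw [Set.indicator_of_mem hv, Set.indicator_of_mem hv, Circle.smul_def, Real.fourierChar_apply,
        smul_eq_mul]
      congr 4
      field_simp
    · rw [Set.indicator_of_notMem hv, Set.indicator_of_notMem hv, smul_zero]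
  rw [e, integral_indicator measurableSet_Ioc, ← intervalIntegral.integral_of_le (by linarith [pi_pos])]
  have := Complex.reCLM.intervalIntegral_comp_comm (μ := volume) (a := -π) (b := π)
    (f := fun v => Complex.exp (((-(n * v) : ℝ) : ℂ) * Complex.I) * (f v : ℂ))
    (Continuous.intervalIntegrable (by fun_prop) _ _)
  rw [Complex.reCLM_apply] at this
  rw [← this]
  congr 1; ext v
  rw [Complex.reCLM_apply, Complex.re_mul_ofReal, Complex.exp_ofReal_mul_I_re, cos_neg, mul_comm]

theorem up2 {μ : ℝ} (m0 : 0 < μ) :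
    Tendsto (fun n : ℕ => ∫ θ in (-π)..π, W (μ + 1) θ * G (∑ i ∈ range (n + 1), X ^ i) θ) atTop
      (𝓝 (2 * ∫ θ in (-π)..π, W μ θ)) := by
  have wc := W_cont m0
  have h := ((RL _ wc).comp (tendsto_add_atTop_nat 1)).const_mul 2
  have h2 := (tendsto_const_nhds (x := 2 * ∫ θ in (-π)..π, W μ θ)).sub h
  rw [mul_zero, sub_zero] at h2
  refine h2.congr (fun n => ?_)
  simp only [shift _ m0, Function.comp]
  have e : (1 - X ^ 1 : ℤ[X]) * ∑ i ∈ range (n + 1), X ^ i = (1 - X ^ (n + 1)) * 1 := by
    rw [pow_one, mul_neg_geom_sum, mul_one]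
  rw [e, ← intervalIntegral.integral_const_mul, ← intervalIntegral.integral_const_mul,
    ← intervalIntegral.integral_sub (Continuous.intervalIntegrable (by fun_prop) _ _)
      (Continuous.intervalIntegrable (by fun_prop) _ _)]
  congr 1; ext θ
  rw [G_mul]
  simp [G]; ring

end Pool.Agent.H8.MI
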