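import Mathlib

set_option autoImplicit false

namespace Pool.Agent.H8.MonoTree

open Finset Classical

def child {N : ℕ} (S T : Finset (Fin N)) : Prop :=
  ∃ m : Fin N, m ∉ S ∧ (∀ a ∈ S, a < m) ∧ T = insert m S

noncomputable def top {n : ℕ} (T : Finset (Fin (n + 2))) : Fin (n + 2) := T.sup id

lemma le_top' {n : ℕ} {T : Finset (Fin (n + 2))} {a : Fin (n + 2)} (h : a ∈ T) : a ≤ top T :=
  le_sup (f := id) h

lemma top_mem {n : ℕ} {T : Finset (Fin (n + 2))} (h : (0 : Fin (n + 2)) ∈ T) : top T ∈ T := by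
  obtain ⟨i, hi, e⟩ := exists_mem_eq_sup T ⟨0, h⟩ id
  unfold top
  rw [e]; exact hi

lemma child_top {n : ℕ} {S T : Finset (Fin (n + 2))} (h : child S T) :
    top T ∉ S ∧ (∀ a ∈ S, a < top T) ∧ T = insert (top T) S := by
  obtain ⟨m, h1, h2, rfl⟩ := h
  have : top (insert m S) = m := by
    apply le_antisymm
    · apply Finset.sup_le
      intro b hb
      rcases mem_insert.mp hb with rfl | hb
      · exact le_rfl
      · exact (h2 b hb).le
    · exact le_top' (mem_insert_self _ _)
  rw [this]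
  exact ⟨h1, h2, rfl⟩

theorem quad_le {n : ℕ} (A : Fin (n + 2) → Fin (n + 2) → Prop) (w : Fin (n + 2) → ℝ) (lam : ℝ)
    (hw : ∀ m, 0 < w m)
    (h0 : ∑ m ∈ univ.filter (fun m => 0 < m ∧ A 0 m), w m ≤ lam)
    (h1 : ∀ a, a ≠ 0 → ∑ m ∈ univ.filter (fun m => a < m ∧ A a m), w m + 1 / w a ≤ lam)
    (P : Finset (Finset (Fin (n + 2))))
    (hP : ∀ S ∈ P, (0 : Fin (n + 2)) ∈ S ∧
      ∀ a ∈ S, ∀ b ∈ S, a < b → (∀ c ∈ S, ¬ (a < c ∧ c < b)) → A a b)
    (x : Finset (Fin (n + 2)) → ℝ) (hx : ∑ S ∈ P, x S ^ 2 = 1) :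
    ∑ S ∈ P, ∑ T ∈ P, (if child S T ∨ child T S then x S * x T else 0) ≤ lam := by
  let g : Finset (Fin (n + 2)) → Finset (Fin (n + 2)) → ℝ := fun S T =>
    if child S T then (w (top T) * x S ^ 2 + x T ^ 2 / w (top T)) / 2 else 0
  have g0 : ∀ S T, 0 ≤ g S T := by
    intro S T
    simp only [g]
    split_ifs
    · have := hw (top T); positivity
    · exact le_rfl
  have g1 : ∀ S T, child S T → x S * x T ≤ g S T := by
    intro S T h
    simp only [g, if_pos h]
    have hp := hw (top T)
    have : 0 ≤ (w (top T) * x S - x T) ^ 2 / w (top T) := by positivity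
    have e : (w (top T) * x S - x T) ^ 2 / w (top T) =
      w (top T) * x S ^ 2 + x T ^ 2 / w (top T) - 2 * (x S * x T) := by field_simp; ring
    linarith
  have s1 : ∑ S ∈ P, ∑ T ∈ P, (if child S T ∨ child T S then x S * x T else 0) ≤
      ∑ S ∈ P, ∑ T ∈ P, (g S T + g T S) := by
    apply sum_le_sum; intro S _
    apply sum_le_sum; intro T _
    split_ifs with h
    · rcases h with h | h
      · linarith [g1 S T h, g0 T S]
      · linarith [g1 T S h, g0 S T, mul_comm (x S) (x T)]
    · linarith [g0 S T, g0 T S]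
  have s2 : ∑ S ∈ P, ∑ T ∈ P, (g S T + g T S) =
      ∑ S ∈ P, ∑ T ∈ P, (if child S T then w (top T) else 0) * x S ^ 2 +
      ∑ S ∈ P, ∑ T ∈ P, (if child T S then 1 / w (top S) else 0) * x S ^ 2 := by
    simp only [sum_add_distrib]
    rw [sum_comm (f := fun S T => g T S),
      sum_comm (f := fun S T => (if child T S then 1 / w (top S) else 0) * x S ^ 2)]
    simp only [← sum_add_distrib]
    apply sum_congr rfl; intro S _
    apply sum_congr rfl; intro T _
    simp only [g]
    split_ifs <;> ring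
  have A1 : ∀ S ∈ P, ∑ T ∈ P, (if child S T then w (top T) else 0) ≤
      ∑ m ∈ univ.filter (fun m => top S < m ∧ A (top S) m), w m := by
    intro S hS
    rw [← sum_filter]
    have hinj : Set.InjOn (top (n := n)) (↑(P.filter (fun T => child S T)) : Set (Finset (Fin (n + 2)))) := by
      intro T hT T' hT' e
      have a := (child_top (mem_filter.mp hT).2).2.2
      have b := (child_top (mem_filter.mp hT').2).2.2
      rw [a, b, e]
    rw [← sum_image (f := w) hinj]
    apply sum_le_sum_of_subset_of_nonneg _ (fun m _ _ => (hw m).le)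
    intro m hm
    obtain ⟨T, hT, rfl⟩ := mem_image.mp hm
    obtain ⟨hTP, hc⟩ := mem_filter.mp hT
    obtain ⟨c1, c2, c3⟩ := child_top hc
    have ht := top_mem (hP S hS).1
    refine mem_filter.mpr ⟨mem_univ _, c2 _ ht, ?_⟩
    apply (hP T hTP).2 _ (by rw [c3]; exact mem_insert_of_mem ht) _ (top_mem (hP T hTP).1) (c2 _ ht)
    rintro c hc ⟨d1, d2⟩
    rw [c3] at hc
    rcases mem_insert.mp hc with rfl | hc
    · exact lt_irrefl _ d2
    · exact absurd d1 (not_lt.mpr (le_top' hc))
  have A2 : ∀ S ∈ P, ∑ T ∈ P, (if child T S then 1 / w (top S) else 0) ≤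
      if top S = 0 then 0 else 1 / w (top S) := by
    intro S hS
    rw [← sum_filter, sum_const, nsmul_eq_mul]
    have hp : 0 < 1 / w (top S) := by have := hw (top S); positivity
    split_ifs with h
    · have : P.filter (fun T => child T S) = ∅ := by
        rw [filter_eq_empty_iff]
        intro T hT hc
        have := (child_top hc).2.1 0 (hP T hT).1
        rw [h] at this
        exact lt_irrefl _ this
      simp [this]
    · have : (P.filter (fun T => child T S)).card ≤ 1 := by
        rw [card_le_one]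
        intro T hT T' hT'
        obtain ⟨a1, -, a3⟩ := child_top (mem_filter.mp hT).2
        obtain ⟨b1, -, b3⟩ := child_top (mem_filter.mp hT').2
        rw [← erase_insert a1, ← erase_insert b1, ← a3, ← b3]
      have h' : ((P.filter (fun T => child T S)).card : ℝ) ≤ 1 := by exact_mod_cast this
      nlinarith
  refine s1.trans ?_
  rw [s2, ← sum_add_distrib]
  calc _ ≤ ∑ S ∈ P, lam * x S ^ 2 := by
        apply sum_le_sum
        intro S hS
        rw [← sum_mul, ← sum_mul, ← add_mul]
        apply mul_le_mul_of_nonneg_right _ (sq_nonneg _)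
        have a := A1 S hS
        have b := A2 S hS
        split_ifs at b with h
        · rw [h] at a; linarith
        · linarith [h1 _ h]
    _ = lam := by rw [← mul_sum, hx, mul_one]

theorem quad_pos {n : ℕ} (P : Finset (Finset (Fin (n + 2))))
    (h0 : ({0} : Finset (Fin (n + 2))) ∈ P) (h1 : ({1, 0} : Finset (Fin (n + 2))) ∈ P) :
    ∃ x : Finset (Fin (n + 2)) → ℝ, ∑ S ∈ P, x S ^ 2 = 1 ∧
      0 < ∑ S ∈ P, ∑ T ∈ P, (if child S T ∨ child T S then x S * x T else 0) := by
  have hne : ({0} : Finset (Fin (n + 2))) ≠ {1, 0} := by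
    intro h
    have : (1 : Fin (n + 2)) ∈ ({0} : Finset (Fin (n + 2))) := h ▸ mem_insert_self _ _
    simp at this
  let x : Finset (Fin (n + 2)) → ℝ := fun S =>
    if S = {0} then 3 / 5 else if S = {1, 0} then 4 / 5 else 0
  have x0 : ∀ S, 0 ≤ x S := by
    intro S; simp only [x]; split_ifs <;> norm_num
  have xa : x {0} = 3 / 5 := by simp only [x, if_true]
  have xb : x {1, 0} = 4 / 5 := by simp only [x, if_neg hne.symm, if_true]
  refine ⟨x, ?_, ?_⟩
  · rw [← sum_subset (s₁ := {{0}, {1, 0}})]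
    · rw [sum_pair hne, xa, xb]; norm_num
    · intro S hS
      rcases mem_insert.mp hS with rfl | hS
      · exact h0
      · rw [mem_singleton.mp hS]; exact h1
    · intro S _ hS
      simp only [mem_insert, mem_singleton, not_or] at hS
      simp only [x, if_neg hS.1, if_neg hS.2]
      norm_num
  · have t0 : ∀ S T, 0 ≤ (if child S T ∨ child T S then x S * x T else 0) := by
      intro S T
      split_ifs
      · exact mul_nonneg (x0 _) (x0 _)
      · exact le_rfl
    apply sum_pos' (fun S _ => sum_nonneg (fun T _ => t0 S T))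
    refine ⟨{0}, h0, sum_pos' (fun T _ => t0 _ T) ⟨{1, 0}, h1, ?_⟩⟩
    rw [if_pos (Or.inl ⟨1, by simp, by simp, rfl⟩), xa, xb]
    norm_num

theorem earlier {n : ℕ} (H : SimpleGraph (Fin (n + 2))) (f : Equiv.Perm (Fin (n + 2)))
    (hc : ∀ k : Fin (n + 2), (H.induce {v | f.symm v ≤ k}).Connected) (v : Fin (n + 2))
    (hv : f.symm v ≠ 0) : ∃ u, H.Adj v u ∧ f.symm u < f.symm v := by
  obtain ⟨p⟩ := (hc (f.symm v)).preconnected ⟨v, le_refl (f.symm v)⟩
    ⟨f 0, by simp⟩
  cases p with
  | nil => simp at hv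
  | cons h q =>
    rename_i u
    refine ⟨u.1, h, lt_of_le_of_ne u.2 ?_⟩
    intro e
    exact h.ne (Subtype.ext (f.symm.injective e).symm)

end Pool.Agent.H8.MonoTree
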