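import Mathlib

set_option autoImplicit false

namespace Pool.Agent.H8.Nine

open Finset

def F : Finset (Fin 7 × Fin 7 × Fin 7) :=
  {(0, 1, 5), (0, 2, 3), (0, 2, 6), (0, 4, 5), (0, 4, 6), (1, 2, 4), (1, 2, 6), (1, 3, 4),
   (1, 5, 6), (2, 3, 5), (2, 4, 5), (3, 4, 6), (3, 5, 6)}

lemma Flt : ∀ q ∈ F, q.1 < q.2.1 ∧ q.2.1 < q.2.2 := by decide +kernel

set_option synthInstance.maxSize 4000 in
lemma small : ∀ a ≤ 9, ∀ b ≤ 9 - a, ∀ c ≤ 9 - a - b, ∀ d ≤ 9 - a - b - c, ∀ e ≤ 9 - a - b - c - d,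
    ∀ f ≤ 9 - a - b - c - d - e, ∀ g ≤ 9 - a - b - c - d - e - f,
    a * b * f + a * c * d + a * c * g + a * e * f + a * e * g + b * c * e + b * c * g + b * d * e +
      b * f * g + c * d * f + c * e * f + d * e * g + d * f * g ≤ 27 := by
  decide +kernel

lemma wt (w : Fin 7 → ℕ) (h : ∑ i, w i = 9) : ∑ q ∈ F, w q.1 * w q.2.1 * w q.2.2 ≤ 27 := by
  rw [Fin.sum_univ_seven] at h
  have := small (w 0) (by omega) (w 1) (by omega) (w 2) (by omega) (w 3) (by omega) (w 4)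
    (by omega) (w 5) (by omega) (w 6) (by omega)
  unfold F
  repeat rw [sum_insert (by decide)]
  rw [sum_singleton]
  simp only
  omega

variable {V : Type} [Fintype V] [DecidableEq V]

def T (c : V → Fin 7) (S : Finset V) : Finset (V × V × V) :=
  (S ×ˢ S ×ˢ S).filter (fun p => (c p.1, c p.2.1, c p.2.2) ∈ F)

omit [Fintype V] [DecidableEq V] in
lemma cardT (c : V → Fin 7) (S : Finset V) : (T c S).card =
    ∑ q ∈ F, (S.filter (fun v => c v = q.1)).card * (S.filter (fun v => c v = q.2.1)).card *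
      (S.filter (fun v => c v = q.2.2)).card := by
  rw [card_eq_sum_card_fiberwise (f := fun p : V × V × V => (c p.1, c p.2.1, c p.2.2))
    (s := T c S) (t := F) (fun p hp => (mem_filter.mp (mem_coe.mp hp)).2)]
  apply sum_congr rfl
  intro q hq
  rw [mul_assoc, ← card_product, ← card_product]
  congr 1
  ext p
  simp only [T, mem_filter, mem_product]
  constructor
  · rintro ⟨⟨⟨h1, h2, h3⟩, -⟩, rfl⟩
    exact ⟨⟨h1, rfl⟩, ⟨h2, rfl⟩, h3, rfl⟩
  · rintro ⟨⟨h1, e1⟩, ⟨h2, e2⟩, h3, e3⟩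
    have : (c p.1, c p.2.1, c p.2.2) = q := by rw [e1, e2, e3]
    exact ⟨⟨⟨h1, h2, h3⟩, by rw [this]; exact hq⟩, this⟩

def H (c : V → Fin 7) : Finset (Finset V) :=
  (T c univ).image (fun p => {p.1, p.2.1, p.2.2})

lemma unif (c : V → Fin 7) : ∀ e ∈ H c, e.card = 3 := by
  intro e he
  obtain ⟨p, hp, rfl⟩ := mem_image.mp he
  obtain ⟨h1, h2⟩ := Flt _ (mem_filter.mp hp).2
  simp only at h1 h2
  exact card_eq_three.mpr ⟨_, _, _, fun e => h1.ne (by rw [e]),
    fun e => (h1.trans h2).ne (by rw [e]), fun e => h2.ne (by rw [e]), rfl⟩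

lemma cardH (c : V → Fin 7) : (H c).card = (T c univ).card := by
  apply card_image_of_injOn
  rintro ⟨x, y, z⟩ hp ⟨x', y', z'⟩ hq e
  obtain ⟨h1, h2⟩ := Flt _ (mem_filter.mp hp).2
  obtain ⟨h3, h4⟩ := Flt _ (mem_filter.mp hq).2
  simp only at h1 h2 h3 h4 e
  have a1 : x ∈ ({x', y', z'} : Finset V) := e ▸ by simp
  have a2 : y ∈ ({x', y', z'} : Finset V) := e ▸ by simp
  have a3 : z ∈ ({x', y', z'} : Finset V) := e ▸ by simp
  simp only [mem_insert, mem_singleton] at a1 a2 a3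
  rcases a1 with rfl | rfl | rfl <;> rcases a2 with rfl | rfl | rfl <;>
    rcases a3 with rfl | rfl | rfl <;> first | rfl | (exfalso; omega)

lemma sparse (c : V → Fin 7) (S : Finset V) (hS : S.card = 9) :
    ((H c).filter (fun e => e ⊆ S)).card ≤ 27 := by
  have h1 : (H c).filter (fun e => e ⊆ S) ⊆ (T c S).image (fun p => {p.1, p.2.1, p.2.2}) := by
    intro e he
    obtain ⟨he1, he2⟩ := mem_filter.mp he
    obtain ⟨p, hp, rfl⟩ := mem_image.mp he1
    refine mem_image.mpr ⟨p, mem_filter.mpr ⟨?_, (mem_filter.mp hp).2⟩, rfl⟩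
    simp only [mem_product]
    exact ⟨he2 (by simp), he2 (by simp), he2 (by simp)⟩
  refine (card_le_card h1).trans (card_image_le.trans ?_)
  rw [cardT]
  apply wt (fun i => (S.filter (fun v => c v = i)).card)
  rw [← hS, card_eq_sum_card_fiberwise (f := c) (t := univ) (fun _ _ => mem_univ _)]

end Pool.Agent.H8.Nine
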