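import Mathlib

namespace Pool.Agent.H8.Novikov

open MeasureTheory Filter Topology Set Function

variable {X : Type*} [TopologicalSpace X] [T2Space X] [MeasurableSpace X] [OpensMeasurableSpace X]

/-- The piece of the `N`-th set determined by the first `t` entries of `w`. -/
def piece (f : ℕ → (ℕ → ℕ) → X) (w : ℕ → ℕ) (t N : ℕ) : Set X :=
  f N '' {z | ∀ k, Nat.pair N k < t → z k = w (Nat.pair N k)}

/-- The pieces can be enlarged to measurable sets with empty intersection. -/
def Sep (f : ℕ → (ℕ → ℕ) → X) (w : ℕ → ℕ) (t : ℕ) : Prop :=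
  ∃ D : ℕ → Set X, (∀ N, MeasurableSet (D N)) ∧ (∀ N, piece f w t N ⊆ D N) ∧ ⋂ N, D N = ∅

omit [TopologicalSpace X] [T2Space X] [OpensMeasurableSpace X] in
lemma step (f : ℕ → (ℕ → ℕ) → X) (w : ℕ → ℕ) (t : ℕ) (h : ¬ Sep f w t) :
    ∃ j, ¬ Sep f (update w t j) (t + 1) := by
  by_contra hc
  push Not at hc
  choose D hD1 hD2 hD3 using hc
  apply h
  refine ⟨fun N => if N = (Nat.unpair t).1 then ⋃ j, D j N else ⋂ j, D j N, ?_, ?_, ?_⟩
  · intro N
    dsimp only
    split_ifs
    · exact MeasurableSet.iUnion fun j => hD1 j N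
    · exact MeasurableSet.iInter fun j => hD1 j N
  · intro N
    rintro _ ⟨z, hz, rfl⟩
    dsimp only
    split_ifs with hN
    · refine mem_iUnion.2 ⟨z (Nat.unpair t).2, hD2 _ N ⟨z, fun k hk => ?_, rfl⟩⟩
      by_cases h1 : Nat.pair N k = t
      · rw [h1, update_self, ← h1, Nat.unpair_pair]
      · rw [update_of_ne h1]
        exact hz k (by omega)
    · refine mem_iInter.2 fun j => hD2 j N ⟨z, fun k hk => ?_, rfl⟩
      have h1 : Nat.pair N k ≠ t := by
        intro h2
        apply hN
        rw [← h2, Nat.unpair_pair]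
      rw [update_of_ne h1]
      exact hz k (by omega)
  · rw [eq_empty_iff_forall_notMem]
    intro x hx
    rw [mem_iInter] at hx
    have h1 := hx (Nat.unpair t).1
    rw [if_pos rfl, mem_iUnion] at h1
    obtain ⟨j, hj⟩ := h1
    have : x ∈ ⋂ N, D j N := by
      refine mem_iInter.2 fun N => ?_
      by_cases hN : N = (Nat.unpair t).1
      · rw [hN]; exact hj
      · have h2 := hx N
        rw [if_neg hN] at h2
        exact mem_iInter.1 h2 j
    rw [hD3 j] at this
    exact this

omit [T2Space X] [MeasurableSpace X] [OpensMeasurableSpace X] in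
lemma small (f : ℕ → (ℕ → ℕ) → X) (hf : ∀ N, Continuous (f N)) (w : ℕ → ℕ) (N : ℕ) (U : Set X)
    (hU : U ∈ 𝓝 (f N fun k => w (Nat.pair N k))) : ∀ᶠ t in atTop, piece f w t N ⊆ U := by
  have h1 := (hf N).continuousAt hU
  rw [mem_map, nhds_pi, Filter.mem_pi'] at h1
  obtain ⟨I, s, hs, hI⟩ := h1
  have h2 : ∀ᶠ t in atTop, ∀ k ∈ I, Nat.pair N k < t :=
    (Filter.eventually_all_finset I).2 fun k _ => eventually_gt_atTop _
  filter_upwards [h2] with t ht
  rintro _ ⟨z, hz, rfl⟩
  apply hI
  intro k hk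
  rw [hz k (ht k hk)]
  exact mem_of_mem_nhds (hs k)

/-- Novikov's separation theorem. -/
theorem novikov (C : ℕ → Set X) (hC : ∀ N, AnalyticSet (C N)) (h0 : ⋂ N, C N = ∅) :
    ∃ D : ℕ → Set X, (∀ N, MeasurableSet (D N)) ∧ (∀ N, C N ⊆ D N) ∧ ⋂ N, D N = ∅ := by
  classical
  by_cases he : ∃ M, C M = ∅
  · obtain ⟨M, hM⟩ := he
    refine ⟨fun N => if N = M then ∅ else univ, fun N => ?_, fun N => ?_, ?_⟩
    · dsimp only; split_ifs <;> simp
    · dsimp only
      split_ifs with h
      · rw [h, hM]
      · exact subset_univ _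
    · exact subset_empty_iff.1 ((iInter_subset _ M).trans (by simp))
  push Not at he
  have hf : ∀ N, ∃ f : (ℕ → ℕ) → X, Continuous f ∧ range f = C N := by
    intro N
    have := hC N
    rw [AnalyticSet] at this
    rcases this with h | h
    · exact absurd h (he N).ne_empty
    · exact h
  choose f hf hfC using hf
  by_contra hc
  have hs0 : ¬ Sep f (fun _ => 0) 0 := by
    rintro ⟨D, h1, h2, h3⟩
    refine hc ⟨D, h1, fun N => ?_, h3⟩
    rw [← hfC N]
    rintro _ ⟨z, rfl⟩
    exact h2 N ⟨z, fun k hk => absurd hk (Nat.not_lt_zero _), rfl⟩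
  choose! j hj using step f
  let w : ℕ → ℕ → ℕ := fun t => Nat.rec (fun _ => 0) (fun t v => update v t (j v t)) t
  have hw : ∀ t, w (t + 1) = update (w t) t (j (w t) t) := fun t => rfl
  have hws : ∀ t, ¬ Sep f (w t) t := by
    intro t
    induction t with
    | zero => exact hs0
    | succ t ih => rw [hw]; exact hj _ _ ih
  let W : ℕ → ℕ := fun s => w (s + 1) s
  have hW : ∀ t s, s < t → w t s = W s := by
    intro t
    induction t with
    | zero => intro s hs; omega
    | succ t ih =>
      intro s hs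
      by_cases h : s = t
      · rw [h]
      · rw [hw, update_of_ne h]
        exact ih s (by omega)
  have hp : ∀ t N, piece f W t N = piece f (w t) t N := by
    intro t N
    unfold piece
    congr 1
    ext z
    exact forall₂_congr fun k hk => by rw [hW t _ hk]
  obtain ⟨M, hM⟩ : ∃ M, (f M fun k => W (Nat.pair M k)) ≠ f 0 fun k => W (Nat.pair 0 k) := by
    by_contra h
    push Not at h
    have : (f 0 fun k => W (Nat.pair 0 k)) ∈ ⋂ N, C N := by
      refine mem_iInter.2 fun N => ?_
      rw [← h N, ← hfC N]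
      exact mem_range_self _
    rw [h0] at this
    exact this
  have hM0 : M ≠ 0 := by rintro rfl; exact hM rfl
  obtain ⟨U, V, hU, hV, hxU, hxV, hUV⟩ := t2_separation hM
  obtain ⟨t, ht1, ht2⟩ := ((small f hf W M U (hU.mem_nhds hxU)).and
    (small f hf W 0 V (hV.mem_nhds hxV))).exists
  apply hws t
  refine ⟨fun N => if N = M then U else if N = 0 then V else univ, fun N => ?_, fun N => ?_, ?_⟩
  · dsimp only
    split_ifs
    · exact hU.measurableSet
    · exact hV.measurableSet
    · exact MeasurableSet.univ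
  · dsimp only
    rw [← hp]
    split_ifs with h1 h2
    · rw [h1]; exact ht1
    · rw [h2]; exact ht2
    · exact subset_univ _
  · rw [eq_empty_iff_forall_notMem]
    intro x hx
    rw [mem_iInter] at hx
    have h1 := hx M
    have h2 := hx 0
    rw [if_pos rfl] at h1
    rw [if_neg hM0.symm, if_pos rfl] at h2
    exact Set.disjoint_left.1 hUV h1 h2

end Pool.Agent.H8.Novikov
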