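import Mathlib

namespace Pool.Agent.H8.NullFin

open MeasureTheory Filter Topology Set

lemma fiber (μ : Measure (∀ n : ℕ, ZMod (n + 2))) [μ.IsAddLeftInvariant]
    (S : Set (∀ n : ℕ, ZMod (n + 2))) (hS : MeasurableSet S) (i : ℕ)
    (hinv : ∀ (a : ZMod (i + 2)) x, Pi.single i a + x ∈ S ↔ x ∈ S) (b : ZMod (i + 2)) :
    ((i + 2 : ℕ) : ENNReal) * μ (S ∩ {x | x i = b}) = μ S := by
  have hm : ∀ a : ZMod (i + 2), MeasurableSet {x : ∀ n : ℕ, ZMod (n + 2) | x i = a} := fun a =>
    measurableSet_eq_fun (measurable_pi_apply i) measurable_const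
  have h1 : ∀ a : ZMod (i + 2), μ (S ∩ {x | x i = a}) = μ (S ∩ {x | x i = b}) := by
    intro a
    rw [← measure_preimage_add μ (Pi.single i (b - a)) (S ∩ {x | x i = b})]
    congr 1
    ext x
    simp only [mem_inter_iff, mem_setOf_eq, mem_preimage, hinv, Pi.add_apply, Pi.single_eq_same]
    refine and_congr_right fun _ => ?_
    constructor
    · intro h; rw [h]; ring
    · intro h; linear_combination h
  have h2 : S = ⋃ a : ZMod (i + 2), S ∩ {x | x i = a} := by
    ext x; simp
  have h3 : μ S = ∑' a : ZMod (i + 2), μ (S ∩ {x | x i = a}) := by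
    conv_lhs => rw [h2]
    refine measure_iUnion ?_ fun a => hS.inter (hm a)
    intro a a' haa
    rw [Function.onFun, Set.disjoint_left]
    rintro x ⟨-, hx⟩ ⟨-, hx'⟩
    exact haa (hx.symm.trans hx')
  rw [h3, tsum_fintype, Finset.sum_congr rfl fun a _ => h1 a, Finset.sum_const, Finset.card_univ,
    ZMod.card, nsmul_eq_mul]

/-- The Haar probability measure on the product of the cyclic groups. -/
noncomputable def haar : Measure (∀ n : ℕ, ZMod (n + 2)) := Measure.addHaarMeasure ⊤

instance : haar.IsAddLeftInvariant := by unfold haar; infer_instance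

instance : IsProbabilityMeasure haar :=
  ⟨by
    have := Measure.addHaarMeasure_self (K₀ := (⊤ : TopologicalSpace.PositiveCompacts
      (∀ n : ℕ, ZMod (n + 2))))
    simpa [haar] using this⟩

lemma val_succ (i : ℕ) (a : ZMod (i + 2)) (h : a ≠ -1) : (1 + a).val = a.val + 1 := by
  haveI : Fact (1 < i + 2) := ⟨by omega⟩
  have h1 : a.val < i + 2 := ZMod.val_lt a
  have h2 : a.val ≠ i + 1 := by
    intro h3
    apply h
    have h4 : ((a.val : ℕ) : ZMod (i + 2)) = a := ZMod.natCast_zmod_val a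
    rw [← h4, h3, eq_neg_iff_add_eq_zero]
    have : ((i + 2 : ℕ) : ZMod (i + 2)) = 0 := ZMod.natCast_self _
    push_cast at this ⊢
    linear_combination this
  rw [ZMod.val_add_of_lt (by rw [ZMod.val_one]; omega), ZMod.val_one, add_comm]

theorem core {G : ℕ → Type*} [∀ n, AddCommGroup (G n)] [∀ n, TopologicalSpace (G n)]
    [∀ n, DiscreteTopology (G n)] (hcard : ∀ n, n + 2 ≤ Nat.card (G n))
    (B : ℕ → Set (∀ n, G n)) (hB : ∀ k, MeasurableSet[borel (∀ n, G n)] (B k))
    (x : ℕ → ℕ → ∀ n, G n) (hx : ∀ k, Tendsto (x k) atTop (𝓝 0))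
    (hfin : ∀ k y, {j | y + x k j ∈ B k}.Finite) :
    ¬ ({y : ∀ n, G n | ∀ n, y n ≠ 0} ⊆ ⋃ k, B k) := by
  intro hsub
  letI : MeasurableSpace (∀ n, G n) := borel _
  haveI : BorelSpace (∀ n, G n) := ⟨rfl⟩
  have hev : ∀ i : ℕ, ∀ᶠ j in atTop, ∀ n ∈ Finset.range (i + 2).factorial,
      x (Nat.unpair i).1 j n = 0 := by
    intro i
    rw [Filter.eventually_all_finset]
    intro n _
    have h1 := tendsto_pi_nhds.1 (hx (Nat.unpair i).1) n
    rw [nhds_discrete, tendsto_pure] at h1
    exact h1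
  obtain ⟨φ, hφ, hφ0⟩ := Filter.extraction_forall_of_eventually hev
  set z : ℕ → ∀ n, G n := fun i => x (Nat.unpair i).1 (φ i) with hz
  have hex : ∀ n : ℕ, ∃ r : ℕ, n < (r + 2).factorial := fun n =>
    ⟨n, lt_of_lt_of_le (by omega) (Nat.self_le_factorial (n + 2))⟩
  set r : ℕ → ℕ := fun n => Nat.find (hex n) with hr
  have hr1 : ∀ n i, r n ≤ i → z i n = 0 := by
    intro n i hi
    apply hφ0 i n
    rw [Finset.mem_range]
    exact lt_of_lt_of_le (Nat.find_spec (hex n)) (Nat.factorial_le (by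
      have : Nat.find (hex n) ≤ i := hi
      omega))
  have hr2 : ∀ n, (r n + 1).factorial ≤ n + 1 := by
    intro n
    rcases h : r n with _ | m
    · simp
    · have := Nat.find_min (hex n) (show m < Nat.find (hex n) by
        have : Nat.find (hex n) = m + 1 := h
        omega)
      push Not at this
      exact this.trans (Nat.le_succ n)
  let ψ : ∀ n, (∀ i : Fin (r n), ZMod (i + 2)) → G n := fun n e => ∑ i, (e i).val • z i n
  have hy : ∀ n, ∃ y : G n, ∀ e, y + ψ n e ≠ 0 := by
    intro n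
    by_contra hc
    push Not at hc
    have hs : Function.Surjective fun e => -ψ n e := fun y =>
      (hc y).imp fun e he => (eq_neg_of_add_eq_zero_left he).symm
    have h1 := Nat.card_le_card_of_surjective _ hs
    rw [Nat.card_pi] at h1
    simp only [Nat.card_zmod] at h1
    rw [Fin.prod_univ_eq_prod_range (fun i => i + 2) (r n)] at h1
    have h2 : ∀ m, ∏ i ∈ Finset.range m, (i + 2) = (m + 1).factorial := by
      intro m
      induction m with
      | zero => simp
      | succ k ih => rw [Finset.prod_range_succ, ih, Nat.factorial_succ (k + 1), mul_comm]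
    rw [h2] at h1
    have := hcard n
    have := hr2 n
    omega
  choose y hy using hy
  let Φ : (∀ i : ℕ, ZMod (i + 2)) → ∀ n, G n := fun ε n => y n + ψ n fun i => ε i
  have hΦ : ∀ ε n, Φ ε n = y n + ∑ l ∈ Finset.range (r n), (ε l).val • z l n := by
    intro ε n
    simp only [Φ, ψ]
    rw [Fin.sum_univ_eq_sum_range (fun l => (ε l).val • z l n) (r n)]
  have hΦc : Continuous Φ := by
    refine continuous_pi fun n => ?_
    exact (continuous_of_discreteTopology (f := fun e => y n + ψ n e)).comp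
      (continuous_pi fun i : Fin (r n) => continuous_apply (i : ℕ))
  have hshift : ∀ i (ε : ∀ i : ℕ, ZMod (i + 2)), ε i ≠ -1 →
      Φ (Pi.single i 1 + ε) = Φ ε + z i := by
    intro i ε hε
    ext n
    rw [Pi.add_apply, hΦ, hΦ, add_assoc]
    congr 1
    have h1 : ∀ l ∈ Finset.range (r n), ((Pi.single i 1 + ε : ∀ i : ℕ, ZMod (i + 2)) l).val • z l n =
        (ε l).val • z l n + if l = i then z i n else 0 := by
      intro l _
      by_cases hl : l = i
      · subst hl
        rw [Pi.add_apply, Pi.single_eq_same, val_succ _ _ hε, if_pos rfl, succ_nsmul]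
      · rw [Pi.add_apply, Pi.single_eq_of_ne hl, zero_add, if_neg hl, add_zero]
    rw [Finset.sum_congr rfl h1, Finset.sum_add_distrib, Finset.sum_ite_eq']
    congr 1
    split_ifs with h
    · rfl
    · rw [Finset.mem_range, not_lt] at h
      exact (hr1 n i h).symm
  obtain ⟨k, hk⟩ : ∃ k, haar (Φ ⁻¹' B k) ≠ 0 := by
    by_contra hc
    push Not at hc
    have h1 : haar (⋃ k, Φ ⁻¹' B k) = 0 := measure_iUnion_null hc
    have h2 : (⋃ k, Φ ⁻¹' B k) = univ := by
      rw [← preimage_iUnion, eq_univ_iff_forall]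
      intro ε
      exact hsub fun n => hy n _
    rw [h2, measure_univ] at h1
    exact one_ne_zero h1
  set c := haar (Φ ⁻¹' B k) with hc
  have hct : c ≠ ⊤ := measure_ne_top _ _
  let Ev : ℕ → Set (∀ i : ℕ, ZMod (i + 2)) := fun i => {ε | Φ ε + z i ∈ B k}
  have hEm : ∀ i, MeasurableSet (Ev i) := fun i =>
    (hΦc.add continuous_const).measurable (hB k)
  have hE : ∀ i, c ≤ haar (Ev i) + ((i + 2 : ℕ) : ENNReal)⁻¹ := by
    intro i
    have h1 := fiber haar univ MeasurableSet.univ i (by simp) (-1)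
    rw [univ_inter, measure_univ] at h1
    have h2 : haar {ε | ε i = -1} = ((i + 2 : ℕ) : ENNReal)⁻¹ :=
      ENNReal.eq_inv_of_mul_eq_one_left (by rw [mul_comm]; exact h1)
    rw [← h2, hc, ← measure_preimage_add haar (Pi.single i 1) (Φ ⁻¹' B k)]
    refine le_trans (measure_mono ?_) (measure_union_le _ _)
    intro ε hε
    by_cases h : ε i = -1
    · exact Or.inr h
    · left
      have : Φ (Pi.single i 1 + ε) ∈ B k := hε
      rwa [hshift i ε h] at this
  have hsmall : ∀ᶠ i : ℕ in atTop, ((i + 2 : ℕ) : ENNReal)⁻¹ ≤ c / 2 := by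
    have h1 : Tendsto (fun i : ℕ => ((i + 2 : ℕ) : ENNReal)⁻¹) atTop (𝓝 0) :=
      ENNReal.tendsto_inv_nat_nhds_zero.comp (tendsto_add_atTop_nat 2)
    exact h1.eventually (ge_mem_nhds (ENNReal.half_pos hk))
  obtain ⟨N0, hN0⟩ := eventually_atTop.1 hsmall
  let D : ℕ → Set (∀ i : ℕ, ZMod (i + 2)) := fun N => ⋃ m, ⋃ _ : N ≤ m, Ev (Nat.pair k m)
  have hD : ∀ N, c / 2 ≤ haar (D N) := by
    intro N
    have h1 := hE (Nat.pair k (max N N0))
    have h2 := hN0 (Nat.pair k (max N N0)) ((le_max_right _ _).trans (Nat.right_le_pair _ _))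
    have h3 : haar (Ev (Nat.pair k (max N N0))) ≤ haar (D N) :=
      measure_mono (subset_iUnion₂_of_subset (max N N0) (le_max_left _ _) subset_rfl)
    have h4 : c / 2 + c / 2 ≤ haar (D N) + c / 2 := by
      rw [ENNReal.add_halves]
      exact h1.trans (add_le_add h3 h2)
    exact (ENNReal.add_le_add_iff_right (ENNReal.div_ne_top hct two_ne_zero)).1 h4
  have hanti : Antitone D := fun a b hab =>
    iUnion₂_subset fun m hm => subset_iUnion₂_of_subset m (hab.trans hm) subset_rfl
  have hlim := tendsto_measure_iInter_atTop (μ := haar) (s := D)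
    (fun N => (MeasurableSet.iUnion fun m => MeasurableSet.iUnion fun _ => hEm _).nullMeasurableSet)
    hanti ⟨0, measure_ne_top _ _⟩
  have h5 : c / 2 ≤ haar (⋂ N, D N) := ge_of_tendsto' hlim hD
  obtain ⟨ε, hε⟩ : (⋂ N, D N).Nonempty :=
    nonempty_of_measure_ne_zero (lt_of_lt_of_le (ENNReal.half_pos hk) h5).ne'
  obtain ⟨M, hM⟩ := (hfin k (Φ ε)).bddAbove
  have h6 := mem_iInter.1 hε (M + 1)
  simp only [D, mem_iUnion] at h6
  obtain ⟨m, hm, hmE⟩ := h6
  have h7 : φ (Nat.pair k m) ∈ {j | Φ ε + x k j ∈ B k} := by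
    have : Φ ε + z (Nat.pair k m) ∈ B k := hmE
    simpa [hz] using this
  have h8 := hM h7
  have h9 := hφ.id_le (Nat.pair k m)
  have h10 := Nat.right_le_pair k m
  simp only [id] at h9
  omega

lemma haar_null : haar {y : ∀ n : ℕ, ZMod (n + 2) | ∀ n, y n ≠ 0} = 0 := by
  let S : ℕ → Set (∀ n : ℕ, ZMod (n + 2)) := fun N => {y | ∀ n < N, y n ≠ 0}
  have hm : ∀ (i) (a : ZMod (i + 2)), MeasurableSet {x : ∀ n : ℕ, ZMod (n + 2) | x i = a} :=
    fun i a => measurableSet_eq_fun (measurable_pi_apply i) measurable_const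
  have hS : ∀ N, MeasurableSet (S N) := by
    intro N
    have : S N = ⋂ n, ⋂ _ : n < N, {x : ∀ n : ℕ, ZMod (n + 2) | x n = 0}ᶜ := by
      ext y; simp [S]
    rw [this]
    exact MeasurableSet.iInter fun n => MeasurableSet.iInter fun _ => (hm n 0).compl
  have h1 : ∀ N : ℕ, ((N : ℝ) + 1) * haar.real (S N) = 1 := by
    intro N
    induction N with
    | zero => simp [S]
    | succ k ih =>
      have h2 := fiber haar (S k) (hS k) k (by
        intro a x
        refine forall₂_congr fun n hn => ?_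
        rw [Pi.add_apply, Pi.single_eq_of_ne hn.ne, zero_add]) 0
      have h3 : ((k : ℝ) + 2) * haar.real (S k ∩ {x | x k = 0}) = haar.real (S k) := by
        have := congrArg ENNReal.toReal h2
        rw [ENNReal.toReal_mul, ENNReal.toReal_natCast] at this
        push_cast at this
        exact this
      have h4 : S (k + 1) = S k \ {x | x k = 0} := by
        ext y
        simp only [S, mem_setOf_eq, mem_diff]
        exact Nat.forall_lt_succ_right
      have h5 := measureReal_inter_add_diff (μ := haar) (s := S k) (hm k 0)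
      rw [← h4] at h5
      push_cast
      have h6 : ((k : ℝ) + 1) ≠ 0 := by positivity
      apply mul_left_cancel₀ h6
      linear_combination ((k : ℝ) + 1) * ((k : ℝ) + 2) * h5 - ((k : ℝ) + 1) * h3 +
        ((k : ℝ) + 1) * ih
  have h7 : ∀ N : ℕ, haar.real {y : ∀ n : ℕ, ZMod (n + 2) | ∀ n, y n ≠ 0} ≤ 1 / ((N : ℝ) + 1) := by
    intro N
    rw [le_div_iff₀ (by positivity), mul_comm]
    have hsub : {y : ∀ n : ℕ, ZMod (n + 2) | ∀ n, y n ≠ 0} ⊆ S N := fun y hy n _ => hy n
    have h9 : haar.real {y : ∀ n : ℕ, ZMod (n + 2) | ∀ n, y n ≠ 0} ≤ haar.real (S N) :=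
      measureReal_mono hsub
    have h10 : (0 : ℝ) ≤ (N : ℝ) + 1 := by positivity
    exact (mul_le_mul_of_nonneg_left h9 h10).trans (h1 N).le
  have h8 := ge_of_tendsto' tendsto_one_div_add_atTop_nhds_zero_nat h7
  exact (measureReal_eq_zero_iff (measure_ne_top _ _)).1 (le_antisymm h8 measureReal_nonneg)

end Pool.Agent.H8.NullFin
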