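import Mathlib

set_option autoImplicit false

namespace Pool.Agent.H8.PureSt

open Set

/-- Hahn Banach for the infimum of a convex family of bounds. -/
theorem hb {E : Type*} [AddCommGroup E] [Module ℝ E] (S : E → Set ℝ)
    (hne : ∀ x, (S x).Nonempty) (hbd : ∀ x, BddBelow (S x))
    (hadd : ∀ x y s t, s ∈ S x → t ∈ S y → s + t ∈ S (x + y))
    (hsm : ∀ c : ℝ, 0 < c → ∀ x s, s ∈ S x → c * s ∈ S (c • x)) (x0 : E) :
    ∃ g : E →ₗ[ℝ] ℝ, (∀ x, ∀ t ∈ S x, g x ≤ t) ∧ g x0 = sInf (S x0) := by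
  set N : E → ℝ := fun x => sInf (S x) with hN
  have Nle : ∀ x, ∀ t ∈ S x, N x ≤ t := fun x t ht => csInf_le (hbd x) ht
  have Nadd : ∀ x y, N (x + y) ≤ N x + N y := by
    intro x y
    have h1 : ∀ t ∈ S y, N (x + y) - t ≤ N x := by
      intro t ht
      refine le_csInf (hne x) ?_
      intro s hs
      have := Nle _ _ (hadd x y s t hs ht)
      linarith
    have h2 : N (x + y) - N x ≤ N y := by
      refine le_csInf (hne y) ?_
      intro t ht
      have := h1 t ht
      linarith
    linarith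
  have Nh1 : ∀ c : ℝ, 0 < c → ∀ x, N (c • x) ≤ c * N x := by
    intro c hc x
    have : N (c • x) / c ≤ N x := by
      refine le_csInf (hne x) ?_
      intro s hs
      have := Nle _ _ (hsm c hc x s hs)
      rw [div_le_iff₀ hc]
      linarith
    rw [div_le_iff₀ hc] at this
    linarith
  have Nhom : ∀ c : ℝ, 0 < c → ∀ x, N (c • x) = c * N x := by
    intro c hc x
    refine le_antisymm (Nh1 c hc x) ?_
    have h := Nh1 c⁻¹ (inv_pos.2 hc) (c • x)
    rw [smul_smul, inv_mul_cancel₀ hc.ne', one_smul] at h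
    have := mul_le_mul_of_nonneg_left h hc.le
    rwa [← mul_assoc, mul_inv_cancel₀ hc.ne', one_mul] at this
  have N0 : N 0 = 0 := by
    have := Nhom 2 (by norm_num) 0
    rw [smul_zero] at this
    linarith
  let f : E →ₗ.[ℝ] ℝ := LinearPMap.mkSpanSingleton' x0 (N x0) (by
    intro c hc
    rcases smul_eq_zero.1 hc with h | h
    · simp [h]
    · simp [h, N0])
  have hf : ∀ x : f.domain, f x ≤ N x := by
    rintro ⟨x, hx⟩
    obtain ⟨c, rfl⟩ := Submodule.mem_span_singleton.1 hx
    have e : f ⟨c • x0, hx⟩ = c * N x0 := by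
      simp only [f]
      rw [LinearPMap.mkSpanSingleton'_apply]
      simp
    rw [e]
    change c * N x0 ≤ N (c • x0)
    rcases lt_trichotomy c 0 with h | h | h
    · have h1 := Nadd (c • x0) ((-c) • x0)
      rw [← add_smul, add_neg_cancel, zero_smul, N0, Nhom (-c) (by linarith)] at h1
      linarith
    · simp [h, N0]
    · rw [Nhom c h]
  obtain ⟨g, hg1, hg2⟩ := exists_extension_of_le_sublinear f N Nhom Nadd hf
  refine ⟨g, fun x t ht => (hg2 x).trans (Nle x t ht), ?_⟩
  have := hg1 ⟨x0, Submodule.mem_span_singleton_self _⟩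
  simp only [f] at this
  rw [LinearPMap.mkSpanSingleton'_apply_self] at this
  exact this

/-- An extreme state on an ordered vector space with an order unit: the strict sublevel sets of
the state are directed. -/
theorem exists_pure {V : Type*} [AddCommGroup V] [Module ℝ V] [PartialOrder V]
    [IsOrderedAddMonoid V]
    (hs : ∀ (c : ℝ) (x y : V), 0 ≤ c → x ≤ y → c • x ≤ c • y)
    (u : V) (hu0 : 0 ≤ u) (hu : ∀ x : V, ∃ t : ℝ, x ≤ t • u) (h : V) (δ : ℝ)
    (hδ : ¬ h ≤ δ • u) :
    ∃ φ : V →ₗ[ℝ] ℝ, (∀ x y, x ≤ y → φ x ≤ φ y) ∧ φ u = 1 ∧ δ ≤ φ h ∧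
      ∀ x y c, φ x < c → φ y < c → ∃ z, x ≤ z ∧ y ≤ z ∧ φ z < c := by
  classical
  have hmono : ∀ s t : ℝ, s ≤ t → s • u ≤ t • u := by
    intro s t hst
    have := hs (t - s) 0 u (by linarith) hu0
    rw [smul_zero, sub_smul] at this
    exact sub_nonneg.1 this
  choose b hb' using hu
  have hlow : ∀ (x : V) (t : ℝ), x ≤ t • u → -b (-x) ≤ t := by
    intro x t hx
    by_contra hlt
    push Not at hlt
    have h1 : (0 : V) ≤ (t + b (-x)) • u := by
      have := add_le_add hx (hb' (-x))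
      rwa [add_neg_cancel, ← add_smul] at this
    have hpos : 0 < -(t + b (-x)) := by linarith
    have h2 := hs (-(t + b (-x)))⁻¹ _ _ (inv_pos.2 hpos).le h1
    rw [smul_zero, smul_smul] at h2
    have h3 : (-(t + b (-x)))⁻¹ * (t + b (-x)) = -1 := by
      have : (t + b (-x)) ≠ 0 := by linarith
      field_simp
    rw [h3, neg_smul, one_smul] at h2
    have hu00 : u = 0 := le_antisymm (neg_nonneg.1 h2) hu0
    apply hδ
    have := hb' h
    rw [hu00, smul_zero] at this ⊢
    exact this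
  let S : V → Set ℝ := fun x => {t | x ≤ t • u}
  have Sne : ∀ x, (S x).Nonempty := fun x => ⟨b x, hb' x⟩
  have Sbd : ∀ x, BddBelow (S x) := fun x => ⟨-b (-x), fun t ht => hlow x t ht⟩
  obtain ⟨g0, hg0, hg0h⟩ := hb S Sne Sbd
    (by
      intro x y s t hx hy
      change x + y ≤ (s + t) • u
      rw [add_smul]
      exact add_le_add hx hy)
    (by
      intro c hc x s hx
      change c • x ≤ (c * s) • u
      rw [mul_smul]
      exact hs c _ _ hc.le hx) h
  set M : ℝ := sInf (S h) with hM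
  have hδM : δ ≤ M := by
    refine le_csInf (Sne h) ?_
    intro t ht
    by_contra hlt
    push Not at hlt
    exact hδ (le_trans ht (hmono _ _ hlt.le))
  let K : Set (V → ℝ) := {f | (∀ x y, f (x + y) = f x + f y) ∧
    (∀ (c : ℝ) x, f (c • x) = c * f x) ∧ (∀ x (t : ℝ), x ≤ t • u → f x ≤ t) ∧ M ≤ f h}
  have Kne : K.Nonempty := ⟨g0, fun x y => map_add g0 x y, fun c x => by simp,
    fun x t hx => hg0 x t hx, hg0h.ge⟩
  have Kcl : IsClosed K := by
    simp only [K, ofPred_and, ofPred_forall]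
    refine IsClosed.inter ?_ (IsClosed.inter ?_ (IsClosed.inter ?_ ?_))
    · refine isClosed_iInter fun x => isClosed_iInter fun y => ?_
      exact isClosed_eq (continuous_apply _) (by fun_prop)
    · refine isClosed_iInter fun c => isClosed_iInter fun x => ?_
      exact isClosed_eq (continuous_apply _) (continuous_const.mul (continuous_apply _))
    · refine isClosed_iInter fun x => isClosed_iInter fun t => isClosed_iInter fun _ => ?_
      exact isClosed_le (continuous_apply _) continuous_const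
    · exact isClosed_le continuous_const (continuous_apply _)
  have Kcp : IsCompact K := by
    refine (isCompact_univ_pi (fun x => isCompact_Icc (a := -b (-x)) (b := b x))).of_isClosed_subset
      Kcl ?_
    intro f hf x _
    refine ⟨?_, hf.2.2.1 x _ (hb' x)⟩
    have h1 := hf.2.2.1 (-x) _ (hb' (-x))
    have h2 := hf.2.1 (-1) x
    rw [neg_smul, one_smul] at h2
    linarith
  obtain ⟨f, hf⟩ := Kcp.extremePoints_nonempty Kne
  rw [mem_extremePoints] at hf
  obtain ⟨hfK, hext⟩ := hf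
  let φ : V →ₗ[ℝ] ℝ :=
    { toFun := f
      map_add' := hfK.1
      map_smul' := fun c x => by simpa using hfK.2.1 c x }
  have hφ : ∀ x, φ x = f x := fun x => rfl
  have φmono : ∀ x y, x ≤ y → φ x ≤ φ y := by
    intro x y hxy
    have := hfK.2.2.1 (x - y) 0 (by rw [zero_smul]; exact sub_nonpos.2 hxy)
    rw [← hφ, map_sub] at this
    linarith
  have φu : φ u = 1 := by
    have h1 := hfK.2.2.1 u 1 (by rw [one_smul])
    have h2 := hfK.2.2.1 (-u) (-1) (by rw [neg_smul, one_smul])
    rw [← hφ] at h1 h2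
    rw [map_neg] at h2
    linarith
  refine ⟨φ, φmono, φu, hδM.trans hfK.2.2.2, ?_⟩
  intro x0 y0 c hx0 hy0
  let T : V × V → Set ℝ := fun p => {r | ∃ z, p.1 ≤ z ∧ p.2 ≤ z ∧ φ z = r}
  have Tne : ∀ p, (T p).Nonempty := fun p =>
    ⟨_, (max (b p.1) (b p.2)) • u, (hb' _).trans (hmono _ _ (le_max_left _ _)),
      (hb' _).trans (hmono _ _ (le_max_right _ _)), rfl⟩
  have Tbd : ∀ p, BddBelow (T p) := fun p =>
    ⟨φ p.1, by rintro r ⟨z, h1, _, rfl⟩; exact φmono _ _ h1⟩
  obtain ⟨g, hg, hgx⟩ := hb T Tne Tbd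
    (by
      rintro p q s t ⟨z, h1, h2, rfl⟩ ⟨w, h3, h4, rfl⟩
      exact ⟨z + w, add_le_add h1 h3, add_le_add h2 h4, map_add _ _ _⟩)
    (by
      rintro c hc p s ⟨z, h1, h2, rfl⟩
      exact ⟨c • z, hs c _ _ hc.le h1, hs c _ _ hc.le h2, by simp⟩) (x0, y0)
  suffices hlt : g (x0, y0) < c by
    rw [hgx] at hlt
    obtain ⟨r, ⟨z, h1, h2, rfl⟩, hr⟩ := exists_lt_of_csInf_lt (Tne _) hlt
    exact ⟨z, h1, h2, hr⟩
  let α : V →ₗ[ℝ] ℝ := g.comp (LinearMap.inl ℝ V V)
  let β : V →ₗ[ℝ] ℝ := g.comp (LinearMap.inr ℝ V V)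
  have gab : ∀ x y, g (x, y) = α x + β y := by
    intro x y
    simp only [α, β, LinearMap.comp_apply, LinearMap.inl_apply, LinearMap.inr_apply]
    rw [← map_add]
    simp
  have αm : ∀ x y, x ≤ y → α x ≤ α y := by
    intro x y hxy
    have := hg (x - y, 0) (φ 0) ⟨0, sub_nonpos.2 hxy, le_rfl, rfl⟩
    rw [gab, map_sub, map_zero, map_zero] at this
    linarith
  have βm : ∀ x y, x ≤ y → β x ≤ β y := by
    intro x y hxy
    have := hg (0, x - y) (φ 0) ⟨0, le_rfl, sub_nonpos.2 hxy, rfl⟩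
    rw [gab, map_sub, map_zero, map_zero] at this
    linarith
  have hsum : ∀ z, α z + β z = φ z := by
    intro z
    have h1 := hg (z, z) (φ z) ⟨z, le_rfl, le_rfl, rfl⟩
    have h2 := hg (-z, -z) (φ (-z)) ⟨-z, le_rfl, le_rfl, rfl⟩
    rw [gab] at h1 h2
    simp only [map_neg] at h2
    linarith
  have αle : ∀ x (t : ℝ), x ≤ t • u → α x ≤ t * α u := by
    intro x t hx
    simpa using αm _ _ hx
  have βle : ∀ x (t : ℝ), x ≤ t • u → β x ≤ t * β u := by
    intro x t hx
    simpa using βm _ _ hx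
  have αu : 0 ≤ α u := by simpa using αm 0 u hu0
  have βu : 0 ≤ β u := by simpa using βm 0 u hu0
  have abu : α u + β u = 1 := by rw [hsum, φu]
  rw [gab]
  rcases αu.eq_or_lt with ha | ha
  · have hz : ∀ x, α x = 0 := by
      intro x
      have h1 := αle x _ (hb' x)
      have h2 := αle (-x) _ (hb' (-x))
      rw [← ha, mul_zero] at h1 h2
      rw [map_neg] at h2
      linarith
    have := hsum y0
    rw [hz] at this ⊢
    linarith
  rcases βu.eq_or_lt with hb0 | hb0
  · have hz : ∀ x, β x = 0 := by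
      intro x
      have h1 := βle x _ (hb' x)
      have h2 := βle (-x) _ (hb' (-x))
      rw [← hb0, mul_zero] at h1 h2
      rw [map_neg] at h2
      linarith
    have := hsum x0
    rw [hz] at this ⊢
    linarith
  have hαM : α h / α u ≤ M := by
    refine le_csInf (Sne h) ?_
    intro t ht
    rw [div_le_iff₀ ha]
    exact αle h t ht
  have hβM : β h / β u ≤ M := by
    refine le_csInf (Sne h) ?_
    intro t ht
    rw [div_le_iff₀ hb0]
    exact βle h t ht
  have hfh : M ≤ α h + β h := by rw [hsum]; exact hfK.2.2.2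
  rw [div_le_iff₀ ha] at hαM
  rw [div_le_iff₀ hb0] at hβM
  have hMM : M * α u + M * β u = M := by rw [← mul_add, abu, mul_one]
  have k1 : (fun x => α x / α u) ∈ K := by
    refine ⟨fun x y => by simp only [map_add]; ring, fun c x => by simp only [map_smul, smul_eq_mul]; ring,
      fun x t hx => ?_, ?_⟩
    · rw [div_le_iff₀ ha]; exact αle x t hx
    · rw [le_div_iff₀ ha]; linarith
  have k2 : (fun x => β x / β u) ∈ K := by
    refine ⟨fun x y => by simp only [map_add]; ring, fun c x => by simp only [map_smul, smul_eq_mul]; ring,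
      fun x t hx => ?_, ?_⟩
    · rw [div_le_iff₀ hb0]; exact βle x t hx
    · rw [le_div_iff₀ hb0]; linarith
  obtain ⟨e1, e2⟩ := hext _ k1 _ k2 ⟨α u, β u, ha, hb0, abu, by
    funext x
    simp only [Pi.add_apply, Pi.smul_apply, smul_eq_mul]
    rw [mul_div_cancel₀ _ ha.ne', mul_div_cancel₀ _ hb0.ne', hsum, hφ]⟩
  have f1 : α x0 = φ x0 * α u := by
    have := congrFun e1 x0
    rw [hφ, ← this, div_mul_cancel₀ _ ha.ne']
  have f2 : β y0 = φ y0 * β u := by
    have := congrFun e2 y0
    rw [hφ, ← this, div_mul_cancel₀ _ hb0.ne']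
  rw [f1, f2]
  have : c * α u + c * β u = c := by rw [← mul_add, abu, mul_one]
  nlinarith [mul_lt_mul_of_pos_right hx0 ha, mul_lt_mul_of_pos_right hy0 hb0]

end Pool.Agent.H8.PureSt
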