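import Mathlib
import Pool.Agent.H8.PureSt

set_option autoImplicit false

namespace Pool.Agent.H8.OrdGrp

variable {A : Type*} [CStarAlgebra A] [PartialOrder A] [StarOrderedRing A]

theorem smul_mono (c : ℝ) {x y : A} (hc : 0 ≤ c) (h : x ≤ y) : c • x ≤ c • y := by
  have := smul_nonneg hc (sub_nonneg.2 h)
  rwa [smul_sub, sub_nonneg] at this

theorem pos_smul_one {c : ℝ} (hc : 0 < c) : 0 ≤ (c • (1 : A)) ∧ IsUnit (c • (1 : A)) := by
  refine ⟨smul_nonneg hc.le zero_le_one, ?_⟩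
  rw [← Algebra.algebraMap_eq_smul_one]
  exact (IsUnit.mk0 c hc.ne').map _

theorem pos_of_le {a b : A} (ha : 0 ≤ a ∧ IsUnit a) (hab : a ≤ b) : 0 ≤ b ∧ IsUnit b :=
  ⟨ha.1.trans hab, CStarAlgebra.isUnit_of_le a hab (ha.2.isStrictlyPositive ha.1)⟩

theorem exists_smul_one_le {a : A} (ha : 0 ≤ a ∧ IsUnit a) : ∃ c : ℝ, 0 < c ∧ c • (1 : A) ≤ a := by
  rcases subsingleton_or_nontrivial A with h | h
  · exact ⟨1, one_pos, (Subsingleton.elim _ _).le⟩
  have h' := ha.2.isStrictlyPositive ha.1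
  obtain ⟨r, hr, hr_le⟩ : ∃ r > 0, (algebraMap ℝ A) r ≤ a :=
    (CFC.exists_pos_algebraMap_le_iff h'.isSelfAdjoint).2 fun x hx ↦ h'.spectrum_pos hx
  exact ⟨r, hr, by rwa [← Algebra.algebraMap_eq_smul_one]⟩

omit [PartialOrder A] [StarOrderedRing A] in
theorem ident {p q w x y : A} (hpq : p * q = 0) (hqp : q * p = 0)
    {ε : ℝ} (hx : x = p + ε • (1 : A)) (hy : y = q + ε • (1 : A)) :
    (x + y) * ((2 * ε) • (1 : A) - w) * (x + y) =
      (x - y) * w * (x - y) + (2 * ε ^ 2) • (x + y) + (x * y * x - x * w * x) +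
        (x * y * x - x * w * x) + (y * x * y - y * w * y) + (y * x * y - y * w * y) := by
  have hpqp : ∀ z : A, p * (q * z) = 0 := fun z => by rw [← mul_assoc, hpq, zero_mul]
  have hqpq : ∀ z : A, q * (p * z) = 0 := fun z => by rw [← mul_assoc, hqp, zero_mul]
  subst hx hy
  simp only [mul_add, add_mul, mul_sub, sub_mul, smul_mul_assoc, mul_smul_comm,
    mul_one, one_mul, mul_assoc, hpq, hqp, hpqp, hqpq, smul_zero, mul_zero, smul_add, smul_sub,
    smul_smul, zero_mul, add_zero, zero_add]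
  module

/-- A positive element below two orthogonal positive elements, up to `ε`, is small. -/
theorem small {p q w : A} (hp : 0 ≤ p) (hq : 0 ≤ q) (hpq : p * q = 0) (hqp : q * p = 0)
    {ε : ℝ} (hε : 0 < ε) (hw : 0 ≤ w) (h1 : w ≤ p + ε • (1 : A)) (h2 : w ≤ q + ε • (1 : A)) :
    w ≤ (2 * ε) • (1 : A) := by
  set x := p + ε • (1 : A) with hx
  set y := q + ε • (1 : A) with hy
  have hx0 : 0 ≤ x ∧ IsUnit x := pos_of_le (pos_smul_one hε) (le_add_of_nonneg_left hp)
  have hy0 : 0 ≤ y ∧ IsUnit y := pos_of_le (pos_smul_one hε) (le_add_of_nonneg_left hq)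
  have hs0 : 0 ≤ x + y ∧ IsUnit (x + y) := pos_of_le hx0 (le_add_of_nonneg_right hy0.1)
  have hxs := IsSelfAdjoint.of_nonneg hx0.1
  have hys := IsSelfAdjoint.of_nonneg hy0.1
  have hss := IsSelfAdjoint.of_nonneg hs0.1
  have a1 : x * w * x ≤ x * y * x := hxs.conjugate_le_conjugate h2
  have a2 : y * w * y ≤ y * x * y := hys.conjugate_le_conjugate h1
  have a3 : 0 ≤ (x - y) * w * (x - y) := (hxs.sub hys).conjugate_nonneg hw
  have a4 : 0 ≤ (2 * ε ^ 2) • (x + y) := smul_nonneg (by positivity) hs0.1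
  have e1 := ident (w := w) hpq hqp hx hy
  have a5 : 0 ≤ (x + y) * ((2 * ε) • (1 : A) - w) * (x + y) := by
    rw [e1]
    have b1 := sub_nonneg.2 a1
    have b2 := sub_nonneg.2 a2
    exact add_nonneg (add_nonneg (add_nonneg (add_nonneg (add_nonneg a3 a4) b1) b1) b2) b2
  have := hs0.2.star_left_conjugate_nonneg_iff (x := (2 * ε) • (1 : A) - w)
  rw [hss.star_eq] at this
  exact sub_nonneg.1 (this.1 a5)

theorem sq_le {p : A} (hp : 0 ≤ p) : p * p ≤ ‖p‖ • p := by
  have h := CStarAlgebra.star_left_conjugate_le_norm_smul (a := CFC.sqrt p) (b := p)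
    (IsSelfAdjoint.of_nonneg hp)
  rw [(IsSelfAdjoint.of_nonneg (CFC.sqrt_nonneg p)).star_eq, CFC.sqrt_mul_sqrt_self p hp] at h
  have e : CFC.sqrt p * p * CFC.sqrt p = p * p := by
    set s := CFC.sqrt p with hs
    have hss : s * s = p := CFC.sqrt_mul_sqrt_self p hp
    rw [← hss]
    simp only [mul_assoc]
  rwa [e] at h

section state

variable (Φ : A →ₗ[ℝ] ℝ) (hm : ∀ a b : A, a ≤ b → Φ a ≤ Φ b) (h1 : Φ 1 = 1)
  (hd : ∀ (x y : A) (c : ℝ), IsSelfAdjoint x → IsSelfAdjoint y → Φ x < c → Φ y < c →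
    ∃ z, x ≤ z ∧ y ≤ z ∧ Φ z < c)

include hm h1 in
theorem phi_pos {a : A} (ha : 0 ≤ a ∧ IsUnit a) : 0 < Φ a := by
  obtain ⟨c, hc, h⟩ := exists_smul_one_le ha
  have := hm _ _ h
  rw [map_smul, h1, smul_eq_mul, mul_one] at this
  linarith

include hm h1 hd in
/-- A directed lower set of the cone containing a sublevel set absorbs sublevel sets. -/
theorem absorb (Q : A → Prop) (hQ : ∀ z, Q z → 0 ≤ z ∧ IsUnit z)
    (hlow : ∀ y z, (0 ≤ y ∧ IsUnit y) → Q z → y ≤ z → Q y)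
    (hdir : ∀ x y, Q x → Q y → ∃ z, Q z ∧ x ≤ z ∧ y ≤ z)
    (c : ℝ) (hc : 0 < c) (hsub : ∀ y, (0 ≤ y ∧ IsUnit y) → Φ y < c → Q y)
    (y z : A) (hy : 0 ≤ y ∧ IsUnit y) (hz : Q z) (hyz : Φ y < Φ z) : Q y := by
  have hz0 := hQ z hz
  have hzp := phi_pos Φ hm h1 hz0
  set d := Φ z - Φ y with hdd
  have hd0 : 0 < d := by linarith
  set t := d / (d + Φ z) with ht
  have hden : 0 < d + Φ z := by linarith
  have ht0 : 0 < t := div_pos hd0 hden
  have ht1 : t < 1 := by rw [ht, div_lt_one hden]; linarith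
  have htz : t * Φ z < d := by
    rw [ht, div_mul_eq_mul_div, div_lt_iff₀ hden]
    nlinarith
  set u : A := t⁻¹ • (y - (1 - t) • z) with hu
  have hus : IsSelfAdjoint u := by
    have e1 := (IsSelfAdjoint.of_nonneg hy.1).star_eq
    have e2 := (IsSelfAdjoint.of_nonneg hz0.1).star_eq
    simp only [hu, IsSelfAdjoint, star_smul, star_sub, e1, e2, star_trivial]
  have huc : Φ u < c := by
    simp only [hu, map_smul, map_sub, smul_eq_mul]
    have : Φ y - (1 - t) * Φ z < 0 := by nlinarith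
    have := mul_neg_of_pos_of_neg (inv_pos.2 ht0) this
    linarith
  have hc2 := pos_smul_one (A := A) (half_pos hc)
  obtain ⟨w, hw1, hw2, hw3⟩ := hd u ((c / 2) • (1 : A)) c hus (IsSelfAdjoint.of_nonneg hc2.1) huc
    (by rw [map_smul, h1, smul_eq_mul]; linarith)
  have hwQ := hsub w (pos_of_le hc2 hw2) hw3
  obtain ⟨v, hv, hv1, hv2⟩ := hdir z w hz hwQ
  refine hlow y v hy hv ?_
  have e : y = t • u + (1 - t) • z := by
    rw [hu, smul_smul, mul_inv_cancel₀ ht0.ne', one_smul, sub_add_cancel]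
  have e' : v = t • v + (1 - t) • v := by rw [← add_smul]; simp
  rw [e, e']
  exact add_le_add (smul_mono t ht0.le (hw1.trans hv2)) (smul_mono _ (by linarith) hv1)

variable (op : A → A → A)
  (hcl : ∀ a b : A, (0 ≤ a ∧ IsUnit a) → (0 ≤ b ∧ IsUnit b) → (0 ≤ op a b ∧ IsUnit (op a b)))
  (hass : ∀ a b c : A, (0 ≤ a ∧ IsUnit a) → (0 ≤ b ∧ IsUnit b) → (0 ≤ c ∧ IsUnit c) →
    op (op a b) c = op a (op b c))
  (hcom : ∀ a b : A, (0 ≤ a ∧ IsUnit a) → (0 ≤ b ∧ IsUnit b) → op a b = op b a)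
  (e : A) (he : 0 ≤ e ∧ IsUnit e) (hid : ∀ a : A, (0 ≤ a ∧ IsUnit a) → op e a = a)
  (hinv : ∀ a : A, (0 ≤ a ∧ IsUnit a) → ∃ b : A, (0 ≤ b ∧ IsUnit b) ∧ op a b = e)
  (hord : ∀ a b c : A, (0 ≤ a ∧ IsUnit a) → (0 ≤ b ∧ IsUnit b) → (0 ≤ c ∧ IsUnit c) →
    a ≤ b → op a c ≤ op b c)

include hm h1 hd hcl hass hcom hid hinv hord in
theorem weak_of (g : A) (hg : 0 ≤ g ∧ IsUnit g)
    (hsub : ∀ c : ℝ, 0 < c → ∃ c' : ℝ, 0 < c' ∧
      ∀ y, (0 ≤ y ∧ IsUnit y) → Φ y < c' → Φ (op g y) < c)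
    (y z : A) (hy : 0 ≤ y ∧ IsUnit y) (hz : 0 ≤ z ∧ IsUnit z) (hyz : Φ y < Φ z) :
    Φ (op g y) ≤ Φ (op g z) := by
  by_contra hlt
  push Not at hlt
  have hord' : ∀ a b c : A, (0 ≤ a ∧ IsUnit a) → (0 ≤ b ∧ IsUnit b) → (0 ≤ c ∧ IsUnit c) →
      a ≤ b → op c a ≤ op c b := by
    intro a b c ha hb hc hab
    rw [hcom c a hc ha, hcom c b hc hb]
    exact hord a b c ha hb hc hab
  set c := Φ (op g y) with hc
  have hc0 : 0 < c := phi_pos Φ hm h1 (hcl g y hg hy)
  obtain ⟨c', hc', hs⟩ := hsub c hc0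
  obtain ⟨k, hk, hgk⟩ := hinv g hg
  have := absorb Φ hm h1 hd (fun w => (0 ≤ w ∧ IsUnit w) ∧ Φ (op g w) < c) (fun w hw => hw.1)
    (fun a b ha hb hab => ⟨ha, (hm _ _ (hord' a b g ha hb.1 hg hab)).trans_lt hb.2⟩)
    (by
      intro a b ha hb
      have ga := hcl g a hg ha.1
      have gb := hcl g b hg hb.1
      obtain ⟨w, hw1, hw2, hw3⟩ := hd (op g a) (op g b) c (IsSelfAdjoint.of_nonneg ga.1)
        (IsSelfAdjoint.of_nonneg gb.1) ha.2 hb.2
      have hw := pos_of_le ga hw1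
      have hkg : ∀ x, (0 ≤ x ∧ IsUnit x) → op k (op g x) = x := by
        intro x hx
        rw [← hass k g x hk hg hx, hcom k g hk hg, hgk, hid x hx]
      refine ⟨op k w, ⟨hcl k w hk hw, ?_⟩, ?_, ?_⟩
      · rw [← hass g k w hg hk hw, hgk, hid w hw]
        exact hw3
      · rw [← hkg a ha.1]
        exact hord' _ _ k ga hw hk hw1
      · rw [← hkg b hb.1]
        exact hord' _ _ k gb hw hk hw2)
    c' hc' (fun w hw hwc => ⟨hw, hs w hw hwc⟩) y z hy ⟨hz, hlt⟩ hyz
  exact lt_irrefl _ this.2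

include hm h1 hd hcl hass hcom he hid hinv hord in
theorem weak (g : A) (hg : 0 ≤ g ∧ IsUnit g)
    (y z : A) (hy : 0 ≤ y ∧ IsUnit y) (hz : 0 ≤ z ∧ IsUnit z) (hyz : Φ y < Φ z) :
    Φ (op g y) ≤ Φ (op g z) := by
  refine weak_of Φ hm h1 hd op hcl hass hcom e hid hinv hord g hg ?_ y z hy hz hyz
  intro c hc
  have hk : 0 ≤ g + e ∧ IsUnit (g + e) := pos_of_le hg (le_add_of_nonneg_right he.1)
  set k := g + e with hkdef
  obtain ⟨j, hj, hkj⟩ := hinv k hk
  have hje : j ≤ e := by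
    have := hord e k j he hk hj (le_add_of_nonneg_left hg.1)
    rwa [hid j hj, hkj] at this
  have wj := weak_of Φ hm h1 hd op hcl hass hcom e hid hinv hord j hj (by
    intro c hc
    refine ⟨c, hc, fun y hy hyc => ?_⟩
    have := hord j e y hj he hy hje
    rw [hid y hy] at this
    exact (hm _ _ this).trans_lt hyc)
  have hc2 := pos_smul_one (A := A) (half_pos hc)
  refine ⟨Φ (op j ((c / 2) • (1 : A))), phi_pos Φ hm h1 (hcl _ _ hj hc2), fun y hy hyc => ?_⟩
  have h2 : Φ (op g y) ≤ Φ (op k y) :=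
    hm _ _ (hord g k y hg hk hy (le_add_of_nonneg_right he.1))
  by_contra hge
  push Not at hge
  have h3 := wj ((c / 2) • (1 : A)) (op k y) hc2 (hcl k y hk hy)
    (by rw [map_smul, h1, smul_eq_mul]; linarith)
  rw [← hass j k y hj hk hy, hcom j k hj hk, hkj, hid y hy] at h3
  linarith

include hm h1 hd hcl hass hcom he hid hinv hord in
theorem anti (y z y' z' : A) (hy : 0 ≤ y ∧ IsUnit y) (hz : 0 ≤ z ∧ IsUnit z)
    (hy' : 0 ≤ y' ∧ IsUnit y') (hz' : 0 ≤ z' ∧ IsUnit z') (ey : op y y' = e) (ez : op z z' = e)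
    (hyz : Φ y < Φ z) : Φ z' ≤ Φ y' := by
  have := weak Φ hm h1 hd op hcl hass hcom e he hid hinv hord (op y' z') (hcl _ _ hy' hz')
    y z hy hz hyz
  rw [hass y' z' z hy' hz' hz, hcom z' z hz' hz, ez, hcom y' e hy' he, hid y' hy',
    hcom y' z' hy' hz', hass z' y' y hz' hy' hy, hcom y' y hy' hy, ey, hcom z' e hz' he,
    hid z' hz'] at this
  exact this

include hm h1 hd hcl hass hcom he hid hinv hord in
theorem down (c : ℝ) (hc : 0 < c) : ∃ c' : ℝ, 0 < c' ∧ ∀ x y : A, (0 ≤ x ∧ IsUnit x) →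
    (0 ≤ y ∧ IsUnit y) → c < Φ x → c < Φ y → ∃ w, 0 ≤ w ∧ w ≤ x ∧ w ≤ y ∧ c' ≤ Φ w := by
  have hu := pos_smul_one (A := A) hc
  obtain ⟨u', hu', eu⟩ := hinv _ hu
  have hp := phi_pos Φ hm h1 hu'
  have hd0 : 0 < Φ u' + 1 := by linarith
  have hv := pos_smul_one (A := A) hd0
  obtain ⟨v', hv', ev⟩ := hinv _ hv
  refine ⟨Φ v', phi_pos Φ hm h1 hv', fun x y hx hy hcx hcy => ?_⟩
  obtain ⟨x', hx', ex⟩ := hinv x hx
  obtain ⟨y', hy', ey⟩ := hinv y hy
  have huc : Φ (c • (1 : A)) = c := by rw [map_smul, h1, smul_eq_mul, mul_one]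
  have a1 := anti Φ hm h1 hd op hcl hass hcom e he hid hinv hord _ x u' x' hu hx hu' hx' eu ex
    (by rw [huc]; exact hcx)
  have a2 := anti Φ hm h1 hd op hcl hass hcom e he hid hinv hord _ y u' y' hu hy hu' hy' eu ey
    (by rw [huc]; exact hcy)
  obtain ⟨z, hz1, hz2, hz3⟩ := hd x' y' (Φ u' + 1) (IsSelfAdjoint.of_nonneg hx'.1)
    (IsSelfAdjoint.of_nonneg hy'.1) (by linarith) (by linarith)
  have hz := pos_of_le hx' hz1
  obtain ⟨w, hw, ew⟩ := hinv z hz
  have key : ∀ a a' : A, (0 ≤ a ∧ IsUnit a) → (0 ≤ a' ∧ IsUnit a') → op a a' = e → a' ≤ z →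
      w ≤ a := by
    intro a a' ha ha' ea hle
    have := hord a' z (op a w) ha' hz (hcl _ _ ha hw) hle
    rw [← hass a' a w ha' ha hw, hcom a' a ha' ha, ea, hid w hw, hcom a w ha hw,
      ← hass z w a hz hw ha, ew, hid a ha] at this
    exact this
  refine ⟨w, hw.1, key x x' hx hx' ex hz1, key y y' hy hy' ey hz2, ?_⟩
  exact anti Φ hm h1 hd op hcl hass hcom e he hid hinv hord z _ w v' hz hv hw hv' ew ev
    (by rw [map_smul, h1, smul_eq_mul, mul_one]; exact hz3)

include hm h1 hd hcl hass hcom he hid hinv hord in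
theorem sq_zero (a : A) (ha : IsSelfAdjoint a) (h0 : Φ a = 0) : Φ (a * a) ≤ 0 := by
  have hp := CFC.posPart_nonneg a
  have hq := CFC.negPart_nonneg a
  have hpq := CFC.posPart_mul_negPart a
  have hqp := CFC.negPart_mul_posPart a
  have hs := CFC.posPart_sub_negPart a ha
  set p := a⁺ with hpdef
  set q := a⁻ with hqdef
  have hpe : Φ p = Φ q := by
    rw [← hs, map_sub] at h0
    linarith
  have hp0 : Φ p ≤ 0 := by
    by_contra hlt
    push Not at hlt
    obtain ⟨c', hc', hw⟩ := down Φ hm h1 hd op hcl hass hcom e he hid hinv hord (Φ p) hlt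
    have hε : 0 < c' / 4 := by linarith
    obtain ⟨w, w0, w1, w2, w3⟩ := hw (p + (c' / 4) • (1 : A)) (q + (c' / 4) • (1 : A))
      (pos_of_le (pos_smul_one hε) (le_add_of_nonneg_left hp))
      (pos_of_le (pos_smul_one hε) (le_add_of_nonneg_left hq))
      (by rw [map_add, map_smul, h1, smul_eq_mul]; linarith)
      (by rw [map_add, map_smul, h1, smul_eq_mul]; linarith)
    have := hm _ _ (small hp hq hpq hqp hε w0 w1 w2)
    rw [map_smul, h1, smul_eq_mul] at this
    linarith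
  have e1 : a * a = p * p + q * q := by
    rw [← hs]
    simp only [mul_sub, sub_mul, hpq, hqp]
    abel
  have b1 := hm _ _ (sq_le hp)
  have b2 := hm _ _ (sq_le hq)
  rw [map_smul, smul_eq_mul] at b1 b2
  rw [e1, map_add]
  have c1 := mul_nonneg (norm_nonneg p) (neg_nonneg.2 hp0)
  have c2 := mul_nonneg (norm_nonneg q) (neg_nonneg.2 (hpe ▸ hp0))
  linarith

include hm h1 hd hcl hass hcom he hid hinv hord in
theorem comm_le (a b : A) (ha : IsSelfAdjoint a) (hb : IsSelfAdjoint b) :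
    Φ (Complex.I • (a * b - b * a)) ≤ 0 := by
  set a' := a - Φ a • (1 : A) with ha'
  set b' := b - Φ b • (1 : A) with hb'
  have sa : IsSelfAdjoint a' := by
    simp only [ha', IsSelfAdjoint, star_smul, star_sub, ha.star_eq, star_trivial, star_one]
  have sb : IsSelfAdjoint b' := by
    simp only [hb', IsSelfAdjoint, star_smul, star_sub, hb.star_eq, star_trivial, star_one]
  have k1 := sq_zero Φ hm h1 hd op hcl hass hcom e he hid hinv hord a' sa
    (by rw [ha', map_sub, map_smul, h1]; simp)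
  have k2 := sq_zero Φ hm h1 hd op hcl hass hcom e he hid hinv hord b' sb
    (by rw [hb', map_sub, map_smul, h1]; simp)
  have e1 : a * b - b * a = a' * b' - b' * a' := by
    simp only [ha', hb', mul_sub, sub_mul, smul_mul_assoc, mul_smul_comm, mul_one, one_mul,
      smul_sub, smul_smul]
    module
  have e2 : (a' + Complex.I • b') * star (a' + Complex.I • b') =
      a' * a' + b' * b' - Complex.I • (a' * b' - b' * a') := by
    rw [star_add, star_smul, sa.star_eq, sb.star_eq]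
    simp only [mul_add, add_mul, smul_mul_assoc, mul_smul_comm, smul_smul, smul_sub,
      Complex.star_def, Complex.conj_I, neg_smul, mul_neg, neg_mul, Complex.I_mul_I, neg_neg,
      one_smul, smul_neg, smul_add]
    abel
  have := hm _ _ (mul_star_self_nonneg (a' + Complex.I • b'))
  rw [e2, map_zero, map_sub, map_add] at this
  rw [e1]
  linarith

end state

theorem main (op : A → A → A)
    (hcl : ∀ a b : A, (0 ≤ a ∧ IsUnit a) → (0 ≤ b ∧ IsUnit b) → (0 ≤ op a b ∧ IsUnit (op a b)))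
    (hass : ∀ a b c : A, (0 ≤ a ∧ IsUnit a) → (0 ≤ b ∧ IsUnit b) → (0 ≤ c ∧ IsUnit c) →
      op (op a b) c = op a (op b c))
    (hcom : ∀ a b : A, (0 ≤ a ∧ IsUnit a) → (0 ≤ b ∧ IsUnit b) → op a b = op b a)
    (e : A) (he : 0 ≤ e ∧ IsUnit e) (hid : ∀ a : A, (0 ≤ a ∧ IsUnit a) → op e a = a)
    (hinv : ∀ a : A, (0 ≤ a ∧ IsUnit a) → ∃ b : A, (0 ≤ b ∧ IsUnit b) ∧ op a b = e)
    (hord : ∀ a b c : A, (0 ≤ a ∧ IsUnit a) → (0 ≤ b ∧ IsUnit b) → (0 ≤ c ∧ IsUnit c) →
      a ≤ b → op a c ≤ op b c) (x y : A) : x * y = y * x := by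
  have key : ∀ a b : A, IsSelfAdjoint a → IsSelfAdjoint b →
      Complex.I • (a * b - b * a) ≤ 0 := by
    intro a b ha hb
    set h := Complex.I • (a * b - b * a) with hh
    have hsa : IsSelfAdjoint h := by
      rw [hh, IsSelfAdjoint, star_smul, star_sub, star_mul, star_mul, ha.star_eq, hb.star_eq]
      simp only [Complex.star_def, Complex.conj_I, neg_smul, smul_sub]
      abel
    have hall : ∀ δ : ℝ, 0 < δ → h ≤ δ • (1 : A) := by
      intro δ hδ
      by_contra hn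
      obtain ⟨φ, φm, φ1, φh, φd⟩ := PureSt.exists_pure (V := selfAdjoint A)
        (fun c x y hc hxy => smul_mono c hc hxy) ⟨1, IsSelfAdjoint.one A⟩
        (show (0 : A) ≤ 1 from zero_le_one)
        (fun x => ⟨‖(x : A)‖, by
          have := IsSelfAdjoint.le_algebraMap_norm_self (a := (x : A)) x.2
          rwa [Algebra.algebraMap_eq_smul_one] at this⟩) ⟨h, hsa⟩ δ hn
      let Φ : A →ₗ[ℝ] ℝ := φ.comp realPart
      have hΦ : ∀ (x : A) (hx : IsSelfAdjoint x), Φ x = φ ⟨x, hx⟩ := by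
        intro x hx
        simp only [Φ, LinearMap.comp_apply]
        congr 1
        exact Subtype.ext hx.coe_realPart
      have := comm_le Φ
        (by
          intro a b hab
          have h0 := sub_nonneg.2 hab
          have h1 := φm 0 ⟨b - a, IsSelfAdjoint.of_nonneg h0⟩ h0
          have h2 := hΦ (b - a) (IsSelfAdjoint.of_nonneg h0)
          rw [map_zero] at h1
          rw [map_sub] at h2
          linarith)
        (by rw [hΦ 1 (IsSelfAdjoint.one A)]; exact φ1)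
        (by
          intro x y c hx hy h1 h2
          rw [hΦ x hx] at h1
          rw [hΦ y hy] at h2
          obtain ⟨z, z1, z2, z3⟩ := φd _ _ c h1 h2
          exact ⟨z, z1, z2, by rw [hΦ z z.2]; exact z3⟩)
        op hcl hass hcom e he hid hinv hord a b ha hb
      rw [← hh, hΦ h hsa] at this
      linarith
    have hlim : Filter.Tendsto (fun δ : ℝ => δ • (1 : A) - h) (nhdsWithin 0 (Set.Ioi 0))
        (nhds (-h)) := by
      have : Continuous (fun δ : ℝ => δ • (1 : A) - h) := by fun_prop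
      have h2 := this.tendsto 0
      simp only [zero_smul, zero_sub] at h2
      exact h2.mono_left nhdsWithin_le_nhds
    have := CStarAlgebra.isClosed_nonneg.mem_of_tendsto hlim (by
      filter_upwards [self_mem_nhdsWithin] with δ hδ
      exact sub_nonneg.2 (hall δ hδ))
    exact neg_nonneg.1 this
  have sa : ∀ a b : A, IsSelfAdjoint a → IsSelfAdjoint b → a * b = b * a := by
    intro a b ha hb
    have k1 := key a b ha hb
    have k2 := key b a hb ha
    have e1 : Complex.I • (b * a - a * b) = -(Complex.I • (a * b - b * a)) := by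
      rw [← smul_neg, neg_sub]
    rw [e1, neg_nonpos] at k2
    have := le_antisymm k1 k2
    rcases smul_eq_zero.1 this with h | h
    · exact absurd h Complex.I_ne_zero
    · exact sub_eq_zero.1 h
  rw [← realPart_add_I_smul_imaginaryPart x, ← realPart_add_I_smul_imaginaryPart y]
  simp only [mul_add, add_mul, smul_mul_assoc, mul_smul_comm]
  rw [sa _ _ (realPart x).2 (realPart y).2, sa _ _ (realPart x).2 (imaginaryPart y).2,
    sa _ _ (imaginaryPart x).2 (realPart y).2, sa _ _ (imaginaryPart x).2 (imaginaryPart y).2]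
  simp only [smul_add]
  abel

end Pool.Agent.H8.OrdGrp
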