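import Mathlib

namespace Pool.Agent.H8.PermLLL

open Finset

section LLL
variable {Ω ι : Type} [Fintype Ω] [DecidableEq Ω] [DecidableEq ι]

/-- outcomes avoiding all events of `S` -/
def av (B : ι → Finset Ω) (S : Finset ι) : Finset Ω := univ.filter fun ω => ∀ e ∈ S, ω ∉ B e

omit [DecidableEq ι] in
lemma mem_av {B : ι → Finset Ω} {S : Finset ι} {ω : Ω} : ω ∈ av B S ↔ ∀ e ∈ S, ω ∉ B e := by
  simp [av]

theorem lll [Nonempty Ω] (B : ι → Finset Ω) (J : Finset ι) (nbr : ι → ι → Prop) [DecidableRel nbr]
    (p : ℝ) (d : ℕ) (hp : 0 ≤ p) (hp2 : 2 * p < 1) (hpd : 4 * p * d ≤ 1)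
    (h1 : ∀ i ∈ J, ∀ S ⊆ J, (∀ e ∈ S, ¬ nbr i e) → ((B i ∩ av B S).card : ℝ) ≤ p * (av B S).card)
    (h2 : ∀ i ∈ J, (J.filter (nbr i)).card ≤ d) : (av B J).Nonempty := by
  have key : ∀ S : Finset ι, S ⊆ J → ∀ i ∈ J,
      ((B i ∩ av B S).card : ℝ) ≤ 2 * p * (av B S).card := by
    intro S
    induction S using Finset.strongInduction with
    | H S ih =>
      intro hS i hi
      by_cases h : ∀ e ∈ S, ¬ nbr i e
      · have := h1 i hi S hS h
        have h0 : (0 : ℝ) ≤ p * (av B S).card := by positivity
        linarith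
      set S2 := S.filter fun e => ¬ nbr i e with hS2
      have hss : S2 ⊂ S := filter_ssubset.2 (by push Not at h; simpa using h)
      have hJ : S2 ⊆ J := hss.1.trans hS
      have a1 := h1 i hi S2 hJ fun e he => (mem_filter.1 he).2
      have a2 : (B i ∩ av B S).card ≤ (B i ∩ av B S2).card :=
        card_le_card (inter_subset_inter_left fun ω hω =>
          mem_av.2 fun e he => mem_av.1 hω e (hss.1 he))
      have a3 : av B S2 ⊆ av B S ∪ (J.filter (nbr i)).biUnion fun e => B e ∩ av B S2 := by
        intro ω hω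
        by_cases hc : ω ∈ av B S
        · exact mem_union_left _ hc
        rw [mem_av] at hc
        push Not at hc
        obtain ⟨e, he, hωe⟩ := hc
        refine mem_union_right _ (mem_biUnion.2 ⟨e, mem_filter.2 ⟨hS he, ?_⟩, mem_inter.2 ⟨hωe, hω⟩⟩)
        by_contra hn
        exact mem_av.1 hω e (mem_filter.2 ⟨he, hn⟩) hωe
      have a4 : ((av B S2).card : ℝ) ≤ (av B S).card +
          ∑ e ∈ J.filter (nbr i), ((B e ∩ av B S2).card : ℝ) := by
        have := (card_le_card a3).trans ((card_union_le _ _).trans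
          (Nat.add_le_add_left card_biUnion_le _))
        exact_mod_cast this
      have a5 : ∑ e ∈ J.filter (nbr i), ((B e ∩ av B S2).card : ℝ) ≤
          d * (2 * p * (av B S2).card) := by
        refine (sum_le_card_nsmul _ _ _ fun e he => ih S2 hss hJ e (mem_filter.1 he).1).trans ?_
        rw [nsmul_eq_mul]
        exact mul_le_mul_of_nonneg_right (by exact_mod_cast h2 i hi) (by positivity)
      have a6 : ((B i ∩ av B S).card : ℝ) ≤ (B i ∩ av B S2).card := by exact_mod_cast a2
      have a7 : (0 : ℝ) ≤ (av B S2).card := by positivity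
      have a8 : ((av B S2).card : ℝ) ≤ 2 * (av B S).card := by nlinarith
      nlinarith
  have fin : ∀ S : Finset ι, S ⊆ J → (av B S).Nonempty := by
    intro S
    induction S using Finset.induction_on with
    | empty => intro _; simp [av]
    | insert i S _ ih =>
      intro hS
      have a1 := key S ((subset_insert _ _).trans hS) i (hS (mem_insert_self _ _))
      have a2 : (0 : ℝ) < (av B S).card := by
        exact_mod_cast card_pos.2 (ih ((subset_insert _ _).trans hS))
      have a3 : (B i ∩ av B S).card < (av B S).card := by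
        have : ((B i ∩ av B S).card : ℝ) < (av B S).card := by nlinarith
        exact_mod_cast this
      obtain ⟨ω, h3, h4⟩ := exists_mem_notMem_of_card_lt_card a3
      refine ⟨ω, mem_av.2 fun e he => ?_⟩
      rcases mem_insert.1 he with rfl | he
      · exact fun h => h4 (mem_inter.2 ⟨h, h3⟩)
      · exact mem_av.1 h3 e he
  exact fin J Subset.rfl
end LLL

variable {n : ℕ}

lemma swap_step (A : Finset (Equiv.Perm (Fin n))) (q x : Fin n) (W : Finset (Fin n))
    (h : ∀ σ ∈ A, σ q = x → ∀ v, v ∉ W → Equiv.swap x v * σ ∈ A) :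
    (A.filter fun σ => σ q = x).card * (n - W.card) ≤ A.card := by
  have hc : (Wᶜ).card = n - W.card := by rw [card_compl, Fintype.card_fin]
  rw [← hc, ← card_product]
  refine card_le_card_of_injOn (fun z => Equiv.swap x z.2 * z.1) (fun z hz => ?_) ?_
  · obtain ⟨h1, h2⟩ := mem_product.1 hz
    exact h _ (mem_filter.1 h1).1 (mem_filter.1 h1).2 _ (mem_compl.1 h2)
  · rintro ⟨σ, v⟩ hz ⟨τ, w⟩ hz' e
    have h1 := (mem_filter.1 (mem_product.1 hz).1).2
    have h2 := (mem_filter.1 (mem_product.1 hz').1).2
    simp only at e h1 h2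
    have : v = w := by simpa [h1, h2] using congrArg (fun ρ : Equiv.Perm (Fin n) => ρ q) e
    subst this
    rw [mul_left_cancel e]

lemma fix_many (A : Finset (Equiv.Perm (Fin n))) (a b : Fin 4 → Fin n) (hb : Function.Injective b)
    (h : ∀ σ ∈ A, ∀ j, σ (a j) = b j → ∀ v, Equiv.swap (b j) v * σ ∈ A) (K : Finset (Fin 4)) :
    (A.filter fun σ => ∀ j ∈ K, σ (a j) = b j).card * (n - 4) ^ K.card ≤ A.card := by
  induction K using Finset.induction_on with
  | empty => simp
  | insert j K hj ih =>
    have h1 := swap_step (A.filter fun σ => ∀ j ∈ K, σ (a j) = b j) (a j) (b j) (K.image b) (by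
      intro σ hσ e v hv
      refine mem_filter.2 ⟨h σ (mem_filter.1 hσ).1 j e v, fun l hl => ?_⟩
      rw [Equiv.Perm.mul_apply, (mem_filter.1 hσ).2 l hl, Equiv.swap_apply_of_ne_of_ne]
      · exact fun e' => hj (hb e' ▸ hl)
      · exact fun e' => hv (e' ▸ mem_image_of_mem b hl))
    have h2 : (K.image b).card ≤ 4 := card_image_le.trans (by simpa using card_le_univ K)
    rw [filter_filter] at h1
    rw [card_insert_of_notMem hj, pow_succ', ← mul_assoc]
    refine le_trans (Nat.mul_le_mul_right _ (le_trans ?_ h1)) ih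
    refine Nat.mul_le_mul (card_le_card fun σ hσ => ?_) (by omega)
    simp only [mem_filter, mem_insert, forall_eq_or_imp] at hσ ⊢
    tauto

/-- positions of two edges of the cycle -/
def pos (z : Fin n × Fin n) : Fin 4 → Fin n := ![z.1, finRotate n z.1, z.2, finRotate n z.2]

lemma pos_count (l : Fin 4) (q : Fin n) :
    (univ.filter fun z : Fin n × Fin n => pos z l = q).card ≤ n := by
  have h1 : ∀ f : Fin n → Fin n, Function.Injective f →
      (univ.filter fun z : Fin n × Fin n => f z.1 = q).card ≤ n := by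
    intro f hf
    refine (card_le_card_of_injOn (t := univ) Prod.snd (by simp) ?_).trans (by simp)
    intro z hz w hw e
    exact Prod.ext (hf ((mem_filter.1 hz).2.trans (mem_filter.1 hw).2.symm)) e
  have h2 : ∀ f : Fin n → Fin n, Function.Injective f →
      (univ.filter fun z : Fin n × Fin n => f z.2 = q).card ≤ n := by
    intro f hf
    refine (card_le_card_of_injOn (t := univ) Prod.fst (by simp) ?_).trans (by simp)
    intro z hz w hw e
    exact Prod.ext e (hf ((mem_filter.1 hz).2.trans (mem_filter.1 hw).2.symm))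
  fin_cases l
  · exact h1 id fun _ _ h => h
  · exact h1 _ (finRotate n).injective
  · exact h2 id fun _ _ h => h
  · exact h2 _ (finRotate n).injective

theorem exists_cycle (hn : 8 ≤ n) (F : Finset (Finset (Fin n))) (hF : ∀ S ∈ F, S.card = 4)
    (D : ℕ) (hD : ∀ v, (F.filter fun S => v ∈ S).card ≤ D) (hDn : 2 ^ 19 * D ≤ n ^ 2) :
    ∃ σ : Equiv.Perm (Fin n), ∀ i j,
      ({σ i, σ (finRotate n i)} ∪ {σ j, σ (finRotate n j)} : Finset (Fin n)) ∉ F := by
  classical
  let Tup : Finset (Fin 4 → Fin n) := univ.filter fun b => univ.image b ∈ F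
  have t1 : ∀ l v, (Tup.filter fun b => b l = v).card ≤ D * 256 := by
    intro l v
    have : (Tup.filter fun b => b l = v) ⊆
        (F.filter fun S => v ∈ S).biUnion fun S => Fintype.piFinset fun _ => S := by
      intro b hb
      obtain ⟨h1, h2⟩ := mem_filter.1 hb
      exact mem_biUnion.2 ⟨univ.image b, mem_filter.2 ⟨(mem_filter.1 h1).2, by simp [← h2]⟩,
        by simp⟩
    refine (card_le_card this).trans ((card_biUnion_le_card_mul _ _ 256 fun S hS => ?_).trans
      (Nat.mul_le_mul_right _ (hD v)))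
    simp [hF S (mem_filter.1 hS).1]
  have t2 : Tup.card ≤ n * (D * 256) := by
    have : Tup ⊆ univ.biUnion fun v => Tup.filter fun b => b 0 = v := by
      intro b hb; simp [hb]
    exact (card_le_card this).trans ((card_biUnion_le_card_mul _ _ _ fun v _ => t1 0 v).trans
      (by simp))
  let B : (Fin n × Fin n) × (Fin 4 → Fin n) → Finset (Equiv.Perm (Fin n)) :=
    fun e => univ.filter fun σ => ∀ j, σ (pos e.1 j) = e.2 j
  have hn4 : (0 : ℝ) < (n - 4 : ℕ) := by exact_mod_cast (by omega : 0 < n - 4)
  have hn' : (n : ℝ) ≤ 2 * (n - 4 : ℕ) := by exact_mod_cast (by omega : n ≤ 2 * (n - 4))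
  have h4 : (4 : ℝ) ≤ (n - 4 : ℕ) := by exact_mod_cast (by omega : 4 ≤ n - 4)
  obtain ⟨σ, hσ⟩ := lll B (univ ×ˢ Tup)
    (fun e e' => ∃ k l, pos e'.1 l = pos e.1 k ∨ e'.2 l = e.2 k) (1 / ((n - 4 : ℕ) : ℝ) ^ 4)
    (16 * (2 * (n * (n * (D * 256))))) (by positivity) (by
      rw [mul_one_div, div_lt_one (by positivity)]
      have := pow_le_pow_left₀ (by norm_num) h4 4
      linarith) (by
      rw [mul_one_div, div_mul_eq_mul_div, div_le_one (by positivity)]
      have h1 := pow_le_pow_left₀ (by positivity) hn' 4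
      have h2 : (2 : ℝ) ^ 19 * D ≤ n ^ 2 := by exact_mod_cast hDn
      have h3 := mul_le_mul_of_nonneg_left h2 (sq_nonneg (n : ℝ))
      push_cast
      nlinarith) (by
      rintro ⟨z, b⟩ hi S - hS
      have hb : Function.Injective b := by
        have h1 := hF _ (mem_filter.1 (mem_product.1 hi).2).2
        have := card_image_iff.1 (h1.trans (by simp))
        simpa using this
      have := fix_many (av B S) (pos z) b hb (by
        intro σ hσ j e v
        refine mem_av.2 fun e' he' hc => mem_av.1 hσ e' he' (mem_filter.2 ⟨mem_univ _, fun m => ?_⟩)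
        have h1 := (mem_filter.1 hc).2 m
        have h2 := hS e' he'
        push Not at h2
        rw [Equiv.Perm.mul_apply] at h1
        by_cases h3 : σ (pos e'.1 m) = v
        · rw [h3, Equiv.swap_apply_right] at h1
          exact absurd h1.symm (h2 j m).2
        · rwa [Equiv.swap_apply_of_ne_of_ne (fun h => (h2 j m).1 (σ.injective (h.trans e.symm)))
            h3] at h1) univ
      rw [one_div, inv_mul_eq_div, le_div_iff₀ (by positivity)]
      have e1 : B (z, b) ∩ av B S = (av B S).filter fun σ => ∀ j ∈ univ, σ (pos z j) = b j := by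
        ext σ; simp [B, and_comm]
      rw [e1]
      simp only [card_univ, Fintype.card_fin] at this
      exact_mod_cast this) (by
      intro e _
      have : ((univ ×ˢ Tup).filter fun e' : (Fin n × Fin n) × (Fin 4 → Fin n) =>
          ∃ k l, pos e'.1 l = pos e.1 k ∨ e'.2 l = e.2 k) ⊆
          (univ : Finset (Fin 4 × Fin 4)).biUnion fun y =>
            ((univ.filter fun z => pos z y.2 = pos e.1 y.1) ×ˢ Tup) ∪
              (univ ×ˢ Tup.filter fun b => b y.2 = e.2 y.1) := by
        intro e' he'
        obtain ⟨h1, k, l, h2⟩ := mem_filter.1 he'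
        have h3 := (mem_product.1 h1).2
        refine mem_biUnion.2 ⟨(k, l), mem_univ _, ?_⟩
        rcases h2 with h2 | h2
        · exact mem_union_left _ (mem_product.2 ⟨mem_filter.2 ⟨mem_univ _, h2⟩, h3⟩)
        · exact mem_union_right _ (mem_product.2 ⟨mem_univ _, mem_filter.2 ⟨h3, h2⟩⟩)
      refine (card_le_card this).trans ((card_biUnion_le_card_mul _ _
        (2 * (n * (n * (D * 256)))) fun y _ => ?_).trans (by simp))
      refine (card_union_le _ _).trans ?_
      rw [card_product, card_product, two_mul]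
      refine Nat.add_le_add (Nat.mul_le_mul (pos_count _ _) t2) ?_
      rw [card_univ, Fintype.card_prod, Fintype.card_fin, mul_assoc]
      exact Nat.mul_le_mul_left _ (Nat.mul_le_mul_left _ (t1 _ _)))
  refine ⟨σ, fun i j h => mem_av.1 hσ ((i, j), fun l => σ (pos (i, j) l))
    (mem_product.2 ⟨mem_univ _, mem_filter.2 ⟨mem_univ _, ?_⟩⟩) (by simp [B])⟩
  convert h using 1
  ext x
  simp [pos, Fin.exists_fin_succ, eq_comm, or_assoc]
  tauto

end Pool.Agent.H8.PermLLL
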