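import Mathlib

set_option autoImplicit false
open Filter Topology Set MeasureTheory Metric
open scoped ENNReal

namespace Pool.Agent.H8.Polar

lemma scale {s c d d' : ℝ} (hs : 0 ≤ s) (hc : 0 < c) (h : c * d ≤ d') :
    ENNReal.ofReal c ^ s * ENNReal.ofReal d' ^ (-s) ≤ ENNReal.ofReal d ^ (-s) := by
  have h0 : ENNReal.ofReal c ^ s ≠ 0 := (ENNReal.rpow_pos (by simpa using hc) (by simp)).ne'
  have h1 : ENNReal.ofReal c ^ s ≠ ⊤ := ENNReal.rpow_ne_top_of_nonneg hs (by simp)
  have h2 : ENNReal.ofReal c ^ s * ENNReal.ofReal d ^ s ≤ ENNReal.ofReal d' ^ s := by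
    rw [← ENNReal.mul_rpow_of_nonneg _ _ hs, ← ENNReal.ofReal_mul hc.le]
    exact ENNReal.rpow_le_rpow (ENNReal.ofReal_le_ofReal h) hs
  rw [ENNReal.rpow_neg, ENNReal.rpow_neg]
  refine (mul_le_mul_right (ENNReal.inv_le_inv.mpr h2) _).trans (le_of_eq ?_)
  rw [ENNReal.mul_inv (Or.inl h0) (Or.inl h1), ← mul_assoc, ENNReal.mul_inv_cancel h0 h1, one_mul]

lemma fin_bound {s : ℝ} (hs : 1 < s) : ∃ C : ℝ≥0∞, C ≠ ⊤ ∧ ∀ N : ℕ, 0 < N → ∀ x : Fin N → ℝ,
    ⨅ y ∈ Icc (0 : ℝ) 1, ∑ j, ENNReal.ofReal |y - x j| ^ (-s) ≤ C * (N : ℝ≥0∞) ^ s := by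
  have s0 : 0 ≤ s := by linarith
  set h : ℝ → ℝ≥0∞ := fun t => ENNReal.ofReal (1 + |t|) ^ (-s) with hh
  have hm : Measurable h := by fun_prop
  have hJ : ∫⁻ t, h t ≠ ⊤ := by
    refine ne_of_eq_of_ne (lintegral_congr fun t => ?_)
      (finite_integral_one_add_norm (E := ℝ) (μ := volume) (r := s) (by simpa using hs)).ne
    exact ENNReal.ofReal_rpow_of_pos (by positivity)
  refine ⟨8 ^ s * (2 * ∫⁻ t, h t), ENNReal.mul_ne_top (ENNReal.rpow_ne_top_of_nonneg s0 (by simp))
    (ENNReal.mul_ne_top (by simp) hJ), fun N hN x => ?_⟩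
  have N0 : (0 : ℝ) < N := by exact_mod_cast hN
  set m := ⨅ y ∈ Icc (0 : ℝ) 1, ∑ j, ENNReal.ofReal |y - x j| ^ (-s) with hm'
  set A := Icc (0 : ℝ) 1 \ ⋃ j, ball (x j) (1 / (4 * N)) with hA
  have hAm : MeasurableSet A := measurableSet_Icc.diff (MeasurableSet.iUnion fun _ => measurableSet_ball)
  have h1 : 2⁻¹ ≤ volume A := by
    refine le_trans ?_ le_measure_sdiff
    have := measure_iUnion_fintype_le volume fun j => ball (x j) (1 / (4 * N))
    simp only [Real.volume_ball, Finset.sum_const, Finset.card_univ, Fintype.card_fin,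
      nsmul_eq_mul] at this
    rw [← ENNReal.ofReal_natCast, ← ENNReal.ofReal_mul N0.le,
      show (N : ℝ) * (2 * (1 / (4 * N))) = 2⁻¹ by field_simp; norm_num,
      ENNReal.ofReal_inv_of_pos two_pos, ENNReal.ofReal_ofNat] at this
    rw [Real.volume_Icc, sub_zero, ENNReal.ofReal_one]
    exact ENNReal.one_sub_inv_two.ge.trans (tsub_le_tsub_left this 1)
  have h2 : ∀ y ∈ A, ENNReal.ofReal (1 / (8 * N)) ^ s * m ≤ ∑ j, h (4 * N * (y - x j)) := by
    intro y hy
    refine (mul_le_mul_right (iInf₂_le y hy.1) _).trans ?_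
    rw [Finset.mul_sum]
    refine Finset.sum_le_sum fun j _ => scale s0 (by positivity) ?_
    have a1 : 1 / (4 * N) ≤ |y - x j| := not_lt.mp fun h => hy.2 (mem_iUnion.mpr ⟨j, h⟩)
    rw [div_le_iff₀ (by positivity)] at a1
    rw [abs_mul, abs_of_pos (by positivity), one_div, inv_mul_le_iff₀ (by positivity)]
    linarith
  have h3 : ∀ j, ∫⁻ y, h (4 * N * (y - x j)) = ENNReal.ofReal (4 * N)⁻¹ * ∫⁻ t, h t := fun j => by
    rw [lintegral_sub_right_eq_self (fun y => h (4 * N * y)), ← lintegral_map hm (by fun_prop),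
      Real.map_volume_mul_left (by positivity), lintegral_smul_measure, abs_of_pos (by positivity),
      smul_eq_mul]
  have h4 : ENNReal.ofReal (1 / (8 * N)) ^ s * m * 2⁻¹ ≤ ∫⁻ t, h t := by
    refine (mul_le_mul_right h1 _).trans ?_
    rw [← setLIntegral_const]
    refine (setLIntegral_mono' hAm h2).trans ((setLIntegral_le_lintegral _ _).trans ?_)
    rw [lintegral_finsetSum _ fun j _ => by fun_prop]
    simp only [h3, Finset.sum_const, Finset.card_univ, Fintype.card_fin, nsmul_eq_mul]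
    rw [← mul_assoc, ← ENNReal.ofReal_natCast, ← ENNReal.ofReal_mul N0.le]
    refine mul_le_of_le_one_left' (ENNReal.ofReal_le_one.mpr ?_)
    rw [← div_eq_mul_inv, div_le_one (by positivity)]
    linarith
  have h5 : (8 : ℝ≥0∞) ^ s * (N : ℝ≥0∞) ^ s * ENNReal.ofReal (1 / (8 * N)) ^ s = 1 := by
    rw [← ENNReal.mul_rpow_of_nonneg _ _ s0, ← ENNReal.mul_rpow_of_nonneg _ _ s0,
      ← ENNReal.ofReal_natCast, ← ENNReal.ofReal_ofNat 8, ← ENNReal.ofReal_mul (by norm_num),
      ← ENNReal.ofReal_mul (by positivity), mul_one_div_cancel (by positivity)]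
    simp
  calc m = 8 ^ s * (N : ℝ≥0∞) ^ s * 2 * (ENNReal.ofReal (1 / (8 * N)) ^ s * m * 2⁻¹) := by
        rw [show ∀ a b c : ℝ≥0∞, a * 2 * (b * c * 2⁻¹) = a * b * c * (2 * 2⁻¹) from
          fun a b c => by ring, h5, ENNReal.mul_inv_cancel (by simp) (by simp), one_mul, mul_one]
    _ ≤ 8 ^ s * (N : ℝ≥0∞) ^ s * 2 * ∫⁻ t, h t := mul_le_mul_right h4 _
    _ = _ := by ring

lemma collapse {K : Set ℝ} (hK : IsCompact K) (hne : K.Nonempty) (h1 : K ⊆ Icc 0 1)
    (hl : 0 < volume.real K) : ∃ φ : ℝ → ℝ, (∀ x y, volume.real K * |φ y - φ x| ≤ |y - x|) ∧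
      ∀ u ∈ Icc (0 : ℝ) 1, ∃ y ∈ K, φ y = u := by
  have hf : ∀ S, volume (K ∩ S) ≠ ⊤ := fun S =>
    ((measure_mono inter_subset_left).trans_lt hK.measure_lt_top).ne
  set ψ : ℝ → ℝ := fun x => volume.real (K ∩ Iic x) with hψ
  have a1 : ∀ x y, x ≤ y → |ψ y - ψ x| ≤ |y - x| := fun x y h => by
    have b1 : ψ x ≤ ψ y := measureReal_mono (inter_subset_inter_right _ (Iic_subset_Iic.mpr h)) (hf _)
    have b2 : ψ y ≤ volume.real (K ∩ Iic x ∪ Ioc x y) := measureReal_mono (fun z hz =>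
      (le_or_gt z x).imp (fun h => ⟨hz.1, h⟩) fun h => ⟨h, hz.2⟩)
      (measure_union_ne_top (hf _) measure_Ioc_lt_top.ne)
    have b3 := b2.trans (measureReal_union_le _ _)
    rw [Real.volume_real_Ioc_of_le h] at b3
    rw [abs_of_nonneg (by linarith), abs_of_nonneg (by linarith)]
    linarith
  have a2 : ∀ x y, |ψ y - ψ x| ≤ |y - x| := fun x y => by
    rcases le_total x y with h | h
    · exact a1 x y h
    · rw [abs_sub_comm, abs_sub_comm y]
      exact a1 y x h
  have a3 : Continuous ψ := (LipschitzWith.of_dist_le_mul (K := 1) fun x y => by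
    simpa [Real.dist_eq] using a2 y x).continuous
  refine ⟨fun x => ψ x / volume.real K, fun x y => ?_, fun u hu => ?_⟩
  · rw [← sub_div, abs_div, abs_of_pos hl, mul_div_cancel₀ _ hl.ne']
    exact a2 x y
  · obtain ⟨y0, y1, y2⟩ := hK.exists_isLeast hne
    have b1 : ψ y0 = 0 := by
      rw [hψ]
      simp only [measureReal_def]
      rw [measure_mono_null (fun z hz => le_antisymm hz.2 (y2 hz.1)) (measure_singleton y0)]
      rfl
    have b2 : ψ 1 = volume.real K := by
      rw [hψ]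
      simp only
      rw [inter_eq_left.mpr (show K ⊆ Iic 1 from fun z hz => (h1 hz).2)]
    obtain ⟨t, t1, t2⟩ := intermediate_value_Icc (h1 y1).2 a3.continuousOn
      (show u * volume.real K ∈ _ from ⟨by rw [b1]; exact mul_nonneg hu.1 hl.le,
        by rw [b2]; exact mul_le_of_le_one_left hl.le hu.2⟩)
    obtain ⟨y, y3, y4⟩ := (hK.inter_right isClosed_Iic).exists_isGreatest ⟨y0, y1, t1.1⟩
    refine ⟨y, y3.1, ?_⟩
    have : K ∩ Iic y = K ∩ Iic t := subset_antisymm
      (inter_subset_inter_right _ (Iic_subset_Iic.mpr y3.2)) fun z hz => ⟨hz.1, y4 hz⟩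
    rw [div_eq_iff hl.ne', ← t2, hψ]
    simp only [this]

open Classical in
lemma cells {K : Set ℝ} (hK : IsCompact K) {M δ : ℝ} (hM : 0 < M) (hδ : 0 < δ) (c n : ℕ)
    (bad : ℕ → Prop)
    (hb : ∀ i, bad i → ∃ x, Ioo x (x + δ / M) ⊆ Ico (i / M) ((i + 1) / M) \ K) :
    ((∑ i ∈ Finset.range n, if (Ico (i / M) ((i + 1) / M) ∩ K).Nonempty then
      (if bad i then c else 1) else 0 : ℕ) : ℝ) ≤
      M * (volume.real K + (1 + c / δ) * volume.real (cthickening (1 / M) K \ K)) := by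
  set E := cthickening (1 / M) K \ K with hE
  have hEf : volume E ≠ ⊤ :=
    ((measure_mono sdiff_subset).trans_lt hK.cthickening.measure_lt_top).ne
  have hsum : ∀ S : Set ℝ, MeasurableSet S → volume S ≠ ⊤ →
      ∑ i ∈ Finset.range n, volume.real (Ico (i / M) ((i + 1) / M) ∩ S) ≤ volume.real S := by
    intro S h1 h2
    rw [← measureReal_biUnion_finset (fun i _ j _ hij => ?_)
      (fun i _ => measurableSet_Ico.inter h1)
      fun i _ => ((measure_mono inter_subset_right).trans_lt h2.lt_top).ne]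
    · exact measureReal_mono (iUnion₂_subset fun _ _ => inter_subset_right) h2
    · refine Set.disjoint_left.mpr fun y h3 h4 => hij ?_
      have a1 := (div_lt_div_iff_of_pos_right hM).mp (h3.1.1.trans_lt h4.1.2)
      have a2 := (div_lt_div_iff_of_pos_right hM).mp (h4.1.1.trans_lt h3.1.2)
      norm_cast at a1 a2
      omega
  have h1 := hsum K hK.measurableSet hK.measure_lt_top.ne
  have h2 := hsum E (isClosed_cthickening.measurableSet.diff hK.measurableSet) hEf
  refine le_trans ?_ (mul_le_mul_of_nonneg_left (add_le_add h1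
    (mul_le_mul_of_nonneg_left h2 (by positivity))) hM.le)
  rw [Finset.mul_sum, ← Finset.sum_add_distrib, Finset.mul_sum, Nat.cast_sum]
  refine Finset.sum_le_sum fun i _ => ?_
  have p1 := measureReal_nonneg (μ := volume) (s := Ico (i / M) ((i + 1) / M) ∩ K)
  have p2 := measureReal_nonneg (μ := volume) (s := Ico (i / M) ((i + 1) / M) ∩ E)
  have hf : volume (Ico (i / M) ((i + 1) / M) ∩ E) ≠ ⊤ :=
    ((measure_mono inter_subset_right).trans_lt hEf.lt_top).ne
  by_cases hi : (Ico (i / M) ((i + 1) / M) ∩ K).Nonempty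
  swap
  · rw [if_neg hi, Nat.cast_zero]
    positivity
  obtain ⟨w, w1, w2⟩ := id hi
  have a1 : Ico (i / M) ((i + 1) / M) \ K ⊆ Ico (i / M) ((i + 1) / M) ∩ E := fun y hy =>
    ⟨hy.1, mem_cthickening_of_dist_le y w _ _ w2 (by
      have e : ((i : ℝ) + 1) / M = i / M + 1 / M := add_div _ _ _
      rw [Real.dist_eq, abs_le]
      constructor <;> linarith [hy.1.1, hy.1.2, w1.1, w1.2]), hy.2⟩
  have p3 : 0 ≤ c / δ * volume.real (Ico (i / M) ((i + 1) / M) ∩ E) := by positivity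
  rw [if_pos hi, ← div_le_iff₀' hM]
  split_ifs with hbad
  · obtain ⟨x, hx⟩ := hb i hbad
    have a2 := measureReal_mono (hx.trans a1) hf
    rw [Real.volume_real_Ioo_of_le (by simp; positivity), add_sub_cancel_left] at a2
    have a3 := mul_le_mul_of_nonneg_left a2 (show 0 ≤ c / δ by positivity)
    rw [show c / δ * (δ / M) = c / M by field_simp] at a3
    linarith
  · have a2 := measureReal_inter_add_sdiff (μ := volume) (s := Ico (i / M) ((i + 1) / M))
      hK.measurableSet measure_Ico_lt_top.ne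
    have a3 := measureReal_mono a1 hf
    rw [Real.volume_real_Ico_of_le (by gcongr; linarith), ← sub_div, add_sub_cancel_left] at a2
    rw [Nat.cast_one]
    linarith

lemma lower {K : Set ℝ} (hK : IsCompact K) (hne : K.Nonempty) (h1 : K ⊆ Icc 0 1) {s δ : ℝ}
    (hs : 0 ≤ s) (hδ : 0 < δ) (hδ' : δ ≤ 1 / 2) {n : ℕ} (z : Fin n → ℝ)
    (hz : ∀ j, z j ∈ Icc (0 : ℝ) 1) {v : ℝ≥0∞}
    (hv : ∀ u ∈ Icc (0 : ℝ) 1, v ≤ ∑ j, ENNReal.ofReal (|u - z j| + δ) ^ (-s)) {M N : ℕ}
    (hM : 0 < M) (hN : M * (volume.real K + (1 + ⌈(2 : ℝ) ^ s⌉₊ / δ) *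
      volume.real (cthickening (1 / M) K \ K)) * n ≤ N) :
    ∃ x : Fin N → ℝ, (∀ i, x i ∈ K) ∧
      ∀ y ∈ K, (M : ℝ≥0∞) ^ s * v ≤ ∑ j, ENNReal.ofReal |y - x j| ^ (-s) := by
  classical
  have M0 : (0 : ℝ) < M := by exact_mod_cast hM
  choose w w1 w2 using fun x : ℝ => hK.exists_isMinOn hne
    (f := fun y => |y - x|) (by fun_prop : Continuous _).continuousOn
  set bad : ℕ → Prop := fun i => ∃ j, δ / M < |w ((i + z j) / M) - (i + z j) / M| with hbad
  set mu : ℕ → ℕ := fun i => if (Ico (i / (M : ℝ)) ((i + 1) / M) ∩ K).Nonempty then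
    (if bad i then ⌈(2 : ℝ) ^ s⌉₊ else 1) else 0 with hmu
  have hc := cells hK M0 hδ ⌈(2 : ℝ) ^ s⌉₊ (M + 1) bad fun i ⟨j, hj⟩ => by
    have hk : ∀ y, |y - (i + z j) / M| < δ / M → y ∉ K := fun y h hy =>
      (h.trans hj).not_ge (w2 _ hy)
    have z0 := (hz j).1
    have z1 := (hz j).2
    have d0 : 0 < δ / M := by positivity
    rcases le_total (z j) (1 / 2) with h | h
    · refine ⟨(i + z j) / M, fun y hy => ⟨⟨le_trans (by gcongr; linarith) hy.1.le,
        hy.2.trans_le (by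
          rw [← add_div]; exact div_le_div_of_nonneg_right (by linarith) M0.le)⟩, hk y ?_⟩⟩
      rw [abs_lt]
      constructor <;> linarith [hy.1, hy.2]
    · refine ⟨(i + z j) / M - δ / M, fun y hy => ⟨⟨le_trans
        (by rw [← sub_div]; gcongr; linarith) hy.1.le,
        hy.2.trans_le (by rw [sub_add_cancel]; gcongr)⟩, hk y ?_⟩⟩
      rw [abs_lt]
      constructor <;> linarith [hy.1, hy.2]
  have hcard : Fintype.card (Σ i : Fin (M + 1), Fin (mu i) × Fin n) ≤ Fintype.card (Fin N) := by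
    simp only [Fintype.card_sigma, Fintype.card_prod, Fintype.card_fin, ← Finset.sum_mul]
    rw [Fin.sum_univ_eq_sum_range mu]
    refine Nat.cast_le (α := ℝ).mp (le_trans ?_ hN)
    rw [Nat.cast_mul]
    refine mul_le_mul_of_nonneg_right ?_ n.cast_nonneg
    refine le_trans (le_of_eq (congrArg _ (Finset.sum_congr rfl fun i _ => ?_))) hc
    simp only [hmu]
    split_ifs <;> rfl
  obtain ⟨e⟩ := Function.Embedding.nonempty_of_card_le hcard
  refine ⟨Function.extend e (fun q => w ((q.1 + z q.2.2) / M)) fun _ => w 0, fun i => ?_,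
    fun y hy => ?_⟩
  · rw [Function.extend_def]
    split_ifs <;> exact w1 _
  have y0 : 0 ≤ M * y := mul_nonneg M0.le (h1 hy).1
  have i1 := Nat.floor_le y0
  have i2 := Nat.lt_floor_add_one (M * y)
  have i3 : ⌊M * y⌋₊ < M + 1 := (Nat.floor_lt y0).mpr (by
    push_cast
    linarith [mul_le_of_le_one_right M0.le (h1 hy).2])
  set i := ⌊M * y⌋₊
  refine le_trans ?_ (Finset.sum_le_sum_of_subset (Finset.subset_univ (Finset.univ.map e)))
  rw [Finset.sum_map]
  simp only [e.injective.extend_apply]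
  rw [Fintype.sum_sigma]
  refine le_trans ?_ (Finset.single_le_sum (fun _ _ => zero_le) (Finset.mem_univ ⟨i, i3⟩))
  rw [Fintype.sum_prod_type]
  simp only [Finset.sum_const, Finset.card_univ, Fintype.card_fin, nsmul_eq_mul]
  refine (mul_le_mul_right (hv (M * y - i) ⟨by linarith, by linarith⟩) _).trans ?_
  rw [Finset.mul_sum, Finset.mul_sum]
  refine Finset.sum_le_sum fun j _ => ?_
  have e1 : |M * y - i - z j| = M * |y - (i + z j) / M| := by
    rw [← abs_of_pos M0, ← abs_mul, abs_of_pos M0]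
    congr 1
    field_simp
    ring
  have e2 := abs_sub_le y ((i + z j) / M) (w ((i + z j) / M))
  rw [abs_sub_comm ((i + z j) / M) (w _)] at e2
  have e3 := mul_le_mul_of_nonneg_left e2 M0.le
  rw [hmu]
  simp only
  rw [if_pos ⟨y, ⟨by rw [div_le_iff₀ M0]; linarith, by rw [lt_div_iff₀ M0]; linarith⟩, hy⟩]
  split_ifs with hb
  · have e4 : |w ((i + z j) / M) - (i + z j) / M| ≤ |y - (i + z j) / M| := w2 _ hy
    have e5 := mul_le_mul_of_nonneg_left e4 M0.le
    refine le_trans ?_ (mul_le_mul_right (scale hs (half_pos M0)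
      (d' := |M * y - i - z j| + δ) (by rw [e1]; linarith)) _)
    rw [← mul_assoc]
    refine mul_le_mul_left ?_ _
    rw [← ENNReal.ofReal_natCast, ← ENNReal.ofReal_natCast,
      ENNReal.ofReal_rpow_of_pos M0, ENNReal.ofReal_rpow_of_pos (half_pos M0),
      ← ENNReal.ofReal_mul (Nat.cast_nonneg _), Real.div_rpow M0.le zero_le_two]
    refine ENNReal.ofReal_le_ofReal ?_
    rw [← mul_div_assoc, le_div_iff₀ (by positivity), mul_comm]
    exact mul_le_mul_of_nonneg_right (Nat.le_ceil _) (by positivity)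
  · have e4 : |w ((i + z j) / M) - (i + z j) / M| ≤ δ / M := not_lt.mp fun h => hb ⟨j, h⟩
    rw [le_div_iff₀' M0] at e4
    rw [Nat.cast_one, one_mul, ← ENNReal.ofReal_natCast]
    exact scale hs M0 (by rw [e1]; linarith)

end Pool.Agent.H8.Polar
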