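import Mathlib

namespace Pool.Agent.H8.Ritt

open Finset

/-- symmetric log-concave probability weights on the integers with second moment `S` -/
structure Good (f : ℤ → ℝ) (S : ℝ) : Prop where
  nn : ∀ x, 0 ≤ f x
  sym : ∀ x, f (-x) = f x
  lc : ∀ i j, i ≤ j → f (i - 1) * f (j + 1) ≤ f i * f j
  m0 : HasSum f 1
  m1 : HasSum (fun x : ℤ => (x : ℝ) * f x) 0
  m2 : HasSum (fun x : ℤ => (x : ℝ) ^ 2 * f x) S

lemma hs_congr {ι : Type*} {F G : ι → ℝ} {a b : ℝ} (h : HasSum F a) (hf : ∀ x, G x = F x)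
    (ha : b = a) : HasSum G b := by
  rw [ha, show G = F from funext hf]; exact h

lemma lc_multi {f : ℤ → ℝ} (lc : ∀ i j, i ≤ j → f (i - 1) * f (j + 1) ≤ f i * f j)
    (a b c d : ℤ) (h : a + b = c + d) (h1 : a ≤ c) (h2 : a ≤ d) : f a * f b ≤ f c * f d := by
  have key : ∀ c d : ℤ, c ≤ d → ∀ n : ℕ, f (c - n) * f (d + n) ≤ f c * f d := by
    intro c d hcd n
    induction n with
    | zero => simp
    | succ n ih =>
      have := lc (c - n) (d + n) (by omega)
      have e1 : c - ((n + 1 : ℕ) : ℤ) = c - n - 1 := by push_cast; ring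
      have e2 : d + ((n + 1 : ℕ) : ℤ) = d + n + 1 := by push_cast; ring
      rw [e1, e2]; exact this.trans ih
  rcases le_total c d with hcd | hcd
  · obtain ⟨n, hn⟩ := Int.eq_ofNat_of_zero_le (show 0 ≤ c - a by omega)
    have := key c d hcd n
    rwa [show c - n = a by omega, show d + n = b by omega] at this
  · obtain ⟨n, hn⟩ := Int.eq_ofNat_of_zero_le (show 0 ≤ d - a by omega)
    have := key d c hcd n
    rwa [show d - n = a by omega, show c + n = b by omega, mul_comm (f d)] at this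

lemma Good.anti {f : ℤ → ℝ} {S : ℝ} (h : Good f S) {x y : ℤ} (hx : 0 ≤ x) (hxy : x ≤ y) :
    f y ≤ f x := by
  have := lc_multi h.lc (-y) y (-x) x (by ring) (by omega) (by omega)
  rw [h.sym, h.sym] at this
  exact (mul_self_le_mul_self_iff (h.nn y) (h.nn x)).2 this

/-- the averaging operator -/
noncomputable def av (V : ℕ) (f : ℤ → ℝ) (x : ℤ) : ℝ :=
  (1 / (2 * (V : ℝ) + 1)) * ∑ l ∈ range (2 * V + 1), f (x - ((l : ℤ) - V))

lemma sum1 (m : ℕ) : ∑ l ∈ range m, (l : ℝ) = m * (m - 1) / 2 := by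
  induction m with
  | zero => simp
  | succ m ih => rw [sum_range_succ, ih]; push_cast; ring

lemma sum2 (m : ℕ) : ∑ l ∈ range m, (l : ℝ) ^ 2 = (m - 1) * m * (2 * m - 1) / 6 := by
  induction m with
  | zero => simp
  | succ m ih => rw [sum_range_succ, ih]; push_cast; ring

lemma win_step (f : ℤ → ℝ) (m : ℕ) (x : ℤ) :
    ∑ l ∈ range m, f (x + 1 - l) = ∑ l ∈ range m, f (x - l) + f (x + 1) - f (x + 1 - m) := by
  induction m with
  | zero => simp
  | succ m ih =>
    rw [sum_range_succ, sum_range_succ, ih]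
    have : x + 1 - ((m + 1 : ℕ) : ℤ) = x - m := by push_cast; ring
    rw [this]; ring

lemma win_lc {f : ℤ → ℝ} (lc : ∀ i j, i ≤ j → f (i - 1) * f (j + 1) ≤ f i * f j) (m : ℕ)
    (i j : ℤ) (hij : i ≤ j) :
    (∑ l ∈ range m, f (i - 1 - l)) * (∑ l ∈ range m, f (j + 1 - l)) ≤
      (∑ l ∈ range m, f (i - l)) * (∑ l ∈ range m, f (j - l)) := by
  have e1 := win_step f m j
  have e2 := win_step f m (i - 1)
  rw [show i - 1 + 1 = i by ring] at e2
  have b1 : (∑ l ∈ range m, f (i - l)) * f (j + 1) ≤ (∑ l ∈ range m, f (j + 1 - l)) * f i := by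
    rw [sum_mul, sum_mul]
    refine sum_le_sum fun l _ => lc_multi lc _ _ _ _ (by ring) (by omega) (by omega)
  have b2 : (∑ l ∈ range m, f (j + 1 - l)) * f (i - m) ≤
      (∑ l ∈ range m, f (i - l)) * f (j + 1 - m) := by
    rw [sum_mul, sum_mul]
    refine sum_le_sum fun l hl => ?_
    have := mem_range.1 hl
    rw [mul_comm]
    exact lc_multi lc _ _ _ _ (by ring) (by omega) (by omega)
  have e3 : ∑ l ∈ range m, f (i - 1 - l) = ∑ l ∈ range m, f (i - l) - f i + f (i - m) := by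
    linarith
  have e4 : ∑ l ∈ range m, f (j - l) = ∑ l ∈ range m, f (j + 1 - l) - f (j + 1) + f (j + 1 - m) := by
    linarith
  rw [e3, e4]
  nlinarith

lemma shift_sum {F : ℤ → ℝ} {a : ℝ} (h : HasSum F a) (k : ℤ) : HasSum (fun x => F (x - k)) a :=
  (Equiv.subRight k).hasSum_iff.2 h

lemma Good.av {f : ℤ → ℝ} {S : ℝ} (h : Good f S) (V : ℕ) :
    Good (av V f) (S + (V : ℝ) * (V + 1) / 3) := by
  have hp : (0 : ℝ) < 2 * (V : ℝ) + 1 := by positivity
  have s0 : ∑ l ∈ range (2 * V + 1), (1 : ℝ) = 2 * (V : ℝ) + 1 := by simp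
  have s1 : ∑ l ∈ range (2 * V + 1), ((l : ℝ) - V) = 0 := by
    rw [sum_sub_distrib, sum1]; simp; ring
  have s2 : ∑ l ∈ range (2 * V + 1), ((l : ℝ) - V) ^ 2 = (2 * (V : ℝ) + 1) * (V * (V + 1) / 3) := by
    have : ∀ l : ℕ, ((l : ℝ) - V) ^ 2 = (l : ℝ) ^ 2 - 2 * V * (l : ℝ) + (V : ℝ) ^ 2 := fun l => by ring
    simp only [this]
    rw [sum_add_distrib, sum_sub_distrib, ← mul_sum, sum1, sum2]; simp; ring
  refine ⟨fun x => mul_nonneg (by positivity) (sum_nonneg fun l _ => h.nn _), fun x => ?_,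
    fun i j hij => ?_, ?_, ?_, ?_⟩
  · unfold Ritt.av
    congr 1
    rw [← sum_range_reflect]
    refine sum_congr rfl fun l hl => ?_
    have := mem_range.1 hl
    rw [← h.sym]
    congr 1
    have : ((2 * V + 1 - 1 - l : ℕ) : ℤ) = 2 * V - l := by omega
    rw [this]; ring
  · unfold Ritt.av
    have := win_lc h.lc (2 * V + 1) (i + V) (j + V) (by omega)
    have r : ∀ y : ℤ, ∑ l ∈ range (2 * V + 1), f (y - ((l : ℤ) - V)) =
        ∑ l ∈ range (2 * V + 1), f (y + V - l) := fun y =>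
      sum_congr rfl fun l _ => by congr 1; ring
    rw [r, r, r, r, show i - 1 + V = i + V - 1 by ring, show j + 1 + V = j + V + 1 by ring]
    have hc : (0 : ℝ) ≤ (1 / (2 * (V : ℝ) + 1)) ^ 2 := by positivity
    nlinarith [mul_le_mul_of_nonneg_left this hc]
  · have := (hasSum_sum (s := range (2 * V + 1))
      (fun l _ => shift_sum h.m0 ((l : ℤ) - V))).mul_left (1 / (2 * (V : ℝ) + 1))
    rw [s0, one_div_mul_cancel hp.ne'] at this
    exact this
  · have hl : ∀ l : ℕ, HasSum (fun x : ℤ => (x : ℝ) * f (x - ((l : ℤ) - V))) ((l : ℝ) - V) := by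
      intro l
      have := shift_sum (h.m1.add (h.m0.mul_left ((l : ℝ) - V))) ((l : ℤ) - V)
      rw [zero_add, mul_one] at this
      convert this using 2 with x
      push_cast; ring
    have := (hasSum_sum (s := range (2 * V + 1)) (fun l _ => hl l)).mul_left (1 / (2 * (V : ℝ) + 1))
    rw [s1, mul_zero] at this
    refine hs_congr this (fun x => ?_) rfl
    unfold Ritt.av
    rw [← mul_sum]; ring
  · have hl : ∀ l : ℕ, HasSum (fun x : ℤ => (x : ℝ) ^ 2 * f (x - ((l : ℤ) - V)))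
        (S * 1 + ((l : ℝ) - V) ^ 2) := by
      intro l
      have := shift_sum ((h.m2.add (h.m1.mul_left (2 * ((l : ℝ) - V)))).add
        (h.m0.mul_left (((l : ℝ) - V) ^ 2))) ((l : ℤ) - V)
      rw [mul_zero, add_zero, mul_one] at this
      rw [mul_one]
      convert this using 2 with x
      push_cast; ring
    have := (hasSum_sum (s := range (2 * V + 1)) (fun l _ => hl l)).mul_left (1 / (2 * (V : ℝ) + 1))
    rw [sum_add_distrib, ← mul_sum, s0, s2] at this
    refine hs_congr this (fun x => ?_) ?_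
    · unfold Ritt.av
      rw [← mul_sum]; ring
    · field_simp

lemma good_delta : Good (fun x => if x = 0 then 1 else 0) 0 := by
  refine ⟨fun x => by split_ifs <;> norm_num, fun x => by simp, fun i j hij => ?_,
    hasSum_ite_eq 0 1, ?_, ?_⟩
  · by_cases h1 : i - 1 = 0
    · have : j + 1 ≠ 0 := by omega
      simp only [this, if_false, mul_zero]
      split_ifs <;> norm_num
    · simp only [h1, if_false, zero_mul]
      split_ifs <;> norm_num
  · convert hasSum_zero using 2 with x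
    split_ifs with h <;> simp [*]
  · convert hasSum_zero using 2 with x
    split_ifs with h <;> simp [*]

lemma Good.nat_sum {f : ℤ → ℝ} {S : ℝ} (h : Good f S) :
    HasSum (fun n : ℕ => f n) ((1 + f 0) / 2) := by
  have := h.m0.nat_add_neg.div_const 2
  refine hs_congr this (fun n => ?_) rfl
  rw [h.sym]; ring

lemma Good.top_le {f : ℤ → ℝ} {S : ℝ} (h : Good f S) : f 0 ≤ 1 :=
  le_hasSum h.m0 0 (fun j _ => h.nn j)

lemma Good.peak {f : ℤ → ℝ} {S : ℝ} (h : Good f S) : f 0 ^ 2 * S ≤ 180 := by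
  rcases (h.nn 0).eq_or_lt with h0 | h0
  · rw [← h0]; norm_num
  have hM := h.top_le
  set M := f 0 with hMd
  obtain ⟨H, hH1, hH2⟩ : ∃ H : ℕ, 2 / M ≤ H ∧ (H : ℝ) ≤ 3 / M := by
    refine ⟨⌈2 / M⌉₊, Nat.le_ceil _, ?_⟩
    have := (Nat.ceil_lt_add_one (show 0 ≤ 2 / M by positivity)).le
    have h1 : 1 ≤ 1 / M := by rw [le_div_iff₀ h0]; linarith
    have : 3 / M = 2 / M + 1 / M := by ring
    linarith
  have hs := h.nat_sum
  have hs1 : (1 + M) / 2 ≤ 1 := by linarith
  have hA : HasSum (fun n : ℕ => (n : ℝ) ^ 2 * f n) (S / 2) := by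
    have := h.m2.nat_add_neg.div_const 2
    simp only [Int.cast_zero, ne_eq, OfNat.ofNat_ne_zero, not_false_eq_true, zero_pow, zero_mul,
      add_zero] at this
    refine hs_congr this (fun n => ?_) rfl
    rw [h.sym]; push_cast; ring
  have hfH : f H ≤ M / 2 := by
    have a1 : ∑ x ∈ range H, f H ≤ ∑ x ∈ range H, f x :=
      sum_le_sum fun x hx => h.anti (by omega) (by have := mem_range.1 hx; omega)
    have a2 : ∑ x ∈ range H, f x ≤ (1 + M) / 2 := sum_le_hasSum _ (fun i _ => h.nn _) hs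
    rw [sum_const, card_range, nsmul_eq_mul] at a1
    rw [div_le_iff₀ h0] at hH1
    have := h.nn H
    nlinarith
  have hhalf : ∀ x : ℕ, f ((x + H : ℕ) : ℤ) ≤ f x / 2 := by
    intro x
    have := lc_multi h.lc 0 ((x + H : ℕ) : ℤ) H x (by push_cast; ring) (by omega) (by omega)
    have h2 := mul_le_mul_of_nonneg_right hfH (h.nn x)
    have : M * f ((x + H : ℕ) : ℤ) ≤ M * (f x / 2) := by linarith
    exact le_of_mul_le_mul_left this h0
  have t1 := (hasSum_nat_add_iff' H).2 hA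
  have t2 : HasSum (fun x : ℕ => 3 / 4 * ((x : ℝ) ^ 2 * f x) + 3 / 2 * (H : ℝ) ^ 2 * f x)
      (3 / 4 * (S / 2) + 3 / 2 * (H : ℝ) ^ 2 * ((1 + M) / 2)) :=
    (hA.mul_left _).add (hs.mul_left _)
  have t3 := hasSum_le (fun x : ℕ => by
    show ((x + H : ℕ) : ℝ) ^ 2 * f ((x + H : ℕ) : ℤ) ≤
      3 / 4 * ((x : ℝ) ^ 2 * f x) + 3 / 2 * (H : ℝ) ^ 2 * f x
    have b1 : ((x + H : ℕ) : ℝ) ^ 2 ≤ 3 / 2 * (x : ℝ) ^ 2 + 3 * (H : ℝ) ^ 2 := by
      push_cast; nlinarith [sq_nonneg ((x : ℝ) - 2 * H)]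
    have b2 := mul_le_mul b1 (hhalf x) (h.nn _) (by positivity)
    linarith) t1 t2
  have t4 : ∑ i ∈ range H, (i : ℝ) ^ 2 * f i ≤ (H : ℝ) ^ 2 := by
    have a1 : ∑ i ∈ range H, (i : ℝ) ^ 2 * f i ≤ ∑ i ∈ range H, (H : ℝ) ^ 2 * f i :=
      sum_le_sum fun i hi => mul_le_mul_of_nonneg_right
        (pow_le_pow_left₀ (by positivity) (by exact_mod_cast (mem_range.1 hi).le) 2) (h.nn _)
    have a2 : ∑ x ∈ range H, f x ≤ (1 + M) / 2 := sum_le_hasSum _ (fun i _ => h.nn _) hs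
    rw [← mul_sum] at a1
    nlinarith [sq_nonneg (H : ℝ)]
  have t5 : S ≤ 20 * (H : ℝ) ^ 2 := by nlinarith [sq_nonneg (H : ℝ)]
  rw [le_div_iff₀ h0] at hH2
  have t6 : (M * H) ^ 2 ≤ 9 := by
    have : 0 ≤ M * H := by positivity
    nlinarith
  nlinarith [mul_le_mul_of_nonneg_left t5 (sq_nonneg M)]

lemma Good.grad {f : ℤ → ℝ} {S : ℝ} (h : Good f S) :
    HasSum (fun x => |f x - f (x + 1)|) (2 * f 0) := by
  have hs := h.nat_sum
  have t1 := (hasSum_nat_add_iff' 1).2 hs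
  have t2 := hs.sub t1
  simp only [range_one, sum_singleton, Nat.cast_zero] at t2
  have e : (1 + f 0) / 2 - ((1 + f 0) / 2 - f 0) = f 0 := by ring
  rw [e] at t2
  have hd : ∀ n : ℕ, 0 ≤ f n - f ((n + 1 : ℕ) : ℤ) := fun n => by
    have := h.anti (x := n) (y := ((n + 1 : ℕ) : ℤ)) (by omega) (by omega); linarith
  rw [two_mul]
  refine HasSum.of_nat_of_neg_add_one ?_ ?_
  · refine hs_congr t2 (fun n => ?_) rfl
    have := hd n
    push_cast at this ⊢
    exact abs_of_nonneg this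
  · refine hs_congr t2 (fun n => ?_) rfl
    have := hd n
    rw [show (-((n : ℤ) + 1) + 1) = -(n : ℤ) by ring, h.sym, h.sym, abs_sub_comm]
    push_cast at this ⊢
    exact abs_of_nonneg this

lemma split_half {ι : Type*} [DecidableEq ι] (w : ι → ℝ) (W : ℝ) (hW : 0 ≤ W) (t : Finset ι)
    (h : ∀ j ∈ t, 0 ≤ w j ∧ w j ≤ W) :
    ∃ t1 t2 : Finset ι, Disjoint t1 t2 ∧ t1 ∪ t2 = t ∧
      |∑ j ∈ t1, w j - ∑ j ∈ t2, w j| ≤ W := by
  induction t using Finset.induction_on with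
  | empty => exact ⟨∅, ∅, by simp, by simp, by simpa using hW⟩
  | insert a t ha ih =>
    obtain ⟨t1, t2, hd, hu, hb⟩ := ih (fun j hj => h j (mem_insert_of_mem hj))
    obtain ⟨w0, w1⟩ := h a (mem_insert_self _ _)
    have n1 : a ∉ t1 := fun hh => ha (hu ▸ mem_union_left _ hh)
    have n2 : a ∉ t2 := fun hh => ha (hu ▸ mem_union_right _ hh)
    rw [abs_le] at hb
    rcases le_total (∑ j ∈ t1, w j) (∑ j ∈ t2, w j) with hc | hc
    · refine ⟨insert a t1, t2, by simp [hd, n2], by rw [insert_union, hu], ?_⟩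
      rw [sum_insert n1, abs_le]; constructor <;> linarith
    · refine ⟨t1, insert a t2, by simp [hd, n1], by rw [union_insert, hu], ?_⟩
      rw [sum_insert n2, abs_le]; constructor <;> linarith

end Pool.Agent.H8.Ritt
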