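import Pool.Agent.H8.Ritt1

namespace Pool.Agent.H8.Ritt

open Finset

noncomputable def conv (f g : ℤ → ℝ) (k : ℤ) : ℝ := ∑' j, f j * g (k - j)

def shear : ℤ × ℤ ≃ ℤ × ℤ where
  toFun p := (p.2, p.1 - p.2)
  invFun p := (p.1 + p.2, p.1)
  left_inv p := by simp
  right_inv p := by simp

lemma conv_aux {f g : ℤ → ℝ} (hf : Summable f) (hg : Summable g) :
    HasSum (fun p : ℤ × ℤ => f p.2 * g (p.1 - p.2)) ((∑' x, f x) * ∑' x, g x) := by
  have h1 : Summable fun p : ℤ × ℤ => f p.1 * g p.2 :=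
    summable_mul_of_summable_norm hf.norm hg.norm
  have h2 := hf.hasSum.mul hg.hasSum h1
  exact shear.hasSum_iff.2 h2

lemma conv_inner {f g : ℤ → ℝ} (hf : Summable f) (hg : Summable g) (k : ℤ) :
    Summable fun j => f j * g (k - j) :=
  (conv_aux hf hg).summable.prod_factor k

lemma conv_hasSum {f g : ℤ → ℝ} (hf : Summable f) (hg : Summable g) :
    HasSum (conv f g) ((∑' x, f x) * ∑' x, g x) :=
  (conv_aux hf hg).prod_fiberwise fun k => (conv_inner hf hg k).hasSum

lemma conv_abs {f g : ℤ → ℝ} (hf : Summable f) (hg : Summable g) :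
    ∑' k, |conv f g k| ≤ (∑' x, |f x|) * ∑' x, |g x| := by
  have h := conv_hasSum hf.abs hg.abs
  rw [← h.tsum_eq]
  refine Summable.tsum_le_tsum (fun k => ?_) (conv_hasSum hf hg).summable.abs h.summable
  have := norm_tsum_le_tsum_norm (conv_inner hf hg k).norm
  simpa [conv, abs_mul] using this

abbrev R := AddMonoidAlgebra ℝ ℤ

noncomputable def T (k : ℤ) : R := AddMonoidAlgebra.single k 1

noncomputable def N (x : R) : ℝ := ∑' k, |x.coeff k|

lemma cs (x : R) : Summable (fun k => x.coeff k) :=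
  summable_of_ne_finset_zero (s := x.coeff.support) (fun b hb => by simpa using hb)

lemma coeff_mulT (x : R) (k m : ℤ) : (x * T k).coeff m = x.coeff (m - k) := by
  unfold T
  rw [AddMonoidAlgebra.coeff_mul_single_apply, mul_one, sub_eq_add_neg]

lemma coeff_mul' (x y : R) (m : ℤ) : (x * y).coeff m = conv x.coeff y.coeff m := by
  unfold conv
  rw [tsum_eq_sum (s := x.coeff.support) (fun b hb => by
    have : x.coeff b = 0 := by simpa using hb
    rw [this, zero_mul])]
  rw [AddMonoidAlgebra.coeff_mul, Finsupp.sum]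
  refine sum_congr rfl fun j _ => ?_
  rw [Finsupp.sum, sum_eq_single (m - j)]
  · simp
  · intro b _ hb
    rw [if_neg (by omega)]
  · intro hb
    have : y.coeff (m - j) = 0 := by simpa using hb
    simp [this]

lemma N_nonneg (x : R) : 0 ≤ N x := tsum_nonneg fun _ => abs_nonneg _

lemma N_add (x y : R) : N (x + y) ≤ N x + N y := by
  unfold N
  rw [← Summable.tsum_add (cs x).abs (cs y).abs]
  refine Summable.tsum_le_tsum (fun k => ?_) (cs _).abs ((cs x).abs.add (cs y).abs)
  rw [AddMonoidAlgebra.coeff_add, Finsupp.add_apply]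
  exact abs_add_le _ _

lemma N_smul (c : ℝ) (x : R) : N (c • x) = |c| * N x := by
  unfold N
  rw [← tsum_mul_left]
  congr 1; ext k
  rw [AddMonoidAlgebra.coeff_smul_apply, smul_eq_mul, abs_mul]

lemma N_neg (x : R) : N (-x) = N x := by
  have := N_smul (-1) x
  simpa using this

lemma N_zero : N 0 = 0 := by simp [N]

lemma N_sum {ι : Type*} (s : Finset ι) (x : ι → R) : N (∑ i ∈ s, x i) ≤ ∑ i ∈ s, N (x i) := by
  classical
  induction s using Finset.induction_on with
  | empty => simp [N_zero]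
  | insert a s ha ih =>
    rw [sum_insert ha, sum_insert ha]
    exact (N_add _ _).trans (by linarith)

lemma N_mul (x y : R) : N (x * y) ≤ N x * N y := by
  unfold N
  simp only [coeff_mul']
  exact conv_abs (cs x) (cs y)

lemma N_mulT (x : R) (k : ℤ) : N (x * T k) = N x := by
  unfold N
  simp only [coeff_mulT]
  exact (Equiv.subRight k).tsum_eq (fun m => |x.coeff m|)

lemma T_add (a b : ℤ) : T a * T b = T (a + b) := by
  unfold T
  rw [AddMonoidAlgebra.single_mul_single, mul_one]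

lemma T_zero : T 0 = 1 := rfl

noncomputable def u (V : ℕ) : R :=
  (1 / (2 * (V : ℝ) + 1)) • ∑ l ∈ range (2 * V + 1), T ((l : ℤ) - V)

lemma coeff_mul_u (x : R) (V : ℕ) : (fun m => (x * u V).coeff m) = av V (fun m => x.coeff m) := by
  ext m
  unfold u av
  rw [mul_smul_comm, AddMonoidAlgebra.coeff_smul_apply, smul_eq_mul, mul_sum,
    AddMonoidAlgebra.coeff_sum, Finsupp.finsetSum_apply]
  simp only [coeff_mulT]

lemma coeff_one' : (fun m => (1 : R).coeff m) = fun x => if x = 0 then 1 else 0 := by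
  ext m
  rw [AddMonoidAlgebra.one_def, AddMonoidAlgebra.coeff_single, Finsupp.single_apply]
  simp [eq_comm]

lemma good_prod {ι : Type*} (V : ι → ℕ) (t : Finset ι) :
    Good (fun m => (∏ j ∈ t, u (V j)).coeff m) (∑ j ∈ t, (V j : ℝ) * (V j + 1) / 3) := by
  classical
  induction t using Finset.induction_on with
  | empty => rw [prod_empty, sum_empty, coeff_one']; exact good_delta
  | insert a t ha ih =>
    rw [prod_insert ha, sum_insert ha, mul_comm, coeff_mul_u, add_comm]
    exact ih.av _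

lemma good_N {x : R} {S : ℝ} (h : Good (fun m => x.coeff m) S) : N x = 1 := by
  unfold N
  rw [← h.m0.tsum_eq]
  congr 1; ext k
  exact abs_of_nonneg (h.nn k)

lemma good_shift {x : R} {S : ℝ} (h : Good (fun m => x.coeff m) S) (k : ℤ) :
    N (x * (1 - T k)) ≤ 2 * |(k : ℝ)| * x.coeff 0 := by
  have b : N (x * (1 - T (-1))) = 2 * x.coeff 0 := by
    rw [← h.grad.tsum_eq]
    unfold N
    congr 1; ext m
    rw [mul_sub, mul_one, AddMonoidAlgebra.coeff_sub, Finsupp.sub_apply, coeff_mulT, sub_neg_eq_add]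
  have hn : ∀ n : ℕ, N (x * (1 - T (-(n : ℤ)))) ≤ 2 * (n : ℝ) * x.coeff 0 := by
    intro n
    induction n with
    | zero => simp [T_zero, N_zero]
    | succ n ih =>
      have e : x * (1 - T (-((n + 1 : ℕ) : ℤ))) = x * (1 - T (-(n : ℤ))) + x * (1 - T (-1)) * T (-(n : ℤ)) := by
        have : T (-((n + 1 : ℕ) : ℤ)) = T (-1) * T (-(n : ℤ)) := by
          rw [T_add]; congr 1; push_cast; ring
        rw [this]; ring
      rw [e]
      refine (N_add _ _).trans ?_
      rw [N_mulT, b]; push_cast; linarith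
  obtain ⟨n, rfl | rfl⟩ := Int.eq_nat_or_neg k
  · have e : x * (1 - T n) = -(x * (1 - T (-(n : ℤ))) * T n) := by
      have : T (-(n : ℤ)) * T n = 1 := by rw [T_add, neg_add_cancel, T_zero]
      linear_combination (-x) * this
    rw [e, N_neg, N_mulT]
    simpa using hn n
  · simpa using hn n

lemma one_sub_u (V : ℕ) : (1 : R) - u V = (1 / (2 * (2 * (V : ℝ) + 1))) •
    ∑ l ∈ range (2 * V + 1), (1 - T ((l : ℤ) - V)) * (1 - T (-((l : ℤ) - V))) := by
  have hp : (0 : ℝ) < 2 * (V : ℝ) + 1 := by positivity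
  have r : ∑ l ∈ range (2 * V + 1), T (-((l : ℤ) - V)) = ∑ l ∈ range (2 * V + 1), T ((l : ℤ) - V) := by
    rw [← sum_range_reflect]
    refine sum_congr rfl fun l hl => ?_
    have := mem_range.1 hl
    congr 1
    have : ((2 * V + 1 - 1 - l : ℕ) : ℤ) = 2 * V - l := by omega
    rw [this]; ring
  have e : ∀ k : ℤ, (1 - T k) * (1 - T (-k)) = 1 + 1 - T k - T (-k) := by
    intro k
    have : T k * T (-k) = 1 := by rw [T_add, add_neg_cancel, T_zero]
    linear_combination this
  simp only [e]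
  rw [sum_sub_distrib, sum_sub_distrib, r, sum_const, card_range, ← Nat.cast_smul_eq_nsmul ℝ]
  unfold u
  set Z := ∑ l ∈ range (2 * V + 1), T ((l : ℤ) - V)
  have c1 : (1 / (2 * (2 * (V : ℝ) + 1))) * ((2 * V + 1 : ℕ) : ℝ) = 1 / 2 := by
    push_cast; field_simp
  have c2 : (1 / (2 * (V : ℝ) + 1)) = 1 / (2 * (2 * (V : ℝ) + 1)) + 1 / (2 * (2 * (V : ℝ) + 1)) := by
    field_simp; ring
  rw [smul_sub, smul_sub, smul_smul, c1, c2]
  module

lemma term_le {x y : R} {S S' : ℝ} (hx : Good (fun m => x.coeff m) S) (hy : Good (fun m => y.coeff m) S')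
    (V : ℕ) : N (x * y * (1 - u V)) ≤ 2 * (V : ℝ) ^ 2 * (x.coeff 0 * y.coeff 0) := by
  have hp : (0 : ℝ) < 2 * (V : ℝ) + 1 := by positivity
  rw [one_sub_u, mul_smul_comm, N_smul, abs_of_pos (by positivity), mul_sum]
  have b : ∀ l ∈ range (2 * V + 1), N (x * y * ((1 - T ((l : ℤ) - V)) * (1 - T (-((l : ℤ) - V))))) ≤
      4 * (V : ℝ) ^ 2 * (x.coeff 0 * y.coeff 0) := by
    intro l hl
    have hl' := mem_range.1 hl
    rw [mul_mul_mul_comm]
    refine (N_mul _ _).trans ?_
    have a1 : |(((l : ℤ) - V : ℤ) : ℝ)| ≤ V := by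
      rw [abs_le]; push_cast
      have : (l : ℝ) ≤ 2 * V := by exact_mod_cast (by omega : l ≤ 2 * V)
      constructor <;> linarith [(Nat.cast_nonneg l : (0 : ℝ) ≤ l)]
    have a2 : |((-((l : ℤ) - V) : ℤ) : ℝ)| ≤ V := by rw [Int.cast_neg, abs_neg]; exact a1
    have x0 : 0 ≤ x.coeff 0 := hx.nn 0
    have y0 : 0 ≤ y.coeff 0 := hy.nn 0
    have c1 : N (x * (1 - T ((l : ℤ) - V))) ≤ 2 * V * x.coeff 0 :=
      (good_shift hx _).trans (by gcongr)
    have c2 : N (y * (1 - T (-((l : ℤ) - V)))) ≤ 2 * V * y.coeff 0 :=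
      (good_shift hy _).trans (by gcongr)
    refine (mul_le_mul c1 c2 (N_nonneg _) (by positivity)).trans (le_of_eq (by ring))
  have := (N_sum _ _).trans (sum_le_sum b)
  rw [sum_const, card_range, nsmul_eq_mul] at this
  refine (mul_le_mul_of_nonneg_left this (by positivity)).trans (le_of_eq ?_)
  push_cast; field_simp; ring

lemma term_two {x : R} {S : ℝ} (hx : Good (fun m => x.coeff m) S) (V : ℕ) :
    N (x * (1 - u V)) ≤ 2 := by
  have h2 : Good (fun m => (x * u V).coeff m) (S + (V : ℝ) * (V + 1) / 3) := by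
    rw [coeff_mul_u]; exact hx.av V
  rw [mul_sub, mul_one, sub_eq_add_neg]
  refine (N_add _ _).trans ?_
  rw [N_neg, good_N hx, good_N h2]; norm_num

lemma core {ι : Type*} [DecidableEq ι] (V : ι → ℕ) (s : Finset ι) :
    ∑ i ∈ s, N ((∏ j ∈ s.erase i, u (V j)) * (1 - u (V i))) ≤ 4322 := by
  rcases s.eq_empty_or_nonempty with rfl | hs
  · simp
  obtain ⟨a, ha, hmax⟩ := exists_max_image s V hs
  rw [← add_sum_erase s _ ha]
  have h2 := term_two (good_prod V (s.erase a)) (V a)
  set A : ℝ := ∑ j ∈ s.erase a, (V j : ℝ) ^ 2 with hA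
  have key : ∀ i ∈ s.erase a, N ((∏ j ∈ s.erase i, u (V j)) * (1 - u (V i))) * A ≤ 4320 * (V i : ℝ) ^ 2 ∧
      N ((∏ j ∈ s.erase i, u (V j)) * (1 - u (V i))) ≤ 2 * (V i : ℝ) ^ 2 := by
    intro i hi
    have his := mem_of_mem_erase hi
    obtain ⟨t1, t2, hd, hu, hb⟩ := split_half (fun j => (V j : ℝ) ^ 2) ((V a : ℝ) ^ 2) (by positivity)
      (s.erase i) (fun j hj => ⟨by positivity, by
        have : (V j : ℝ) ≤ V a := by exact_mod_cast hmax j (mem_of_mem_erase hj)
        gcongr⟩)
    have g1 := good_prod V t1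
    have g2 := good_prod V t2
    have tl := term_le g1 g2 (V i)
    rw [← prod_union hd, hu] at tl
    have p1 := g1.peak
    have p2 := g2.peak
    have n1 := g1.nn 0
    have n2 := g2.nn 0
    have l1 := g1.top_le
    have l2 := g2.top_le
    set M1 := (∏ j ∈ t1, u (V j)).coeff 0
    set M2 := (∏ j ∈ t2, u (V j)).coeff 0
    have w : ∀ t : Finset ι, ∑ j ∈ t, (V j : ℝ) ^ 2 ≤ 3 * ∑ j ∈ t, (V j : ℝ) * (V j + 1) / 3 := by
      intro t
      rw [mul_sum]
      exact sum_le_sum fun j _ => by nlinarith [(Nat.cast_nonneg (V j) : (0 : ℝ) ≤ V j)]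
    have q1 : M1 ^ 2 * ∑ j ∈ t1, (V j : ℝ) ^ 2 ≤ 540 := by
      nlinarith [mul_le_mul_of_nonneg_left (w t1) (sq_nonneg M1)]
    have q2 : M2 ^ 2 * ∑ j ∈ t2, (V j : ℝ) ^ 2 ≤ 540 := by
      nlinarith [mul_le_mul_of_nonneg_left (w t2) (sq_nonneg M2)]
    have tot : ∑ j ∈ t1, (V j : ℝ) ^ 2 + ∑ j ∈ t2, (V j : ℝ) ^ 2 = A + (V a : ℝ) ^ 2 - (V i : ℝ) ^ 2 := by
      rw [← sum_union hd, hu]
      have e1 := add_sum_erase s (fun j => (V j : ℝ) ^ 2) ha
      have e2 := add_sum_erase s (fun j => (V j : ℝ) ^ 2) his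
      linarith
    have hA0 : 0 ≤ A := sum_nonneg fun j _ => by positivity
    have w0 : 0 ≤ (V i : ℝ) ^ 2 := by positivity
    refine ⟨?_, tl.trans (by nlinarith [mul_le_one₀ l1 n2 l2])⟩
    rcases le_total A (2 * (V i : ℝ) ^ 2) with hc | hc
    · have t2' := term_two (good_prod V (s.erase i)) (V i)
      nlinarith [mul_le_mul_of_nonneg_right t2' hA0]
    · rw [abs_le] at hb
      have r1 : M1 ^ 2 * A ≤ 2160 := by
        have : A ≤ 4 * ∑ j ∈ t1, (V j : ℝ) ^ 2 := by linarith
        nlinarith [mul_le_mul_of_nonneg_left this (sq_nonneg M1)]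
      have r2 : M2 ^ 2 * A ≤ 2160 := by
        have : A ≤ 4 * ∑ j ∈ t2, (V j : ℝ) ^ 2 := by linarith
        nlinarith [mul_le_mul_of_nonneg_left this (sq_nonneg M2)]
      have r3 : M1 * M2 * A ≤ 2160 := by
        nlinarith [mul_nonneg (sq_nonneg (M1 - M2)) hA0]
      nlinarith [mul_le_mul_of_nonneg_right tl hA0, mul_le_mul_of_nonneg_left r3 w0]
  have hA0 : 0 ≤ A := sum_nonneg fun j _ => by positivity
  have fin : ∑ i ∈ s.erase a, N ((∏ j ∈ s.erase i, u (V j)) * (1 - u (V i))) ≤ 4320 := by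
    rcases hA0.eq_or_lt with h0 | h0
    · have := sum_le_sum (fun i hi => (key i hi).2)
      rw [← mul_sum, ← hA, ← h0] at this
      linarith
    · have := sum_le_sum (fun i hi => (key i hi).1)
      rw [← mul_sum, ← sum_mul, ← hA] at this
      exact le_of_mul_le_mul_right this h0
  linarith

lemma mix (K n : ℕ) (a : ℕ → ℝ) (ha : ∀ j, 0 ≤ a j) :
    ((n : ℝ) + 1) * N ((∑ j ∈ range K, a j) • (∑ j ∈ range K, a j • u j) ^ n
      - (∑ j ∈ range K, a j • u j) ^ (n + 1)) ≤ 4322 * (∑ j ∈ range K, a j) ^ (n + 1) := by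
  set y := ∑ j ∈ range K, a j • u j with hy
  set p := ∑ j ∈ range K, a j with hp
  have e : ∀ i : Fin (n + 1), p • y ^ n - y ^ (n + 1) =
      ∑ v ∈ Fintype.piFinset (fun _ : Fin (n + 1) => range K),
        (∏ j, a (v j)) • ((∏ j ∈ univ.erase i, u (v j)) * (1 - u (v i))) := by
    intro i
    have h1 := prod_univ_sum (fun _ : Fin (n + 1) => range K)
      (fun j m => a m • (if j = i then 1 - u m else u m))
    have h2 : ∏ j : Fin (n + 1), ∑ m ∈ range K, a m • (if j = i then 1 - u m else u m) =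
        p • y ^ n - y ^ (n + 1) := by
      rw [← prod_erase_mul _ _ (mem_univ i)]
      rw [prod_congr rfl (g := fun _ => y) (fun j hj => by
        simp only [if_neg (ne_of_mem_erase hj), hy])]
      rw [prod_const, card_erase_of_mem (mem_univ i), card_univ, Fintype.card_fin, Nat.add_sub_cancel]
      simp only [if_true, smul_sub]
      rw [sum_sub_distrib, ← sum_smul, ← hy, ← hp, mul_sub, mul_smul_comm, mul_one, pow_succ]
    rw [← h2, h1]
    refine sum_congr rfl fun v _ => ?_
    rw [prod_smul]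
    congr 1
    rw [← prod_erase_mul _ _ (mem_univ i)]
    simp only [if_true]
    congr 1
    exact prod_congr rfl fun j hj => if_neg (ne_of_mem_erase hj)
  have b : ∀ i : Fin (n + 1), N (p • y ^ n - y ^ (n + 1)) ≤
      ∑ v ∈ Fintype.piFinset (fun _ : Fin (n + 1) => range K),
        (∏ j, a (v j)) * N ((∏ j ∈ univ.erase i, u (v j)) * (1 - u (v i))) := by
    intro i
    rw [e i]
    refine (N_sum _ _).trans (le_of_eq (sum_congr rfl fun v _ => ?_))
    rw [N_smul, abs_of_nonneg (prod_nonneg fun j _ => ha _)]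
  have c := sum_le_sum (s := univ) (fun i _ => b i)
  rw [sum_const, card_univ, Fintype.card_fin, nsmul_eq_mul, sum_comm] at c
  push_cast at c
  refine c.trans ?_
  have d := prod_univ_sum (fun _ : Fin (n + 1) => range K) (fun _ m => a m)
  rw [prod_const, card_univ, Fintype.card_fin, ← hp] at d
  rw [d, mul_sum]
  refine sum_le_sum fun v _ => ?_
  rw [← mul_sum, mul_comm]
  exact mul_le_mul_of_nonneg_right (core v univ) (prod_nonneg fun j _ => ha _)

noncomputable def cpow (μ : ℤ → ℝ) : ℕ → ℤ → ℝ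
  | 0 => fun k => if k = 0 then 1 else 0
  | n + 1 => conv μ (cpow μ n)

lemma cpow_coeff (y : R) (n : ℕ) : cpow (fun m => y.coeff m) n = fun m => (y ^ n).coeff m := by
  induction n with
  | zero => rw [pow_zero, coeff_one']; rfl
  | succ n ih =>
    ext m
    rw [pow_succ', coeff_mul', cpow, ih]

lemma cpow_mass {f : ℤ → ℝ} {p : ℝ} (h : HasSum f p) (n : ℕ) : HasSum (cpow f n) (p ^ n) := by
  induction n with
  | zero => rw [pow_zero]; exact hasSum_ite_eq 0 1
  | succ n ih =>
    have := conv_hasSum h.summable ih.summable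
    rw [h.tsum_eq, ih.tsum_eq, ← pow_succ'] at this
    exact this

lemma cpow_mono {f g : ℤ → ℝ} (hf : Summable f) (hg : Summable g) (h0 : ∀ k, 0 ≤ f k)
    (h : ∀ k, f k ≤ g k) (n : ℕ) : ∀ k, 0 ≤ cpow f n k ∧ cpow f n k ≤ cpow g n k := by
  induction n with
  | zero => intro k; refine ⟨?_, le_rfl⟩; simp only [cpow]; split_ifs <;> norm_num
  | succ n ih =>
    intro k
    refine ⟨tsum_nonneg fun j => mul_nonneg (h0 _) (ih _).1, ?_⟩
    exact Summable.tsum_le_tsum
      (fun j => mul_le_mul (h _) (ih _).2 (ih _).1 ((h0 _).trans (h _)))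
      (conv_inner hf (cpow_mass hf.hasSum n).summable k)
      (conv_inner hg (cpow_mass hg.hasSum n).summable k)

lemma u_coeff (V : ℕ) (m : ℤ) :
    (u V).coeff m = if m.natAbs ≤ V then 1 / (2 * (V : ℝ) + 1) else 0 := by
  have := congrFun (coeff_mul_u 1 V) m
  rw [one_mul, coeff_one'] at this
  rw [this]
  unfold av
  beta_reduce
  split_ifs with h
  · rw [sum_eq_single (m + V).toNat]
    · rw [if_pos (by omega), mul_one]
    · intro b _ hb
      rw [if_neg (by omega)]
    · intro hb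
      exact absurd (mem_range.2 (by omega)) hb
  · rw [sum_eq_zero, mul_zero]
    intro l hl
    have := mem_range.1 hl
    rw [if_neg (by omega)]

lemma trunc_coeff (μ : ℤ → ℝ) (K : ℕ) (m : ℤ) :
    (∑ j ∈ range K, ((2 * (j : ℝ) + 1) * (μ j - μ (j + 1))) • u j).coeff m =
      if m.natAbs ≤ K then μ m.natAbs - μ K else 0 := by
  induction K with
  | zero =>
    split_ifs with h
    · have : m.natAbs = 0 := by omega
      simp [this]
    · simp
  | succ K ih =>
    have hp : (0 : ℝ) < 2 * (K : ℝ) + 1 := by positivity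
    rw [sum_range_succ, AddMonoidAlgebra.coeff_add, Finsupp.add_apply, ih,
      AddMonoidAlgebra.coeff_smul_apply, smul_eq_mul, u_coeff]
    by_cases h : m.natAbs ≤ K
    · rw [if_pos h, if_pos h, if_pos (by omega)]
      push_cast; field_simp; ring
    · rw [if_neg h, if_neg h]
      split_ifs with h2
      · have : m.natAbs = K + 1 := by omega
        rw [this]; simp
      · simp

theorem main (μ : ℤ → ℝ) (h0 : ∀ k, 0 ≤ μ k) (h1 : HasSum μ 1) (hs : ∀ k, μ (-k) = μ k)
    (hm : ∀ n : ℕ, μ (n + 1) ≤ μ n) (n : ℕ) :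
    Summable (fun k => |cpow μ n k - cpow μ (n + 1) k|) ∧
      ((n : ℝ) + 1) * ∑' k, |cpow μ n k - cpow μ (n + 1) k| ≤ 4322 := by
  have s0 := cpow_mass h1 n
  have s1 := cpow_mass h1 (n + 1)
  have ss := (s0.summable.sub s1.summable).abs
  refine ⟨ss, ?_⟩
  have habs : ∀ m : ℤ, μ m.natAbs = μ m := by
    intro m
    obtain ⟨k, rfl | rfl⟩ := Int.eq_nat_or_neg m
    · simp
    · simp [hs]
  have hanti : Antitone (fun n : ℕ => μ n) := antitone_nat_of_succ_le (fun n => by
    have := hm n; push_cast; exact this)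
  set a : ℕ → ℝ := fun j => (2 * (j : ℝ) + 1) * (μ j - μ (j + 1)) with ha
  have ha0 : ∀ j, 0 ≤ a j := fun j => mul_nonneg (by positivity) (by have := hm j; linarith)
  set y : ℕ → R := fun K => ∑ j ∈ range K, a j • u j with hy
  set p : ℕ → ℝ := fun K => ∑ j ∈ range K, a j with hp
  have yc : ∀ K m, (y K).coeff m = if m.natAbs ≤ K then μ m - μ K else 0 := by
    intro K m
    rw [← habs m]; exact trunc_coeff μ K m
  have y0 : ∀ K m, 0 ≤ (y K).coeff m := by
    intro K m
    rw [yc]; split_ifs with h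
    · have := hanti h
      simp only at this
      rw [habs] at this; linarith
    · exact le_rfl
  have y1 : ∀ K m, (y K).coeff m ≤ μ m := by
    intro K m
    rw [yc]; split_ifs with h
    · linarith [h0 K]
    · exact h0 m
  have ym : ∀ K, HasSum (fun m => (y K).coeff m) (p K) := by
    intro K
    have hu : ∀ j, HasSum (fun m => (u j).coeff m) 1 := by
      intro j
      have := (good_delta.av j).m0
      rw [← coeff_one', ← coeff_mul_u, one_mul] at this
      exact this
    have := hasSum_sum (s := range K) (fun j _ => (hu j).mul_left (a j))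
    refine hs_congr this (fun m => ?_) (by simp [hp])
    simp only [hy]
    rw [AddMonoidAlgebra.coeff_sum, Finsupp.finsetSum_apply]
    rfl
  have p1 : ∀ K, p K ≤ 1 := fun K => hasSum_le (y1 K) (ym K) h1
  have p0 : ∀ K, 0 ≤ p K := fun K => sum_nonneg fun j _ => ha0 j
  have plim : Filter.Tendsto p Filter.atTop (nhds 1) := by
    have hz : Filter.Tendsto (fun K : ℕ => μ K) Filter.atTop (nhds 0) :=
      (h1.summable.comp_injective Nat.cast_injective).tendsto_atTop_zero
    have := tendsto_tsum_of_dominated_convergence (𝓕 := Filter.atTop) (f := fun K m => (y K).coeff m)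
      (g := μ) (bound := μ) h1.summable (fun m => ?_)
      (Filter.Eventually.of_forall fun K m => by rw [Real.norm_eq_abs, abs_of_nonneg (y0 K m)]; exact y1 K m)
    · rw [h1.tsum_eq] at this
      simpa only [(ym _).tsum_eq] using this
    · have h2 := (tendsto_const_nhds (x := μ m)).sub hz
      rw [sub_zero] at h2
      refine h2.congr' ?_
      filter_upwards [Filter.eventually_ge_atTop m.natAbs] with K hK
      rw [yc, if_pos hK]
  have bound : ∀ K, ((n : ℝ) + 1) * ∑' k, |cpow μ n k - cpow μ (n + 1) k| ≤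
      4322 + ((n : ℝ) + 1) * ((1 - p K ^ (n + 1)) + (1 - p K ^ (n + 1))) := by
    intro K
    have mx := mix K n a ha0
    have c0 := cpow_mono (ym K).summable h1.summable (y0 K) (y1 K) n
    have c1 := cpow_mono (ym K).summable h1.summable (y0 K) (y1 K) (n + 1)
    have d0 := cpow_mass (ym K) n
    have d1 := cpow_mass (ym K) (n + 1)
    rw [cpow_coeff] at c0 c1 d0 d1
    have z := (cs (p K • y K ^ n - y K ^ (n + 1))).abs.hasSum
    have tot := ((s0.sub (d0.mul_left (p K))).add (s1.sub d1)).add z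
    have le := hasSum_le (fun k => by
      show |cpow μ n k - cpow μ (n + 1) k| ≤ (cpow μ n k - p K * (y K ^ n).coeff k) +
        (cpow μ (n + 1) k - (y K ^ (n + 1)).coeff k) + |(p K • y K ^ n - y K ^ (n + 1)).coeff k|
      rw [AddMonoidAlgebra.coeff_sub, Finsupp.sub_apply, AddMonoidAlgebra.coeff_smul_apply, smul_eq_mul]
      obtain ⟨e0, e1⟩ := c0 k
      obtain ⟨e2, e3⟩ := c1 k
      have e4 : p K * (y K ^ n).coeff k ≤ (y K ^ n).coeff k := by nlinarith [p1 K]
      have e5 := le_abs_self (p K * (y K ^ n).coeff k - (y K ^ (n + 1)).coeff k)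
      have e6 := neg_abs_le (p K * (y K ^ n).coeff k - (y K ^ (n + 1)).coeff k)
      rw [abs_le]; constructor <;> linarith) ss.hasSum tot
    rw [one_pow, one_pow, ← pow_succ'] at le
    have pw : p K ^ (n + 1) ≤ 1 := pow_le_one₀ (p0 K) (p1 K)
    have hn : (0 : ℝ) ≤ (n : ℝ) + 1 := by positivity
    have mx' : ((n : ℝ) + 1) * ∑' k, |(p K • y K ^ n - y K ^ (n + 1)).coeff k| ≤
      4322 * p K ^ (n + 1) := mx
    nlinarith [mul_le_mul_of_nonneg_left le hn]
  have lim : Filter.Tendsto (fun K => 4322 + ((n : ℝ) + 1) * ((1 - p K ^ (n + 1)) + (1 - p K ^ (n + 1))))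
      Filter.atTop (nhds (4322 + ((n : ℝ) + 1) * ((1 - 1 ^ (n + 1)) + (1 - 1 ^ (n + 1))))) :=
    ((((plim.pow _).const_sub 1).add ((plim.pow _).const_sub 1)).const_mul _).const_add _
  have := ge_of_tendsto' lim bound
  simpa using this

end Pool.Agent.H8.Ritt
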