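import Mathlib

set_option autoImplicit false

namespace Pool.Agent.H8.Sido

open Finset

variable {X : Type} [Fintype X]

lemma cs {ι : Type} [Fintype ι] (r f g : ι → ℝ) (hf : ∀ i, 0 ≤ f i) (hg : ∀ i, 0 ≤ g i)
    (h : ∀ i, r i ^ 2 ≤ f i * g i) : (∑ i, r i) ^ 2 ≤ (∑ i, f i) * ∑ i, g i :=
  sum_sq_le_sum_mul_sum_of_sq_le_mul univ (fun i _ => hf i) (fun i _ => hg i) (fun i _ => h i)

lemma holder4 {ι : Type} [Fintype ι] (w c A B : ι → ℝ) (hw : ∀ i, 0 ≤ w i) (hc : ∀ i, 0 ≤ c i)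
    (hA : ∀ i, 0 ≤ A i) (hB : ∀ i, 0 ≤ B i) (hz : ∀ i, w i * c i ≠ 0 → A i ≠ 0 ∧ B i ≠ 0) :
    (∑ i, w i * c i) ^ 4 ≤ ((∑ i, w i * (A i * B i)) * ∑ i, w i * c i ^ 2) *
      ((∑ i, w i * c i / A i) * ∑ i, w i * c i / B i) := by
  have hs : ∀ i, Real.sqrt (A i * B i) ^ 2 = A i * B i := fun i =>
    Real.sq_sqrt (mul_nonneg (hA i) (hB i))
  have h1 := cs (fun i => w i * c i) (fun i => w i * c i * Real.sqrt (A i * B i))
    (fun i => w i * c i / Real.sqrt (A i * B i))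
    (fun i => mul_nonneg (mul_nonneg (hw i) (hc i)) (Real.sqrt_nonneg _))
    (fun i => div_nonneg (mul_nonneg (hw i) (hc i)) (Real.sqrt_nonneg _))
    (fun i => by
      by_cases h0 : w i * c i = 0
      · simp [h0]
      · have hne : Real.sqrt (A i * B i) ≠ 0 := by
          intro h
          have := hs i
          rw [h] at this
          exact mul_ne_zero (hz i h0).1 (hz i h0).2 (by linarith)
        apply le_of_eq
        field_simp)
  have h2 := cs (fun i => w i * c i * Real.sqrt (A i * B i)) (fun i => w i * (A i * B i))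
    (fun i => w i * c i ^ 2)
    (fun i => mul_nonneg (hw i) (mul_nonneg (hA i) (hB i)))
    (fun i => mul_nonneg (hw i) (sq_nonneg _))
    (fun i => by rw [mul_pow, hs i]; apply le_of_eq; ring)
  have h3 := cs (fun i => w i * c i / Real.sqrt (A i * B i)) (fun i => w i * c i / A i)
    (fun i => w i * c i / B i)
    (fun i => div_nonneg (mul_nonneg (hw i) (hc i)) (hA i))
    (fun i => div_nonneg (mul_nonneg (hw i) (hc i)) (hB i))
    (fun i => by rw [div_pow, hs i, div_mul_div_comm]; apply le_of_eq; ring)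
  calc (∑ i, w i * c i) ^ 4 = ((∑ i, w i * c i) ^ 2) ^ 2 := by ring
    _ ≤ ((∑ i, w i * c i * Real.sqrt (A i * B i)) * ∑ i, w i * c i / Real.sqrt (A i * B i)) ^ 2 :=
        pow_le_pow_left₀ (sq_nonneg _) h1 2
    _ = (∑ i, w i * c i * Real.sqrt (A i * B i)) ^ 2 *
          (∑ i, w i * c i / Real.sqrt (A i * B i)) ^ 2 := by ring
    _ ≤ _ := mul_le_mul h2 h3 (sq_nonneg _) ((sq_nonneg _).trans h2)

lemma div_self_le (x : ℝ) : x / x ≤ 1 := by
  by_cases h : x = 0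
  · simp [h]
  · rw [div_self h]

/-- Sidorenko inequality for the path with three edges. -/
lemma path3 (U : X → X → ℝ) (hU : ∀ x y, 0 ≤ U x y) (hs : ∀ x y, U x y = U y x) :
    (∑ x, ∑ y, U x y) ^ 3 ≤ (Fintype.card X : ℝ) ^ 2 *
      ∑ x, ∑ y, U x y * ((∑ z, U x z) * ∑ z, U y z) := by
  obtain ⟨d, hd⟩ : ∃ d : X → ℝ, d = fun x => ∑ z, U x z := ⟨_, rfl⟩
  have hd' : ∀ x, ∑ z, U x z = d x := fun x => by rw [hd]
  have hd0 : ∀ x, 0 ≤ d x := fun x => by rw [← hd']; exact sum_nonneg (fun z _ => hU x z)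
  have hle : ∀ x y, U x y ≤ d x := fun x y => by
    rw [← hd']; exact single_le_sum (fun z _ => hU x z) (mem_univ y)
  have key := holder4 (ι := X × X) (fun p => U p.1 p.2) (fun _ => 1) (fun p => d p.1) (fun p => d p.2)
    (fun p => hU _ _) (fun _ => zero_le_one) (fun p => hd0 _) (fun p => hd0 _) (fun p hp => by
      have h0 : 0 < U p.1 p.2 := lt_of_le_of_ne (hU _ _) (by simpa using Ne.symm hp)
      have h1 := hle p.1 p.2
      have h2 := hle p.2 p.1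
      rw [hs] at h2
      exact ⟨by linarith, by linarith⟩)
  simp only [mul_one, one_pow, Fintype.sum_prod_type] at key
  have a1 : ∑ x, ∑ y, U x y / d x ≤ Fintype.card X := by
    calc ∑ x, ∑ y, U x y / d x = ∑ x, d x / d x := by
          apply sum_congr rfl; intro x _; rw [← sum_div, hd']
      _ ≤ ∑ _x : X, (1 : ℝ) := sum_le_sum (fun x _ => div_self_le _)
      _ = _ := by simp
  have a2 : ∑ x, ∑ y, U x y / d y ≤ Fintype.card X := by
    rw [sum_comm]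
    simp only [fun x y => hs y x]
    simpa [hs] using a1
  have a3 : 0 ≤ ∑ x, ∑ y, U x y / d y :=
    sum_nonneg (fun x _ => sum_nonneg (fun y _ => div_nonneg (hU _ _) (hd0 _)))
  simp only [hd'] at key ⊢
  obtain ⟨E, hE⟩ : ∃ E, E = ∑ x, d x := ⟨_, rfl⟩
  obtain ⟨M, hM⟩ : ∃ M, M = ∑ x, ∑ y, U x y * (d x * d y) := ⟨_, rfl⟩
  rw [← hE, ← hM] at key ⊢
  have hE0 : 0 ≤ E := by rw [hE]; exact sum_nonneg (fun x _ => hd0 x)
  have hM0 : 0 ≤ M := by
    rw [hM]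
    exact sum_nonneg (fun x _ => sum_nonneg (fun y _ =>
      mul_nonneg (hU _ _) (mul_nonneg (hd0 _) (hd0 _))))
  have a4 : (∑ x, ∑ y, U x y / d x) * ∑ x, ∑ y, U x y / d y ≤ (Fintype.card X : ℝ) ^ 2 := by
    rw [sq]; exact mul_le_mul a1 a2 a3 (by positivity)
  have a5 : E ^ 4 ≤ M * E * (Fintype.card X : ℝ) ^ 2 :=
    key.trans (mul_le_mul_of_nonneg_left a4 (mul_nonneg hM0 hE0))
  rcases hE0.eq_or_lt with h | h
  · rw [← h]; simp; positivity
  · have : E ^ 3 * E ≤ ((Fintype.card X : ℝ) ^ 2 * M) * E := by nlinarith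
    exact le_of_mul_le_mul_right this h

def U (W : X → X → X → ℝ) (x y : X) : ℝ := ∑ z, W x y z
def c2 (W : X → X → X → ℝ) (x y : X) : ℝ := ∑ w, U W x w * U W w y
def c3 (W : X → X → X → ℝ) (x y : X) : ℝ := ∑ w, U W x w * c2 W w y
def T7 (W : X → X → X → ℝ) : ℝ := ∑ a, ∑ b, ∑ x, U W a b * (c3 W a x * c3 W b x)
def TQ (W : X → X → X → ℝ) : ℝ := ∑ z, ∑ x, (∑ y, U W z y) * (c2 W z x * c2 W z x)

theorem main (W : X → X → X → ℝ) (h0 : ∀ x y z, 0 ≤ W x y z)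
    (s1 : ∀ x y z, W x y z = W y x z) (s2 : ∀ x y z, W x y z = W x z y) :
    (∑ x, ∑ y, ∑ z, W x y z) ^ 12 ≤ (Fintype.card X : ℝ) ^ 12 * (T7 W * TQ W) := by
  have hU : ∀ x y, 0 ≤ U W x y := fun x y => sum_nonneg (fun z _ => h0 _ _ _)
  have hUs : ∀ x y, U W x y = U W y x := fun x y => sum_congr rfl (fun z _ => s1 _ _ _)
  have hc2 : ∀ x y, 0 ≤ c2 W x y := fun x y =>
    sum_nonneg (fun z _ => mul_nonneg (hU _ _) (hU _ _))
  have hc3 : ∀ x y, 0 ≤ c3 W x y := fun x y =>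
    sum_nonneg (fun z _ => mul_nonneg (hU _ _) (hc2 _ _))
  have hWU : ∀ a b z, W a b z ≤ U W a z := fun a b z => by
    rw [s2]; exact single_le_sum (f := fun b => W a z b) (fun b _ => h0 _ _ _) (mem_univ b)
  have hpos : ∀ a b z x, W a b z * c2 W z x ≠ 0 → c3 W a x ≠ 0 := by
    intro a b z x h
    have h1 : 0 < W a b z * c2 W z x := lt_of_le_of_ne (mul_nonneg (h0 _ _ _) (hc2 _ _)) h.symm
    have h2 : W a b z * c2 W z x ≤ U W a z * c2 W z x :=
      mul_le_mul_of_nonneg_right (hWU a b z) (hc2 _ _)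
    have h3 : U W a z * c2 W z x ≤ c3 W a x :=
      single_le_sum (f := fun w => U W a w * c2 W w x)
        (fun w _ => mul_nonneg (hU _ _) (hc2 _ _)) (mem_univ z)
    linarith
  have key := holder4 (ι := X × X × X × X) (fun p => W p.1 p.2.1 p.2.2.2)
    (fun p => c2 W p.2.2.2 p.2.2.1) (fun p => c3 W p.1 p.2.2.1) (fun p => c3 W p.2.1 p.2.2.1)
    (fun p => h0 _ _ _) (fun p => hc2 _ _) (fun p => hc3 _ _) (fun p => hc3 _ _)
    (fun p hp => ⟨hpos _ _ _ _ hp, hpos _ p.1 p.2.2.2 _ (by rw [s1]; exact hp)⟩)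
  simp only [Fintype.sum_prod_type] at key
  have b1 : ∑ a, ∑ b, ∑ x, ∑ z, W a b z * (c3 W a x * c3 W b x) = T7 W := by
    simp only [T7, U, sum_mul]
  have hUb : ∀ a z, ∑ b, W a b z = U W a z := fun a z => sum_congr rfl (fun b _ => s2 _ _ _)
  have gen : ∀ F : X → X → X → ℝ, ∑ a, ∑ b, ∑ x, ∑ z, W a b z * F a x z =
      ∑ a, ∑ x, ∑ z, U W a z * F a x z := by
    intro F
    apply sum_congr rfl; intro a _
    rw [sum_comm]
    apply sum_congr rfl; intro x _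
    rw [sum_comm]
    apply sum_congr rfl; intro z _
    rw [← sum_mul, hUb]
  have gen2 : ∀ F : X → X → ℝ, ∑ a, ∑ x, ∑ z, U W a z * F x z =
      ∑ z, ∑ x, (∑ y, U W z y) * F x z := by
    intro F
    rw [sum_comm]
    conv_rhs => rw [sum_comm]
    apply sum_congr rfl; intro x _
    rw [sum_comm]
    apply sum_congr rfl; intro z _
    rw [sum_mul]
    exact sum_congr rfl (fun a _ => by rw [hUs])
  have b2 : ∑ a, ∑ b, ∑ x, ∑ z, W a b z * c2 W z x ^ 2 = TQ W := by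
    rw [gen (fun _ x z => c2 W z x ^ 2), gen2 (fun x z => c2 W z x ^ 2)]
    simp only [TQ, sq]
  have b3 : ∑ a, ∑ b, ∑ x, ∑ z, W a b z * c2 W z x / c3 W a x ≤ (Fintype.card X : ℝ) ^ 2 := by
    simp only [mul_div_assoc]
    rw [gen (fun a x z => c2 W z x / c3 W a x)]
    calc ∑ a, ∑ x, ∑ z, U W a z * (c2 W z x / c3 W a x) = ∑ a, ∑ x, c3 W a x / c3 W a x := by
          apply sum_congr rfl; intro a _
          apply sum_congr rfl; intro x _
          simp only [← mul_div_assoc]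
          rw [← sum_div]; rfl
      _ ≤ ∑ _a : X, ∑ _x : X, (1 : ℝ) :=
          sum_le_sum (fun a _ => sum_le_sum (fun x _ => div_self_le _))
      _ = _ := by simp [sq]
  have b4 : ∑ a, ∑ b, ∑ x, ∑ z, W a b z * c2 W z x / c3 W b x ≤ (Fintype.card X : ℝ) ^ 2 := by
    rw [sum_comm]
    simp only [fun a b z => s1 b a z]
    simpa [← s1] using b3
  have b4' : 0 ≤ ∑ a, ∑ b, ∑ x, ∑ z, W a b z * c2 W z x / c3 W b x :=
    sum_nonneg (fun a _ => sum_nonneg (fun b _ => sum_nonneg (fun x _ => sum_nonneg (fun z _ =>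
      div_nonneg (mul_nonneg (h0 _ _ _) (hc2 _ _)) (hc3 _ _)))))
  have b5 : ∑ a, ∑ b, ∑ x, ∑ z, W a b z * c2 W z x =
      ∑ x, ∑ y, U W x y * ((∑ z, U W x z) * ∑ z, U W y z) := by
    rw [gen (fun _ x z => c2 W z x), gen2 (fun x z => c2 W z x)]
    apply sum_congr rfl; intro z _
    rw [← mul_sum]
    simp only [c2]
    rw [sum_comm, mul_sum]
    apply sum_congr rfl; intro w _
    rw [← mul_sum]; ring
  have hT7 : 0 ≤ T7 W := sum_nonneg (fun a _ => sum_nonneg (fun b _ => sum_nonneg (fun x _ =>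
    mul_nonneg (hU _ _) (mul_nonneg (hc3 _ _) (hc3 _ _)))))
  have hTQ : 0 ≤ TQ W := sum_nonneg (fun a _ => sum_nonneg (fun b _ =>
    mul_nonneg (sum_nonneg (fun y _ => hU _ _)) (mul_nonneg (hc2 _ _) (hc2 _ _))))
  rw [b1, b2, b5] at key
  have p3 := path3 (U W) hU hUs
  have b6 := mul_le_mul b3 b4 b4' (by positivity)
  have b7 := key.trans (mul_le_mul_of_nonneg_left b6 (mul_nonneg hT7 hTQ))
  have hE0 : 0 ≤ ∑ x, ∑ y, U W x y := sum_nonneg (fun x _ => sum_nonneg (fun y _ => hU _ _))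
  have b8 := pow_le_pow_left₀ (pow_nonneg hE0 3) p3 4
  have hE : ∑ x, ∑ y, ∑ z, W x y z = ∑ x, ∑ y, U W x y := rfl
  rw [hE]
  calc (∑ x, ∑ y, U W x y) ^ 12 = ((∑ x, ∑ y, U W x y) ^ 3) ^ 4 := by ring
    _ ≤ _ := b8
    _ = (Fintype.card X : ℝ) ^ 8 *
        (∑ x, ∑ y, U W x y * ((∑ z, U W x z) * ∑ z, U W y z)) ^ 4 := by ring
    _ ≤ (Fintype.card X : ℝ) ^ 8 * (T7 W * TQ W *
        ((Fintype.card X : ℝ) ^ 2 * (Fintype.card X : ℝ) ^ 2)) :=
        mul_le_mul_of_nonneg_left b7 (by positivity)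
    _ = _ := by ring

end Pool.Agent.H8.Sido
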