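import Mathlib
import Pool.Agent.H8.MonoTree

set_option autoImplicit false

namespace Pool.Agent.H8.StarDec

open Finset

def e (a b : ℕ) : Prop :=
  (a = 0 ∧ 1 ≤ b ∧ b ≤ 4) ∨ (a = 1 ∧ b = 2) ∨ (a = 3 ∧ b = 4) ∨ (5 ≤ b ∧ a = 1 + (b - 5) / 10)

instance (a b : ℕ) : Decidable (e a b) := by unfold e; infer_instance

def H : SimpleGraph (Fin 45) where
  Adj a b := e a b ∨ e b a
  symm := ⟨fun _ _ h => h.symm⟩
  loopless := ⟨fun a h => by unfold e at h; omega⟩

instance : DecidableRel H.Adj := fun a b => inferInstanceAs (Decidable (e a b ∨ e b a))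

def mate (k : Fin 45) : Fin 45 := if k = 1 then 2 else if k = 2 then 1 else if k = 3 then 4 else 3

def par (l : Fin 45) : Fin 45 := ⟨1 + (l - 5) / 10, by omega⟩

def L (k : Fin 45) : Finset (Fin 45) := univ.filter (fun l => 5 ≤ l.val ∧ par l = k)

lemma adj0 : ∀ u, H.Adj 0 u ↔ u ∈ ({1, 2, 3, 4} : Finset (Fin 45)) := by decide +kernel

lemma adjk : ∀ k : Fin 45, 1 ≤ k.val → k.val ≤ 4 →
    (∀ u, H.Adj k u ↔ u ∈ insert 0 (insert (mate k) (L k))) ∧ (0 : Fin 45) ∉ insert (mate k) (L k) ∧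
    mate k ∉ L k ∧ (L k).card = 10 ∧ mate (mate k) = k ∧ 1 ≤ (mate k).val ∧ (mate k).val ≤ 4 ∧
    mate k ≠ k := by
  decide +kernel

lemma adjl : ∀ l : Fin 45, 5 ≤ l.val → ∀ u, H.Adj l u ↔ u ∈ ({par l} : Finset (Fin 45)) := by
  decide +kernel

lemma conn : H.Connected := by
  have h1 : ∀ k : Fin 45, 1 ≤ k.val → k.val ≤ 4 → H.Adj 0 k := by decide +kernel
  have h2 : ∀ l : Fin 45, 5 ≤ l.val → H.Adj 0 (par l) ∧ H.Adj (par l) l := by decide +kernel
  rw [SimpleGraph.connected_iff_exists_forall_reachable]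
  refine ⟨0, fun v => ?_⟩
  by_cases a : v = 0
  · rw [a]
  · by_cases b : v.val ≤ 4
    · exact (h1 v (by have : v.val ≠ 0 := fun h => a (Fin.ext h); omega) b).reachable
    · exact (h2 v (by omega)).1.reachable.trans (h2 v (by omega)).2.reachable

noncomputable def om (p : Fin 45 → ℕ) (v : Fin 45) : ℝ :=
  if v.val = 0 then
    (if (p 1 < p 0 ∧ p 2 < p 0) ∨ (p 3 < p 0 ∧ p 4 < p 0) then 4806 / 10000 else 711 / 1000)
  else if v.val ≤ 4 then
    (if p 0 < p v then (if p (mate v) < p v then 674 / 1000 else 1235 / 1000)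
     else (if p (mate v) < p v then 997 / 1000 else 399 / 100))
  else 100 / 399

lemma om_pos (p : Fin 45 → ℕ) (v : Fin 45) : 0 < om p v := by
  unfold om; split_ifs <;> norm_num

lemma om_le (p : Fin 45 → ℕ) (v : Fin 45) : om p v ≤ 399 / 100 := by
  unfold om; split_ifs <;> norm_num

lemma om_leaf (p : Fin 45 → ℕ) (v : Fin 45) (h : 5 ≤ v.val) : om p v = 100 / 399 := by
  unfold om; rw [if_neg (by omega), if_neg (by omega)]

lemma om_zero (p : Fin 45 → ℕ) : om p 0 =
    if (p 1 < p 0 ∧ p 2 < p 0) ∨ (p 3 < p 0 ∧ p 4 < p 0) then 4806 / 10000 else 711 / 1000 := by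
  unfold om; rw [if_pos (by rfl)]

lemma om_u (p : Fin 45 → ℕ) (v : Fin 45) (h1 : 1 ≤ v.val) (h4 : v.val ≤ 4) : om p v =
    if p 0 < p v then (if p (mate v) < p v then 674 / 1000 else 1235 / 1000)
     else (if p (mate v) < p v then 997 / 1000 else 399 / 100) := by
  unfold om; rw [if_neg (by omega), if_pos h4]

lemma sum_nb (p : Fin 45 → ℕ) (v : Fin 45) (N : Finset (Fin 45)) (h : ∀ u, H.Adj v u ↔ u ∈ N) :
    ∑ u ∈ univ.filter (fun u => p v < p u ∧ H.Adj v u), om p u =
      ∑ u ∈ N, if p v < p u then om p u else 0 := by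
  rw [← sum_filter]
  apply sum_congr _ (fun _ _ => rfl)
  ext u
  simp only [mem_filter, mem_univ, true_and, h u, and_comm]

lemma leaves (p : Fin 45 → ℕ) (k : Fin 45) (hc : (L k).card = 10) :
    (∑ u ∈ L k, if p k < p u then om p u else 0) ≤ 1000 / 399 ∧
    ((∃ u ∈ L k, p u < p k) → (∑ u ∈ L k, if p k < p u then om p u else 0) ≤ 900 / 399) := by
  have h1 : ∀ u ∈ L k, (if p k < p u then om p u else 0) ≤ 100 / 399 := by
    intro u hu
    rw [om_leaf p u (mem_filter.mp hu).2.1]
    split_ifs <;> norm_num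
  constructor
  · have := sum_le_card_nsmul _ _ _ h1
    rw [hc] at this
    norm_num at this ⊢
    linarith
  · rintro ⟨u, hu, hl⟩
    rw [← add_sum_erase _ _ hu, if_neg (by omega)]
    have := sum_le_card_nsmul _ _ _ (fun x (hx : x ∈ (L k).erase u) => h1 x (mem_of_mem_erase hx))
    rw [card_erase_of_mem hu, hc] at this
    norm_num at this ⊢
    linarith

lemma key (p : Fin 45 → ℕ) (hp : Function.Injective p) (v : Fin 45)
    (hv : p v ≠ 0 → ∃ u, H.Adj v u ∧ p u < p v) :
    ∑ u ∈ univ.filter (fun u => p v < p u ∧ H.Adj v u), om p u +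
      (if p v = 0 then 0 else 1 / om p v) ≤ 399 / 100 := by
  have ne : ∀ a b : Fin 45, a ≠ b → p a ≠ p b := fun a b h e => h (hp e)
  by_cases a : v.val = 0
  · have : v = 0 := Fin.ext a
    subst this
    rw [sum_nb p 0 _ adj0]
    simp only [adj0, mem_insert, mem_singleton, exists_eq_or_imp, exists_eq_left] at hv
    rw [sum_insert (by decide), sum_insert (by decide), sum_insert (by decide), sum_singleton,
      om_zero, om_u p 1 (by decide) (by decide), om_u p 2 (by decide) (by decide),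
      om_u p 3 (by decide) (by decide), om_u p 4 (by decide) (by decide)]
    have m1 : mate 1 = 2 := rfl
    have m2 : mate 2 = 1 := rfl
    have m3 : mate 3 = 4 := rfl
    have m4 : mate 4 = 3 := rfl
    rw [m1, m2, m3, m4]
    have := ne 1 2 (by decide)
    have := ne 3 4 (by decide)
    have := ne 0 1 (by decide)
    have := ne 0 2 (by decide)
    have := ne 0 3 (by decide)
    have := ne 0 4 (by decide)
    split_ifs <;> first | (exfalso; omega) | norm_num
  · by_cases b : v.val ≤ 4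
    · obtain ⟨k1, k2, k3, k4, k5, k6, k7, k8⟩ := adjk v (by omega) b
      rw [sum_nb p v _ k1, sum_insert k2, sum_insert k3, om_u p v (by omega) b,
        om_u p (mate v) k6 k7, k5, om_zero]
      obtain ⟨l1, l2⟩ := leaves p v k4
      simp only [k1, mem_insert, exists_eq_or_imp] at hv
      have n1 := ne v 0 (fun h => a (by rw [h]; rfl))
      have n2 := ne (mate v) 0 (fun h => by rw [h] at k6; exact absurd k6 (by decide))
      have n3 := ne _ _ k8
      have n4 : p v < p 0 → p (mate v) < p 0 →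
          (p 1 < p 0 ∧ p 2 < p 0) ∨ (p 3 < p 0 ∧ p 4 < p 0) := by
        have : v = 1 ∨ v = 2 ∨ v = 3 ∨ v = 4 := by
          clear hv l2
          simp only [Fin.ext_iff]
          change v.val = 1 ∨ v.val = 2 ∨ v.val = 3 ∨ v.val = 4
          omega
        rcases this with rfl | rfl | rfl | rfl
        · exact fun x y => Or.inl ⟨x, y⟩
        · exact fun x y => Or.inl ⟨y, x⟩
        · exact fun x y => Or.inr ⟨x, y⟩
        · exact fun x y => Or.inr ⟨y, x⟩
      generalize (∑ u ∈ L v, if p v < p u then om p u else 0) = s at l1 l2 ⊢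
      by_cases c : ∃ u ∈ L v, p u < p v
      · have l3 := l2 c
        clear hv l2 c
        split_ifs <;> first | (exfalso; omega) | (norm_num; linarith)
      · simp only [c, or_false] at hv
        clear l2 c
        split_ifs <;> first | (exfalso; omega) | (norm_num; linarith)
    · have c : 5 ≤ v.val := by omega
      rw [sum_nb p v _ (adjl v c), sum_singleton, om_leaf p v c]
      simp only [adjl v c, mem_singleton, exists_eq_left] at hv
      have := om_le p (par v)
      split_ifs <;> first | (exfalso; omega) | (norm_num; linarith) | norm_num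

def pi (v : Fin 106) : Fin 45 :=
  ⟨if v.val < 2 then 0 else if v.val < 66 then (v - 2) / 16 + 1 else v - 61, by
    split_ifs <;> omega⟩

def bad (x y : ℕ) : Prop :=
  2 ≤ x ∧ x < 66 ∧ (((x - 2) % 16 < 10 ∧ y = 66 + (x - 2) / 16 * 10 + (x - 2) % 16) ∨
    (10 ≤ (x - 2) % 16 ∧ (x - 2) % 16 < 12 ∧ y = (x - 2) / 16 / 2) ∨
    (12 ≤ (x - 2) % 16 ∧ 2 ≤ y ∧ y < 66 ∧ 12 ≤ (y - 2) % 16))

instance (a b : ℕ) : Decidable (bad a b) := by unfold bad; infer_instance

def G : SimpleGraph (Fin 106) where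
  Adj x y := H.Adj (pi x) (pi y) ∧ ¬ bad x y ∧ ¬ bad y x
  symm := ⟨fun _ _ h => ⟨h.1.symm, h.2.2, h.2.1⟩⟩
  loopless := ⟨fun _ h => H.irrefl h.1⟩

instance : DecidableRel G.Adj := fun x y =>
  inferInstanceAs (Decidable (H.Adj (pi x) (pi y) ∧ ¬ bad x y ∧ ¬ bad y x))

lemma pi_surj : Function.Surjective pi := by
  unfold Function.Surjective
  decide +kernel

lemma dens0 : ∀ i j : Fin 45, H.Adj i j →
    16 * (∑ x ∈ univ.filter (fun x => pi x = i), (univ.filter (fun y => pi y = j ∧ G.Adj x y)).card) =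
      15 * ((univ.filter (fun x => pi x = i)).card * (univ.filter (fun x => pi x = j)).card) := by
  decide +kernel

lemma dens (i j : Fin 45) (h : H.Adj i j) :
    (Nat.card {p : Fin 106 × Fin 106 // pi p.1 = i ∧ pi p.2 = j ∧ G.Adj p.1 p.2} : ℝ) /
      ((Nat.card {x : Fin 106 // pi x = i} : ℝ) * (Nat.card {x : Fin 106 // pi x = j} : ℝ)) =
      15 / 16 := by
  have c : ∀ i, Nat.card {x : Fin 106 // pi x = i} = (univ.filter (fun x => pi x = i)).card := by
    intro i; rw [Nat.card_eq_fintype_card, Fintype.card_subtype]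
  have pos : ∀ i, (0 : ℝ) < (univ.filter (fun x => pi x = i)).card := by
    intro i
    obtain ⟨x, hx⟩ := pi_surj i
    exact_mod_cast card_pos.mpr ⟨x, mem_filter.mpr ⟨mem_univ _, hx⟩⟩
  have d : Nat.card {p : Fin 106 × Fin 106 // pi p.1 = i ∧ pi p.2 = j ∧ G.Adj p.1 p.2} =
      ∑ x ∈ univ.filter (fun x => pi x = i), (univ.filter (fun y => pi y = j ∧ G.Adj x y)).card := by
    rw [Nat.card_eq_fintype_card, Fintype.card_subtype, card_filter, Fintype.sum_prod_type,
      sum_filter]
    apply sum_congr rfl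
    intro x _
    split_ifs with hx
    · rw [card_filter]
      apply sum_congr rfl
      intro y _
      simp only [hx, true_and]
    · simp only [hx, false_and, if_false, sum_const_zero]
  rw [c, c, d, div_eq_iff (mul_pos (pos i) (pos j)).ne']
  have := dens0 i j h
  have h' : (16 : ℝ) * ((∑ x ∈ univ.filter (fun x => pi x = i),
      (univ.filter (fun y => pi y = j ∧ G.Adj x y)).card : ℕ) : ℝ) =
      15 * (((univ.filter (fun x => pi x = i)).card : ℝ) *
        ((univ.filter (fun x => pi x = j)).card : ℝ)) := by exact_mod_cast this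
  linarith

lemma pi_spec (v : Fin 106) : (v.val < 2 ∧ (pi v).val = 0) ∨
    (2 ≤ v.val ∧ v.val < 66 ∧ (pi v).val = (v - 2) / 16 + 1) ∨
    (66 ≤ v.val ∧ (pi v).val = v - 61) := by
  unfold pi
  simp only
  split_ifs <;> omega

lemma no_trans : ¬ ∃ a : Fin 45 → Fin 106, (∀ i, pi (a i) = i) ∧
    ∀ i j, H.Adj i j → G.Adj (a i) (a j) := by
  rintro ⟨a, h1, h2⟩
  have sp : ∀ i, _ := fun i => pi_spec (a i)
  simp only [h1] at sp
  have s0 := sp 0
  have A : ∀ k : Fin 45, 1 ≤ k.val → k.val ≤ 4 → (k.val - 1) / 2 = (a 0).val →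
      2 ≤ (a k).val ∧ (a k).val < 66 ∧ 12 ≤ ((a k).val - 2) % 16 := by
    intro k k1 k4 hk
    have sk := sp k
    refine ⟨by omega, by omega, ?_⟩
    by_contra hc
    by_cases r : ((a k).val - 2) % 16 < 10
    · let l : Fin 45 := ⟨5 + (k.val - 1) * 10 + ((a k).val - 2) % 16, by omega⟩
      have hl : l.val = 5 + (k.val - 1) * 10 + ((a k).val - 2) % 16 := rfl
      have sl := sp l
      have ad : H.Adj k l := Or.inl (by unfold e; omega)
      exact (h2 k l ad).2.1 (by unfold bad; omega)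
    · have ad : H.Adj k 0 := Or.inr (Or.inl ⟨rfl, k1, k4⟩)
      exact (h2 k 0 ad).2.1 (by unfold bad; omega)
  have z : (0 : Fin 45).val = 0 := rfl
  by_cases x : (a 0).val = 0
  · have b1 := A 1 (by decide) (by decide) (by rw [x]; rfl)
    have b2 := A 2 (by decide) (by decide) (by rw [x]; rfl)
    exact (h2 1 2 (by decide)).2.1 (by unfold bad; omega)
  · have y : (a 0).val = 1 := by omega
    have b1 := A 3 (by decide) (by decide) (by rw [y]; rfl)
    have b2 := A 4 (by decide) (by decide) (by rw [y]; rfl)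
    exact (h2 3 4 (by decide)).2.1 (by unfold bad; omega)

end Pool.Agent.H8.StarDec
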