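import Mathlib
import Pool.Agent.H8.MonoTree

set_option autoImplicit false
open Classical

namespace Pool.Agent.H8.StarGen

theorem beta_le {n : ℕ} (H : SimpleGraph (Fin (n + 2))) (lam : ℝ)
    (hlam : 1 ≤ lam) (om : (Fin (n + 2) → ℕ) → Fin (n + 2) → ℝ) (pos : ∀ p v, 0 < om p v)
    (key0 : ∀ p : Fin (n + 2) → ℕ, Function.Injective p → ∀ v,
      (p v ≠ 0 → ∃ u, H.Adj v u ∧ p u < p v) → ∀ s : Finset (Fin (n + 2)),
      (∀ u, u ∈ s ↔ p v < p u ∧ H.Adj v u) →
      ∑ u ∈ s, om p u + (if p v = 0 then 0 else 1 / om p v) ≤ lam) :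
    sSup {β : ℝ | ∃ f : Equiv.Perm (Fin (n+2)),
        (∀ k : Fin (n+2), (H.induce {v | f.symm v ≤ k}).Connected) ∧
        ∃ P : Finset (Finset (Fin (n+2))),
          P = Finset.univ.filter (fun S : Finset (Fin (n+2)) => (0 : Fin (n+2)) ∈ S ∧
                ∀ a ∈ S, ∀ b ∈ S, a < b → (∀ c ∈ S, ¬ (a < c ∧ c < b)) → H.Adj (f a) (f b)) ∧
          β = 1 - ((sSup {q : ℝ | ∃ x : Finset (Fin (n+2)) → ℝ,
                (∑ S ∈ P, x S ^ 2) = 1 ∧
                q = ∑ S ∈ P, ∑ T ∈ P,
                  (if ((∃ m : Fin (n+2), m ∉ S ∧ (∀ a ∈ S, a < m) ∧ T = insert m S) ∨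
                       (∃ m : Fin (n+2), m ∉ T ∧ (∀ a ∈ T, a < m) ∧ S = insert m T))
                   then x S * x T else 0)}) ^ 2)⁻¹} ≤ 1 - (lam ^ 2)⁻¹ := by
  have h1 : (lam ^ 2)⁻¹ ≤ 1 := inv_le_one_of_one_le₀ (one_le_pow₀ hlam)
  apply Real.sSup_le _ (by linarith)
  rintro β ⟨f, hf, P, hP, rfl⟩
  have hinj : Function.Injective (fun v : Fin (n + 2) => (f.symm v).val) :=
    fun a b e => f.symm.injective (Fin.ext e)
  have key : ∀ a : Fin (n + 2), ∑ m ∈ Finset.univ.filter
      (fun m => a < m ∧ H.Adj (f a) (f m)), om (fun v => (f.symm v).val) (f m) +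
      (if a = 0 then 0 else 1 / om (fun v => (f.symm v).val) (f a)) ≤ lam := by
    intro a
    have k := key0 (fun v => (f.symm v).val) hinj (f a) (by
      intro hv
      exact MonoTree.earlier _ f hf (f a) (fun e => hv (congrArg Fin.val e)))
      (Finset.univ.filter (fun u => (f.symm (f a)).val < (f.symm u).val ∧ H.Adj (f a) u))
      (fun u => by simp only [Finset.mem_filter, Finset.mem_univ, true_and])
    have e1 : ∑ m ∈ Finset.univ.filter (fun m => a < m ∧ H.Adj (f a) (f m)),
        om (fun v => (f.symm v).val) (f m) =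
        ∑ u ∈ Finset.univ.filter (fun u => (f.symm (f a)).val < (f.symm u).val ∧
          H.Adj (f a) u), om (fun v => (f.symm v).val) u := by
      apply Finset.sum_equiv f
      · intro m
        simp only [Finset.mem_filter, Finset.mem_univ, true_and, Equiv.symm_apply_apply,
          Fin.lt_def]
      · intro m _; rfl
    rw [e1]
    convert k using 3
    simp only [Equiv.symm_apply_apply, Fin.ext_iff]
    rfl
  have hPm : ∀ S ∈ P, (0 : Fin (n + 2)) ∈ S ∧ ∀ a ∈ S, ∀ b ∈ S, a < b →
      (∀ c ∈ S, ¬ (a < c ∧ c < b)) → H.Adj (f a) (f b) := by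
    intro S hS
    rw [hP] at hS
    exact (Finset.mem_filter.mp hS).2
  have up := MonoTree.quad_le (fun a b => H.Adj (f a) (f b))
    (fun m => om (fun v => (f.symm v).val) (f m)) lam (fun m => pos _ _)
    (by have := key 0; rw [if_pos rfl, add_zero] at this; convert this)
    (fun a ha => by have := key a; rw [if_neg ha] at this; convert this) P hPm
  have a01 : H.Adj (f 0) (f 1) := by
    obtain ⟨u, hu, hl⟩ := MonoTree.earlier _ f hf (f 1) (by
      rw [Equiv.symm_apply_apply]; exact one_ne_zero)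
    rw [Equiv.symm_apply_apply] at hl
    have : f.symm u = 0 := by
      rw [Fin.lt_def] at hl
      apply Fin.ext
      change (f.symm u).val < 1 at hl
      change (f.symm u).val = 0
      omega
    rw [← this, Equiv.apply_symm_apply]
    exact hu.symm
  obtain ⟨x, hx1, hx2⟩ := MonoTree.quad_pos P
    (by
      rw [hP]
      refine Finset.mem_filter.mpr ⟨Finset.mem_univ _, Finset.mem_singleton_self _, ?_⟩
      intro a ha b hb hab
      rw [Finset.mem_singleton.mp ha, Finset.mem_singleton.mp hb] at hab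
      exact absurd hab (lt_irrefl _))
    (by
      rw [hP]
      refine Finset.mem_filter.mpr ⟨Finset.mem_univ _, by simp, ?_⟩
      intro a ha b hb hab _
      simp only [Finset.mem_insert, Finset.mem_singleton] at ha hb
      rcases ha with rfl | rfl <;> rcases hb with rfl | rfl
      · exact absurd hab (lt_irrefl _)
      · exact absurd hab (by simp)
      · exact a01
      · exact absurd hab (lt_irrefl _))
  have bd : ∀ q ∈ {q : ℝ | ∃ x : Finset (Fin (n+2)) → ℝ,
              (∑ S ∈ P, x S ^ 2) = 1 ∧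
              q = ∑ S ∈ P, ∑ T ∈ P,
                (if ((∃ m : Fin (n+2), m ∉ S ∧ (∀ a ∈ S, a < m) ∧ T = insert m S) ∨
                     (∃ m : Fin (n+2), m ∉ T ∧ (∀ a ∈ T, a < m) ∧ S = insert m T))
                 then x S * x T else 0)}, q ≤ lam := by
    rintro q ⟨y, hy, rfl⟩
    convert up y hy using 3
    unfold MonoTree.child
    congr
  have l1 := Real.sSup_le bd (by linarith)
  have l2 := le_csSup ⟨_, bd⟩ ⟨x, hx1, rfl⟩
  have l3 := fun h => lt_of_lt_of_le (a := (0 : ℝ)) h l2
  replace l3 := l3 (hx2.trans_eq (by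
    apply Finset.sum_congr rfl
    intro S _
    apply Finset.sum_congr rfl
    intro T _
    unfold MonoTree.child
    congr))
  gcongr

end Pool.Agent.H8.StarGen
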