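import Mathlib

namespace Pool.Agent.H8.Turan2

open Polynomial

noncomputable def Gp (s : Multiset ℝ) : ℝ[X] := (s.map (fun c => 1 + C c * X)).prod
noncomputable def g0 (s : Multiset ℝ) (t : ℝ) : ℝ := (Gp s).eval t
noncomputable def g1 (s : Multiset ℝ) (t : ℝ) : ℝ := (derivative (Gp s)).eval t
noncomputable def g2 (s : Multiset ℝ) (t : ℝ) : ℝ := (derivative (derivative (Gp s))).eval t

lemma g0_nil (t : ℝ) : g0 0 t = 1 := by simp [g0, Gp]
lemma g1_nil (t : ℝ) : g1 0 t = 0 := by simp [g1, Gp]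
lemma g2_nil (t : ℝ) : g2 0 t = 0 := by simp [g2, Gp]
lemma g0_cons (c : ℝ) (s : Multiset ℝ) (t : ℝ) : g0 (c ::ₘ s) t = (1 + c * t) * g0 s t := by
  simp [g0, Gp]
lemma g1_cons (c : ℝ) (s : Multiset ℝ) (t : ℝ) :
    g1 (c ::ₘ s) t = c * g0 s t + (1 + c * t) * g1 s t := by
  simp [g0, g1, Gp]
lemma g2_cons (c : ℝ) (s : Multiset ℝ) (t : ℝ) :
    g2 (c ::ₘ s) t = 2 * c * g1 s t + (1 + c * t) * g2 s t := by
  simp [g1, g2, Gp]; ring

lemma scale (l : ℝ) (s : Multiset ℝ) (t : ℝ) :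
    g0 (s.map (l * ·)) t = g0 s (l * t) ∧ g1 (s.map (l * ·)) t = l * g1 s (l * t) ∧
      g2 (s.map (l * ·)) t = l ^ 2 * g2 s (l * t) := by
  induction s using Multiset.induction_on with
  | empty => simp [g0_nil, g1_nil, g2_nil]
  | cons c s ih =>
    obtain ⟨a, b, d⟩ := ih
    rw [Multiset.map_cons, g0_cons, g1_cons, g2_cons, g0_cons, g1_cons, g2_cons, a, b, d]
    refine ⟨by ring, by ring, by ring⟩

lemma at_zero (s : Multiset ℝ) :
    g0 s 0 = 1 ∧ g1 s 0 = s.sum ∧ g2 s 0 = s.sum ^ 2 - (s.map (· ^ 2)).sum := by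
  induction s using Multiset.induction_on with
  | empty => simp [g0_nil, g1_nil, g2_nil]
  | cons c s ih =>
    obtain ⟨a, b, d⟩ := ih
    rw [Multiset.map_cons, g0_cons, g1_cons, g2_cons, a, b, d, Multiset.sum_cons, Multiset.sum_cons]
    refine ⟨by ring, by ring, by ring⟩

lemma half_case (s : Multiset ℝ) (h : ∀ c ∈ s, 1 / 2 ≤ c) :
    (s.card : ℝ) / 2 ≤ g1 s 0 ∧ (s.card : ℝ) * (s.card - 1) / 4 ≤ g2 s 0 := by
  induction s using Multiset.induction_on with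
  | empty => simp [g1_nil, g2_nil]
  | cons c s ih =>
    obtain ⟨a, b⟩ := ih (fun c hc => h c (Multiset.mem_cons_of_mem hc))
    have hc := h c (Multiset.mem_cons_self _ _)
    rw [g1_cons, g2_cons, (at_zero s).1, Multiset.card_cons]
    push_cast
    have : (0 : ℝ) ≤ s.card := Nat.cast_nonneg _
    constructor
    · linarith
    · nlinarith

noncomputable def Tp (z : Multiset ℝ) : ℝ[X] := (z.map (fun r => X - C r)).prod

lemma shift (z : Multiset ℝ) (x t : ℝ) (h : ∀ r ∈ z, x ≠ r) :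
    (Tp z).eval (x + t) = (Tp z).eval x * g0 (z.map (fun r => 1 / (x - r))) t ∧
    (derivative (Tp z)).eval (x + t) = (Tp z).eval x * g1 (z.map (fun r => 1 / (x - r))) t ∧
    (derivative (derivative (Tp z))).eval (x + t) =
      (Tp z).eval x * g2 (z.map (fun r => 1 / (x - r))) t := by
  induction z using Multiset.induction_on with
  | empty => simp [Tp, g0_nil, g1_nil, g2_nil]
  | cons c s ih =>
    obtain ⟨a, b, d⟩ := ih (fun c hc => h c (Multiset.mem_cons_of_mem hc))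
    have hc : x - c ≠ 0 := sub_ne_zero.2 (h c (Multiset.mem_cons_self _ _))
    have e : Tp (c ::ₘ s) = (X - C c) * Tp s := by simp [Tp]
    rw [Multiset.map_cons, g0_cons, g1_cons, g2_cons, e]
    simp only [derivative_mul, derivative_add, derivative_sub, derivative_X, derivative_C, eval_mul,
      eval_add, eval_sub, eval_X, eval_C, sub_zero, one_mul, a, b, d]
    refine ⟨by field_simp; ring, by field_simp; ring, by field_simp; ring⟩

noncomputable def Zn (s : Multiset ℝ) : ℝ := (s.map (fun c => max (-c) 0)).sum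

lemma Zn_cons (c : ℝ) (s : Multiset ℝ) : Zn (c ::ₘ s) = max (-c) 0 + Zn s := by simp [Zn]
lemma Zn_add (s r : Multiset ℝ) : Zn (s + r) = Zn s + Zn r := by simp [Zn]
lemma Zn_nonneg (s : Multiset ℝ) : 0 ≤ Zn s :=
  Multiset.sum_nonneg (fun x hx => by
    obtain ⟨c, _, rfl⟩ := Multiset.mem_map.1 hx
    exact le_max_right _ _)

lemma negs (t : ℝ) (ht : 0 ≤ t) (B : Multiset ℝ) (hB : ∀ c ∈ B, c ≤ 0) (hZ : t * Zn B ≤ 1 / 3) :
    0 ≤ g0 B t ∧ g1 B t ≤ 0 ∧ 0 ≤ g2 B t ∧ -(t * g1 B t) ≤ 3 / 2 * (t * Zn B) * g0 B t := by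
  induction B using Multiset.induction_on with
  | empty => simp [g0_nil, g1_nil, g2_nil, Zn]
  | cons c s ih =>
    have hc := hB c (Multiset.mem_cons_self _ _)
    rw [Zn_cons, max_eq_left (by linarith)] at hZ ⊢
    have z0 : 0 ≤ t * Zn s := mul_nonneg ht (Zn_nonneg s)
    have y0 : 0 ≤ t * (-c) := mul_nonneg ht (by linarith)
    obtain ⟨a, b, d, e⟩ := ih (fun c hc => hB c (Multiset.mem_cons_of_mem hc)) (by nlinarith)
    have y1 : 2 / 3 ≤ 1 + c * t := by nlinarith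
    rw [g0_cons, g1_cons, g2_cons]
    refine ⟨by positivity, ?_, ?_, ?_⟩
    · nlinarith [mul_nonneg (neg_nonneg.2 hc) a, mul_nonneg (by linarith : (0 : ℝ) ≤ 1 + c * t) (neg_nonneg.2 b)]
    · nlinarith [mul_nonneg (neg_nonneg.2 hc) (neg_nonneg.2 b), mul_nonneg (by linarith : (0 : ℝ) ≤ 1 + c * t) d]
    · have f1 := mul_le_mul_of_nonneg_left e (by linarith : (0 : ℝ) ≤ 1 + c * t)
      have f2 : 0 ≤ (t * (-c)) * g0 s t * (3 / 2 * (1 + c * t) - 1) :=
        mul_nonneg (mul_nonneg y0 a) (by linarith)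
      nlinarith

lemma poss (t : ℝ) (ht : 0 ≤ t) (B : Multiset ℝ) (hB : ∀ c ∈ B, c ≤ 0) (hZ : t * Zn B ≤ 1 / 3)
    (A : Multiset ℝ) (hA : ∀ c ∈ A, 0 ≤ c) :
    0 ≤ g0 (A + B) t ∧ 0 ≤ g0 (A + B) t + 2 * (t * g1 (A + B) t) ∧
      0 ≤ 2 * g0 (A + B) t + 4 * (t * g1 (A + B) t) + t ^ 2 * g2 (A + B) t := by
  induction A using Multiset.induction_on with
  | empty =>
    obtain ⟨a, b, d, e⟩ := negs t ht B hB hZ
    rw [zero_add]
    have : 3 / 2 * (t * Zn B) * g0 B t ≤ 1 / 2 * g0 B t :=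
      mul_le_mul_of_nonneg_right (by linarith) a
    refine ⟨a, by linarith, ?_⟩
    nlinarith [mul_nonneg (sq_nonneg t) d]
  | cons c s ih =>
    have hc := hA c (Multiset.mem_cons_self _ _)
    obtain ⟨a, b, d⟩ := ih (fun c hc => hA c (Multiset.mem_cons_of_mem hc))
    have y0 : 0 ≤ c * t := mul_nonneg hc ht
    rw [Multiset.cons_add, g0_cons, g1_cons, g2_cons]
    refine ⟨by positivity, ?_, ?_⟩
    · nlinarith [mul_nonneg y0 a, mul_nonneg y0 b]
    · nlinarith [mul_nonneg y0 a, mul_nonneg y0 b, mul_nonneg y0 d]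

lemma Kpos (t : ℝ) (ht : 0 ≤ t) (r : Multiset ℝ) (hZ : t * Zn r ≤ 1 / 3) :
    0 ≤ 2 * g0 r t + 4 * (t * g1 r t) + t ^ 2 * g2 r t := by
  have e := Multiset.filter_add_not (fun c : ℝ => 0 ≤ c) r
  have := poss t ht (r.filter (fun c => ¬ 0 ≤ c))
    (fun c hc => (not_le.1 (Multiset.mem_filter.1 hc).2).le) (by
      have h1 := Zn_add (r.filter (fun c => 0 ≤ c)) (r.filter (fun c => ¬ 0 ≤ c))
      rw [e] at h1
      have h2 := mul_nonneg ht (Zn_nonneg (r.filter (fun c => 0 ≤ c)))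
      rw [h1] at hZ
      linarith) (r.filter (fun c => 0 ≤ c)) (fun c hc => (Multiset.mem_filter.1 hc).2)
  rw [e] at this
  exact this.2.2

lemma smooth (t : ℝ) (ht : 0 ≤ t) (μ : ℝ) (k : ℕ) : ∀ A R : Multiset ℝ, A.card = k → A.sum = k * μ →
    t * Zn (A + R) ≤ 1 / 3 →
    g2 (A + R) t ≤ g2 (Multiset.replicate k μ + R) t ∧ Zn (Multiset.replicate k μ + R) ≤ Zn (A + R) := by
  induction k with
  | zero =>
    intro A R hc _ _
    rw [Multiset.card_eq_zero.1 hc]; simp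
  | succ k ih =>
    intro A R hc hs hZ
    have fin : ∀ A' : Multiset ℝ, A'.card = k → A'.sum = k * μ → g2 (A + R) t ≤ g2 (μ ::ₘ A' + R) t →
        Zn (μ ::ₘ A' + R) ≤ Zn (A + R) →
        g2 (A + R) t ≤ g2 (Multiset.replicate (k + 1) μ + R) t ∧
          Zn (Multiset.replicate (k + 1) μ + R) ≤ Zn (A + R) := by
      intro A' c1 c2 c3 c4
      have e1 : μ ::ₘ A' + R = A' + μ ::ₘ R := by rw [Multiset.cons_add, Multiset.add_cons]
      have e2 : Multiset.replicate (k + 1) μ + R = Multiset.replicate k μ + μ ::ₘ R := by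
        rw [Multiset.replicate_succ, Multiset.cons_add, Multiset.add_cons]
      rw [e1] at c3 c4
      obtain ⟨p, q⟩ := ih A' (μ ::ₘ R) c1 c2 ((mul_le_mul_of_nonneg_left c4 ht).trans hZ)
      rw [e2]
      exact ⟨c3.trans p, q.trans c4⟩
    by_cases hm : μ ∈ A
    · obtain ⟨A', rfl⟩ := Multiset.exists_cons_of_mem hm
      rw [Multiset.card_cons] at hc
      rw [Multiset.sum_cons] at hs
      refine fin A' (by omega) (by push_cast at hs; linarith) le_rfl le_rfl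
    · have hne : A ≠ 0 := by rintro rfl; simp at hc
      have lo : ∃ a ∈ A, a < μ := by
        by_contra hh
        push Not at hh
        have := Multiset.sum_lt_sum_of_nonempty (s := A) (f := fun _ => μ) (g := fun a => a) hne
          (fun a ha => lt_of_le_of_ne (hh a ha) (fun e => hm (e ▸ ha)))
        simp [hc, hs] at this
        linarith
      have hi : ∃ a ∈ A, μ < a := by
        by_contra hh
        push Not at hh
        have := Multiset.sum_lt_sum_of_nonempty (s := A) (g := fun _ => μ) (f := fun a => a) hne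
          (fun a ha => lt_of_le_of_ne (hh a ha) (fun e => hm (e ▸ ha)))
        simp [hc, hs] at this
        linarith
      obtain ⟨a, ha, ha'⟩ := lo
      obtain ⟨b, hb, hb'⟩ := hi
      obtain ⟨A1, rfl⟩ := Multiset.exists_cons_of_mem ha
      have hb1 : b ∈ A1 := by
        rcases Multiset.mem_cons.1 hb with e | e
        · linarith
        · exact e
      obtain ⟨A2, rfl⟩ := Multiset.exists_cons_of_mem hb1
      rw [Multiset.card_cons, Multiset.card_cons] at hc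
      rw [Multiset.sum_cons, Multiset.sum_cons] at hs
      have hz2 : t * Zn (A2 + R) ≤ 1 / 3 := by
        rw [Multiset.cons_add, Multiset.cons_add, Zn_cons, Zn_cons] at hZ
        nlinarith [mul_nonneg ht (le_max_right (-a) 0), mul_nonneg ht (le_max_right (-b) 0)]
      refine fin ((a + b - μ) ::ₘ A2) (by rw [Multiset.card_cons]; omega)
        (by rw [Multiset.sum_cons]; push_cast at hs; linarith) ?_ ?_
      · simp only [Multiset.cons_add, g0_cons, g1_cons, g2_cons]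
        have K := Kpos t ht _ hz2
        have pp : 0 ≤ (μ - a) * (b - μ) := mul_nonneg (by linarith) (by linarith)
        nlinarith [mul_nonneg pp K]
      · simp only [Multiset.cons_add, Zn_cons]
        have := le_max_left (-a) 0
        have := le_max_right (-a) 0
        have := le_max_left (-b) 0
        have := le_max_right (-b) 0
        rcases le_total (-μ) 0 with h1 | h1 <;> rcases le_total (-(a + b - μ)) 0 with h2 | h2 <;>
          simp only [max_eq_left, max_eq_right, h1, h2] <;> linarith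

lemma smooth2 (t : ℝ) (ht : 0 ≤ t) (A B : Multiset ℝ) (α β : ℝ) (hA : A.sum = A.card * α)
    (hB : B.sum = B.card * β) (hZ : t * Zn (A + B) ≤ 1 / 3) :
    g2 (A + B) t ≤ g2 (Multiset.replicate A.card α + Multiset.replicate B.card β) t := by
  obtain ⟨p, q⟩ := smooth t ht α A.card A B rfl hA hZ
  have hz := (mul_le_mul_of_nonneg_left q ht).trans hZ
  rw [add_comm] at hz
  obtain ⟨p', _⟩ := smooth t ht β B.card B _ rfl hB hz
  rw [add_comm B, add_comm (Multiset.replicate B.card β)] at p'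
  exact p.trans p'

lemma phi (x : ℝ) (h1 : -1 ≤ x) (h2 : x ≤ 1) : 0 ≤ 1 / 2 + ((1 + x) * (1 - x ^ 2) ^ 2) * (3 + 2 * x - 9 * x ^ 2 - 2 * ((1 + x) * (1 - x ^ 2) ^ 2)) := by
  rcases le_total x (-1/2) with g0 | g0
  · have key : ∀ p q : ℝ, 0 ≤ p → 0 ≤ q → 0 ≤ (512) * p ^ 0 * q ^ 10 + (5120) * p ^ 1 * q ^ 9 + (23040) * p ^ 2 * q ^ 8 + (57344) * p ^ 3 * q ^ 7 + (86016) * p ^ 4 * q ^ 6 + (82048) * p ^ 5 * q ^ 5 + (52224) * p ^ 6 * q ^ 4 + (23736) * p ^ 7 * q ^ 3 + (8296) * p ^ 8 * q ^ 2 + (2120) * p ^ 9 * q ^ 1 + (278) * p ^ 10 * q ^ 0 := by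
      intro p q hp hq; positivity
    exact le_of_le_of_eq (key (x - (-1)) ((-1/2) - x) (by linarith) (by linarith)) (by ring)
  rcases le_total x (0) with g1 | g1
  · have key : ∀ p q : ℝ, 0 ≤ p → 0 ≤ q → 0 ≤ (278) * p ^ 0 * q ^ 10 + (3440) * p ^ 1 * q ^ 9 + (20176) * p ^ 2 * q ^ 8 + (70600) * p ^ 3 * q ^ 7 + (158512) * p ^ 4 * q ^ 6 + (235296) * p ^ 5 * q ^ 5 + (232896) * p ^ 6 * q ^ 4 + (151936) * p ^ 7 * q ^ 3 + (62720) * p ^ 8 * q ^ 2 + (14848) * p ^ 9 * q ^ 1 + (1536) * p ^ 10 * q ^ 0 := by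
      intro p q hp hq; positivity
    exact le_of_le_of_eq (key (x - (-1/2)) ((0) - x) (by linarith) (by linarith)) (by ring)
  rcases le_total x (1/2) with g2 | g2
  · have key : ∀ p q : ℝ, 0 ≤ p → 0 ≤ q → 0 ≤ (1536) * p ^ 0 * q ^ 10 + (15872) * p ^ 1 * q ^ 9 + (71936) * p ^ 2 * q ^ 8 + (188032) * p ^ 3 * q ^ 7 + (313536) * p ^ 4 * q ^ 6 + (348128) * p ^ 5 * q ^ 5 + (260336) * p ^ 6 * q ^ 4 + (129208) * p ^ 7 * q ^ 3 + (40608) * p ^ 8 * q ^ 2 + (7280) * p ^ 9 * q ^ 1 + (566) * p ^ 10 * q ^ 0 := by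
      intro p q hp hq; positivity
    exact le_of_le_of_eq (key (x - (0)) ((1/2) - x) (by linarith) (by linarith)) (by ring)
  · have key : ∀ p q : ℝ, 0 ≤ p → 0 ≤ q → 0 ≤ (566) * p ^ 0 * q ^ 10 + (4040) * p ^ 1 * q ^ 9 + (11448) * p ^ 2 * q ^ 8 + (15560) * p ^ 3 * q ^ 7 + (9120) * p ^ 4 * q ^ 6 + (2560) * p ^ 5 * q ^ 5 + (9216) * p ^ 6 * q ^ 4 + (18432) * p ^ 7 * q ^ 3 + (14848) * p ^ 8 * q ^ 2 + (5120) * p ^ 9 * q ^ 1 + (512) * p ^ 10 * q ^ 0 := by
      intro p q hp hq; positivity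
    exact le_of_le_of_eq (key (x - (1/2)) ((1) - x) (by linarith) (by linarith)) (by ring)

lemma phi7 (x : ℝ) (h1 : -1 ≤ x) (h2 : x ≤ 1) : 0 ≤ 3072 / 2401 - (7 * x ^ 2 - 2 * x - 1) * ((1 + x) * (1 - x ^ 2)) := by
  rcases le_total x (-1/2) with g0 | g0
  · have key : ∀ p q : ℝ, 0 ≤ p → 0 ≤ q → 0 ≤ (98304/2401) * p ^ 0 * q ^ 5 + (491520/2401) * p ^ 1 * q ^ 4 + (675712/2401) * p ^ 2 * q ^ 3 + (445216/2401) * p ^ 3 * q ^ 2 + (193796/2401) * p ^ 4 * q ^ 1 + (47883/2401) * p ^ 5 * q ^ 0 := by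
      intro p q hp hq; positivity
    exact le_of_le_of_eq (key (x - (-1)) ((-1/2) - x) (by linarith) (by linarith)) (by ring)
  rcases le_total x (0) with g1 | g1
  · have key : ∀ p q : ℝ, 0 ≤ p → 0 ≤ q → 0 ≤ (47883/2401) * p ^ 0 * q ^ 5 + (285034/2401) * p ^ 1 * q ^ 4 + (810168/2401) * p ^ 2 * q ^ 3 + (1175120/2401) * p ^ 3 * q ^ 2 + (760432/2401) * p ^ 4 * q ^ 1 + (175136/2401) * p ^ 5 * q ^ 0 := by
      intro p q hp hq; positivity
    exact le_of_le_of_eq (key (x - (-1/2)) ((0) - x) (by linarith) (by linarith)) (by ring)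
  rcases le_total x (1/2) with g2 | g2
  · have key : ∀ p q : ℝ, 0 ≤ p → 0 ≤ q → 0 ≤ (175136/2401) * p ^ 0 * q ^ 5 + (990928/2401) * p ^ 1 * q ^ 4 + (2097104/2401) * p ^ 2 * q ^ 3 + (2001064/2401) * p ^ 3 * q ^ 2 + (822858/2401) * p ^ 4 * q ^ 1 + (119913/2401) * p ^ 5 * q ^ 0 := by
      intro p q hp hq; positivity
    exact le_of_le_of_eq (key (x - (0)) ((1/2) - x) (by linarith) (by linarith)) (by ring)
  rcases le_total x (3/4) with g3 | g3
  · have key : ∀ p q : ℝ, 0 ≤ p → 0 ≤ q → 0 ≤ (3837216/2401) * p ^ 0 * q ^ 5 + (15613392/2401) * p ^ 1 * q ^ 4 + (23351504/2401) * p ^ 2 * q ^ 3 + (15418600/2401) * p ^ 3 * q ^ 2 + (4266266/2401) * p ^ 4 * q ^ 1 + (439801/2401) * p ^ 5 * q ^ 0 := by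
      intro p q hp hq; positivity
    exact le_of_le_of_eq (key (x - (1/2)) ((3/4) - x) (by linarith) (by linarith)) (by ring)
  rcases le_total x (7/8) with g4 | g4
  · have key : ∀ p q : ℝ, 0 ≤ p → 0 ≤ q → 0 ≤ (14073632/2401) * p ^ 0 * q ^ 5 + (37291984/2401) * p ^ 1 * q ^ 4 + (30443984/2401) * p ^ 2 * q ^ 3 + (15135208/2401) * p ^ 3 * q ^ 2 + (18338490/2401) * p ^ 4 * q ^ 1 + (10445721/2401) * p ^ 5 * q ^ 0 := by
      intro p q hp hq; positivity
    exact le_of_le_of_eq (key (x - (3/4)) ((7/8) - x) (by linarith) (by linarith)) (by ring)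
  · have key : ∀ p q : ℝ, 0 ≤ p → 0 ≤ q → 0 ≤ (10445721/2401) * p ^ 0 * q ^ 5 + (86118720/2401) * p ^ 1 * q ^ 4 + (286256128/2401) * p ^ 2 * q ^ 3 + (455901184/2401) * p ^ 3 * q ^ 2 + (345964544/2401) * p ^ 4 * q ^ 1 + (100663296/2401) * p ^ 5 * q ^ 0 := by
      intro p q hp hq; positivity
    exact le_of_le_of_eq (key (x - (7/8)) ((1) - x) (by linarith) (by linarith)) (by ring)

end Pool.Agent.H8.Turan2
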