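import Pool.Agent.H8.Turan2a

namespace Pool.Agent.H8.Turan2

open Polynomial

noncomputable def Wf (k : ℕ) (x : ℝ) : ℝ :=
  (1 + 2 * x - (2 * k + 5) * x ^ 2) * ((1 - x ^ 2) ^ k * (1 + x))

lemma ratio (y y0 : ℝ) (h0 : 0 < y0) : y ≤ y0 * Real.exp (y / y0 - 1) := by
  have := Real.add_one_le_exp (y / y0 - 1)
  have h : y / y0 ≤ Real.exp (y / y0 - 1) := by linarith
  rw [div_le_iff₀ h0] at h
  linarith

lemma W0_pos (k : ℕ) : 0 < Wf k (1 / (2 * k + 5)) ∧
    Wf k (1 / (2 * k + 5)) = (1 + 1 / (2 * k + 5)) ^ 2 * (1 - (1 / (2 * k + 5)) ^ 2) ^ k := by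
  have hn : (5 : ℝ) ≤ 2 * k + 5 := by linarith [(Nat.cast_nonneg k : (0 : ℝ) ≤ k)]
  have e : Wf k (1 / (2 * k + 5)) = (1 + 1 / (2 * k + 5)) ^ 2 * (1 - (1 / (2 * k + 5)) ^ 2) ^ k := by
    unfold Wf
    generalize (1 - (1 / (2 * (k : ℝ) + 5)) ^ 2) ^ k = u
    field_simp
    ring
  refine ⟨?_, e⟩
  rw [e]
  have h1 : (1 / (2 * (k : ℝ) + 5)) ≤ 1 / 5 := one_div_le_one_div_of_le (by norm_num) hn
  have h2 : 0 < (1 / (2 * (k : ℝ) + 5)) := by positivity
  have : 0 < 1 - (1 / (2 * (k : ℝ) + 5)) ^ 2 := by nlinarith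
  positivity

lemma W_pos_case (k : ℕ) (x : ℝ) (h1 : -1 ≤ x) (h2 : x ≤ 1)
    (hq : 0 ≤ 1 + 2 * x - (2 * k + 5) * x ^ 2) :
    Wf k x ≤ Wf k (1 / (2 * k + 5)) * Real.exp ((4 * ((2 * k + 5) * x - 1) -
      (3 * k + 4) * ((2 * k + 5) * x - 1) ^ 2) / ((2 * k + 5) ^ 2 - 1)) := by
  have hk : (0 : ℝ) ≤ k := Nat.cast_nonneg k
  set n : ℝ := 2 * k + 5 with hn
  have n5 : 5 ≤ n := by linarith
  have x0 : 0 < 1 / n := by positivity
  have x1 : 1 / n ≤ 1 / 5 := one_div_le_one_div_of_le (by norm_num) n5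
  have a0 : 0 < 1 + 2 * (1 / n) - n * (1 / n) ^ 2 := by
    have : n * (1 / n) ^ 2 = 1 / n := by field_simp
    rw [this]; linarith
  have b0 : 0 < 1 - (1 / n) ^ 2 := by nlinarith
  have c0 : 0 < 1 + 1 / n := by linarith
  have sx : 0 ≤ 1 - x ^ 2 := by nlinarith
  have r1 := ratio (1 + 2 * x - n * x ^ 2) _ a0
  have r2 := pow_le_pow_left₀ sx (ratio (1 - x ^ 2) _ b0) k
  have r3 := ratio (1 + x) _ c0
  have r4 := mul_le_mul r1 (mul_le_mul r2 r3 (by linarith) (by positivity))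
    (mul_nonneg (pow_nonneg sx k) (by linarith)) (by positivity)
  unfold Wf
  refine r4.trans (le_of_eq ?_)
  rw [mul_pow, ← Real.exp_nat_mul]
  have e : (4 * (n * x - 1) - (3 * k + 4) * (n * x - 1) ^ 2) / (n ^ 2 - 1) =
      ((1 + 2 * x - n * x ^ 2) / (1 + 2 * (1 / n) - n * (1 / n) ^ 2) - 1) +
      (k * ((1 - x ^ 2) / (1 - (1 / n) ^ 2) - 1) + ((1 + x) / (1 + 1 / n) - 1)) := by
    have e1 : 1 + 2 * (1 / n) - n * (1 / n) ^ 2 = (n + 1) / n := by field_simp; ring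
    have e2 : 1 - (1 / n) ^ 2 = (n + 1) * (n - 1) / n ^ 2 := by field_simp; ring
    have e3 : 1 + 1 / n = (n + 1) / n := by field_simp
    have e4 : n ^ 2 - 1 = (n + 1) * (n - 1) := by ring
    have p1 : n + 1 ≠ 0 := by linarith
    have p2 : n - 1 ≠ 0 := by linarith
    have p3 : n ≠ 0 := by linarith
    have hk2 : (k : ℝ) = (n - 5) / 2 := by linarith
    rw [e1, e2, e3, e4, hk2]
    field_simp
    ring
  rw [e, Real.exp_add, Real.exp_add]
  ring

lemma W_neg_case (k : ℕ) (hk1 : 1 ≤ k) (x : ℝ) (h1 : -1 ≤ x) (h2 : x ≤ 1) :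
    -Wf k x ≤ Wf k (1 / (2 * k + 5)) := by
  rw [(W0_pos k).2]
  have sx : 0 ≤ 1 - x ^ 2 := by nlinarith
  rcases Nat.lt_or_ge k 2 with h | h
  · obtain rfl : k = 1 := by omega
    have := phi7 x h1 h2
    unfold Wf
    norm_num
    linarith
  · obtain ⟨r, rfl⟩ := Nat.exists_eq_add_of_le' h
    have hr : (0 : ℝ) ≤ r := Nat.cast_nonneg r
    have low : (1 : ℝ) ≤ (1 + 1 / (2 * ((r + 2 : ℕ) : ℝ) + 5)) ^ 2 *
        (1 - (1 / (2 * ((r + 2 : ℕ) : ℝ) + 5)) ^ 2) ^ (r + 2) := by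
      set K : ℝ := ((r + 2 : ℕ) : ℝ) with hK
      have K2 : 0 ≤ K := Nat.cast_nonneg _
      set u : ℝ := 1 / (2 * K + 5) with hu
      have u0 : 0 < u := by positivity
      have u1 : u * (2 * K + 5) = 1 := by rw [hu]; field_simp
      have u2 : u ≤ 1 / 5 := by nlinarith
      have ber := one_add_mul_le_pow (a := -u ^ 2) (by nlinarith) (r + 2)
      rw [← hK, ← sub_eq_add_neg] at ber
      have u3 : K * u ≤ 1 / 2 := by nlinarith
      have : 1 ≤ (1 + u) ^ 2 * (1 + K * -u ^ 2) := by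
        have : 1 - u / 2 ≤ 1 + K * -u ^ 2 := by nlinarith
        nlinarith [mul_le_mul_of_nonneg_left this (sq_nonneg (1 + u))]
      exact this.trans (mul_le_mul_of_nonneg_left ber (sq_nonneg _))
    refine le_trans ?_ low
    set y : ℝ := r * x ^ 2 with hy
    have y0 : 0 ≤ y := by positivity
    have ex : (1 - x ^ 2) ^ r ≤ Real.exp (-y) := by
      have : 1 - x ^ 2 ≤ Real.exp (-x ^ 2) := by linarith [Real.add_one_le_exp (-x ^ 2)]
      refine (pow_le_pow_left₀ sx this r).trans (le_of_eq ?_)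
      rw [← Real.exp_nat_mul, hy]; congr 1; ring
    have ey := Real.quadratic_le_exp_of_nonneg y0
    have ee : Real.exp (-y) * Real.exp y = 1 := by rw [← Real.exp_add]; simp
    have key : (1 - x ^ 2) ^ r * (1 + y + y ^ 2 / 2) ≤ 1 := by
      exact (mul_le_mul ex ey (by positivity) (Real.exp_pos _).le).trans ee.le
    have ph := phi x h1 h2
    set M : ℝ := (1 + x) * (1 - x ^ 2) ^ 2 with hM
    have b : (9 * x ^ 2 - 2 * x - 1 + 2 * y) * M ≤ 1 + y + y ^ 2 / 2 := by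
      nlinarith [sq_nonneg (y - (2 * M - 1))]
    have e : -Wf (r + 2) x = (1 - x ^ 2) ^ r * ((9 * x ^ 2 - 2 * x - 1 + 2 * y) * M) := by
      unfold Wf
      rw [hM, hy, pow_add]
      push_cast
      ring
    rw [e]
    exact (mul_le_mul_of_nonneg_left b (pow_nonneg sx r)).trans key

lemma W_bounds (k : ℕ) (hk1 : 1 ≤ k) (x : ℝ) (h1 : -1 ≤ x) (h2 : x ≤ 1) :
    |Wf k x| * ((2 * k + 5) ^ 2 - 9) ≤ Wf k (1 / (2 * k + 5)) * ((2 * k + 5) ^ 2 - 1) ∧
    ∃ t : ℝ, 0 ≤ t ∧ (2 * k + 5) * t ≤ 3 / 5 ∧ |Wf k x| ≤ Wf k (1 / (2 * k + 5) + t) := by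
  have hk : (1 : ℝ) ≤ k := by exact_mod_cast hk1
  have w0 := (W0_pos k).1
  have sx : 0 ≤ 1 - x ^ 2 := by nlinarith
  have f0 : 0 ≤ (1 - x ^ 2) ^ k * (1 + x) := mul_nonneg (pow_nonneg sx k) (by linarith)
  have n7 : (7 : ℝ) ≤ 2 * k + 5 := by linarith
  have d1 : (0 : ℝ) < (2 * k + 5) ^ 2 - 9 := by nlinarith
  rcases le_total 0 (1 + 2 * x - (2 * k + 5) * x ^ 2) with hq | hq
  · have wx : 0 ≤ Wf k x := mul_nonneg hq f0
    have b := W_pos_case k x h1 h2 hq
    rw [abs_of_nonneg wx]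
    set w : ℝ := (2 * k + 5) * x - 1 with hw
    constructor
    · have e1 : (4 * w - (3 * k + 4) * w ^ 2) / ((2 * k + 5) ^ 2 - 1) ≤ 8 / ((2 * k + 5) ^ 2 - 1) :=
        div_le_div_of_nonneg_right (by nlinarith [sq_nonneg (w - 2), sq_nonneg w]) (by linarith)
      have e2 := Real.exp_le_exp.2 e1
      set δ : ℝ := 8 / ((2 * k + 5) ^ 2 - 1) with hδ
      have e3 : (1 - δ) * Real.exp δ ≤ 1 := by
        have := Real.add_one_le_exp (-δ)
        have ee : Real.exp (-δ) * Real.exp δ = 1 := by rw [← Real.exp_add]; simp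
        nlinarith [Real.exp_pos δ]
      have e4 : (1 - δ) * ((2 * k + 5) ^ 2 - 1) = (2 * k + 5) ^ 2 - 9 := by
        have : ((2 * (k : ℝ) + 5) ^ 2 - 1) ≠ 0 := by linarith
        rw [hδ]; field_simp; ring
      have e5 : Real.exp δ * ((2 * k + 5) ^ 2 - 9) ≤ (2 * k + 5) ^ 2 - 1 := by
        rw [← e4]
        nlinarith [mul_le_mul_of_nonneg_right e3 (show (0 : ℝ) ≤ (2 * k + 5) ^ 2 - 1 by linarith)]
      have e6 := b.trans (mul_le_mul_of_nonneg_left e2 w0.le)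
      nlinarith [mul_le_mul_of_nonneg_right e6 d1.le, mul_le_mul_of_nonneg_left e5 w0.le]
    · by_cases hin : 0 ≤ w ∧ w ≤ 3 / 5
      · refine ⟨x - 1 / (2 * k + 5), ?_, ?_, by simp⟩
        · rw [sub_nonneg, div_le_iff₀ (by linarith)]; linarith [hin.1]
        · rw [mul_sub, mul_one_div_cancel (by linarith)]; exact hin.2
      · refine ⟨0, le_rfl, by norm_num, ?_⟩
        rw [add_zero]
        have e1 : (4 * w - (3 * k + 4) * w ^ 2) / ((2 * k + 5) ^ 2 - 1) ≤ 0 := by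
          refine div_nonpos_of_nonpos_of_nonneg ?_ (by linarith)
          rcases not_and_or.1 hin with h | h
          · push Not at h; nlinarith [sq_nonneg w]
          · push Not at h
            have : 4 ≤ (3 * k + 4) * w := by nlinarith
            nlinarith
        have e2 := Real.exp_le_one_iff.2 e1
        nlinarith
  · have wx : Wf k x ≤ 0 := mul_nonpos_of_nonpos_of_nonneg hq f0
    have b := W_neg_case k hk1 x h1 h2
    rw [abs_of_nonpos wx]
    refine ⟨by nlinarith, 0, le_rfl, by norm_num, by rw [add_zero]; exact b⟩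

noncomputable def Qm (m : ℕ) : ℝ[X] := (1 - X) ^ m * (1 + X) ^ (m + 1)

lemma Q2 (k : ℕ) (x : ℝ) :
    (derivative (derivative (Qm (k + 2)))).eval x = -(2 * k + 4) * Wf k x := by
  unfold Qm Wf
  have : (1 - x ^ 2) ^ k = (1 - x) ^ k * (1 + x) ^ k := by rw [← mul_pow]; congr 1; ring
  rw [this]
  simp [derivative_mul, derivative_pow]
  ring

lemma Q0 (k : ℕ) : (Qm (k + 2)).eval (1 / (2 * (k : ℝ) + 5)) =
    Wf k (1 / (2 * k + 5)) * ((1 - 1 / (2 * k + 5)) ^ 2 * (1 + 1 / (2 * k + 5))) := by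
  rw [(W0_pos k).2]
  unfold Qm
  generalize (1 / (2 * (k : ℝ) + 5)) = x
  have : (1 - x ^ 2) ^ k = (1 - x) ^ k * (1 + x) ^ k := by rw [← mul_pow]; congr 1; ring
  rw [this]
  simp
  ring

lemma Q_eq (m : ℕ) : Qm m = C ((-1) ^ m) * Tp (Multiset.replicate (m + 1) (-1) + Multiset.replicate m 1) := by
  unfold Qm Tp
  simp only [Multiset.map_add, Multiset.prod_add, Multiset.map_replicate, Multiset.prod_replicate,
    C_pow, C_neg, C_1]
  rw [show (1 - X : ℝ[X]) = -1 * (X - 1) by ring, mul_pow, show (1 + X : ℝ[X]) = X - -1 by ring]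
  ring

lemma Q_shift (k : ℕ) (t : ℝ) :
    (derivative (derivative (Qm (k + 2)))).eval (1 / (2 * (k : ℝ) + 5) + t) =
      (Qm (k + 2)).eval (1 / (2 * (k : ℝ) + 5)) *
      g2 (Multiset.replicate (k + 3) ((2 * (k : ℝ) + 5) / (2 * (k + 3))) +
        Multiset.replicate (k + 2) (-((2 * (k : ℝ) + 5) / (2 * (k + 2))))) t := by
  have hk : (0 : ℝ) ≤ k := Nat.cast_nonneg k
  have x0 : 0 < 1 / (2 * (k : ℝ) + 5) := by positivity
  have x1 : 1 / (2 * (k : ℝ) + 5) ≤ 1 / 5 := one_div_le_one_div_of_le (by norm_num) (by linarith)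
  have := (shift (Multiset.replicate (k + 2 + 1) (-1) + Multiset.replicate (k + 2) 1)
    (1 / (2 * (k : ℝ) + 5)) t (fun r hr => by
      rcases Multiset.mem_add.1 hr with h | h <;> rw [Multiset.eq_of_mem_replicate h] <;> linarith)).2.2
  rw [Multiset.map_add, Multiset.map_replicate, Multiset.map_replicate] at this
  have e1 : 1 / (1 / (2 * (k : ℝ) + 5) - -1) = (2 * k + 5) / (2 * (k + 3)) := by
    have : 1 / (2 * (k : ℝ) + 5) - -1 = (2 * (k + 3)) / (2 * k + 5) := by field_simp; ring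
    rw [this]; field_simp
  have e2 : 1 / (1 / (2 * (k : ℝ) + 5) - 1) = -((2 * k + 5) / (2 * (k + 2))) := by
    have : 1 / (2 * (k : ℝ) + 5) - 1 = -((2 * (k + 2)) / (2 * k + 5)) := by field_simp; ring
    rw [this]; field_simp
  rw [e1, e2] at this
  rw [Q_eq, derivative_C_mul, derivative_C_mul, eval_mul, eval_mul, this, eval_C, eval_C, mul_assoc]

lemma Zn_pos (A : Multiset ℝ) (h : ∀ a ∈ A, 0 ≤ a) : Zn A = 0 := by
  induction A using Multiset.induction_on with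
  | empty => simp [Zn]
  | cons c s ih =>
    rw [Zn_cons, ih (fun c hc => h c (Multiset.mem_cons_of_mem hc)),
      max_eq_right (by linarith [h c (Multiset.mem_cons_self _ _)]), add_zero]

lemma Zn_neg (A : Multiset ℝ) (h : ∀ a ∈ A, a ≤ 0) : Zn A = -A.sum := by
  induction A using Multiset.induction_on with
  | empty => simp [Zn]
  | cons c s ih =>
    rw [Zn_cons, ih (fun c hc => h c (Multiset.mem_cons_of_mem hc)),
      max_eq_left (by linarith [h c (Multiset.mem_cons_self _ _)]), Multiset.sum_cons]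
    ring

lemma hard (k : ℕ) (A B : Multiset ℝ) (hA : ∀ a ∈ A, 0 ≤ a) (hB : ∀ b ∈ B, b ≤ 0)
    (cA : A.card = k + 3) (cB : B.card = k + 2) (S : ℝ) (sA : A.sum = S) (sB : B.sum = -S)
    (hS : 2 * k + 5 ≤ 2 * S) (τ : ℝ) (t0 : 0 ≤ τ) (t1 : (2 * k + 5) * τ ≤ 3 / 5) (ρ : ℝ) (r0 : 0 ≤ ρ)
    (hR : g2 (Multiset.replicate (k + 3) ((2 * (k : ℝ) + 5) / (2 * (k + 3))) +
        Multiset.replicate (k + 2) (-((2 * (k : ℝ) + 5) / (2 * (k + 2))))) τ ≤ -ρ) :
    ∃ u, 0 ≤ u ∧ S * u ≤ 3 / 10 ∧ ρ ≤ |g2 (A + B) u| := by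
  have hk : (0 : ℝ) ≤ k := Nat.cast_nonneg k
  have S0 : 0 < S := by linarith
  set l : ℝ := (2 * k + 5) / (2 * S) with hl
  have l0 : 0 < l := by positivity
  have l1 : l ≤ 1 := by rw [hl, div_le_one (by positivity)]; exact hS
  have lS : l * S = (2 * k + 5) / 2 := by rw [hl]; field_simp
  have m1 : (A.map (l * ·)).sum = (2 * k + 5) / 2 := by
    rw [Multiset.sum_map_mul_left, Multiset.map_id', sA, lS]
  have m2 : (B.map (l * ·)).sum = -((2 * k + 5) / 2) := by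
    rw [Multiset.sum_map_mul_left, Multiset.map_id', sB, mul_neg, lS]
  have sm := smooth2 τ t0 (A.map (l * ·)) (B.map (l * ·)) ((2 * (k : ℝ) + 5) / (2 * (k + 3)))
    (-((2 * (k : ℝ) + 5) / (2 * (k + 2))))
    (by rw [m1, Multiset.card_map, cA]; push_cast; field_simp)
    (by rw [m2, Multiset.card_map, cB]; push_cast; field_simp)
    (by
      rw [Zn_add, Zn_pos, Zn_neg, m2]
      · linarith
      · intro a ha
        obtain ⟨b, hb, rfl⟩ := Multiset.mem_map.1 ha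
        exact mul_nonpos_of_nonneg_of_nonpos l0.le (hB b hb)
      · intro a ha
        obtain ⟨b, hb, rfl⟩ := Multiset.mem_map.1 ha
        exact mul_nonneg l0.le (hA b hb))
  rw [Multiset.card_map, Multiset.card_map, cA, cB, ← Multiset.map_add, (scale l _ τ).2.2] at sm
  refine ⟨l * τ, by positivity, by nlinarith, ?_⟩
  have h1 : ρ ≤ l ^ 2 * |g2 (A + B) (l * τ)| := by
    nlinarith [mul_le_mul_of_nonneg_left (neg_abs_le (g2 (A + B) (l * τ))) (sq_nonneg l)]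
  have h2 : l ^ 2 ≤ 1 := by nlinarith
  nlinarith [abs_nonneg (g2 (A + B) (l * τ))]

lemma easy (k : ℕ) (A B : Multiset ℝ) (c : A.card + B.card = 2 * k + 5) (h3 : A.card ≠ k + 3)
    (h2 : A.card ≠ k + 2) (S : ℝ) (sA : A.sum = S) (sB : B.sum = -S) (hS : 2 * k + 5 ≤ 2 * S) :
    (2 * (k : ℝ) + 5) ^ 3 ≤ |g2 (A + B) 0| * ((2 * k + 5) ^ 2 - 9) := by
  have hk : (0 : ℝ) ≤ k := Nat.cast_nonneg k
  have S0 : 0 < S := by linarith
  have pA : 0 < A.card := Multiset.card_pos.2 (by rintro rfl; simp at sA; linarith)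
  have pB : 0 < B.card := Multiset.card_pos.2 (by rintro rfl; simp at sB; linarith)
  have pA' : (0 : ℝ) < A.card := by exact_mod_cast pA
  have pB' : (0 : ℝ) < B.card := by exact_mod_cast pB
  have sm := smooth2 0 le_rfl A B (S / A.card) (-S / B.card) (by rw [sA]; field_simp)
    (by rw [sB]; field_simp) (by norm_num)
  rw [(at_zero (Multiset.replicate _ _ + _)).2.2] at sm
  simp only [Multiset.sum_add, Multiset.map_add, Multiset.map_replicate, Multiset.sum_replicate,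
    nsmul_eq_mul] at sm
  have c' : (A.card : ℝ) + B.card = 2 * k + 5 := by exact_mod_cast c
  have pq : 4 * ((A.card : ℝ) * B.card) ≤ (2 * k + 5) ^ 2 - 9 := by
    rcases Nat.lt_or_ge A.card (k + 2) with h | h
    · have : (A.card : ℝ) ≤ k + 1 := by exact_mod_cast (by omega : A.card ≤ k + 1)
      nlinarith
    · have : (k : ℝ) + 4 ≤ A.card := by exact_mod_cast (by omega : k + 4 ≤ A.card)
      nlinarith
  generalize (A.card : ℝ) = p at *
  generalize (B.card : ℝ) = q at *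
  have e : (p * (S / p) + q * (-S / q)) ^ 2 - (p * (S / p) ^ 2 + q * (-S / q) ^ 2) =
      -(S ^ 2 * (p + q) / (p * q)) := by field_simp; ring
  rw [e, c'] at sm
  have b1 : S ^ 2 * (2 * k + 5) / (p * q) ≤ |g2 (A + B) 0| := by
    linarith [neg_abs_le (g2 (A + B) 0)]
  rw [div_le_iff₀ (by positivity)] at b1
  have b2 : (2 * (k : ℝ) + 5) ^ 2 ≤ 4 * S ^ 2 := by nlinarith
  have b3 := mul_le_mul_of_nonneg_left pq (abs_nonneg (g2 (A + B) 0))
  nlinarith [mul_le_mul_of_nonneg_right b2 (show (0 : ℝ) ≤ 2 * k + 5 by linarith)]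

lemma core (k : ℕ) (hk1 : 1 ≤ k) (z : Multiset ℝ) (cz : z.card = 2 * k + 5)
    (hz : ∀ r ∈ z, -1 ≤ r ∧ r ≤ 1) (x0 : ℝ) (a1 : -1 ≤ x0) (a2 : x0 ≤ 1) (hx : ∀ r ∈ z, x0 ≠ r)
    (hd : -1 < x0 → x0 < 1 → g1 (z.map (fun r => 1 / (x0 - r))) 0 = 0)
    (x1 : ℝ) (b1 : -1 ≤ x1) (b2 : x1 ≤ 1) :
    ∃ t, -1 ≤ x0 + t ∧ x0 + t ≤ 1 ∧ |(derivative (derivative (Qm (k + 2)))).eval x1| ≤
      |g2 (z.map (fun r => 1 / (x0 - r))) t| * (Qm (k + 2)).eval (1 / (2 * (k : ℝ) + 5)) := by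
  have hk : (1 : ℝ) ≤ k := by exact_mod_cast hk1
  obtain ⟨wA, τ, t0, t1, wB⟩ := W_bounds k hk1 x1 b1 b2
  have w0 := (W0_pos k).1
  have q0 := Q0 k
  have q3 : (2 * (k : ℝ) + 5) ^ 3 * (Qm (k + 2)).eval (1 / (2 * (k : ℝ) + 5)) =
      Wf k (1 / (2 * k + 5)) * ((2 * k + 4) * ((2 * k + 5) ^ 2 - 1)) := by
    rw [q0]; field_simp; ring
  have qp : 0 < (Qm (k + 2)).eval (1 / (2 * (k : ℝ) + 5)) := by
    have : 0 < (2 * (k : ℝ) + 5) ^ 3 * (Qm (k + 2)).eval (1 / (2 * (k : ℝ) + 5)) := by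
      rw [q3]
      have : (0 : ℝ) < (2 * k + 5) ^ 2 - 1 := by nlinarith
      positivity
    exact (mul_pos_iff_of_pos_left (by positivity)).1 this
  have qa : |(derivative (derivative (Qm (k + 2)))).eval x1| = (2 * k + 4) * |Wf k x1| := by
    rw [Q2, abs_mul, abs_neg, abs_of_pos (by linarith)]
  set s := z.map (fun r => 1 / (x0 - r)) with hs
  set Q1 := (Qm (k + 2)).eval (1 / (2 * (k : ℝ) + 5)) with hQ1
  have cs : s.card = 2 * k + 5 := by rw [hs, Multiset.card_map, cz]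
  have d9 : (0 : ℝ) < (2 * k + 5) ^ 2 - 9 := by nlinarith
  have fin : (2 * (k : ℝ) + 5) ^ 3 ≤ |g2 s 0| * ((2 * k + 5) ^ 2 - 9) →
      ∃ t, -1 ≤ x0 + t ∧ x0 + t ≤ 1 ∧ |(derivative (derivative (Qm (k + 2)))).eval x1| ≤
        |g2 s t| * Q1 := by
    intro h
    refine ⟨0, by linarith, by linarith, ?_⟩
    rw [qa]
    refine le_of_mul_le_mul_right ?_ d9
    have f1 := mul_le_mul_of_nonneg_left wA (show (0 : ℝ) ≤ 2 * k + 4 by linarith)
    have f2 := mul_le_mul_of_nonneg_right h qp.le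
    nlinarith
  have endp : ∀ s' : Multiset ℝ, s'.card = 2 * k + 5 → (∀ c ∈ s', 1 / 2 ≤ c) →
      (2 * (k : ℝ) + 5) ^ 3 ≤ |g2 s' 0| * ((2 * k + 5) ^ 2 - 9) := by
    intro s' c1 c2
    have := (half_case s' c2).2
    rw [c1] at this
    push_cast at this
    have f := mul_le_mul_of_nonneg_right (this.trans (le_abs_self _)) d9.le
    have g : (2 * (k : ℝ) + 5) ^ 3 ≤ (2 * k + 5) * (2 * k + 5 - 1) / 4 * ((2 * k + 5) ^ 2 - 9) := by
      have : 4 * (2 * (k : ℝ) + 5) ^ 2 ≤ (2 * k + 5 - 1) * ((2 * k + 5) ^ 2 - 9) := by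
        nlinarith [mul_nonneg (sub_nonneg.2 hk) (sub_nonneg.2 hk),
          mul_nonneg (mul_nonneg (sub_nonneg.2 hk) (sub_nonneg.2 hk)) (sub_nonneg.2 hk)]
      nlinarith [mul_le_mul_of_nonneg_left this (show (0 : ℝ) ≤ 2 * k + 5 by linarith)]
    linarith
  rcases a2.eq_or_lt with e1 | e1
  · refine fin (endp s cs fun c hc => ?_)
    obtain ⟨r, hr, rfl⟩ := Multiset.mem_map.1 hc
    have h1 := hz r hr
    have h2 : 0 < x0 - r := lt_of_le_of_ne (by linarith [h1.2]) (sub_ne_zero.2 (hx r hr)).symm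
    exact one_div_le_one_div_of_le h2 (by linarith [h1.1])
  rcases a1.eq_or_lt with e2 | e2
  · refine fin ?_
    have := endp (s.map (-1 * ·)) (by rw [Multiset.card_map, cs]) fun c hc => by
      obtain ⟨c', hc', rfl⟩ := Multiset.mem_map.1 hc
      obtain ⟨r, hr, rfl⟩ := Multiset.mem_map.1 hc'
      have h1 := hz r hr
      have h2 : 0 < r - x0 := lt_of_le_of_ne (by linarith [h1.1]) (sub_ne_zero.2 (hx r hr).symm).symm
      have : -1 * (1 / (x0 - r)) = 1 / (r - x0) := by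
        rw [← neg_sub r x0, one_div_neg_eq_neg_one_div]; ring
      rw [this]
      exact one_div_le_one_div_of_le h2 (by linarith [h1.2])
    rw [(scale (-1) s 0).2.2] at this
    simpa using this
  have s0 := hd e2 e1
  rw [(at_zero s).2.1] at s0
  have sp := Multiset.filter_add_not (fun c : ℝ => 0 ≤ c) s
  set A := s.filter (fun c : ℝ => 0 ≤ c) with hA
  set B := s.filter (fun c : ℝ => ¬ 0 ≤ c) with hB
  have A0 : ∀ a ∈ A, 0 ≤ a := fun a ha => (Multiset.mem_filter.1 ha).2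
  have B0 : ∀ a ∈ B, a ≤ 0 := fun a ha => (not_le.1 (Multiset.mem_filter.1 ha).2).le
  have sB : B.sum = -A.sum := by
    have := Multiset.sum_add A B
    rw [sp, s0] at this; linarith
  have cAB : A.card + B.card = 2 * k + 5 := by rw [← Multiset.card_add, sp, cs]
  have lA : (A.card : ℝ) ≤ A.sum * (1 + x0) := by
    have := Multiset.card_nsmul_le_sum (s := A.map (· * (1 + x0))) (a := 1) (fun c hc => by
      obtain ⟨a, ha, rfl⟩ := Multiset.mem_map.1 hc
      obtain ⟨h1, h2⟩ := Multiset.mem_filter.1 ha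
      obtain ⟨r, hr, rfl⟩ := Multiset.mem_map.1 h1
      have h3 : 0 < x0 - r := lt_of_le_of_ne (one_div_nonneg.1 h2) (sub_ne_zero.2 (hx r hr)).symm
      rw [div_mul_eq_mul_div, le_div_iff₀ h3]
      linarith [(hz r hr).1])
    rwa [Multiset.card_map, Multiset.sum_map_mul_right, Multiset.map_id', nsmul_one] at this
  have lB : (B.card : ℝ) ≤ A.sum * (1 - x0) := by
    have := Multiset.card_nsmul_le_sum (s := B.map (· * (x0 - 1))) (a := 1) (fun c hc => by
      obtain ⟨a, ha, rfl⟩ := Multiset.mem_map.1 hc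
      obtain ⟨h1, h2⟩ := Multiset.mem_filter.1 ha
      obtain ⟨r, hr, rfl⟩ := Multiset.mem_map.1 h1
      have h3 : x0 - r < 0 := one_div_neg.1 (not_le.1 h2)
      rw [div_mul_eq_mul_div, le_div_iff_of_neg h3]
      linarith [(hz r hr).2])
    rw [Multiset.card_map, Multiset.sum_map_mul_right, Multiset.map_id', nsmul_one, sB] at this
    linarith
  have cAB' : (A.card : ℝ) + B.card = 2 * k + 5 := by exact_mod_cast cAB
  have hS : 2 * (k : ℝ) + 5 ≤ 2 * A.sum := by linarith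
  have hR : g2 (Multiset.replicate (k + 3) ((2 * (k : ℝ) + 5) / (2 * (k + 3))) +
        Multiset.replicate (k + 2) (-((2 * (k : ℝ) + 5) / (2 * (k + 2))))) τ ≤
        -(|(derivative (derivative (Qm (k + 2)))).eval x1| / Q1) := by
    have := Q_shift k τ
    rw [Q2, ← hQ1] at this
    rw [qa, le_neg, div_le_iff₀ qp, neg_mul, mul_comm _ Q1, ← this]
    nlinarith
  have r0 : 0 ≤ |(derivative (derivative (Qm (k + 2)))).eval x1| / Q1 := by positivity
  by_cases h3 : A.card = k + 3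
  · obtain ⟨u, u0, u1, u2⟩ := hard k A B A0 B0 h3 (by omega) _ rfl sB hS τ t0 t1 _ r0 hR
    have : (B.card : ℝ) = k + 2 := by exact_mod_cast (by omega : B.card = k + 2)
    have hu : u ≤ 1 - x0 := le_of_mul_le_mul_left (a := A.sum) (by linarith) (by linarith)
    rw [sp, div_le_iff₀ qp] at u2
    exact ⟨u, by linarith, by linarith, u2⟩
  by_cases h2 : A.card = k + 2
  · obtain ⟨u, u0, u1, u2⟩ := hard k (B.map (-1 * ·)) (A.map (-1 * ·))
      (fun a ha => by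
        obtain ⟨b, hb, rfl⟩ := Multiset.mem_map.1 ha
        linarith [B0 b hb])
      (fun a ha => by
        obtain ⟨b, hb, rfl⟩ := Multiset.mem_map.1 ha
        linarith [A0 b hb])
      (by rw [Multiset.card_map]; omega) (by rw [Multiset.card_map]; omega) A.sum
      (by rw [Multiset.sum_map_mul_left, Multiset.map_id', sB]; ring)
      (by rw [Multiset.sum_map_mul_left, Multiset.map_id']; ring) hS τ t0 t1 _ r0 hR
    have : (A.card : ℝ) = k + 2 := by exact_mod_cast h2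
    have hu : u ≤ 1 + x0 := le_of_mul_le_mul_left (a := A.sum) (by linarith) (by linarith)
    rw [← Multiset.map_add, add_comm B, sp, (scale (-1) s u).2.2, div_le_iff₀ qp] at u2
    refine ⟨-1 * u, by linarith, by linarith, ?_⟩
    simpa using u2
  · have := easy k A B cAB h3 h2 _ rfl sB hS
    rw [sp] at this
    exact fin this

end Pool.Agent.H8.Turan2
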