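import Mathlib

set_option autoImplicit false
open Filter Topology Finset

namespace Pool.Agent.H8.VelA

/-- end point of a node of depth `r` started at `s` -/
def E : ℕ → ℕ → ℕ
  | 0, s => s + 1
  | r + 1, s => (E r)^[2 * s ^ 2 + 2] s

/-- sign of a child -/
def sg (s i : ℕ) : ℝ := if i = 2 * s ^ 2 + 1 then 1 else (-1) ^ i

/-- increments of a node -/
noncomputable def inc : ℕ → ℝ → ℕ → ℕ → ℝ
  | 0, c, s, k => if k = s then c else 0
  | r + 1, c, s, k => ∑ i ∈ range (2 * s ^ 2 + 2), inc r (sg s i * c / 2) ((E r)^[i] s) k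

/-- `W` has the shape of a node -/
def Shape (W : ℕ → ℝ) : ℕ → ℝ → ℕ → Prop
  | 0, c, s => W (s + 1) - W s = c
  | r + 1, c, s => ∀ i < 2 * s ^ 2 + 2, Shape W r (sg s i * c / 2) ((E r)^[i] s)

/-- many oscillations of size `η` inside `[p,q]` -/
def Osc (W : ℕ → ℝ) (η : ℝ) (p q : ℕ) : Prop :=
  ∃ s, p ≤ s ∧ ∃ u : ℕ → ℕ, Monotone u ∧ s ≤ u 0 ∧ u (s ^ 2) ≤ q ∧
    ∀ i < s ^ 2, η ≤ |W (u (i + 1)) - W (u i)|

/-- the chain property -/
def Chain (W : ℕ → ℝ) (r : ℕ) (c : ℝ) (s e : ℕ) : Prop :=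
  ∀ j < r, ∀ p q, s ≤ p → p ≤ q → q ≤ e → Osc W (c / 2 ^ (j + 1)) p q ∨ ((p ≠ s ∨ q ≠ e) ∧
    |W q - W p| ≤ ((if p = s then 0 else 1) + (if q = e then 0 else 1)) * (c / 2 ^ j))

lemma it_mono {f : ℕ → ℕ} (h : ∀ s, s < f s) (s : ℕ) : StrictMono fun i => f^[i] s :=
  strictMono_nat_of_lt_succ fun i => by
    rw [Function.iterate_succ_apply']
    exact h _

lemma E_lt : ∀ r s, s < E r s
  | 0, s => Nat.lt_succ_self s
  | r + 1, s => it_mono (E_lt r) s (show 0 < 2 * s ^ 2 + 2 by omega)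

lemma between {u : ℕ → ℕ} {k : ℕ} (h0 : u 0 ≤ k) : ∀ m, k < u m → ∃ i < m, u i ≤ k ∧ k < u (i + 1)
  | 0, h => absurd h0 (not_le.mpr h)
  | m + 1, h => by
    by_cases hm : k < u m
    · obtain ⟨i, h1, h2⟩ := between h0 m hm
      exact ⟨i, by omega, h2⟩
    · exact ⟨m, by omega, not_lt.mp hm, h⟩

lemma supp : ∀ r c s k, k < s ∨ E r s ≤ k → inc r c s k = 0
  | 0, c, s, k, h => if_neg (by simp only [E] at h; omega)
  | r + 1, c, s, k, h => sum_eq_zero fun i hi => supp r _ _ k (by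
    have h1 : (E r)^[0] s ≤ (E r)^[i] s := (it_mono (E_lt r) s).monotone (Nat.zero_le i)
    have h2 : (E r)^[i + 1] s ≤ (E r)^[2 * s ^ 2 + 2] s :=
      (it_mono (E_lt r) s).monotone (mem_range.mp hi)
    rw [Function.iterate_succ_apply'] at h2
    simp only [E, Function.iterate_zero_apply] at h h1
    omega)

lemma shape_of {W : ℕ → ℝ} : ∀ r c s,
    (∀ k, s ≤ k → k < E r s → W (k + 1) - W k = inc r c s k) → Shape W r c s
  | 0, c, s, h => by simpa [inc, Shape] using h s le_rfl (Nat.lt_succ_self s)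
  | r + 1, c, s, h => fun i hi => shape_of r _ _ fun k h1 h2 => by
    have hm := (it_mono (E_lt r) s).monotone
    rw [← Function.iterate_succ_apply' (E r)] at h2
    rw [h k ((hm (Nat.zero_le i)).trans h1) (h2.trans_le (hm hi)), inc,
      sum_eq_single_of_mem i (mem_range.mpr hi) fun j _ hj => supp _ _ _ _ ?_]
    rcases lt_or_gt_of_ne hj with h3 | h3
    · rw [← Function.iterate_succ_apply' (E r)]
      exact Or.inr ((hm h3).trans h1)
    · exact Or.inl (h2.trans_le (hm h3))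

lemma abs_sg (s i : ℕ) (c : ℝ) : |sg s i * c / 2| = |c| / 2 := by
  unfold sg
  split_ifs <;> simp [abs_div, abs_mul]

lemma Osc.mono {W : ℕ → ℝ} {η : ℝ} {p q p' q' : ℕ} (h : Osc W η p q) (h1 : p' ≤ p) (h2 : q ≤ q') :
    Osc W η p' q' := by
  obtain ⟨s, a, u, b, c, d, e⟩ := h
  exact ⟨s, h1.trans a, u, b, c, d.trans h2, e⟩

lemma Chain.app {W : ℕ → ℝ} {r s t e : ℕ} {c : ℝ} (hc : 0 ≤ c) (h1 : Chain W r c s t)
    (h2 : Chain W r c t e) (hs : s < t) (he : t < e) : Chain W r c s e := by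
  intro j hj p q a1 a2 a3
  have h0 : 0 ≤ c / 2 ^ j := by positivity
  rcases le_or_gt q t with b1 | b1
  · refine (h1 j hj p q a1 a2 b1).imp_right fun h => ⟨Or.inr (by omega), h.2.trans ?_⟩
    rw [if_neg (show q ≠ e by omega)]
    gcongr
    split_ifs <;> norm_num
  rcases le_or_gt t p with b2 | b2
  · refine (h2 j hj p q b2 a2 a3).imp_right fun h => ⟨Or.inl (by omega), h.2.trans ?_⟩
    rw [if_neg (show p ≠ s by omega)]
    gcongr
    split_ifs <;> norm_num
  rcases h1 j hj p t a1 b2.le le_rfl with c1 | ⟨c1, c2⟩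
  · exact Or.inl (c1.mono le_rfl b1.le)
  rcases h2 j hj t q le_rfl b1.le a3 with c3 | ⟨c3, c4⟩
  · exact Or.inl (c3.mono b2.le le_rfl)
  refine Or.inr ⟨Or.inl (by omega), ?_⟩
  rw [if_pos rfl] at c2 c4
  have := abs_sub_le (W q) (W t) (W p)
  linarith

lemma node {W : ℕ → ℝ} : ∀ r c s, Shape W r c s → W (E r s) = W s + c ∧
    (∀ k, s ≤ k → k ≤ E r s → ∃ θ : ℝ, 0 ≤ θ ∧ θ ≤ 1 ∧ W k = W s + θ * c) ∧
    (∀ k, s ≤ k → k < E r s → |W (k + 1) - W k| ≤ |c| / 2 ^ r) ∧ Chain W r |c| s (E r s)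
  | 0, c, s, h => by
    simp only [Shape] at h
    simp only [E]
    refine ⟨by linarith, fun k h1 h2 => ?_, fun k h1 h2 => ?_, fun j hj => absurd hj (by omega)⟩
    · rcases h1.eq_or_lt with rfl | h3
      · exact ⟨0, le_rfl, zero_le_one, by simp⟩
      · exact ⟨1, zero_le_one, le_rfl, by rw [show k = s + 1 by omega]; linarith⟩
    · rw [show k = s by omega, h]
      simp
  | r + 1, c, s, h => by
    have H := fun i hi => node r _ _ (h i hi)
    simp only [← Function.iterate_succ_apply' (E r), abs_sg] at H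
    have hm := it_mono (E_lt r) s
    have h1 : ∀ i ≤ 2 * s ^ 2 + 1, W ((E r)^[i] s) = W s + (1 - (-1) ^ i) / 4 * c := by
      intro i hi
      induction i with
      | zero => simp
      | succ i ih =>
        rw [(H i (by omega)).1, ih (by omega), sg, if_neg (by omega)]
        ring
    have h2 : W (E (r + 1) s) = W s + c := by
      rw [E, (H (2 * s ^ 2 + 1) (by omega)).1, h1 _ le_rfl, sg, if_pos rfl, pow_succ, pow_mul]
      ring
    have h3 : ∀ k, s ≤ k → k ≤ E (r + 1) s → ∃ θ : ℝ, 0 ≤ θ ∧ θ ≤ 1 ∧ W k = W s + θ * c := by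
      intro k a1 a2
      rcases a2.eq_or_lt with rfl | a3
      · exact ⟨1, zero_le_one, le_rfl, by rw [h2, one_mul]⟩
      obtain ⟨i, b1, b2, b3⟩ := between (u := fun i => (E r)^[i] s) a1 _ a3
      obtain ⟨θ, c1, c2, c3⟩ := (H i b1).2.1 k b2 b3.le
      refine ⟨(1 - (-1) ^ i) / 4 + θ * sg s i / 2, ?_, ?_, by rw [c3, h1 i (by omega)]; ring⟩
      all_goals
        unfold sg
        rcases neg_one_pow_eq_or ℝ i with d | d <;> rw [d] <;> split_ifs <;> linarith
    refine ⟨h2, h3, fun k a1 a2 => ?_, fun j hj p q a1 a2 a3 => ?_⟩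
    · obtain ⟨i, b1, b2, b3⟩ := between (u := fun i => (E r)^[i] s) a1 _ a2
      rw [pow_succ', ← div_div]
      exact (H i b1).2.2.1 k b2 b3
    rcases j with _ | j
    · by_cases hpq : p ≠ s ∨ q ≠ E (r + 1) s
      · refine Or.inr ⟨hpq, le_trans (b := |c|) ?_ ?_⟩
        · obtain ⟨x, x0, x1, hx⟩ := h3 p a1 (a2.trans a3)
          obtain ⟨y, y0, y1, hy⟩ := h3 q (a1.trans a2) a3
          rw [hx, hy, add_sub_add_left_eq_sub, ← sub_mul, abs_mul]
          exact mul_le_of_le_one_left (abs_nonneg c) (abs_le.mpr ⟨by linarith, by linarith⟩)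
        · rw [pow_zero, div_one]
          refine le_mul_of_one_le_left (abs_nonneg c) ?_
          rcases hpq with d | d <;> rw [if_neg d] <;> split_ifs <;> norm_num
      · push Not at hpq
        rw [hpq.1, hpq.2]
        refine Or.inl ⟨s, le_rfl, _, hm.monotone, le_rfl, hm.monotone (by omega), fun i hi => ?_⟩
        rw [(H i (by omega)).1, add_sub_cancel_left, abs_sg]
        simp
    · have h4 : ∀ i < 2 * s ^ 2 + 2, Chain W r (|c| / 2) s ((E r)^[i + 1] s) := by
        intro i hi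
        induction i with
        | zero => exact (H 0 hi).2.2.2
        | succ i ih =>
          exact (ih (by omega)).app (by positivity) (H (i + 1) hi).2.2.2 (hm (Nat.succ_pos i))
            (hm (Nat.lt_succ_self _))
      have := h4 (2 * s ^ 2 + 1) (by omega) j (by omega) p q a1 a2 a3
      rwa [div_div, div_div, ← pow_succ', ← pow_succ'] at this

/-- starting points of the stages -/
def S : ℕ → ℕ
  | 0 => 0
  | r + 1 => E r (S r)

theorem main : ∃ (W : ℕ → ℝ) (S : ℕ → ℕ), StrictMono S ∧ S 0 = 0 ∧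
    (∀ r, W (S (r + 1)) = W (S r) + 1) ∧ Tendsto (fun i => W (i + 1) - W i) atTop (𝓝 0) ∧
    ∀ η > 0, ∃ η' > 0, ∃ x, ∀ p q, x ≤ p → p ≤ q → η ≤ |W q - W p| → Osc W η' p q := by
  have hS : StrictMono S := strictMono_nat_of_lt_succ fun r => E_lt r _
  set W : ℕ → ℝ := fun n => ∑ k ∈ range n, ∑ r ∈ range (k + 1), inc r 1 (S r) k with hW
  have H := fun r => node r 1 (S r) (shape_of (W := W) _ _ _ fun k h1 h2 => by
    simp only [hW, sum_range_succ_sub_sum]
    refine sum_eq_single_of_mem r (mem_range.mpr (Nat.lt_succ_of_le ((hS.le_apply).trans h1)))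
      fun j _ hj => supp _ _ _ _ ?_
    rcases lt_or_gt_of_ne hj with h3 | h3
    · exact Or.inr ((hS.monotone (Nat.succ_le_of_lt h3)).trans h1)
    · exact Or.inl (h2.trans_le (hS.monotone (Nat.succ_le_of_lt h3))))
  have h2 : Tendsto (fun j : ℕ => (1 : ℝ) / 2 ^ j) atTop (𝓝 0) :=
    tendsto_const_nhds.div_atTop (tendsto_pow_atTop_atTop_of_one_lt one_lt_two)
  refine ⟨W, S, hS, rfl, fun r => (H r).1, Metric.tendsto_atTop.mpr fun ε hε => ?_, fun η hη => ?_⟩
  · obtain ⟨j, hj⟩ := (h2.eventually (gt_mem_nhds hε)).exists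
    refine ⟨S j, fun k hk => ?_⟩
    obtain ⟨r, -, a1, a2⟩ := between (u := S) (Nat.zero_le k) (k + 1) hS.le_apply
    have a3 : j ≤ r := Nat.lt_succ_iff.mp (hS.lt_iff_lt.mp (hk.trans_lt a2))
    rw [Real.dist_eq, sub_zero]
    refine lt_of_le_of_lt (((H r).2.2.1 k a1 a2).trans ?_) hj
    rw [abs_one]
    gcongr
    norm_num
  · obtain ⟨j, hj⟩ := (h2.eventually (gt_mem_nhds (half_pos hη))).exists
    refine ⟨1 / 2 ^ (j + 1), by positivity, S (j + 1), fun p q a1 a2 a3 => ?_⟩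
    have h3 : ∀ r, j + 1 ≤ r → Chain W (j + 1) 1 (S (j + 1)) (S (r + 1)) := by
      intro r hr
      induction r, hr using Nat.le_induction with
      | base => exact abs_one (α := ℝ) ▸ (H (j + 1)).2.2.2
      | succ r hr ih =>
        refine ih.app zero_le_one (fun i hi => ?_) (hS (by omega)) (hS (by omega))
        exact (abs_one (α := ℝ) ▸ (H (r + 1)).2.2.2 : Chain W (r + 1) 1 _ _) i (by omega)
    refine (h3 (q + j + 1) (by omega) j (by omega) p q a1 a2
      (le_trans (by omega) hS.le_apply)).resolve_right fun h => ?_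
    have h4 : (0 : ℝ) < 1 / 2 ^ j := by positivity
    have := h.2
    split_ifs at this <;> linarith

end Pool.Agent.H8.VelA
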