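import Mathlib
import Pool.Agent.H8.VelA

set_option autoImplicit false
open Filter Topology Finset

namespace Pool.Agent.H8.VelB

open Pool.Agent.H8.VelA

open Classical in
lemma pieces (f : ℕ → ℝ) (C : ℕ → Prop) {θ : ℝ} (hθ : 0 ≤ θ) {p Q : ℕ} (hp : p ≤ Q)
    (h : ∀ x y, p ≤ x → x ≤ y → y ≤ Q → (∀ i, x ≤ i → i + 1 < y → ¬ C i) →
      |∑ i ∈ Ico x y, f i| ≤ θ) :
    |∑ i ∈ Ico p Q, f i| ≤ (#{i ∈ Ico p Q | C i} + 1) * θ := by
  have key : ∀ q, p ≤ q → q ≤ Q → ∃ x, p ≤ x ∧ x ≤ q ∧ (∀ i, x ≤ i → i < q → ¬ C i) ∧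
      |∑ i ∈ Ico p x, f i| ≤ #{i ∈ Ico p q | C i} * θ := by
    intro q hq
    induction q, hq using Nat.le_induction with
    | base => exact fun _ => ⟨p, le_rfl, le_rfl, fun i a b => by omega, by simp⟩
    | succ q hq ih =>
      intro h1
      obtain ⟨x, a1, a2, a3, a4⟩ := ih (by omega)
      rw [Nat.Ico_succ_right_eq_insert_Ico hq, filter_insert]
      by_cases hc : C q
      · refine ⟨q + 1, by omega, le_rfl, fun i a b => by omega, ?_⟩
        rw [if_pos hc, card_insert_of_notMem (by simp), ← sum_Ico_consecutive f a1 (by omega)]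
        have := h x (q + 1) a1 (by omega) h1 fun i a b => a3 i a (by omega)
        push_cast
        linarith [abs_add_le (∑ i ∈ Ico p x, f i) (∑ i ∈ Ico x (q + 1), f i)]
      · rw [if_neg hc]
        refine ⟨x, a1, by omega, fun i a b => ?_, a4⟩
        rcases (Nat.lt_succ_iff.mp b).eq_or_lt with rfl | c
        exacts [hc, a3 i a c]
  obtain ⟨x, a1, a2, a3, a4⟩ := key Q hp le_rfl
  have := h x Q a1 a2 le_rfl fun i a b => a3 i a (by omega)
  rw [← sum_Ico_consecutive f a1 a2]
  linarith [abs_add_le (∑ i ∈ Ico p x, f i) (∑ i ∈ Ico x Q, f i)]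

variable {W : ℕ → ℝ} {t : Bool → ℕ → ℕ} {K : ℕ}

/-- `i` is a change point at time `n` -/
def Ch (t : Bool → ℕ → ℕ) (n i : ℕ) : Prop := ∃ b, ¬ (t b i < n ↔ t b (i + 1) < n)

/-- signed indicator of the entries in the time window `[m,n)` -/
def g (t : Bool → ℕ → ℕ) (m n i : ℕ) : ℝ :=
  (if m ≤ t false i ∧ t false i < n then 1 else 0) - (if m ≤ t true i ∧ t true i < n then 1 else 0)

/-- `[p,q)` is filled in the window `[m,n)` on side `b` only -/
def Inst (W : ℕ → ℝ) (t : Bool → ℕ → ℕ) (η : ℝ) (m n p q : ℕ) (b : Bool) : Prop :=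
  p ≤ q ∧ η ≤ |W q - W p| ∧ ∀ i, p ≤ i → i < q →
    (m ≤ t b i ∧ t b i < n) ∧ ¬ (m ≤ t (!b) i ∧ t (!b) i < n)

lemma const {n i j : ℕ} (b : Bool) (hij : i ≤ j) (h : ∀ z, i ≤ z → z < j → ¬ Ch t n z) :
    (t b i < n ↔ t b j < n) := by
  induction j, hij using Nat.le_induction with
  | base => rfl
  | succ j hj ih =>
    refine (ih fun z a b => h z a (by omega)).trans ?_
    by_contra h1
    exact h j hj (by omega) ⟨b, h1⟩

lemma mixed {n i j p q : ℕ} {b : Bool} (hi : i ∈ Ico p q) (hj : j ∈ Ico p q) (h1 : t b i < n)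
    (h2 : n ≤ t b j) : ∃ z ∈ Ico p q, Ch t n z := by
  rw [mem_Ico] at hi hj
  by_contra h
  push Not at h
  rcases le_total i j with a | a
  · have := const b a fun z a b => h z (mem_Ico.mpr ⟨by omega, by omega⟩)
    omega
  · have := const b a fun z a b => h z (mem_Ico.mpr ⟨by omega, by omega⟩)
    omega

lemma tele (W : ℕ → ℝ) (c : ℝ) {x y : ℕ} (h : x ≤ y) :
    ∑ i ∈ Ico x y, c * (W (i + 1) - W i) = c * (W y - W x) := by
  rw [← mul_sum, sum_Ico_sub W h]

lemma comp (hK : ∀ n (F : Finset ℕ), (∀ i ∈ F, Ch t n i) → #F ≤ K) {θ : ℝ} (hθ : 0 ≤ θ)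
    {m n p q : ℕ} (hp : p ≤ q)
    (h : (2 * K + 1) * θ < |∑ i ∈ Ico p q, g t m n i * (W (i + 1) - W i)|) :
    ∃ p' q' b, p ≤ p' ∧ q' ≤ q ∧ Inst W t θ m n p' q' b := by
  classical
  by_contra H
  push Not at H
  refine h.not_ge ((pieces _ (fun i => Ch t m i ∨ Ch t n i) hθ hp fun x y a1 a2 a3 a4 => ?_).trans ?_)
  · have e : ∀ b i, x ≤ i → i < y → ((m ≤ t b i ∧ t b i < n) ↔ (m ≤ t b x ∧ t b x < n)) := by
      intro b i b1 b2
      have c1 := const (n := m) b b1 fun z c1 c2 c3 => a4 z c1 (by omega) (Or.inl c3)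
      have c2 := const (n := n) b b1 fun z c1 c2 c3 => a4 z c1 (by omega) (Or.inr c3)
      omega
    rw [sum_congr rfl (g := fun i => g t m n x * (W (i + 1) - W i)) fun i hi => by
      simp only [g, e _ i (mem_Ico.mp hi).1 (mem_Ico.mp hi).2], tele W _ a2]
    by_contra h1
    unfold g at h1
    split_ifs at h1 with b1 b2 b2
    · simp [hθ] at h1
    · refine H x y false a1 a3 ⟨a2, ?_, fun i c1 c2 => ⟨(e _ i c1 c2).mpr b1, ?_⟩⟩
      · simpa using le_of_not_ge h1
      · exact fun c3 => b2 ((e _ i c1 c2).mp c3)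
    · refine H x y true a1 a3 ⟨a2, ?_, fun i c1 c2 => ⟨(e _ i c1 c2).mpr b2, ?_⟩⟩
      · simpa [abs_sub_comm] using le_of_not_ge h1
      · exact fun c3 => b1 ((e _ i c1 c2).mp c3)
    · simp [hθ] at h1
  · have h1 := hK m {i ∈ Ico p q | Ch t m i} fun i hi => (mem_filter.mp hi).2
    have h2 := hK n {i ∈ Ico p q | Ch t n i} fun i hi => (mem_filter.mp hi).2
    have h3 := card_union_le {i ∈ Ico p q | Ch t m i} {i ∈ Ico p q | Ch t n i}
    rw [← filter_or] at h3
    have h4 : (#{i ∈ Ico p q | Ch t m i ∨ Ch t n i} : ℝ) ≤ 2 * K := by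
      exact_mod_cast (by omega : #{i ∈ Ico p q | Ch t m i ∨ Ch t n i} ≤ 2 * K)
    convert mul_le_mul_of_nonneg_right (add_le_add_left h4 1) hθ

theorem main {Sg : ℕ → ℝ} {L : ℝ}
    (hH : ∀ η > 0, ∃ η' > 0, ∃ x, ∀ p q, x ≤ p → p ≤ q → η ≤ |W q - W p| → Osc W η' p q)
    (hinj : ∀ b i b' i', t b i = t b' i' → i = i')
    (hK : ∀ n (F : Finset ℕ), (∀ i ∈ F, Ch t n i) → #F ≤ K)
    (hS : ∀ n Y, (∀ b i, t b i < n → i < Y) → Sg n = ∑ i ∈ Ico 0 Y, g t 0 n i * (W (i + 1) - W i))
    (hL : Tendsto Sg atTop (𝓝 L)) : L = 0 := by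
  classical
  by_contra hL0
  have hfin : ∀ n x, ∃ Y, x ≤ Y ∧ ∀ b i, t b i < n → i < Y := fun n x => by
    have h1 : ∀ b, ∀ᶠ i in atTop, n ≤ t b i := fun b =>
      (Function.Injective.nat_tendsto_atTop fun i j h => hinj b i b j h).eventually_ge_atTop n
    obtain ⟨Y, hY⟩ := eventually_atTop.mp (eventually_all.mpr h1)
    refine ⟨max x Y, le_max_left _ _, fun b i h => ?_⟩
    by_contra h2
    have := hY i (by omega) b
    omega
  have hdiff : ∀ m n Y, m ≤ n → (∀ b i, t b i < n → i < Y) →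
      Sg n - Sg m = ∑ i ∈ Ico 0 Y, g t m n i * (W (i + 1) - W i) := fun m n Y h1 h2 => by
    rw [hS n Y h2, hS m Y fun b i h => h2 b i (by omega), ← sum_sub_distrib]
    refine sum_congr rfl fun i _ => ?_
    rw [← sub_mul]
    congr 1
    unfold g
    split_ifs <;> first | omega | norm_num
  have P : ∀ φ : ℕ, ∃ η > 0, ∀ x, ∃ k l m n p q b, φ ≤ k * (K + 1) + l ∧ x ≤ m ∧ x ≤ p ∧
      Inst W t η m n p q b ∧ ∀ τ, m ≤ τ → τ ≤ n → ∃ A B : Finset ℕ, k ≤ #A ∧ l ≤ #B ∧
        (∀ i ∈ A, Ch t τ i ∧ i < p) ∧ ∀ i ∈ B, Ch t τ i ∧ q ≤ i := by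
    intro φ
    induction φ with
    | zero =>
      have h0 : 0 < |L| / 2 := half_pos (abs_pos.mpr hL0)
      refine ⟨|L| / 2 / (2 * K + 1), by positivity, fun x => ?_⟩
      obtain ⟨y, y1, y2⟩ := hfin x x
      obtain ⟨n, n1, n2⟩ := ((hL.abs.eventually (lt_mem_nhds (half_lt_self (abs_pos.mpr hL0)))).and
        ((eventually_all_finset (univ ×ˢ range y)).mpr
          fun z _ => eventually_gt_atTop (t z.1 z.2))).exists
      obtain ⟨Y, Y1, Y2⟩ := hfin n y
      have e : Sg n = ∑ i ∈ Ico y Y, g t x n i * (W (i + 1) - W i) := by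
        rw [hS n Y Y2, ← sum_Ico_consecutive _ (Nat.zero_le y) Y1, sum_eq_zero, zero_add]
        · refine sum_congr rfl fun i hi => ?_
          have := fun b => mt (y2 b i) (not_lt.mpr (mem_Ico.mp hi).1)
          simp only [g, Nat.zero_le, not_lt.mp (this _)]
        · intro i hi
          have := fun b => n2 (b, i) (by simpa using hi)
          simp [g, this]
      obtain ⟨p, q, b, a1, -, a2⟩ := comp (W := W) (θ := |L| / 2 / (2 * K + 1)) (m := x) (n := n) hK
        (by positivity) Y1 (by rwa [← e, mul_div_cancel₀ _ (by positivity)])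
      exact ⟨0, 0, x, n, p, q, b, by simp, le_rfl, y1.trans a1, a2,
        fun _ _ _ => ⟨∅, ∅, by simp⟩⟩
    | succ φ ih =>
      obtain ⟨η, hη, ih⟩ := ih
      obtain ⟨ζ, hζ, x0, h0⟩ := hH η hη
      obtain ⟨x1, h1⟩ := Metric.cauchySeq_iff.mp hL.cauchySeq (ζ / 4) (by positivity)
      refine ⟨ζ / 4 / (2 * K + 1), by positivity, fun x => ?_⟩
      obtain ⟨k, l, m, n, p, q, b, a1, a2, a3, ⟨a4, a5, a6⟩, a7⟩ := ih (x + x0 + x1 + 2 * K + 1)
      obtain ⟨s, s1, u, u1, u2, u3, u4⟩ := h0 p q (by omega) a4 a5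
      have hne : ∀ c, c < s ^ 2 → (Ico (u c) (u (c + 1))).Nonempty := fun c hc =>
        nonempty_Ico.mpr (lt_of_le_of_ne (u1 c.le_succ) fun e => by
          have := u4 c hc
          rw [e] at this
          simp at this
          linarith)
      choose! I I1 I2 using fun c hc => exists_min_image _ (t b) (hne c hc)
      choose! J J1 J2 using fun c hc => exists_max_image _ (t b) (hne c hc)
      have hu : ∀ c, c < s ^ 2 → s ≤ u c ∧ u (c + 1) ≤ q := fun c hc =>
        ⟨u2.trans (u1 c.zero_le), (u1 hc).trans u3⟩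
      obtain ⟨c, hc, c1⟩ : ∃ c < s ^ 2, ∀ b' i, i < s →
          ¬ (t b (I c) ≤ t b' i ∧ t b' i < t b (J c) + 1) := by
        by_contra H
        push Not at H
        choose! β ι H1 H2 H3 using H
        obtain ⟨y, -, hy⟩ := exists_lt_card_fiber_of_mul_lt_card_of_maps_to (s := range (s ^ 2))
          (t := univ ×ˢ range s) (f := fun c => (β c, ι c)) (n := K)
          (fun c hc => by simpa using H1 c (mem_range.mp hc)) (by
            rw [card_product, card_range, card_range, card_univ, Fintype.card_bool]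
            have : 2 * K + 1 ≤ s := by omega
            nlinarith)
        have hz : ∀ c ∈ {c ∈ range (s ^ 2) | (β c, ι c) = y},
            ∃ z ∈ Ico (u c) (u (c + 1)), Ch t (t y.1 y.2) z := fun c hc => by
          obtain ⟨d1, rfl⟩ := mem_filter.mp hc
          rw [mem_range] at d1
          refine mixed (I1 c d1) (J1 c d1) (lt_of_le_of_ne (H2 c d1) fun e => ?_)
            (Nat.lt_succ_iff.mp (H3 c d1))
          have d2 := hinj _ _ _ _ e
          have d3 := (mem_Ico.mp (I1 c d1)).1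
          have d4 := H1 c d1
          have d5 := (hu c d1).1
          omega
        choose! z z1 z2 using hz
        refine hy.not_ge (le_trans (card_image_of_injOn fun c hc c' hc' e => ?_).ge
          (hK (t y.1 y.2) (image z _) fun i hi => ?_))
        · have d1 := mem_Ico.mp (z1 c hc)
          have d2 := mem_Ico.mp (z1 c' hc')
          rcases lt_trichotomy c c' with d | d | d
          · have := u1 (Nat.succ_le_of_lt d)
            simp only [Nat.succ_eq_add_one] at this
            omega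
          · exact d
          · have := u1 (Nat.succ_le_of_lt d)
            simp only [Nat.succ_eq_add_one] at this
            omega
        · obtain ⟨c, hc, rfl⟩ := mem_image.mp hi
          exact z2 c hc
      obtain ⟨c2, c3⟩ := hu c hc
      have c4 := u1 c.le_succ
      have i1 := mem_Ico.mp (I1 c hc)
      have j1 := mem_Ico.mp (J1 c hc)
      have i2 := (a6 (I c) (by omega) (by omega)).1
      have j2 := (a6 (J c) (by omega) (by omega)).1
      have ij := I2 c hc _ (J1 c hc)
      simp only [Nat.succ_eq_add_one] at c4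
      obtain ⟨Y, Y1, Y2⟩ := hfin (t b (J c) + 1) (u (c + 1))
      have e1 := h1 (t b (J c) + 1) (by omega) (t b (I c)) (by omega)
      rw [Real.dist_eq, hdiff _ _ Y (by omega) Y2, ← sum_Ico_consecutive _ (Nat.zero_le _) Y1,
        ← sum_Ico_consecutive _ (Nat.zero_le _) c4, ← sum_Ico_consecutive _ (Nat.zero_le _) c2,
        sum_eq_zero fun i hi => by simp only [g, if_neg (c1 _ i (mem_Ico.mp hi).2), sub_self,
          zero_mul], zero_add] at e1
      have e2 : ζ ≤ |∑ i ∈ Ico (u c) (u (c + 1)), g t (t b (I c)) (t b (J c) + 1) i *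
          (W (i + 1) - W i)| := by
        rw [sum_congr rfl (g := fun i => (if b then -1 else 1) * (W (i + 1) - W i)) fun i hi => ?_,
          tele W _ c4, abs_mul]
        · cases b <;> simpa using u4 c hc
        · have d1 := mem_Ico.mp hi
          have d2 := (a6 i (by omega) (by omega)).2
          have d3 := I2 c hc i hi
          have d4 := J2 c hc i hi
          congr 1
          unfold g
          cases b
          · rw [if_pos (by omega), if_neg (by simp only [Bool.not_false] at d2; omega)]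
            simp
          · rw [if_neg (by simp only [Bool.not_true] at d2; omega), if_pos (by omega)]
            simp
      have shrink : ∀ p' q' b', (q' ≤ u c ∨ u (c + 1) ≤ p') →
          Inst W t (ζ / 4 / (2 * K + 1)) (t b (I c)) (t b (J c) + 1) p' q' b' →
          Inst W t (ζ / 4 / (2 * K + 1)) (t b (I c) + 1) (t b (J c)) p' q' b' := by
        intro p' q' b' d1 d2
        refine ⟨d2.1, d2.2.1, fun i d3 d4 => ?_⟩
        have d5 := d2.2.2 i d3 d4
        have d6 := hinj b' i b (I c)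
        have d7 := hinj b' i b (J c)
        omega
      have hz := fun τ (d1 : t b (I c) + 1 ≤ τ) (d2 : τ ≤ t b (J c)) =>
        mixed (I1 c hc) (J1 c hc) d1 d2
      by_cases hl : ζ / 4 < |∑ i ∈ Ico s (u c), g t (t b (I c)) (t b (J c) + 1) i *
          (W (i + 1) - W i)|
      · obtain ⟨p', q', b', d1, d2, d3⟩ := comp (θ := ζ / 4 / (2 * K + 1)) hK (by positivity) c2
          (by rwa [mul_div_cancel₀ _ (by positivity)])
        refine ⟨k, l + 1, _, _, p', q', b', by omega, by omega, by omega,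
          shrink _ _ _ (Or.inl d2) d3, fun τ d4 d5 => ?_⟩
        obtain ⟨A, B, f1, f2, f3, f4⟩ := a7 τ (by omega) (by omega)
        obtain ⟨z, z1, z2⟩ := hz τ d4 d5
        rw [mem_Ico] at z1
        refine ⟨A, insert z B, f1, ?_, fun i hi => ⟨(f3 i hi).1, by have := (f3 i hi).2; omega⟩,
          fun i hi => ?_⟩
        · rw [card_insert_of_notMem fun h => by have := (f4 z h).2; omega]
          omega
        · rcases mem_insert.mp hi with rfl | hi
          · exact ⟨z2, by omega⟩
          · exact ⟨(f4 i hi).1, by have := (f4 i hi).2; omega⟩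
      · obtain ⟨p', q', b', d1, d2, d3⟩ := comp (W := W) (θ := ζ / 4 / (2 * K + 1))
          (m := t b (I c)) (n := t b (J c) + 1) hK (by positivity) Y1 (by
            rw [mul_div_cancel₀ _ (by positivity)]
            by_contra d
            have g1 := abs_le.mp (not_lt.mp d)
            have g2 := abs_le.mp (not_lt.mp hl)
            have g3 := abs_lt.mp e1
            rcases le_abs.mp e2 with g4 | g4 <;> linarith [g1.1, g1.2, g2.1, g2.2, g3.1, g3.2])
        have hlK : l ≤ K := by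
          obtain ⟨A, B, -, f2, -, f4⟩ := a7 m le_rfl (by omega)
          exact f2.trans (hK m B fun i hi => (f4 i hi).1)
        refine ⟨k + 1, 0, _, _, p', q', b', by rw [add_mul]; omega, by omega, by omega,
          shrink _ _ _ (Or.inr d1) d3, fun τ d4 d5 => ?_⟩
        obtain ⟨A, B, f1, f2, f3, f4⟩ := a7 τ (by omega) (by omega)
        obtain ⟨z, z1, z2⟩ := hz τ d4 d5
        rw [mem_Ico] at z1
        refine ⟨insert z A, ∅, ?_, le_rfl, fun i hi => ?_, by simp⟩
        · rw [card_insert_of_notMem fun h => by have := (f3 z h).2; omega]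
          omega
        · rcases mem_insert.mp hi with rfl | hi
          · exact ⟨z2, by omega⟩
          · exact ⟨(f3 i hi).1, by have := (f3 i hi).2; omega⟩
  obtain ⟨η, hη, h⟩ := P (K * (K + 1) + K + 1)
  obtain ⟨k, l, m, n, p, q, b, a1, -, -, ⟨a4, a5, a6⟩, a7⟩ := h 0
  have hpq : p < q := lt_of_le_of_ne a4 fun e => by
    rw [e] at a5
    simp at a5
    linarith
  have := (a6 p le_rfl hpq).1
  obtain ⟨A, B, f1, f2, f3, f4⟩ := a7 m le_rfl (by omega)
  have h1 := f1.trans (hK m A fun i hi => (f3 i hi).1)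
  have h2 := f2.trans (hK m B fun i hi => (f4 i hi).1)
  have h3 := Nat.mul_le_mul_right (K + 1) h1
  omega

end Pool.Agent.H8.VelB
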