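import Mathlib

namespace Pool.Agent.H8.VertDom

open Polynomial Finset

/-- coefficientwise domination -/
def Dom (p q : ℝ[X]) : Prop := ∀ k, |p.coeff k| ≤ q.coeff k

lemma Dom.mul {p q p' q' : ℝ[X]} (h : Dom p q) (h' : Dom p' q') : Dom (p * p') (q * q') := by
  intro k
  rw [coeff_mul, coeff_mul]
  refine (abs_sum_le_sum_abs _ _).trans (sum_le_sum fun x _ => ?_)
  rw [abs_mul]
  exact mul_le_mul (h _) (h' _) (abs_nonneg _) ((abs_nonneg _).trans (h _))

lemma Dom.trans {p q r : ℝ[X]} (h : Dom p q) (h' : Dom q r) : Dom p r :=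
  fun k => (h k).trans ((le_abs_self _).trans (h' k))

lemma dom_one : Dom 1 1 := by
  intro k
  rw [coeff_one]; split_ifs <;> simp

lemma dom_prod {ι : Type*} (s : Finset ι) (f g : ι → ℝ[X]) (h : ∀ i ∈ s, Dom (f i) (g i)) :
    Dom (∏ i ∈ s, f i) (∏ i ∈ s, g i) := by
  classical
  induction s using Finset.induction_on with
  | empty => simpa using dom_one
  | insert a s ha ih =>
    rw [prod_insert ha, prod_insert ha]
    exact (h a (mem_insert_self _ _)).mul (ih fun i hi => h i (mem_insert_of_mem hi))

noncomputable def quad (a b c : ℝ) : ℝ[X] := C a * X ^ 2 + C b * X + C c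

lemma dom_quad {a b c a' b' c' : ℝ} (ha : |a| ≤ a') (hb : |b| ≤ b') (hc : |c| ≤ c') :
    Dom (quad a b c) (quad a' b' c') := by
  intro k
  unfold quad
  rcases k with _ | _ | _ | k <;> simp [coeff_X, coeff_C, coeff_X_pow, *]

lemma Dom.unscale {p q : ℝ[X]} {c : ℝ} (hc : 0 < c) (h : Dom (C c * p) (C c * q)) : Dom p q := by
  intro k
  have := h k
  rw [coeff_C_mul, coeff_C_mul, abs_mul, abs_of_pos hc] at this
  exact le_of_mul_le_mul_left this hc

noncomputable def toPoly : List ℕ → ℝ[X]
  | [] => 0
  | c :: l => C (c : ℝ) + X * toPoly l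

def addL : List ℕ → List ℕ → List ℕ
  | [], l => l
  | l, [] => l
  | a :: l, b :: m => (a + b) :: addL l m

def smulL (c : ℕ) : List ℕ → List ℕ
  | [] => []
  | a :: l => (c * a) :: smulL c l

def leL : List ℕ → List ℕ → Bool
  | [], _ => true
  | _ :: _, [] => false
  | a :: l, b :: m => Nat.ble a b && leL l m

def mulq (a b : ℕ) (l : List ℕ) : List ℕ :=
  addL (smulL b l) (0 :: addL (smulL a l) (0 :: smulL 4000000 l))

def powq (a b : ℕ) : ℕ → List ℕ
  | 0 => [1]
  | n + 1 => mulq a b (powq a b n)

lemma toPoly_add (l m : List ℕ) : toPoly (addL l m) = toPoly l + toPoly m := by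
  induction l generalizing m with
  | nil => simp [addL, toPoly]
  | cons a l ih =>
    cases m with
    | nil => simp [addL, toPoly]
    | cons b m => simp only [addL, toPoly, ih]; push_cast; rw [C_add]; ring

lemma toPoly_smul (c : ℕ) (l : List ℕ) : toPoly (smulL c l) = C (c : ℝ) * toPoly l := by
  induction l with
  | nil => simp [smulL, toPoly]
  | cons a l ih => simp only [smulL, toPoly, ih]; push_cast; rw [C_mul]; ring

lemma toPoly_mulq (a b : ℕ) (l : List ℕ) :
    toPoly (mulq a b l) = quad 4000000 a b * toPoly l := by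
  simp only [mulq, toPoly_add, toPoly, toPoly_smul, quad]
  push_cast
  simp only [C_0]
  ring

lemma toPoly_powq (a b n : ℕ) : toPoly (powq a b n) = quad 4000000 a b ^ n := by
  induction n with
  | zero => simp [powq, toPoly]
  | succ n ih => rw [powq, toPoly_mulq, ih, pow_succ']

lemma toPoly_nonneg (l : List ℕ) (k : ℕ) : 0 ≤ (toPoly l).coeff k := by
  induction l generalizing k with
  | nil => simp [toPoly]
  | cons a l ih =>
    cases k with
    | zero => simp [toPoly]
    | succ k => simpa [toPoly, coeff_C] using ih k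

lemma dom_of_leL (l m : List ℕ) (h : leL l m = true) : Dom (toPoly l) (toPoly m) := by
  induction l generalizing m with
  | nil => intro k; simpa [toPoly] using toPoly_nonneg m k
  | cons a l ih =>
    cases m with
    | nil => simp [leL] at h
    | cons b m =>
      simp only [leL, Bool.and_eq_true, Nat.ble_eq] at h
      intro k
      cases k with
      | zero => simpa [toPoly] using h.1
      | succ k => simpa [toPoly, coeff_C] using ih m h.2 k

def build (a c1 c2 c3 : ℕ) : List ℕ := mulq a c1 (mulq a c2 (powq a c3 30))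

def cen (a j : ℕ) : ℕ := max (a * a - (10 * j) * (10 * j)) ((10 * j + 10) * (10 * j + 10) - a * a)

def chk (j : ℕ) : Bool :=
  leL (build (4000 * (10 * j + 10)) (cen 105 j) (cen 327 j) (1519 * 1519 - (10 * j) * (10 * j)))
    (build 8000000 (4000000 - 105 * 105) (4000000 - 327 * 327) (4000000 - 1519 * 1519))

lemma chk_all : (List.range 80).all chk = true := by decide +kernel

end Pool.Agent.H8.VertDom
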