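import Mathlib

set_option autoImplicit false
open MeasureTheory Set Filter Topology

namespace Pool.Agent.H8.Wright

lemma L1 (d : ℕ → ℝ) (hd : Summable fun k => |d k|) (α M : ℝ) (hα : 0 < α)
    (h : ∀ s : ℝ, 0 < s → |∑' k, d k * Real.exp (-(k : ℝ) * s)| ≤ M) :
    |∑' k, d k / (α + k)| ≤ M / α := by
  have hneg : ∀ k : ℕ, -(α + k) < 0 := fun k => by
    have : (0 : ℝ) ≤ k := Nat.cast_nonneg k
    linarith
  have hint : ∀ k : ℕ, Integrable (fun s : ℝ => d k * Real.exp (-(α + k) * s))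
      (volume.restrict (Ioi 0)) := fun k => (integrableOn_exp_mul_Ioi (hneg k) 0).const_mul _
  have hval : ∀ k : ℕ, ∫ s in Ioi (0 : ℝ), Real.exp (-(α + k) * s) = 1 / (α + k) := fun k => by
    rw [integral_exp_mul_Ioi (hneg k)]
    simp only [mul_zero, Real.exp_zero]
    rw [neg_div_neg_eq]
  have hsum : Summable fun k : ℕ => ∫ s in Ioi (0 : ℝ), ‖d k * Real.exp (-(α + k) * s)‖ := by
    refine Summable.of_nonneg_of_le (fun k => integral_nonneg fun s => norm_nonneg _) (fun k => ?_)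
      (hd.mul_right (1 / α))
    have : (fun s : ℝ => ‖d k * Real.exp (-(α + k) * s)‖) =
        fun s => |d k| * Real.exp (-(α + k) * s) := by
      ext s
      rw [norm_mul, Real.norm_eq_abs, Real.norm_eq_abs, abs_of_pos (Real.exp_pos _)]
    rw [this, integral_const_mul, hval]
    apply mul_le_mul_of_nonneg_left _ (abs_nonneg _)
    apply one_div_le_one_div_of_le hα
    have : (0 : ℝ) ≤ k := Nat.cast_nonneg k
    linarith
  have hs := hasSum_integral_of_summable_integral_norm hint hsum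
  have e1 : (fun k : ℕ => ∫ s in Ioi (0 : ℝ), d k * Real.exp (-(α + k) * s)) =
      fun k : ℕ => d k / (α + k) := by
    ext k
    rw [integral_const_mul, hval, mul_one_div]
  rw [e1] at hs
  rw [hs.tsum_eq, ← Real.norm_eq_abs]
  have hb : Integrable (fun s : ℝ => M * Real.exp (-α * s)) (volume.restrict (Ioi 0)) :=
    (integrableOn_exp_mul_Ioi (neg_neg_of_pos hα) 0).const_mul _
  refine (norm_integral_le_of_norm_le hb ?_).trans ?_
  · rw [ae_restrict_iff' measurableSet_Ioi]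
    refine Eventually.of_forall fun s hs => ?_
    have : (fun k : ℕ => d k * Real.exp (-(α + k) * s)) =
        fun k : ℕ => d k * Real.exp (-(k : ℝ) * s) * Real.exp (-α * s) := by
      ext k
      rw [mul_assoc, ← Real.exp_add]
      congr 2
      ring
    rw [this, tsum_mul_right, norm_mul, Real.norm_eq_abs, Real.norm_eq_abs,
      abs_of_pos (Real.exp_pos _)]
    exact mul_le_mul_of_nonneg_right (h s hs) (Real.exp_pos _).le
  · rw [integral_const_mul, integral_exp_mul_Ioi (neg_neg_of_pos hα)]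
    simp only [mul_zero, Real.exp_zero]
    rw [neg_div_neg_eq, mul_one_div]

/-- the terms of the series of `cosh` -/
noncomputable def T (k : ℕ) (w : ℂ) : ℂ := w ^ (2 * k) / ((2 * k).factorial : ℂ)

lemma summable_T (w : ℂ) : Summable fun k => ‖T k w‖ := by
  have := (Real.hasSum_cosh ‖w‖).summable
  refine this.congr fun k => ?_
  simp [T]

lemma T_scale (k : ℕ) (w : ℂ) (s : ℝ) :
    T k ((Real.exp (-s / 2) : ℝ) * w) = (Real.exp (-(k : ℝ) * s) : ℝ) * T k w := by
  have : Real.exp (-(k : ℝ) * s) = Real.exp (-s / 2) ^ (2 * k) := by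
    rw [← Real.exp_nat_mul]
    congr 1
    push_cast
    ring
  rw [this, T, T, mul_pow]
  push_cast
  ring

lemma sum_re {c : ℕ → ℝ} {ρ : ℝ} (h : ∀ k, |c k| ≤ ρ) (w : ℂ) :
    Summable fun k => |c k * (T k w).re| := by
  refine Summable.of_nonneg_of_le (fun k => abs_nonneg _) (fun k => ?_) ((summable_T w).mul_left ρ)
  rw [abs_mul]
  exact mul_le_mul (h k) (Complex.abs_re_le_norm _) (abs_nonneg _) ((abs_nonneg _).trans (h k))

lemma sum_im {c : ℕ → ℝ} {ρ : ℝ} (h : ∀ k, |c k| ≤ ρ) (w : ℂ) :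
    Summable fun k => |c k * (T k w).im| := by
  refine Summable.of_nonneg_of_le (fun k => abs_nonneg _) (fun k => ?_) ((summable_T w).mul_left ρ)
  rw [abs_mul]
  exact mul_le_mul (h k) (Complex.abs_im_le_norm _) (abs_nonneg _) ((abs_nonneg _).trans (h k))

/-- `c` behaves like the moment sequence of a signed measure of total variation at most `ρ` -/
def Good (c : ℕ → ℝ) (ρ : ℝ) : Prop :=
  (∀ k, |c k| ≤ ρ) ∧ ∀ w : ℂ, |∑' k, c k * (T k w).re| ≤ ρ * Real.cosh w.re ∧
    |∑' k, c k * (T k w).im| ≤ ρ * |Real.sinh w.re|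

lemma hasSum_re (w : ℂ) : HasSum (fun k => (T k w).re) (Real.cosh w.re * Real.cos w.im) := by
  have := Complex.hasSum_re (Complex.hasSum_cosh w)
  have e : (Complex.cosh w).re = Real.cosh w.re * Real.cos w.im := by
    conv_lhs => rw [← Complex.re_add_im w, Complex.cosh_add, Complex.cosh_mul_I, Complex.sinh_mul_I]
    simp [← Complex.ofReal_cosh, ← Complex.ofReal_sinh, ← Complex.ofReal_cos, ← Complex.ofReal_sin]
  rw [e] at this
  exact this

lemma hasSum_im (w : ℂ) : HasSum (fun k => (T k w).im) (Real.sinh w.re * Real.sin w.im) := by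
  have := Complex.hasSum_im (Complex.hasSum_cosh w)
  have e : (Complex.cosh w).im = Real.sinh w.re * Real.sin w.im := by
    conv_lhs => rw [← Complex.re_add_im w, Complex.cosh_add, Complex.cosh_mul_I, Complex.sinh_mul_I]
    simp [← Complex.ofReal_cosh, ← Complex.ofReal_sinh, ← Complex.ofReal_cos, ← Complex.ofReal_sin]
  rw [e] at this
  exact this

lemma good_one : Good (fun _ => 1) 1 := by
  refine ⟨fun k => by simp, fun w => ⟨?_, ?_⟩⟩
  · simp only [one_mul]
    rw [(hasSum_re w).tsum_eq, abs_mul, abs_of_pos (Real.cosh_pos _)]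
    exact mul_le_of_le_one_right (Real.cosh_pos _).le (Real.abs_cos_le_one _)
  · simp only [one_mul]
    rw [(hasSum_im w).tsum_eq, abs_mul]
    exact mul_le_of_le_one_right (abs_nonneg _) (Real.abs_sin_le_one _)

lemma Good.add {c c' : ℕ → ℝ} {ρ ρ' : ℝ} (h : Good c ρ) (h' : Good c' ρ') :
    Good (fun k => c k + c' k) (ρ + ρ') := by
  refine ⟨fun k => (abs_add_le _ _).trans (add_le_add (h.1 k) (h'.1 k)), fun w => ⟨?_, ?_⟩⟩
  · simp only [add_mul]
    rw [(sum_re h.1 w).of_abs.tsum_add (sum_re h'.1 w).of_abs]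
    exact (abs_add_le _ _).trans (add_le_add (h.2 w).1 (h'.2 w).1)
  · simp only [add_mul]
    rw [(sum_im h.1 w).of_abs.tsum_add (sum_im h'.1 w).of_abs]
    exact (abs_add_le _ _).trans (add_le_add (h.2 w).2 (h'.2 w).2)

lemma Good.smul {c : ℕ → ℝ} {ρ : ℝ} (h : Good c ρ) (a : ℝ) :
    Good (fun k => a * c k) (|a| * ρ) := by
  refine ⟨fun k => ?_, fun w => ⟨?_, ?_⟩⟩
  · rw [abs_mul]; exact mul_le_mul_of_nonneg_left (h.1 k) (abs_nonneg _)
  · simp only [mul_assoc]
    rw [tsum_mul_left, abs_mul]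
    exact mul_le_mul_of_nonneg_left (h.2 w).1 (abs_nonneg _)
  · simp only [mul_assoc]
    rw [tsum_mul_left, abs_mul]
    exact mul_le_mul_of_nonneg_left (h.2 w).2 (abs_nonneg _)

lemma Good.mono {c : ℕ → ℝ} {ρ ρ' : ℝ} (h : Good c ρ) (hle : ρ ≤ ρ') : Good c ρ' :=
  ⟨fun k => (h.1 k).trans hle, fun w =>
    ⟨(h.2 w).1.trans (mul_le_mul_of_nonneg_right hle (Real.cosh_pos _).le),
     (h.2 w).2.trans (mul_le_mul_of_nonneg_right hle (abs_nonneg _))⟩⟩

lemma Good.div {c : ℕ → ℝ} {ρ : ℝ} (h : Good c ρ) {α : ℝ} (hα : 0 < α) :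
    Good (fun k => c k / (α + k)) (ρ / α) := by
  have hρ : 0 ≤ ρ := (abs_nonneg _).trans (h.1 0)
  have hre : ∀ (s : ℝ) (w : ℂ), 0 < s →
      |(((Real.exp (-s / 2) : ℝ) : ℂ) * w).re| ≤ |w.re| := by
    intro s w hs
    rw [Complex.re_ofReal_mul, abs_mul, abs_of_pos (Real.exp_pos _)]
    apply mul_le_of_le_one_left (abs_nonneg _)
    rw [Real.exp_le_one_iff]
    linarith
  refine ⟨fun k => ?_, fun w => ⟨?_, ?_⟩⟩
  · have : (0 : ℝ) ≤ k := Nat.cast_nonneg k
    rw [abs_div, abs_of_pos (by linarith : 0 < α + k)]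
    exact div_le_div₀ hρ (h.1 k) hα (by linarith)
  · have := L1 (fun k => c k * (T k w).re) (sum_re h.1 w) α (ρ * Real.cosh w.re) hα ?_
    · simpa only [div_mul_eq_mul_div] using this
    · intro s hs
      have h1 := (h.2 ((Real.exp (-s / 2) : ℝ) * w)).1
      simp only [T_scale, Complex.re_ofReal_mul (Real.exp (-(_ : ℕ) * s))] at h1
      have h2 : Real.cosh (((Real.exp (-s / 2) : ℝ) : ℂ) * w).re ≤ Real.cosh w.re :=
        Real.cosh_le_cosh.mpr (hre s w hs)
      refine le_trans (le_of_eq ?_) (h1.trans (mul_le_mul_of_nonneg_left h2 hρ))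
      congr 2
      ext k
      ring
  · have := L1 (fun k => c k * (T k w).im) (sum_im h.1 w) α (ρ * |Real.sinh w.re|) hα ?_
    · simpa only [div_mul_eq_mul_div] using this
    · intro s hs
      have h1 := (h.2 ((Real.exp (-s / 2) : ℝ) * w)).2
      simp only [T_scale, Complex.im_ofReal_mul (Real.exp (-(_ : ℕ) * s))] at h1
      have h2 : |Real.sinh (((Real.exp (-s / 2) : ℝ) : ℂ) * w).re| ≤ |Real.sinh w.re| := by
        rw [Real.abs_sinh, Real.abs_sinh]
        exact Real.sinh_le_sinh.mpr (hre s w hs)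
      refine le_trans (le_of_eq ?_) (h1.trans (mul_le_mul_of_nonneg_left h2 hρ))
      congr 2
      ext k
      ring

/-- sequences `1 + (small signed measure)` with the invariant that controls the variation -/
def Cls (P : ℕ → ℝ) : Prop :=
  ∃ ρ : ℝ, Good (fun k => P k - 1) ρ ∧ (1 + ρ) * P 0 ≤ 1 ∧ 0 ≤ P 0

lemma cls_one : Cls fun _ => 1 := by
  refine ⟨0, ?_, by norm_num, by norm_num⟩
  simpa using good_one.smul 0

lemma Cls.step {P : ℕ → ℝ} (h : Cls P) {α β δ : ℝ} (hα : 0 < α) (hβ : 0 < β) (hδ : 0 ≤ δ)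
    (hδ' : δ ≤ α * β) : Cls fun k => P k * (1 - δ / ((α + k) * (β + k))) := by
  obtain ⟨ρ, h1, h2, h3⟩ := h
  have hρ : 0 ≤ ρ := (abs_nonneg _).trans (h1.1 0)
  have g := h1.add ((((h1.add good_one).div hα).div hβ).smul (-δ))
  have he0 : 0 ≤ δ / (α * β) := by positivity
  have he1 : δ / (α * β) ≤ 1 := (div_le_one (by positivity)).mpr hδ'
  refine ⟨_, by
    convert g using 2 with k
    have : (0 : ℝ) ≤ k := Nat.cast_nonneg k
    have a1 : α + k ≠ 0 := by linarith
    have a2 : β + k ≠ 0 := by linarith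
    field_simp
    ring, ?_, ?_⟩
  · simp only [Nat.cast_zero, add_zero, abs_neg, abs_of_nonneg hδ]
    have e : δ * ((ρ + 1) / α / β) = (ρ + 1) * (δ / (α * β)) := by field_simp
    rw [e]
    set ε := δ / (α * β)
    have : (1 + (ρ + (ρ + 1) * ε)) * (P 0 * (1 - ε)) = ((1 + ρ) * P 0) * (1 - ε ^ 2) := by ring
    rw [this]
    have h4 : 0 ≤ (1 + ρ) * P 0 := by positivity
    nlinarith [sq_nonneg ε]
  · simp only [Nat.cast_zero, add_zero]
    exact mul_nonneg h3 (by linarith)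

lemma Cls.prod {ι : Type} (s : Finset ι) (α β δ : ι → ℝ) (hα : ∀ i ∈ s, 0 < α i)
    (hβ : ∀ i ∈ s, 0 < β i) (hδ : ∀ i ∈ s, 0 ≤ δ i) (hδ' : ∀ i ∈ s, δ i ≤ α i * β i) :
    Cls fun k => ∏ i ∈ s, (1 - δ i / ((α i + k) * (β i + k))) := by
  classical
  induction s using Finset.induction_on with
  | empty => simpa using cls_one
  | insert a s ha ih =>
    have := (ih (fun i hi => hα i (Finset.mem_insert_of_mem hi))
      (fun i hi => hβ i (Finset.mem_insert_of_mem hi))
      (fun i hi => hδ i (Finset.mem_insert_of_mem hi))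
      (fun i hi => hδ' i (Finset.mem_insert_of_mem hi))).step
      (hα a (Finset.mem_insert_self _ _)) (hβ a (Finset.mem_insert_self _ _))
      (hδ a (Finset.mem_insert_self _ _)) (hδ' a (Finset.mem_insert_self _ _))
    convert this using 2 with k
    rw [Finset.prod_insert ha, mul_comm]

lemma good_limit (c : ℕ → ℕ → ℝ) (l : ℕ → ℝ) (ρ : ℝ) (h : ∀ᶠ N in atTop, Good (c N) ρ)
    (hl : ∀ k, Tendsto (fun N => c N k) atTop (𝓝 (l k))) : Good l ρ := by
  refine ⟨fun k => le_of_tendsto (hl k).abs (h.mono fun N hN => hN.1 k), fun w => ⟨?_, ?_⟩⟩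
  · refine le_of_tendsto (Tendsto.abs (tendsto_tsum_of_dominated_convergence
      (f := fun N k => c N k * (T k w).re) ((summable_T w).mul_left ρ)
      (fun k => (hl k).mul_const _) (h.mono fun N hN k => ?_))) (h.mono fun N hN => (hN.2 w).1)
    rw [Real.norm_eq_abs, abs_mul]
    exact mul_le_mul (hN.1 k) (Complex.abs_re_le_norm _) (abs_nonneg _)
      ((abs_nonneg _).trans (hN.1 k))
  · refine le_of_tendsto (Tendsto.abs (tendsto_tsum_of_dominated_convergence
      (f := fun N k => c N k * (T k w).im) ((summable_T w).mul_left ρ)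
      (fun k => (hl k).mul_const _) (h.mono fun N hN k => ?_))) (h.mono fun N hN => (hN.2 w).2)
    rw [Real.norm_eq_abs, abs_mul]
    exact mul_le_mul (hN.1 k) (Complex.abs_im_le_norm _) (abs_nonneg _)
      ((abs_nonneg _).trans (hN.1 k))

lemma re_eq_zero {ν : ℕ → ℝ} (h : Good (fun k => ν k - 1) (1 / 2)) (w : ℂ)
    (hw : ∑' k, (ν k : ℂ) * T k w = 0) : w.re = 0 := by
  have hb : ∀ k, |ν k| ≤ 1 / 2 + 1 := fun k => by
    simpa using (h.add good_one).1 k
  have hs : Summable fun k => (ν k : ℂ) * T k w := by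
    refine Summable.of_norm_bounded ((summable_T w).mul_left (1 / 2 + 1)) fun k => ?_
    rw [norm_mul, Complex.norm_real, Real.norm_eq_abs]
    exact mul_le_mul_of_nonneg_right (hb k) (norm_nonneg _)
  have h0 := hs.hasSum
  rw [hw] at h0
  have h1 := (Complex.hasSum_re h0).sub (hasSum_re w)
  have h2 := (Complex.hasSum_im h0).sub (hasSum_im w)
  simp only [Complex.re_ofReal_mul, Complex.im_ofReal_mul, Complex.zero_re, Complex.zero_im,
    zero_sub] at h1 h2
  obtain ⟨a1, a2⟩ := h.2 w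
  simp only [sub_mul, one_mul] at a1 a2
  rw [h1.tsum_eq, abs_neg, abs_mul, abs_of_pos (Real.cosh_pos _)] at a1
  rw [h2.tsum_eq, abs_neg, abs_mul] at a2
  by_contra hne
  have b0 : 0 < |Real.sinh w.re| := abs_pos.mpr (by simpa using hne)
  have b1 : |Real.cos w.im| ≤ 1 / 2 := by
    have := Real.cosh_pos w.re
    nlinarith
  have b2 : |Real.sin w.im| ≤ 1 / 2 := by nlinarith
  have b3 := Real.sin_sq_add_cos_sq w.im
  rw [← sq_abs (Real.sin _), ← sq_abs (Real.cos _)] at b3
  nlinarith [abs_nonneg (Real.sin w.im), abs_nonneg (Real.cos w.im)]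

lemma fact_add (n j : ℕ) :
    ((n + j).factorial : ℝ) = n.factorial * ∏ i ∈ Finset.range j, ((n : ℝ) + i + 1) := by
  induction j with
  | zero => simp
  | succ j ih =>
    rw [← add_assoc, Nat.factorial_succ, Finset.prod_range_succ]
    push_cast
    rw [ih]
    ring

noncomputable def V (M : ℕ) (x : ℝ) : ℝ := ∏ i ∈ Finset.range M, (x + ((i : ℝ) + 1) / (M + 1))

noncomputable def pr (M : ℝ) (x : ℝ) (i : ℕ) : ℝ := ((i + 1) / M + x) * (1 - (i + 1) / M + x)

lemma fact_mul (M k : ℕ) : (((M + 1) * (k + 1)).factorial : ℝ) =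
    ((M + 1) * k).factorial * (((M : ℝ) + 1) ^ (M + 1) * (V M k * (k + 1))) := by
  have hM : (M : ℝ) + 1 ≠ 0 := by positivity
  rw [mul_add, mul_one, fact_add]
  congr 1
  have : ∀ i ∈ Finset.range (M + 1), ((((M + 1) * k : ℕ) : ℝ) + i + 1) =
      ((M : ℝ) + 1) * (k + ((i : ℝ) + 1) / (M + 1)) := by
    intro i _
    push_cast
    field_simp
    ring
  rw [Finset.prod_congr rfl this, Finset.prod_mul_distrib, Finset.prod_const, Finset.card_range,
    Finset.prod_range_succ, div_self hM, V]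

lemma V_even (r : ℕ) (x : ℝ) : V (r + r) x = ∏ i ∈ Finset.range r, pr ((r + r : ℕ) + 1) x i := by
  rw [V, Finset.prod_range_add, ← Finset.prod_range_reflect (fun i => x + (((r + i : ℕ) : ℝ) + 1) /
    (((r + r : ℕ) : ℝ) + 1)) r, ← Finset.prod_mul_distrib]
  apply Finset.prod_congr rfl
  intro i hi
  have hi' := Finset.mem_range.mp hi
  obtain ⟨j, rfl⟩ : ∃ j, r = i + 1 + j := ⟨r - (i + 1), by omega⟩
  have : i + 1 + j - 1 - i = j := by omega
  rw [this, pr]
  push_cast
  field_simp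
  ring

lemma V_odd (r : ℕ) (x : ℝ) :
    V (r + r + 1) x = (x + 1 / 2) * ∏ i ∈ Finset.range r, pr ((r + r + 1 : ℕ) + 1) x i := by
  have e : r + r + 1 = r + 1 + r := by ring
  have hV : V (r + r + 1) x = ∏ i ∈ Finset.range (r + 1 + r),
      (x + ((i : ℝ) + 1) / (((r + r + 1 : ℕ) : ℝ) + 1)) := by
    rw [V]
    congr 2
  rw [hV, Finset.prod_range_add, Finset.prod_range_succ,
    ← Finset.prod_range_reflect (fun i => x + (((r + 1 + i : ℕ) : ℝ) + 1) /
    (((r + r + 1 : ℕ) : ℝ) + 1)) r, mul_right_comm, ← Finset.prod_mul_distrib, mul_comm]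
  congr 1
  · push_cast
    field_simp
    ring
  · apply Finset.prod_congr rfl
    intro i hi
    have hi' := Finset.mem_range.mp hi
    obtain ⟨j, rfl⟩ : ∃ j, r = i + 1 + j := ⟨r - (i + 1), by omega⟩
    have : i + 1 + j - 1 - i = j := by omega
    rw [this, pr]
    push_cast
    field_simp
    ring

lemma V_pair (n : ℕ) (x : ℝ) :
    (x + 1 / 2) * V n x * ∏ i ∈ Finset.range ((n + 1) / 2), pr ((n : ℝ) + 1 + 1) x i =
      V (n + 1) x * ∏ i ∈ Finset.range ((n + 1) / 2), pr ((n : ℝ) + 1) x i := by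
  rcases Nat.even_or_odd' n with ⟨r, rfl | rfl⟩
  · have e1 : (2 * r + 1) / 2 = r := by omega
    rw [e1, two_mul, V_even, V_odd]
    push_cast
    ring
  · have e1 : (2 * r + 1 + 1) / 2 = r + 1 := by omega
    have e2 : 2 * r + 1 + 1 = (r + 1) + (r + 1) := by ring
    rw [e1, e2, V_even, two_mul, V_odd, Finset.prod_range_succ (fun i => pr (((r + r + 1 : ℕ) : ℝ) + 1) x i)]
    have e3 : pr (((r + r + 1 : ℕ) : ℝ) + 1) x r = (x + 1 / 2) * (x + 1 / 2) := by
      rw [pr]
      push_cast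
      field_simp
      ring
    have e4 : ((r + 1 + (r + 1) : ℕ) : ℝ) + 1 = ((r + r + 1 : ℕ) : ℝ) + 1 + 1 := by
      push_cast; ring
    rw [e3, e4]
    ring

/-- scaling constant -/
noncomputable def cc (n : ℕ) : ℝ := ((n : ℝ) + 1 + 1) ^ (n + 1 + 1) / (4 * ((n : ℝ) + 1) ^ (n + 1))

/-- ratio of the coefficients of `f_m (c w^2)` and `cosh w`, with `m = n + 1` -/
noncomputable def mu (n k : ℕ) : ℝ :=
  (2 * k).factorial * ((n + 1) * k).factorial * cc n ^ k /
    (((n + 1 + 1) * k).factorial * k.factorial)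

lemma cc_pos (n : ℕ) : 0 < cc n := by unfold cc; positivity

lemma mu_pos (n k : ℕ) : 0 < mu n k := by
  have := cc_pos n
  unfold mu; positivity

lemma V_pos (M : ℕ) {x : ℝ} (hx : 0 ≤ x) : 0 < V M x :=
  Finset.prod_pos fun i _ => by positivity

lemma mu_succ (n k : ℕ) : mu n (k + 1) * V (n + 1) k = mu n k * ((k + 1 / 2) * V n k) := by
  have h1 := V_pos (n + 1) (Nat.cast_nonneg k : (0 : ℝ) ≤ k)
  have h2 : ((2 * (k + 1)).factorial : ℝ) = (2 * k).factorial * (4 * (k + 1 / 2) * (k + 1)) := by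
    rw [show 2 * (k + 1) = 2 * k + 1 + 1 by ring, Nat.factorial_succ, Nat.factorial_succ]
    push_cast
    ring
  rw [mu, mu, h2, fact_mul n, fact_mul (n + 1), Nat.factorial_succ, pow_succ (cc n)]
  nth_rewrite 2 [cc]
  push_cast
  field_simp

noncomputable def al (n i : ℕ) : ℝ := ((i : ℝ) + 1) / (n + 1)

noncomputable def de (n i : ℕ) : ℝ :=
  al n i * (1 - al n i) - al (n + 1) i * (1 - al (n + 1) i)

lemma al_facts {n i : ℕ} (hi : i < (n + 1) / 2) :
    0 < al (n + 1) i ∧ al (n + 1) i ≤ al n i ∧ al n i ≤ 1 / 2 := by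
  have h : 2 * (i + 1) ≤ n + 1 := by omega
  have h' : 2 * ((i : ℝ) + 1) ≤ n + 1 := by exact_mod_cast h
  refine ⟨by unfold al; positivity, ?_, ?_⟩
  · unfold al
    apply div_le_div_of_nonneg_left (by positivity) (by positivity)
    push_cast
    linarith
  · unfold al
    rw [div_le_div_iff₀ (by positivity) (by norm_num)]
    linarith

lemma mu_ratio (n k : ℕ) : mu n k / mu n (k + 1) =
    ∏ i ∈ Finset.range ((n + 1) / 2), (1 - de n i / ((al n i + k) * (1 - al n i + k))) := by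
  have hk : (0 : ℝ) ≤ k := Nat.cast_nonneg k
  have hp : ∀ i ∈ Finset.range ((n + 1) / 2), 0 < pr ((n : ℝ) + 1) k i := by
    intro i hi
    obtain ⟨a1, a2, a3⟩ := al_facts (Finset.mem_range.mp hi)
    change 0 < (al n i + k) * (1 - al n i + k)
    apply mul_pos <;> linarith
  have : ∀ i ∈ Finset.range ((n + 1) / 2), (1 - de n i / ((al n i + k) * (1 - al n i + k))) =
      pr ((n : ℝ) + 1 + 1) k i / pr ((n : ℝ) + 1) k i := by
    intro i hi
    have h0 := (hp i hi).ne'
    have e1 : pr ((n : ℝ) + 1) k i = (al n i + k) * (1 - al n i + k) := rfl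
    have e2 : pr ((n : ℝ) + 1 + 1) k i = (al (n + 1) i + k) * (1 - al (n + 1) i + k) := by
      simp [pr, al]
    rw [e1] at h0 ⊢
    rw [e2, one_sub_div h0, de]
    congr 1
    ring
  rw [Finset.prod_congr rfl this, Finset.prod_div_distrib,
    div_eq_div_iff (mu_pos _ _).ne' (Finset.prod_pos hp).ne']
  have h1 := V_pos (n + 1) hk
  have h2 := mu_succ n k
  have h3 := V_pair n k
  apply mul_left_cancel₀ h1.ne'
  linear_combination (-mu n k) * h3 -
    (∏ i ∈ Finset.range ((n + 1) / 2), pr ((n : ℝ) + 1 + 1) k i) * h2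

lemma mu_tel (n N k : ℕ) : mu n k / mu n (N + k) =
    ∏ j ∈ Finset.range N, mu n (j + k) / mu n (j + k + 1) := by
  induction N with
  | zero => simp [(mu_pos n k).ne']
  | succ N ih =>
    rw [Finset.prod_range_succ, ← ih, show N + 1 + k = N + k + 1 by ring]
    have := (mu_pos n (N + k)).ne'
    field_simp

lemma cls_mu (n N : ℕ) : Cls fun k => mu n k / mu n (N + k) := by
  have := Cls.prod (Finset.range N ×ˢ Finset.range ((n + 1) / 2))
    (fun p => al n p.2 + p.1) (fun p => 1 - al n p.2 + p.1) (fun p => de n p.2) ?_ ?_ ?_ ?_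
  · convert this using 2 with k
    rw [mu_tel, Finset.prod_product]
    apply Finset.prod_congr rfl
    intro j _
    rw [mu_ratio]
    apply Finset.prod_congr rfl
    intro i _
    push_cast
    ring
  all_goals
    rintro ⟨j, i⟩ hp
    obtain ⟨a1, a2, a3⟩ := al_facts (Finset.mem_range.mp (Finset.mem_product.mp hp).2)
    have hj : (0 : ℝ) ≤ j := Nat.cast_nonneg j
    simp only [de] at *
    nlinarith

lemma mu_stirling (n k : ℕ) (hk : 1 ≤ k) : mu n k =
    √(2 * (n + 1) / (n + 1 + 1)) * (Stirling.stirlingSeq (2 * k) * Stirling.stirlingSeq ((n + 1) * k) /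
      (Stirling.stirlingSeq ((n + 1 + 1) * k) * Stirling.stirlingSeq k)) := by
  have hk' : (0 : ℝ) < k := by exact_mod_cast hk
  have hsq : √(2 * ((2 * k : ℕ) : ℝ)) * √(2 * (((n + 1) * k : ℕ) : ℝ)) =
      √(2 * (n + 1) / (n + 1 + 1)) * (√(2 * (((n + 1 + 1) * k : ℕ) : ℝ)) * √(2 * (k : ℝ))) := by
    rw [← Real.sqrt_mul (by positivity), ← Real.sqrt_mul (by positivity),
      ← Real.sqrt_mul (by positivity)]
    congr 1
    push_cast
    field_simp
  have hpow : (((2 * k : ℕ) : ℝ) / Real.exp 1) ^ (2 * k) *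
      ((((n + 1) * k : ℕ) : ℝ) / Real.exp 1) ^ ((n + 1) * k) * cc n ^ k =
      ((((n + 1 + 1) * k : ℕ) : ℝ) / Real.exp 1) ^ ((n + 1 + 1) * k) *
        ((k : ℝ) / Real.exp 1) ^ k := by
    rw [pow_mul, pow_mul, pow_mul, ← mul_pow, ← mul_pow, ← mul_pow]
    congr 1
    push_cast
    rw [mul_div_assoc, mul_div_assoc, mul_div_assoc]
    generalize (k : ℝ) / Real.exp 1 = x
    rw [cc, mul_pow, mul_pow, mul_pow]
    field_simp
    ring
  simp only [Stirling.stirlingSeq, mu]
  generalize hA : √(2 * ((2 * k : ℕ) : ℝ)) = s1 at *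
  generalize hB : √(2 * (((n + 1) * k : ℕ) : ℝ)) = s2 at *
  have p3 : 0 < √(2 * (((n + 1 + 1) * k : ℕ) : ℝ)) := by push_cast; positivity
  have p4 : 0 < √(2 * (k : ℝ)) := by positivity
  have p1 : 0 < s1 := by rw [← hA]; push_cast; positivity
  have p2 : 0 < s2 := by rw [← hB]; push_cast; positivity
  have q1 : 0 < (((2 * k : ℕ) : ℝ) / Real.exp 1) ^ (2 * k) := by push_cast; positivity
  have q2 : 0 < ((((n + 1) * k : ℕ) : ℝ) / Real.exp 1) ^ ((n + 1) * k) := by push_cast; positivity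
  have q3 : 0 < ((((n + 1 + 1) * k : ℕ) : ℝ) / Real.exp 1) ^ ((n + 1 + 1) * k) := by
    push_cast; positivity
  have q4 : 0 < ((k : ℝ) / Real.exp 1) ^ k := by positivity
  generalize √(2 * (((n + 1 + 1) * k : ℕ) : ℝ)) = s3 at *
  generalize √(2 * (k : ℝ)) = s4 at *
  generalize √(2 * ((n : ℝ) + 1) / (n + 1 + 1)) = A at *
  generalize (((2 * k : ℕ) : ℝ) / Real.exp 1) ^ (2 * k) = t1 at *
  generalize ((((n + 1) * k : ℕ) : ℝ) / Real.exp 1) ^ ((n + 1) * k) = t2 at *
  generalize ((((n + 1 + 1) * k : ℕ) : ℝ) / Real.exp 1) ^ ((n + 1 + 1) * k) = t3 at *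
  generalize ((k : ℝ) / Real.exp 1) ^ k = t4 at *
  generalize cc n ^ k = C at *
  field_simp
  linear_combination (C * t1 * t2) * hsq + (A * s3 * s4) * hpow

lemma mu_tendsto (n : ℕ) : Tendsto (mu n) atTop (𝓝 √(2 * (n + 1) / (n + 1 + 1))) := by
  have hs := Stirling.tendsto_stirlingSeq_sqrt_pi
  have hm : ∀ a : ℕ, 0 < a →
      Tendsto (fun k => Stirling.stirlingSeq (a * k)) atTop (𝓝 √Real.pi) := fun a ha =>
    hs.comp (tendsto_id.const_mul_atTop' ha)
  have hp : √Real.pi * √Real.pi ≠ 0 := by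
    have := Real.pi_pos
    positivity
  have := (((hm 2 (by norm_num)).mul (hm (n + 1) (by omega))).div
    ((hm (n + 1 + 1) (by omega)).mul hs) hp).const_mul √(2 * (n + 1) / (n + 1 + 1))
  rw [div_self hp, mul_one] at this
  refine this.congr' ?_
  filter_upwards [eventually_ge_atTop 1] with k hk
  rw [mu_stirling n k hk]
  rfl

lemma good_mu (n : ℕ) : Good (fun k => mu n k / √(2 * (n + 1) / (n + 1 + 1)) - 1) (1 / 2) := by
  have hA : 0 < √(2 * ((n : ℝ) + 1) / (n + 1 + 1)) := by positivity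
  have hA' : √(2 * ((n : ℝ) + 1) / (n + 1 + 1)) < 3 / 2 := by
    rw [Real.sqrt_lt' (by norm_num), div_lt_iff₀ (by positivity)]
    have : (0 : ℝ) ≤ n := Nat.cast_nonneg n
    linarith
  refine good_limit (fun N k => mu n k / mu n (N + k) - 1) _ _ ?_ fun k => ?_
  · filter_upwards [(mu_tendsto n).eventually (gt_mem_nhds hA')] with N hN
    obtain ⟨ρ, h1, h2, -⟩ := cls_mu n N
    refine h1.mono ?_
    have h0 : mu n 0 = 1 := by simp [mu]
    simp only [add_zero, h0] at h2
    rw [mul_one_div, div_le_one (mu_pos _ _)] at h2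
    linarith
  · exact (tendsto_const_nhds.div ((mu_tendsto n).comp (tendsto_add_atTop_nat k)) hA.ne').sub_const 1

theorem main (n : ℕ) (z : ℂ)
    (hz : (∑' k : ℕ, ((Nat.factorial ((n + 1) * k) : ℂ) /
          ((Nat.factorial ((n + 1 + 1) * k) : ℂ) * (Nat.factorial k : ℂ))) * z ^ k) = 0) :
    z.im = 0 := by
  have hc : ((cc n : ℝ) : ℂ) ≠ 0 := by exact_mod_cast (cc_pos n).ne'
  obtain ⟨w, hw⟩ := IsAlgClosed.exists_pow_nat_eq (z / (cc n : ℝ)) (n := 2) (by norm_num)
  have hzw : z = (cc n : ℝ) * w ^ 2 := by rw [hw]; field_simp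
  have h := re_eq_zero (good_mu n) w ?_
  · rw [hzw, Complex.im_ofReal_mul, sq, Complex.mul_im, h]
    simp
  · have : ∀ k : ℕ, ((mu n k / √(2 * (n + 1) / (n + 1 + 1)) : ℝ) : ℂ) * T k w =
        (((Nat.factorial ((n + 1) * k) : ℂ) /
          ((Nat.factorial ((n + 1 + 1) * k) : ℂ) * (Nat.factorial k : ℂ))) * z ^ k) /
          ((√(2 * (n + 1) / (n + 1 + 1)) : ℝ) : ℂ) := by
      intro k
      have h1 : ((2 * k).factorial : ℂ) ≠ 0 := by exact_mod_cast (Nat.factorial_pos _).ne'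
      rw [hzw, mu, T, mul_pow, ← pow_mul]
      generalize √(2 * ((n : ℝ) + 1) / (n + 1 + 1)) = A
      push_cast
      field_simp
    simp only [this]
    rw [tsum_div_const, hz, zero_div]

end Pool.Agent.H8.Wright
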